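import Mathlib

set_option autoImplicit false

/-!
Pseudocompleteness, subcompactness and base-compactness of topological spaces.
-/

universe u

namespace Pool.Agent.H479R3.Ams

open Set Topology

variable (Y : Type u) [TopologicalSpace Y]

/-- Every nonempty open set contains the closure of some nonempty open set. -/
def QuasiRegular : Prop :=
  ∀ U : Set Y, IsOpen U → U.Nonempty → ∃ V : Set Y, IsOpen V ∧ V.Nonempty ∧ closure V ⊆ U

variable {Y} in
/-- A family of nonempty open sets such that every nonempty open set contains a member of it. -/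
def IsPiBase (P : Set (Set Y)) : Prop :=
  (∀ V ∈ P, IsOpen V ∧ V.Nonempty) ∧ ∀ U : Set Y, IsOpen U → U.Nonempty → ∃ V ∈ P, V ⊆ U

/-- `Y` is quasi-regular and there are open `π`-bases `P n` such that `⋂ n, V n` is nonempty
whenever `V n ∈ P n` and `closure (V (n + 1)) ⊆ V n` for all `n`. -/
def Pseudocomplete : Prop :=
  QuasiRegular Y ∧ ∃ P : ℕ → Set (Set Y), (∀ n, IsPiBase (P n)) ∧
    ∀ V : ℕ → Set Y, (∀ n, V n ∈ P n) → (∀ n, closure (V (n + 1)) ⊆ V n) → (⋂ n, V n).Nonempty

variable {Y} in
/-- A nonempty family of nonempty sets such that the intersection of two members contains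
a member, and every member contains the closure of a member. -/
def IsRegularFilterBase (F : Set (Set Y)) : Prop :=
  F.Nonempty ∧ (∀ V ∈ F, V.Nonempty) ∧ (∀ V ∈ F, ∀ W ∈ F, ∃ Z ∈ F, Z ⊆ V ∩ W) ∧
    ∀ V ∈ F, ∃ W ∈ F, closure W ⊆ V

/-- `Y` is regular (and `T₁`) and has an open base `B` such that every regular filter base
consisting of members of `B` has nonempty intersection. -/
def Subcompact : Prop :=
  T3Space Y ∧ ∃ B : Set (Set Y), TopologicalSpace.IsTopologicalBasis B ∧
    ∀ F : Set (Set Y), F ⊆ B → IsRegularFilterBase F → (⋂₀ F).Nonempty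

/-- `Y` is regular (and `T₁`) and has an open base `B` such that the closures of the members of
every centered subfamily of `B` have a common point. -/
def BaseCompact : Prop :=
  T3Space Y ∧ ∃ B : Set (Set Y), TopologicalSpace.IsTopologicalBasis B ∧
    ∀ C : Set (Set Y), C ⊆ B → (∀ F : Set (Set Y), F ⊆ C → F.Finite → (⋂₀ F).Nonempty) →
      (⋂ V ∈ C, closure V).Nonempty

end Pool.Agent.H479R3.Ams
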