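import Mathlib

set_option autoImplicit false

/-! Hereditarily Sigma GO spaces: basic definitions. -/

namespace Pool.Agent.H479R3.GO

open Set Topology

universe u

/-- GO space, in set form. -/
structure IsGO (X : Type u) [LinearOrder X] [TopologicalSpace X] : Prop where
  ioi : ∀ a : X, IsOpen (Ioi a)
  iio : ∀ a : X, IsOpen (Iio a)
  conv : ∀ (x : X) (U : Set X), IsOpen U → x ∈ U → ∃ V : Set X, IsOpen V ∧ x ∈ V ∧ V ⊆ U ∧
    ∀ a b c : X, a ∈ V → b ∈ V → a ≤ c → c ≤ b → c ∈ V

/-- Sigma structure on the subset `Y` of `X`. -/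
def Sig {X : Type u} [TopologicalSpace X] (Y : Set X) : Prop :=
  ∃ (F : ℕ → Set (Set X)) (C : X → Set X),
    (∀ n, ∀ y ∈ Y, ∃ U : Set X, IsOpen U ∧ y ∈ U ∧ {s ∈ F n | (s ∩ U).Nonempty}.Finite) ∧
    (∀ n, ∀ s ∈ F n, s ⊆ Y) ∧
    (∀ y ∈ Y, y ∈ C y ∧ C y ⊆ Y) ∧
    (∀ y ∈ Y, ∃ K : Set X, IsClosed K ∧ C y = Y ∩ K) ∧
    (∀ y ∈ Y, ∀ u : ℕ → Set X, (∀ n, IsOpen (u n)) → C y ⊆ ⋃ n, u n →
      ∃ t : Finset ℕ, C y ⊆ ⋃ n ∈ t, u n) ∧
    (∀ y ∈ Y, ∀ U : Set X, IsOpen U → C y ⊆ U → ∃ n, ∃ s ∈ F n, C y ⊆ s ∧ s ⊆ U)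

/-- Every subset carries a Sigma structure. -/
def HS (X : Type u) [TopologicalSpace X] : Prop := ∀ Y : Set X, Sig Y

/-- Lindelöf Sigma structure on the whole space. -/
structure LSig (X : Type u) [TopologicalSpace X] (F : ℕ → Set X) (C : X → Set X) : Prop where
  mem : ∀ y, y ∈ C y
  comp : ∀ y, IsCompact (C y)
  net : ∀ y, ∀ U : Set X, IsOpen U → C y ⊆ U → ∃ n, C y ⊆ F n ∧ F n ⊆ U

lemma IsGO.dual {X : Type u} [LinearOrder X] [TopologicalSpace X] (h : IsGO X) :
    IsGO Xᵒᵈ where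
  ioi := fun a => h.iio a
  iio := fun a => h.ioi a
  conv := fun x U hU hx => by
    obtain ⟨V, h1, h2, h3, h4⟩ := h.conv x U hU hx
    exact ⟨V, h1, h2, h3, fun a b c ha hb hac hcb => h4 b a c hb ha hcb hac⟩

lemma HS.dual {X : Type u} [TopologicalSpace X] (h : HS X) : HS Xᵒᵈ := h

lemma LSig.dual {X : Type u} [TopologicalSpace X] {F : ℕ → Set X} {C : X → Set X}
    (h : LSig X F C) : LSig Xᵒᵈ F C := ⟨h.1, h.2, h.3⟩

/-- A `D`-subset has a countable cofinal subset. -/
def Cof {X : Type u} [LinearOrder X] (D : Set X) : Prop :=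
  ∀ H : Set X, H ⊆ D → ∃ S : Set X, S ⊆ H ∧ S.Countable ∧ ∀ h ∈ H, ∃ s ∈ S, h ≤ s

def Coi {X : Type u} [LinearOrder X] (D : Set X) : Prop :=
  ∀ H : Set X, H ⊆ D → ∃ S : Set X, S ⊆ H ∧ S.Countable ∧ ∀ h ∈ H, ∃ s ∈ S, s ≤ h

lemma iic_open {X : Type u} [LinearOrder X] [TopologicalSpace X] (go : IsGO X) {d : X}
    (hd : IsOpen ({d} : Set X)) : IsOpen (Iic d) := by
  have : Iic d = Iio d ∪ {d} := by
    ext x; simp [le_iff_lt_or_eq]
  rw [this]
  exact (go.iio d).union hd

lemma ici_open {X : Type u} [LinearOrder X] [TopologicalSpace X] (go : IsGO X) {d : X}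
    (hd : IsOpen ({d} : Set X)) : IsOpen (Ici d) := by
  have : Ici d = Ioi d ∪ {d} := by
    ext x; simp [le_iff_lt_or_eq, eq_comm]
  rw [this]
  exact (go.ioi d).union hd

/-- (a): the countable cofinality of subsets of the isolated set. -/
theorem cof_of_HS {X : Type u} [LinearOrder X] [TopologicalSpace X] (go : IsGO X) (hs : HS X)
    (hL : IsLindelof (univ : Set X)) (D : Set X) (hD : ∀ d ∈ D, IsOpen ({d} : Set X)) : Cof D := by
  classical
  intro H hH
  by_contra hcon
  push Not at hcon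
  -- `hcon : ∀ S ⊆ H, S.Countable → ∃ h ∈ H, ∀ s ∈ S, s < h`
  have hopen : ∀ h ∈ H, IsOpen (Iic h) := fun h hh => iic_open go (hD h (hH hh))
  set P : Set X := ⋃ h ∈ H, Iic h with hP
  have hPo : IsOpen P := isOpen_biUnion hopen
  by_cases hcl : IsClosed P
  · have hPL : IsLindelof P := by
      have := hL.inter_right hcl
      rwa [univ_inter] at this
    obtain ⟨S, hS1, hS2, hS3⟩ := hPL.elim_countable_subcover_image hopen (le_refl _)
    obtain ⟨h, hh, hh2⟩ := hcon S hS1 hS2
    have : h ∈ P := by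
      rw [hP]; exact mem_biUnion hh (mem_Iic.2 le_rfl)
    have h3 := hS3 this
    simp only [mem_iUnion, mem_Iic, exists_prop] at h3
    obtain ⟨s, hs1, hs2⟩ := h3
    exact absurd (hh2 s hs1) (not_lt.2 hs2)
  · -- a point in the closure
    have : ∃ p, p ∈ closure P ∧ p ∉ P := by
      by_contra hno
      push Not at hno
      exact hcl (isClosed_of_closure_subset hno)
    obtain ⟨p, hp1, hp2⟩ := this
    have hplt : ∀ h ∈ H, h < p := by
      intro h hh
      by_contra hle
      exact hp2 (mem_biUnion hh (mem_Iic.2 (not_lt.1 hle)))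
    have hpH : p ∉ H := fun h => lt_irrefl _ (hplt p h)
    -- every neighbourhood of `p` contains a final segment of `H`
    have hfin : ∀ O : Set X, IsOpen O → p ∈ O → ∃ h₀ ∈ H, ∀ h ∈ H, h₀ ≤ h → h ∈ O := by
      intro O hO hpO
      obtain ⟨V, hV1, hV2, hV3, hV4⟩ := go.conv p O hO hpO
      obtain ⟨x, hx1, hx2⟩ := mem_closure_iff.1 hp1 V hV1 hV2
      rw [hP] at hx2
      simp only [mem_iUnion, mem_Iic, exists_prop] at hx2
      obtain ⟨h, hh, hxh⟩ := hx2
      exact ⟨h, hh, fun h' hh' hle => hV3 (hV4 x p h' hx1 hV2 (hxh.trans hle) (hplt h' hh').le)⟩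
    obtain ⟨F, C, hF1, hF2, hC1, hC2, hC3, hnet⟩ := hs (insert p H)
    choose O hO1 hO2 hO3 using fun n => hF1 n p (mem_insert _ _)
    choose h₀ hh₀ hh₀' using fun n => hfin (O n) (hO1 n) (hO2 n)
    obtain ⟨hs0, hs1, hs2⟩ := hcon (range h₀) (by rintro _ ⟨n, rfl⟩; exact hh₀ n)
      (countable_range _)
    have hs3 : ∀ n, h₀ n < hs0 := fun n => hs2 _ (mem_range_self n)
    set Fs : Set (Set X) := ⋃ n, {s ∈ F n | (s ∩ O n).Nonempty} with hFs
    have hFsc : Fs.Countable := countable_iUnion fun n => (hO3 n).countable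
    -- `C h ∩ H` finite
    have hCfin : ∀ h ∈ H, (C h ∩ H).Finite := by
      intro h hh
      by_contra hinf
      have hinf' : (C h ∩ H).Infinite := hinf
      obtain ⟨e, he⟩ := Set.Infinite.natEmbedding _ hinf'
      set E : ℕ → X := fun n => (e n : X) with hE
      have hEinj : Function.Injective E := fun a b hab => he (Subtype.ext hab)
      have hEmem : ∀ n, E n ∈ C h ∧ E n ∈ H := fun n => (e n).2
      obtain ⟨h', hh', hh2⟩ := hcon (range E) (by rintro _ ⟨n, rfl⟩; exact (hEmem n).2)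
        (countable_range _)
      set u : ℕ → Set X := fun n => Nat.casesOn n ((⋃ y ∈ H \ range E, {y}) ∪ Ioi h')
        (fun m => {E m}) with hu
      have hu0 : u 0 = (⋃ y ∈ H \ range E, {y}) ∪ Ioi h' := rfl
      have hus : ∀ m, u (m + 1) = {E m} := fun m => rfl
      have huo : ∀ n, IsOpen (u n) := by
        intro n
        cases n with
        | zero =>
          rw [hu0]
          exact (isOpen_biUnion fun y hy => hD y (hH hy.1)).union (go.ioi _)
        | succ m =>
          rw [hus]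
          exact hD _ (hH (hEmem m).2)
      have hcov : C h ⊆ ⋃ n, u n := by
        intro c hc
        rcases (hC1 h (mem_insert_of_mem _ hh)).2 hc with rfl | hcH
        · exact mem_iUnion.2 ⟨0, Or.inr (hplt h' hh')⟩
        · by_cases hcE : c ∈ range E
          · obtain ⟨m, rfl⟩ := hcE
            exact mem_iUnion.2 ⟨m + 1, rfl⟩
          · exact mem_iUnion.2 ⟨0, Or.inl (mem_biUnion (⟨hcH, hcE⟩ : c ∈ H \ range E) rfl)⟩
      obtain ⟨t, ht⟩ := hC3 h (mem_insert_of_mem _ hh) u huo hcov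
      have : ∀ m, m + 1 ∈ t := by
        intro m
        have h1 := ht (hEmem m).1
        simp only [mem_iUnion, exists_prop] at h1
        obtain ⟨n, hn1, hn2⟩ := h1
        cases n with
        | zero =>
          exfalso
          rw [hu0] at hn2
          rcases hn2 with h3 | h3
          · simp only [mem_iUnion, mem_singleton_iff, exists_prop] at h3
            obtain ⟨y, hy, hy2⟩ := h3
            exact hy.2 ⟨m, hy2⟩
          · exact absurd (hh2 _ (mem_range_self m)) (not_lt.2 (le_of_lt h3))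
        | succ k =>
          rw [hus] at hn2
          have := hEinj (mem_singleton_iff.1 hn2)
          subst this
          exact hn1
      have hinj : Function.Injective (fun m : ℕ => m + 1) := fun a b h => Nat.succ_injective h
      exact (Set.infinite_range_of_injective hinj) (t.finite_toSet.subset (by
        rintro _ ⟨m, rfl⟩; exact this m))
    -- `C h ∈ Fs` for large `h`
    have hCF : ∀ h ∈ H, hs0 ≤ h → C h ∈ Fs := by
      intro h hh hle
      have hx : ∀ s : Set X, ∃ x : X, (¬ s ⊆ C h → x ∈ s ∧ x ∉ C h) := by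
        intro s
        by_cases hsc : s ⊆ C h
        · exact ⟨p, fun hn => absurd hsc hn⟩
        · obtain ⟨x, hx1, hx2⟩ := Set.not_subset.1 hsc
          exact ⟨x, fun _ => ⟨hx1, hx2⟩⟩
      choose x hx using hx
      set Q : Set X := x '' {s ∈ Fs | ¬ s ⊆ C h} with hQ
      have hQc : Q.Countable := (hFsc.mono (fun s hs => hs.1)).image _
      have hQC : ∀ q ∈ Q, q ∉ C h := by
        rintro _ ⟨s, hs, rfl⟩
        exact (hx s hs.2).2
      have : ∃ U : Set X, IsOpen U ∧ C h ⊆ U ∧ ∀ q ∈ Q, q ∉ U := by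
        by_cases hpQ : p ∈ Q
        · refine ⟨⋃ y ∈ H \ Q, {y}, isOpen_biUnion fun y hy => hD y (hH hy.1), ?_, ?_⟩
          · intro c hc
            rcases (hC1 h (mem_insert_of_mem _ hh)).2 hc with rfl | hcH
            · exact absurd hc (hQC _ hpQ)
            · exact mem_biUnion (⟨hcH, fun hq => hQC c hq hc⟩ : c ∈ H \ Q) rfl
          · intro q hq hqU
            simp only [mem_iUnion, mem_singleton_iff, exists_prop] at hqU
            obtain ⟨y, hy, rfl⟩ := hqU
            exact hy.2 hq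
        · have hQH : Q ⊆ H := by
            rintro _ ⟨s, hs, rfl⟩
            have h1 := (hx s hs.2).1
            have h2 : s ⊆ insert p H := by
              have := hs.1
              rw [hFs] at this
              obtain ⟨n, hn⟩ := mem_iUnion.1 this
              exact hF2 n s hn.1
            rcases h2 h1 with h3 | h3
            · exact absurd (h3 ▸ mem_image_of_mem x hs) hpQ
            · exact h3
          obtain ⟨h', hh', hh2⟩ := hcon Q hQH hQc
          refine ⟨(⋃ y ∈ H \ Q, {y}) ∪ Ioi h', (isOpen_biUnion fun y hy => hD y (hH hy.1)).union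
            (go.ioi _), ?_, ?_⟩
          · intro c hc
            rcases (hC1 h (mem_insert_of_mem _ hh)).2 hc with rfl | hcH
            · exact Or.inr (hplt h' hh')
            · exact Or.inl (mem_biUnion (⟨hcH, fun hq => hQC c hq hc⟩ : c ∈ H \ Q) rfl)
          · intro q hq hqU
            rcases hqU with hqU | hqU
            · simp only [mem_iUnion, mem_singleton_iff, exists_prop] at hqU
              obtain ⟨y, hy, rfl⟩ := hqU
              exact hy.2 hq
            · exact absurd (hh2 q hq) (not_lt.2 (le_of_lt hqU))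
      obtain ⟨U, hU1, hU2, hU3⟩ := this
      obtain ⟨n, s, hs1', hs2', hs3'⟩ := hnet h (mem_insert_of_mem _ hh) U hU1 hU2
      have hsFs : s ∈ Fs := by
        rw [hFs]
        refine mem_iUnion.2 ⟨n, hs1', h, hs2' (hC1 h (mem_insert_of_mem _ hh)).1, ?_⟩
        exact hh₀' n h hh ((hs3 n).le.trans hle)
      have : s ⊆ C h := by
        by_contra hns
        exact hU3 _ (mem_image_of_mem x (⟨hsFs, hns⟩ : s ∈ {s ∈ Fs | ¬ s ⊆ C h}))
          (hs3' (hx s hns).1)
      rwa [Subset.antisymm this hs2'] at hsFs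
    -- conclusion
    have hcount : (⋃ s ∈ {s ∈ Fs | (s ∩ H).Finite}, s ∩ H).Countable :=
      (hFsc.mono (fun s hs => hs.1)).biUnion fun s hs => hs.2.countable
    set S : Set X := {h ∈ H | hs0 ≤ h} with hSdef
    have hSc : S.Countable := by
      refine hcount.mono ?_
      intro h hh
      have h1 : C h ∈ {s ∈ Fs | (s ∩ H).Finite} := ⟨hCF h hh.1 hh.2, hCfin h hh.1⟩
      exact mem_biUnion h1 ⟨(hC1 h (mem_insert_of_mem _ hh.1)).1, hh.1⟩
    obtain ⟨h, hh1, hh2⟩ := hcon S (fun h hh => hh.1) hSc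
    have : h ∈ S := ⟨hh1, (hh2 hs0 ⟨hs1, le_rfl⟩).le⟩
    exact lt_irrefl _ (hh2 h this)

theorem coi_of_HS {X : Type u} [LinearOrder X] [TopologicalSpace X] (go : IsGO X) (hs : HS X)
    (hL : IsLindelof (univ : Set X)) (D : Set X) (hD : ∀ d ∈ D, IsOpen ({d} : Set X)) : Coi D :=
  cof_of_HS (X := Xᵒᵈ) go.dual hs.dual hL D hD

end Pool.Agent.H479R3.GO
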