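import Mathlib
import Pool.Agent.H479R3.GO1

set_option autoImplicit false

/-! The basic elementary-submodel style step (STAR). -/

namespace Pool.Agent.H479R3.GO

open Set Topology

universe u

section star

variable {X : Type u} [LinearOrder X] [TopologicalSpace X]

/-- Points of `D` above the cut `B` such that `F` misses the interval up to them. -/
def HA (D F B : Set X) : Set X := {e ∈ D | e ∉ B ∧ ∀ x ∈ F, x ≤ e → x ∈ B}

/-- Points of `D` above the cut `B` such that `F` meets the interval up to them. -/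
def HB (D F B : Set X) : Set X := {e ∈ D | e ∉ B ∧ ∃ x ∈ F, x ≤ e ∧ x ∉ B}

/-- closedness of `A` under the relevant functions. -/
def Cl (D : Set X) (F : ℕ → Set X) (A : Set X) : Prop :=
  ∀ n, ∀ B : Set X, (B = ∅ ∨ ∃ a ∈ A, B = Iic a) →
    (∀ e ∈ HA D (F n) B, ∃ e' ∈ A, e' ∈ HA D (F n) B ∧ e ≤ e') ∧
    (∀ e ∈ HB D (F n) B, ∃ e' ∈ A, e' ∈ HB D (F n) B ∧ e' ≤ e)

lemma dir_cover {K L : Set X} (hK : IsCompact K) (ho : ∀ a ∈ L, IsOpen (Iic a))
    (h : ∀ c ∈ K, ∃ a ∈ L, c ≤ a) :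
    ∃ B : Set X, (B = ∅ ∨ ∃ a ∈ L, B = Iic a) ∧ K ⊆ B := by
  classical
  obtain ⟨t, ht⟩ := hK.elim_finite_subcover (fun a : L => Iic (a : X)) (fun a => ho a.1 a.2)
    (by intro c hc
        obtain ⟨a, ha, hca⟩ := h c hc
        exact mem_iUnion.2 ⟨⟨a, ha⟩, hca⟩)
  rcases t.eq_empty_or_nonempty with rfl | hne
  · refine ⟨∅, Or.inl rfl, ?_⟩
    intro c hc
    have := ht hc
    simp at this
  · obtain ⟨m, hm1, hm2⟩ := t.exists_max_image (fun a : L => (a : X)) hne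
    refine ⟨Iic m, Or.inr ⟨m, m.2, rfl⟩, ?_⟩
    intro c hc
    have h1 := ht hc
    simp only [mem_iUnion, exists_prop] at h1
    obtain ⟨a, ha1, ha2⟩ := h1
    exact le_trans ha2 (hm2 a ha1)

theorem star (go : IsGO X) (D : Set X) (hD : ∀ d ∈ D, IsOpen ({d} : Set X))
    (hdense : ∀ U : Set X, IsOpen U → U.Nonempty → ∃ d ∈ D, d ∈ U)
    (F : ℕ → Set X) (C : X → Set X) (ls : LSig X F C)
    (A : Set X) (hAD : A ⊆ D) (hcl : Cl D F A) (d : X) (hdD : d ∈ D) (hdA : d ∉ A) :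
    ∃ l : X, l < d ∧ l ∈ closure (A ∩ Iio d) ∧ ∀ a ∈ A, ¬ (l ≤ a ∧ a < d) := by
  classical
  set L : Set X := A ∩ Iio d with hLdef
  have hLo : ∀ a ∈ L, IsOpen (Iic a) := fun a ha => iic_open go (hD a (hAD ha.1))
  have hLcc : ∀ a ∈ L, IsClosed (Ioi a) := fun a ha => by
    have := (hLo a ha).isClosed_compl
    rwa [compl_Iic] at this
  have hIcid : IsOpen (Ici d) := ici_open go (hD d hdD)
  have hIiod : IsClosed (Iio d) := by
    have := hIcid.isClosed_compl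
    rwa [compl_Ici] at this
  have hB : ∀ B : Set X, (B = ∅ ∨ ∃ a ∈ L, B = Iic a) → d ∉ B ∧ IsOpen B ∧
      (B = ∅ ∨ ∃ a ∈ A, B = Iic a) ∧ (∀ l, (∀ a ∈ L, a < l) → l ∉ B) := by
    intro B hB
    rcases hB with rfl | ⟨a, ha, rfl⟩
    · exact ⟨fun h => h, isOpen_empty, Or.inl rfl, fun _ _ h => h⟩
    · exact ⟨not_le.2 ha.2, hLo a ha, Or.inr ⟨a, ha.1, rfl⟩, fun l hl => not_le.2 (hl a ha)⟩
  -- Step 1
  have step1 : ∀ n, d ∈ F n → ∀ B : Set X, (B = ∅ ∨ ∃ a ∈ L, B = Iic a) →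
      ∃ x ∈ F n, x ∉ B ∧ x < d := by
    intro n hdn B hBB
    obtain ⟨h1, h2, h3, h4⟩ := hB B hBB
    have hmem : d ∈ HB D (F n) B := ⟨hdD, h1, d, hdn, le_rfl, h1⟩
    obtain ⟨e', he1, he2, he3⟩ := (hcl n B h3).2 d hmem
    obtain ⟨-, -, x, hx1, hx2, hx3⟩ := he2
    refine ⟨x, hx1, hx3, ?_⟩
    rcases he3.lt_or_eq with h | h
    · exact lt_of_le_of_lt hx2 h
    · exact absurd (h ▸ he1) hdA
  -- Step 2
  have step2 : ∀ B : Set X, (B = ∅ ∨ ∃ a ∈ L, B = Iic a) → ∃ x ∈ C d, x ∉ B ∧ x < d := by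
    intro B hBB
    obtain ⟨h1, h2, h3, h4⟩ := hB B hBB
    by_contra hno
    push Not at hno
    obtain ⟨n, hn1, hn2⟩ := ls.net d (B ∪ Ici d) (h2.union hIcid) (by
      intro c hc
      by_cases hcB : c ∈ B
      · exact Or.inl hcB
      · exact Or.inr (hno c hc hcB))
    obtain ⟨x, hx1, hx2, hx3⟩ := step1 n (hn1 (ls.mem d)) B hBB
    rcases hn2 hx1 with h | h
    · exact hx2 h
    · exact absurd hx3 (not_lt.2 h)
  -- Step 3
  set T : Set X := (C d ∩ Iio d) ∩ ⋂ a ∈ L, Ioi a with hT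
  have hK : IsCompact (C d ∩ Iio d) := (ls.comp d).inter_right hIiod
  have hTc : IsCompact T := hK.inter_right (isClosed_biInter hLcc)
  have hTne : T.Nonempty := by
    by_contra hemp
    rw [Set.not_nonempty_iff_eq_empty] at hemp
    obtain ⟨B, hB1, hB2⟩ := dir_cover hK hLo (by
      intro c hc
      by_contra hno
      push Not at hno
      have : c ∈ T := ⟨hc, mem_iInter₂.2 hno⟩
      rw [hemp] at this
      exact this)
    obtain ⟨x, hx1, hx2, hx3⟩ := step2 B hB1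
    exact hx2 (hB2 ⟨hx1, hx3⟩)
  haveI : ClosedIicTopology X := ⟨fun a => by
    have := (go.ioi a).isClosed_compl
    rwa [compl_Ioi] at this⟩
  obtain ⟨l, hl1, hl2⟩ := hTc.exists_isLeast hTne
  have hlC : l ∈ C d := hl1.1.1
  have hld : l < d := hl1.1.2
  have hlL : ∀ a ∈ L, a < l := fun a ha => mem_iInter₂.1 hl1.2 a ha
  have hno : ∀ a ∈ A, ¬ (l ≤ a ∧ a < d) := by
    rintro a ha ⟨h1, h2⟩
    exact absurd (hlL a ⟨ha, h2⟩) (not_lt.2 h1)
  refine ⟨l, hld, ?_, hno⟩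
  by_contra hlcl
  obtain ⟨O, hO1, hO2, hO3, hO4⟩ := go.conv l (closure L)ᶜ isClosed_closure.isOpen_compl hlcl
  have hOL : ∀ a ∈ L, a ∉ O := fun a ha haO => hO3 haO (subset_closure ha)
  -- Step 5a
  obtain ⟨B, hB1, hB2⟩ := dir_cover (K := C d \ (O ∪ Ioi l))
    ((ls.comp d).diff (hO1.union (go.ioi l))) hLo (by
      intro c hc
      by_contra hno
      push Not at hno
      have hcl' : c ≤ l := not_lt.1 fun h => hc.2 (Or.inr h)
      have : c ∈ T := ⟨⟨hc.1, lt_of_le_of_lt hcl' hld⟩, mem_iInter₂.2 hno⟩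
      have := le_antisymm hcl' (hl2 this)
      exact hc.2 (Or.inl (this ▸ hO2)))
  obtain ⟨hb1, hb2, hb3, hb4⟩ := hB B hB1
  have hCB : ∀ c ∈ C d, c < l → c ∈ B := by
    intro c hc hcl'
    by_cases hcO : c ∈ O
    · exfalso
      have : ∃ a ∈ L, c ≤ a := by
        by_contra hno
        push Not at hno
        have : c ∈ T := ⟨⟨hc, hcl'.trans hld⟩, mem_iInter₂.2 hno⟩
        exact absurd (hl2 this) (not_le.2 hcl')
      obtain ⟨a, ha, hca⟩ := this
      exact hOL a ha (hO4 c l a hcO hO2 hca (hlL a ha).le)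
    · exact hB2 ⟨hc, fun h => h.elim hcO (fun h => lt_asymm hcl' h)⟩
  by_cases hcase : ∃ e ∈ D, (∀ a ∈ L, a < e) ∧ e < l
  · obtain ⟨e, heD, heL, hel⟩ := hcase
    obtain ⟨n, hn1, hn2⟩ := ls.net d (B ∪ ((O ∩ Ioi e) ∪ Ioi l))
      (hb2.union ((hO1.inter (go.ioi e)).union (go.ioi l))) (by
        intro c hc
        rcases lt_trichotomy c l with h | h | h
        · exact Or.inl (hCB c hc h)
        · exact Or.inr (Or.inl ⟨h ▸ hO2, h ▸ hel⟩)
        · exact Or.inr (Or.inr h))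
    have hmem : e ∈ HA D (F n) B := by
      refine ⟨heD, hb4 e heL, ?_⟩
      intro x hx hxe
      rcases hn2 hx with h | h | h
      · exact h
      · exact absurd h.2 (not_lt.2 hxe)
      · exact absurd (lt_of_le_of_lt hxe hel) (lt_asymm h)
    obtain ⟨e', he1, he2, he3⟩ := (hcl n B hb3).1 e hmem
    rcases lt_trichotomy e' d with h | h | h
    · exact absurd (heL e' ⟨he1, h⟩) (not_lt.2 he3)
    · exact hdA (h ▸ he1)
    · exact hb1 (he2.2.2 d (hn1 (ls.mem d)) h.le)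
  · push Not at hcase
    -- `O ⊆ Ici l`
    have hOl : ∀ x ∈ O, l ≤ x := by
      intro x hx
      by_contra hlt
      rw [not_le] at hlt
      obtain ⟨e, he1, he2⟩ := hdense (O ∩ Iio l) (hO1.inter (go.iio l)) ⟨x, hx, hlt⟩
      have : ∃ a ∈ L, e ≤ a := by
        by_contra hno
        push Not at hno
        exact absurd he2.2 (not_lt.2 (hcase e he1 hno))
      obtain ⟨a, ha, hea⟩ := this
      exact hOL a ha (hO4 e l a he2.1 hO2 hea (hlL a ha).le)
    obtain ⟨n, hn1, hn2⟩ := ls.net d (B ∪ (O ∪ Ioi l))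
      (hb2.union (hO1.union (go.ioi l))) (by
        intro c hc
        rcases lt_trichotomy c l with h | h | h
        · exact Or.inl (hCB c hc h)
        · exact Or.inr (Or.inl (h ▸ hO2))
        · exact Or.inr (Or.inr h))
    obtain ⟨e, heD, heO⟩ := hdense (O ∩ Iio d) (hO1.inter (go.iio d)) ⟨l, hO2, hld⟩
    have hlB : l ∉ B := hb4 l hlL
    have hle : l ≤ e := hOl e heO.1
    have heB : e ∉ B := hb4 e (fun a ha => lt_of_lt_of_le (hlL a ha) hle)
    have hmem : e ∈ HB D (F n) B := ⟨heD, heB, l, hn1 hlC, hle, hlB⟩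
    obtain ⟨e', he1, he2, he3⟩ := (hcl n B hb3).2 e hmem
    obtain ⟨-, -, x, hx1, hx2, hx3⟩ := he2
    have hlx : l ≤ x := by
      rcases hn2 hx1 with h | h | h
      · exact absurd h hx3
      · exact hOl x h
      · exact le_of_lt h
    exact hno e' he1 ⟨hlx.trans hx2, lt_of_le_of_lt he3 heO.2⟩

end star

end Pool.Agent.H479R3.GO
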