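import Mathlib
import Pool.Agent.H479R3.GO2

set_option autoImplicit false

/-! Closing-off, and the Lindelöf property of the complement of the left-limit points. -/

namespace Pool.Agent.H479R3.GO

open Set Topology

universe u

/-- A continuous cofinal chain of countable subsets of `D`. -/
structure Fil {X : Type u} (D : Set X) (𝒜 : Set (Set X)) : Prop where
  sub : ∀ A ∈ 𝒜, A ⊆ D
  cnt : ∀ A ∈ 𝒜, A.Countable
  chain : ∀ A ∈ 𝒜, ∀ B ∈ 𝒜, A ⊆ B ∨ B ⊆ A
  cof : ∀ S : Set X, S ⊆ D → S.Countable → ∃ A ∈ 𝒜, S ⊆ A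
  union : ∀ A : ℕ → Set X, (∀ n, A n ∈ 𝒜) → (∀ n, A n ⊆ A (n + 1)) → (⋃ n, A n) ∈ 𝒜

lemma closing {X : Type u} {D : Set X} {𝒜 : Set (Set X)} (hf : Fil D 𝒜)
    (g : X → X → Set X) (hg : ∀ a b, (g a b).Countable) (hgD : ∀ a b, g a b ⊆ D)
    (S₀ : Set X) (hS : S₀.Countable) (hSD : S₀ ⊆ D) :
    ∃ A ∈ 𝒜, S₀ ⊆ A ∧ ∀ a ∈ A, ∀ b ∈ A, g a b ⊆ A := by
  classical
  obtain ⟨A0, hA0, hA0'⟩ := hf.cof S₀ hSD hS
  have hstep : ∀ A : 𝒜, ∃ B : 𝒜, (A : Set X) ⊆ B ∧ ∀ a ∈ (A : Set X), ∀ b ∈ (A : Set X),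
      g a b ⊆ B := by
    intro A
    obtain ⟨B, hB, hB'⟩ := hf.cof ((A : Set X) ∪ ⋃ a ∈ (A : Set X), ⋃ b ∈ (A : Set X), g a b)
      (by
        refine union_subset (hf.sub _ A.2) ?_
        intro x hx
        simp only [mem_iUnion, exists_prop] at hx
        obtain ⟨a, -, b, -, hx⟩ := hx
        exact hgD a b hx)
      ((hf.cnt _ A.2).union ((hf.cnt _ A.2).biUnion fun a _ => (hf.cnt _ A.2).biUnion
        fun b _ => hg a b))
    refine ⟨⟨B, hB⟩, subset_union_left.trans hB', ?_⟩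
    intro a ha b hb x hx
    exact hB' (Or.inr (mem_biUnion ha (mem_biUnion hb hx)))
  choose nx hnx1 hnx2 using hstep
  let s : ℕ → 𝒜 := fun n => Nat.rec ⟨A0, hA0⟩ (fun _ A => nx A) n
  have hs0 : s 0 = ⟨A0, hA0⟩ := rfl
  have hss : ∀ n, s (n + 1) = nx (s n) := fun n => rfl
  have hmono : Monotone (fun n => (s n).1) := monotone_nat_of_le_succ fun n => by
    rw [hss]; exact hnx1 (s n)
  refine ⟨⋃ n, (s n).1, hf.union _ (fun n => (s n).2) (fun n => hmono (Nat.le_succ n)),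
    ?_, ?_⟩
  · intro x hx
    exact mem_iUnion.2 ⟨0, hA0' hx⟩
  · intro a ha b hb x hx
    obtain ⟨m, hm⟩ := mem_iUnion.1 ha
    obtain ⟨n, hn⟩ := mem_iUnion.1 hb
    refine mem_iUnion.2 ⟨max m n + 1, ?_⟩
    rw [hss]
    exact hnx2 (s (max m n)) a (hmono (le_max_left m n) hm) b (hmono (le_max_right m n) hn) hx

/-- Existence of closure functions. -/
lemma exists_fun {X : Type u} [LinearOrder X] (D : Set X) (F : ℕ → Set X) (hc : Cof D)
    (hi : Coi D) :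
    ∃ (g : X → X → Set X) (S₀ : Set X), (∀ a b, (g a b).Countable) ∧ (∀ a b, g a b ⊆ D) ∧
      S₀.Countable ∧ S₀ ⊆ D ∧ ∀ A : Set X, S₀ ⊆ A → (∀ a ∈ A, ∀ b ∈ A, g a b ⊆ A) →
        Cl D F A := by
  classical
  choose S hS1 hS2 hS3 using fun (n : ℕ) (B : Set X) => hc (HA D (F n) B) (fun e he => he.1)
  choose T hT1 hT2 hT3 using fun (n : ℕ) (B : Set X) => hi (HB D (F n) B) (fun e he => he.1)
  refine ⟨fun a _ => ⋃ n, (S n (Iic a) ∪ T n (Iic a)), ⋃ n, (S n ∅ ∪ T n ∅), ?_, ?_, ?_, ?_, ?_⟩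
  · intro a b
    exact countable_iUnion fun n => (hS2 _ _).union (hT2 _ _)
  · intro a b x hx
    obtain ⟨n, hn⟩ := mem_iUnion.1 hx
    rcases hn with h | h
    · exact (hS1 _ _ h).1
    · exact (hT1 _ _ h).1
  · exact countable_iUnion fun n => (hS2 _ _).union (hT2 _ _)
  · intro x hx
    obtain ⟨n, hn⟩ := mem_iUnion.1 hx
    rcases hn with h | h
    · exact (hS1 _ _ h).1
    · exact (hT1 _ _ h).1
  · intro A hA1 hA2 n B hB
    have key : S n B ∪ T n B ⊆ A := by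
      rcases hB with rfl | ⟨a, ha, rfl⟩
      · intro x hx
        exact hA1 (mem_iUnion.2 ⟨n, hx⟩)
      · intro x hx
        exact hA2 a ha a ha (mem_iUnion.2 ⟨n, hx⟩)
    constructor
    · intro e he
      obtain ⟨e', h1, h2⟩ := hS3 n B e he
      exact ⟨e', key (Or.inl h1), hS1 _ _ h1, h2⟩
    · intro e he
      obtain ⟨e', h1, h2⟩ := hT3 n B e he
      exact ⟨e', key (Or.inr h1), hT1 _ _ h1, h2⟩

/-- left-limit points that are not right-limit points of the same level. -/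
def RL {X : Type u} [LinearOrder X] [TopologicalSpace X] (𝒜 : Set (Set X)) : Set X :=
  {p | ∃ A ∈ 𝒜, p ∈ closure (A ∩ Iio p) ∧ p ∉ closure (A ∩ Ioi p)}

theorem lindY {X : Type u} [LinearOrder X] [TopologicalSpace X] (go : IsGO X) (D : Set X)
    (hD : ∀ d ∈ D, IsOpen ({d} : Set X))
    (hdense : ∀ U : Set X, IsOpen U → U.Nonempty → ∃ d ∈ D, d ∈ U)
    (hcof : Cof D) (hcoi : Coi D)
    (F : ℕ → Set X) (C : X → Set X) (ls : LSig X F C)
    (𝒜 : Set (Set X)) (hf : Fil D 𝒜) : IsLindelof (RL 𝒜)ᶜ := by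
  classical
  apply isLindelof_of_countable_subcover
  intro ι U hU hcov
  set Y : Set X := (RL 𝒜)ᶜ with hY
  have hcov' : ∀ y ∈ Y, ∃ i, y ∈ U i := fun y hy => mem_iUnion.1 (hcov hy)
  -- D ⊆ Y
  have hDY : D ⊆ Y := by
    rintro d hd ⟨A, hA, h1, -⟩
    obtain ⟨x, hx1, hx2⟩ := mem_closure_iff.1 h1 {d} (hD d hd) rfl
    rw [mem_singleton_iff] at hx1
    subst hx1
    exact lt_irrefl _ hx2.2
  let H1 : X → Set X := fun b => {e ∈ D | e ≤ b ∧ ∃ i, Icc e b ∩ Y ⊆ U i}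
  let H2 : X → Set X := fun b => {e ∈ D | e < b ∧ e ∉ H1 b}
  choose S hS1 hS2 hS3 using fun b : X => hcoi (H1 b) (fun e he => he.1)
  choose T hT1 hT2 hT3 using fun b : X => hcof (H2 b) (fun e he => he.1)
  obtain ⟨g, S₀, hg1, hg2, hS0, hS0D, hgA⟩ := exists_fun (X := Xᵒᵈ) D F hcoi hcof
  obtain ⟨A, hA, hSA, hgAA⟩ := closing hf (fun a b => g a b ∪ (S a ∪ T a))
    (fun a b => (hg1 a b).union ((hS2 a).union (hT2 a)))
    (fun a b => union_subset (hg2 a b) (union_subset (fun x hx => (hS1 a hx).1)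
      (fun x hx => (hT1 a hx).1))) S₀ hS0 hS0D
  have hcl : Cl (X := Xᵒᵈ) D F A := hgA A hSA fun a ha b hb x hx => hgAA a ha b hb (Or.inl hx)
  have hSsub : ∀ a ∈ A, S a ⊆ A := fun a ha x hx => hgAA a ha a ha (Or.inr (Or.inl hx))
  have hTsub : ∀ a ∈ A, T a ⊆ A := fun a ha x hx => hgAA a ha a ha (Or.inr (Or.inr hx))
  have hAD := hf.sub A hA
  have hAc := hf.cnt A hA
  have star' : ∀ d ∈ D, d ∉ A → ∃ r : X, d < r ∧ r ∈ closure (A ∩ Ioi d) ∧
      ∀ a ∈ A, ¬ (a ≤ r ∧ d < a) := fun d hd hdA =>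
    star (X := Xᵒᵈ) go.dual D hD hdense F C ls.dual A hAD hcl d hd hdA
  -- choice of the countable subfamily
  have hsel1 : ∀ a : X, ∃ s : Set ι, s.Countable ∧ (a ∈ Y → ∃ i ∈ s, a ∈ U i) := by
    intro a
    by_cases ha : a ∈ Y
    · obtain ⟨i, hi⟩ := hcov' a ha
      exact ⟨{i}, countable_singleton _, fun _ => ⟨i, rfl, hi⟩⟩
    · exact ⟨∅, countable_empty, fun h => absurd h ha⟩
  choose s1 hs1c hs1 using hsel1
  have hsel2 : ∀ a b : X, ∃ s : Set ι, s.Countable ∧ ((∃ i, Icc a b ∩ Y ⊆ U i) →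
      ∃ i ∈ s, Icc a b ∩ Y ⊆ U i) := by
    intro a b
    by_cases h : ∃ i, Icc a b ∩ Y ⊆ U i
    · obtain ⟨i, hi⟩ := h
      exact ⟨{i}, countable_singleton _, fun _ => ⟨i, rfl, hi⟩⟩
    · exact ⟨∅, countable_empty, fun h' => absurd h' h⟩
  choose s2 hs2c hs2 using hsel2
  have hsel3 : ∀ b : X, ∃ s : Set ι, s.Countable ∧ (∀ z ∈ Y, IsGLB (H1 b) z →
      ∃ i ∈ s, z ∈ U i) := by
    intro b
    by_cases h : ∃ z ∈ Y, IsGLB (H1 b) z
    · obtain ⟨z, hz1, hz2⟩ := h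
      obtain ⟨i, hi⟩ := hcov' z hz1
      refine ⟨{i}, countable_singleton _, fun z' _ hz' => ⟨i, rfl, ?_⟩⟩
      rwa [hz'.unique hz2]
    · exact ⟨∅, countable_empty, fun z hz1 hz2 => absurd ⟨z, hz1, hz2⟩ h⟩
  choose s3 hs3c hs3 using hsel3
  refine ⟨(⋃ a ∈ A, s1 a) ∪ (⋃ a ∈ A, ⋃ b ∈ A, s2 a b) ∪ (⋃ b ∈ A, s3 b), ?_, ?_⟩
  · exact ((hAc.biUnion fun a _ => hs1c a).union (hAc.biUnion fun a _ => hAc.biUnion
      fun b _ => hs2c a b)).union (hAc.biUnion fun a _ => hs3c a)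
  -- covering
  have use2 : ∀ y ∈ Y, ∀ a ∈ A, ∀ b ∈ A, a ≤ y → y ≤ b → (∃ i, Icc a b ∩ Y ⊆ U i) →
      y ∈ ⋃ i ∈ (⋃ a ∈ A, s1 a) ∪ (⋃ a ∈ A, ⋃ b ∈ A, s2 a b) ∪ (⋃ b ∈ A, s3 b), U i := by
    intro y hy a ha b hb hay hyb hex
    obtain ⟨i, hi1, hi2⟩ := hs2 a b hex
    exact mem_biUnion (Or.inl (Or.inr (mem_biUnion ha (mem_biUnion hb hi1))))
      (hi2 ⟨⟨hay, hyb⟩, hy⟩)
  intro y hy
  obtain ⟨i, hi⟩ := hcov' y hy
  obtain ⟨V, hV1, hV2, hV3, hV4⟩ := go.conv y (U i) (hU i) hi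
  by_cases hyA : y ∈ A
  · obtain ⟨i, hi1, hi2⟩ := hs1 y hy
    exact mem_biUnion (Or.inl (Or.inl (mem_biUnion hyA hi1))) hi2
  by_cases hR : y ∈ closure (A ∩ Ioi y)
  · obtain ⟨b, hbV, hbA, hyb⟩ := mem_closure_iff.1 hR V hV1 hV2
    have hyb' : y < b := hyb
    by_cases hLL : y ∈ closure (A ∩ Iio y)
    · obtain ⟨a, haV, haA, hay⟩ := mem_closure_iff.1 hLL V hV1 hV2
      have hay' : a < y := hay
      exact use2 y hy a haA b hbA hay'.le hyb'.le
        ⟨i, fun z hz => hV3 (hV4 a b z haV hbV hz.1.1 hz.1.2)⟩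
    · by_cases hex : ∃ e ∈ H1 b, e ≤ y
      · obtain ⟨e, he, hey⟩ := hex
        obtain ⟨e', he1, he2⟩ := hS3 b e he
        have he3 := hS1 b he1
        exact use2 y hy e' (hSsub b hbA he1) b hbA (he2.trans hey) hyb'.le he3.2.2
      · push Not at hex
        have hglb : IsGLB (H1 b) y := by
          refine ⟨fun e he => (hex e he).le, fun z hz => ?_⟩
          by_contra hyz
          rw [not_le] at hyz
          obtain ⟨a, haV, haA, hya⟩ := mem_closure_iff.1 hR (V ∩ Iio (min z b))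
            (hV1.inter (go.iio _)) ⟨hV2, lt_min hyz hyb'⟩
          have haz : a < z := lt_of_lt_of_le haV.2 (min_le_left _ _)
          have hab : a < b := lt_of_lt_of_le haV.2 (min_le_right _ _)
          have : a ∈ H1 b := ⟨hAD haA, hab.le, i, fun w hw =>
            hV3 (hV4 a b w haV.1 hbV hw.1.1 hw.1.2)⟩
          exact absurd (hz this) (not_le.2 haz)
        obtain ⟨j, hj1, hj2⟩ := hs3 b y hy hglb
        exact mem_biUnion (Or.inr (mem_biUnion hbA hj1)) hj2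
  · have hLL : y ∉ closure (A ∩ Iio y) := fun h => hy ⟨A, hA, h, hR⟩
    have hyc : y ∉ closure A := by
      intro h
      have : A = (A ∩ Iio y) ∪ (A ∩ Ioi y) := by
        ext x
        constructor
        · intro hx
          rcases lt_trichotomy x y with h | h | h
          · exact Or.inl ⟨hx, h⟩
          · exact absurd (h ▸ hx) hyA
          · exact Or.inr ⟨hx, h⟩
        · rintro (h | h)
          · exact h.1
          · exact h.1
      rw [this, closure_union] at h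
      exact h.elim hLL hR
    obtain ⟨O, hO1, hO2, hO3, hO4⟩ := go.conv y (closure A)ᶜ isClosed_closure.isOpen_compl hyc
    have hOA : ∀ a ∈ A, a ∉ O := fun a ha haO => hO3 haO (subset_closure ha)
    obtain ⟨d, hdD, hdO⟩ := hdense O hO1 ⟨y, hO2⟩
    have hdA : d ∉ A := fun h => hOA d h hdO
    obtain ⟨r, hdr, hr, hrA⟩ := star' d hdD hdA
    have hAr : ∀ a ∈ A, d < a → r < a := fun a ha hda => by
      by_contra h
      exact hrA a ha (And.intro (not_lt.1 h) hda)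
    have hrO : r ∉ O := by
      intro hrO
      obtain ⟨a, ha1, ha2⟩ := mem_closure_iff.1 hr O hO1 hrO
      exact hOA a ha2.1 ha1
    have hOr : ∀ x ∈ O, x < r := by
      intro x hx
      by_contra h
      exact hrO (hO4 d x r hdO hx hdr.le (not_lt.1 h))
    have hrY : r ∈ Y := by
      rintro ⟨B, hB, h1, h2⟩
      -- r is a right-limit of A and not a left-limit of A
      have hsub : A ∩ Ioi d ⊆ A ∩ Ioi r := fun a ha => ⟨ha.1, hAr a ha.1 ha.2⟩
      have hr' : r ∈ closure (A ∩ Ioi r) := closure_mono hsub hr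
      rcases hf.chain A hA B hB with hAB | hBA
      · exact h2 (closure_mono (inter_subset_inter_left _ hAB) hr')
      · obtain ⟨a, ha1, ha2, ha3⟩ := mem_closure_iff.1 h1 (Ioi d) (go.ioi d) hdr
        exact absurd (hAr a (hBA ha2) ha1) (not_lt.2 (le_of_lt ha3))
    obtain ⟨j, hj⟩ := hcov' r hrY
    obtain ⟨W, hW1, hW2, hW3, hW4⟩ := go.conv r (U j) (hU j) hj
    obtain ⟨b, hbW, hbA, hdb⟩ := mem_closure_iff.1 hr W hW1 hW2
    have hrb : r < b := hAr b hbA hdb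
    have hyr : y < r := hOr y hO2
    by_cases hex : ∃ e ∈ H1 b, e < r
    · obtain ⟨e, he, her⟩ := hex
      obtain ⟨e', he1, he2⟩ := hS3 b e he
      have he3 := hS1 b he1
      have he'A := hSsub b hbA he1
      have he'd : e' ≤ d := by
        by_contra h
        rw [not_le] at h
        exact absurd (hAr e' he'A h) (not_lt.2 (he2.trans her.le))
      have he'y : e' ≤ y := by
        by_contra h
        rw [not_le] at h
        exact hOA e' he'A (hO4 y d e' hO2 hdO h.le he'd)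
      exact use2 y hy e' he'A b hbA he'y (hyr.trans hrb).le he3.2.2
    · push Not at hex
      exfalso
      have hdH : d ∈ H2 b := by
        refine ⟨hdD, hdr.trans hrb, fun h => ?_⟩
        exact absurd hdr (not_lt.2 (hex d h))
      obtain ⟨a', ha1, ha2⟩ := hT3 b d hdH
      have ha3 := hT1 b ha1
      have haA := hTsub b hbA ha1
      have hda : d < a' := lt_of_le_of_ne ha2 (fun h => hdA (h ▸ haA))
      have hra := hAr a' haA hda
      apply ha3.2.2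
      exact ⟨hAD haA, ha3.2.1.le, j, fun w hw => hW3
        (hW4 r b w hW2 hbW (hra.le.trans hw.1.1) hw.1.2)⟩

end Pool.Agent.H479R3.GO
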