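import Mathlib
import Pool.Agent.H479R3.GO3

set_option autoImplicit false

/-! The contradiction from an uncountable dense isolated set. -/

namespace Pool.Agent.H479R3.GO

open Set Topology

universe u

/-- Lindelöf subsets with a Sigma structure have a Lindelöf Sigma structure. -/
lemma lsig_set {X : Type u} [TopologicalSpace X] {Y : Set X} (hY : IsLindelof Y)
    (hs : Sig Y) : ∃ (F : ℕ → Set X) (C : X → Set X),
      (∀ y ∈ Y, y ∈ C y ∧ C y ⊆ Y ∧ IsCompact (C y)) ∧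
      (∀ y ∈ Y, ∀ U : Set X, IsOpen U → C y ⊆ U → ∃ n, C y ⊆ F n ∧ F n ⊆ U) := by
  classical
  obtain ⟨F, C, hF1, hF2, hC1, hC2, hC3, hnet⟩ := hs
  have hc : ∀ n, {s ∈ F n | s.Nonempty}.Countable := by
    intro n
    choose! U hU1 hU2 hU3 using hF1 n
    obtain ⟨t, ht1, ht2, ht3⟩ := hY.elim_countable_subcover_image (b := Y) (c := U)
      hU1 (fun y hy => mem_biUnion hy (hU2 y hy))
    have : {s ∈ F n | s.Nonempty} ⊆ ⋃ y ∈ t, {s ∈ F n | (s ∩ U y).Nonempty} := by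
      rintro s ⟨hs1, x, hx⟩
      have h1 := ht3 (hF2 n s hs1 hx)
      simp only [mem_iUnion, exists_prop] at h1
      obtain ⟨y, hy, hxy⟩ := h1
      exact mem_biUnion hy ⟨hs1, x, hx, hxy⟩
    exact (ht2.biUnion fun y hy => (hU3 y (ht1 hy)).countable).mono this
  have hc2 : (⋃ n, {s ∈ F n | s.Nonempty}).Countable := countable_iUnion hc
  obtain ⟨f, hf⟩ := Set.countable_iff_exists_subset_range.1 hc2
  refine ⟨f, C, ?_, ?_⟩
  · intro y hy
    refine ⟨(hC1 y hy).1, (hC1 y hy).2, ?_⟩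
    obtain ⟨K, hK1, hK2⟩ := hC2 y hy
    have hCL : IsLindelof (C y) := by
      rw [hK2]; exact hY.inter_right hK1
    apply isCompact_of_finite_subcover
    intro ι V hV hcov
    obtain ⟨t, ht1, ht2⟩ := hCL.elim_countable_subcover V hV hcov
    rcases t.eq_empty_or_nonempty with rfl | hne
    · exact absurd (ht2 (hC1 y hy).1) (by simp)
    · obtain ⟨e, he⟩ := ht1.exists_eq_range hne
      obtain ⟨T, hT⟩ := hC3 y hy (fun n => V (e n)) (fun n => hV _) (by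
        intro x hx
        have h1 := ht2 hx
        simp only [mem_iUnion, exists_prop] at h1
        obtain ⟨i, hi, hxi⟩ := h1
        rw [he] at hi
        obtain ⟨n, rfl⟩ := hi
        exact mem_iUnion.2 ⟨n, hxi⟩)
      refine ⟨T.image e, ?_⟩
      intro x hx
      have h1 := hT hx
      simp only [mem_iUnion, exists_prop] at h1
      obtain ⟨n, hn, hxn⟩ := h1
      simp only [mem_iUnion, exists_prop]
      exact ⟨e n, Finset.mem_image_of_mem e hn, hxn⟩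
  · intro y hy U hU hCU
    obtain ⟨n, s, hs1, hs2, hs3⟩ := hnet y hy U hU hCU
    have : s ∈ ⋃ n, {s ∈ F n | s.Nonempty} :=
      mem_iUnion.2 ⟨n, hs1, y, hs2 (hC1 y hy).1⟩
    obtain ⟨m, rfl⟩ := hf this
    exact ⟨m, hs2, hs3⟩

lemma lsig_univ {X : Type u} [TopologicalSpace X] (hL : IsLindelof (univ : Set X)) (hs : HS X) :
    ∃ (F : ℕ → Set X) (C : X → Set X), LSig X F C := by
  obtain ⟨F, C, h1, h2⟩ := lsig_set hL (hs univ)
  exact ⟨F, C, fun y => (h1 y (mem_univ _)).1, fun y => (h1 y (mem_univ _)).2.2,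
    fun y => h2 y (mem_univ _)⟩

lemma lsig_sub {X : Type u} [TopologicalSpace X] {Y : Set X} (hY : IsLindelof Y) (hs : Sig Y) :
    ∃ (F : ℕ → Set Y) (C : Y → Set Y), LSig Y F C := by
  obtain ⟨F, C, h1, h2⟩ := lsig_set hY hs
  refine ⟨fun n => Subtype.val ⁻¹' F n, fun y => Subtype.val ⁻¹' C y, ?_, ?_, ?_⟩
  · intro y; exact (h1 y y.2).1
  · intro y
    rw [Subtype.isCompact_iff, Subtype.image_preimage_coe,
      inter_eq_self_of_subset_right (h1 y y.2).2.1]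
    exact (h1 y y.2).2.2
  · intro y U hU hCU
    obtain ⟨O, hO, rfl⟩ := isOpen_induced_iff.1 hU
    obtain ⟨n, hn1, hn2⟩ := h2 y y.2 O hO (by
      intro x hx
      exact hCU (a := ⟨x, (h1 y y.2).2.1 hx⟩) hx)
    exact ⟨n, preimage_mono hn1, preimage_mono hn2⟩

lemma isGO_sub {X : Type u} [LinearOrder X] [TopologicalSpace X] (go : IsGO X) (Y : Set X) :
    IsGO Y where
  ioi := fun a => isOpen_induced_iff.2 ⟨Ioi a.1, go.ioi _, by ext x; simp⟩
  iio := fun a => isOpen_induced_iff.2 ⟨Iio a.1, go.iio _, by ext x; simp⟩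
  conv := fun x U hU hx => by
    obtain ⟨O, hO, rfl⟩ := isOpen_induced_iff.1 hU
    obtain ⟨V, h1, h2, h3, h4⟩ := go.conv x.1 O hO hx
    exact ⟨Subtype.val ⁻¹' V, isOpen_induced_iff.2 ⟨V, h1, rfl⟩, h2, preimage_mono h3,
      fun a b c ha hb hac hcb => h4 a.1 b.1 c.1 ha hb hac hcb⟩

lemma cof_sub {X : Type u} [LinearOrder X] {D : Set X} (h : Cof D) (Y : Set X) :
    Cof (Subtype.val ⁻¹' D : Set Y) := by
  intro H hH
  obtain ⟨S, hS1, hS2, hS3⟩ := h (Subtype.val '' H) (by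
    rintro _ ⟨x, hx, rfl⟩; exact hH hx)
  refine ⟨Subtype.val ⁻¹' S, ?_, hS2.preimage Subtype.val_injective, ?_⟩
  · intro x hx
    obtain ⟨y, hy, hyx⟩ := hS1 hx
    rwa [Subtype.ext hyx] at hy
  · intro h hh
    obtain ⟨s, hs, hhs⟩ := hS3 h.1 (mem_image_of_mem _ hh)
    obtain ⟨y, hy, rfl⟩ := hS1 hs
    exact ⟨y, hs, hhs⟩

lemma coi_sub {X : Type u} [LinearOrder X] {D : Set X} (h : Coi D) (Y : Set X) :
    Coi (Subtype.val ⁻¹' D : Set Y) := by
  intro H hH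
  obtain ⟨S, hS1, hS2, hS3⟩ := h (Subtype.val '' H) (by
    rintro _ ⟨x, hx, rfl⟩; exact hH hx)
  refine ⟨Subtype.val ⁻¹' S, ?_, hS2.preimage Subtype.val_injective, ?_⟩
  · intro x hx
    obtain ⟨y, hy, hyx⟩ := hS1 hx
    rwa [Subtype.ext hyx] at hy
  · intro h hh
    obtain ⟨s, hs, hhs⟩ := hS3 h.1 (mem_image_of_mem _ hh)
    obtain ⟨y, hy, rfl⟩ := hS1 hs
    exact ⟨y, hs, hhs⟩

theorem noD {X : Type u} [LinearOrder X] [TopologicalSpace X] (go : IsGO X) (hs : HS X)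
    (hL : IsLindelof (univ : Set X)) (D : Set X)
    (hD : ∀ d ∈ D, IsOpen ({d} : Set X))
    (hdense : ∀ U : Set X, IsOpen U → U.Nonempty → ∃ d ∈ D, d ∈ U)
    (𝒜 : Set (Set X)) (hf : Fil D 𝒜) (hunc : ¬ D.Countable) : False := by
  classical
  have hcof := cof_of_HS go hs hL D hD
  have hcoi := coi_of_HS go hs hL D hD
  obtain ⟨F, C, ls⟩ := lsig_univ hL hs
  have hYL := lindY go D hD hdense hcof hcoi F C ls 𝒜 hf
  set Y : Set X := (RL 𝒜)ᶜ with hY
  obtain ⟨F', C', ls'⟩ := lsig_sub hYL (hs Y)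
  have hDY : D ⊆ Y := by
    rintro d hd ⟨A, hA, h1, -⟩
    obtain ⟨x, hx1, hx2⟩ := mem_closure_iff.1 h1 {d} (hD d hd) rfl
    rw [mem_singleton_iff] at hx1
    subst hx1
    exact lt_irrefl _ hx2.2
  set D' : Set Y := Subtype.val ⁻¹' D with hD'
  obtain ⟨g, S₀, hg1, hg2, hS0, hS0D, hgA⟩ := exists_fun (X := Y) D' F' (cof_sub hcof Y)
    (coi_sub hcoi Y)
  obtain ⟨A, hA, hSA, hgAA⟩ := closing hf
    (fun a b => ⋃ (ha : a ∈ Y), ⋃ (hb : b ∈ Y), Subtype.val '' g ⟨a, ha⟩ ⟨b, hb⟩)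
    (fun a b => countable_iUnion fun ha => countable_iUnion fun hb => (hg1 _ _).image _)
    (fun a b => by
      intro x hx
      simp only [mem_iUnion] at hx
      obtain ⟨ha, hb, y, hy, rfl⟩ := hx
      exact hg2 _ _ hy) (Subtype.val '' S₀) (hS0.image _) (by
      rintro _ ⟨x, hx, rfl⟩; exact hS0D hx)
  have hAD := hf.sub A hA
  have hcl : Cl D' F' (Subtype.val ⁻¹' A) := by
    apply hgA
    · intro x hx
      exact hSA (mem_image_of_mem _ hx)
    · intro a ha b hb x hx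
      exact hgAA a.1 ha b.1 hb (mem_iUnion.2 ⟨a.2, mem_iUnion.2 ⟨b.2, x, hx, rfl⟩⟩)
  obtain ⟨d, hdD, hdA⟩ : ∃ d ∈ D, d ∉ A := by
    by_contra hno
    push Not at hno
    exact hunc ((hf.cnt A hA).mono hno)
  obtain ⟨l, hl1, hl2, hl3⟩ := star (isGO_sub go Y) D'
    (fun d hd => isOpen_induced_iff.2 ⟨{d.1}, hD d.1 hd, by
      ext x; simp [Subtype.ext_iff]⟩)
    (fun U hU hne => by
      obtain ⟨O, hO, rfl⟩ := isOpen_induced_iff.1 hU
      obtain ⟨x, hx⟩ := hne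
      obtain ⟨d, hd1, hd2⟩ := hdense O hO ⟨x.1, hx⟩
      exact ⟨⟨d, hDY hd1⟩, hd1, hd2⟩) F' C' ls' (Subtype.val ⁻¹' A) (fun a ha => hAD ha) hcl
    ⟨d, hDY hdD⟩ hdD hdA
  apply l.2
  refine ⟨A, hA, ?_, ?_⟩
  · rw [closure_subtype] at hl2
    refine closure_mono ?_ hl2
    rintro _ ⟨a, ha, rfl⟩
    refine ⟨ha.1, ?_⟩
    by_contra h
    exact hl3 a ha.1 ⟨not_lt.1 h, ha.2⟩
  · intro h
    obtain ⟨a, ha1, ha2, ha3⟩ := mem_closure_iff.1 h (Iio d) (go.iio d) hl1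
    exact hl3 ⟨a, hDY (hAD ha2)⟩ ha2 ⟨le_of_lt ha3, ha1⟩

/-- the chain of countable subsets for a set of cardinality `ℵ₁`. -/
lemma exists_fil {X : Type u} (D : Set X) (r : X → X → Prop)
    (htr : ∀ a b c, r a b → r b c → r a c)
    (htri : ∀ a ∈ D, ∀ b ∈ D, r a b ∨ a = b ∨ r b a)
    (hr : ∀ a ∈ D, {b ∈ D | r b a}.Countable) :
    ∃ 𝒜 : Set (Set X), Fil D 𝒜 := by
  refine ⟨{A | A ⊆ D ∧ A.Countable ∧ ∀ a ∈ A, ∀ b ∈ D, r b a → b ∈ A}, ?_, ?_, ?_, ?_, ?_⟩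
  · intro A hA; exact hA.1
  · intro A hA; exact hA.2.1
  · intro A hA B hB
    by_contra h
    push Not at h
    obtain ⟨a, ha1, ha2⟩ := Set.not_subset.1 h.1
    obtain ⟨b, hb1, hb2⟩ := Set.not_subset.1 h.2
    rcases htri a (hA.1 ha1) b (hB.1 hb1) with h | h | h
    · exact ha2 (hB.2.2 b hb1 a (hA.1 ha1) h)
    · exact ha2 (h ▸ hb1)
    · exact hb2 (hA.2.2 a ha1 b (hB.1 hb1) h)
  · intro S hS hSc
    refine ⟨S ∪ ⋃ s ∈ S, {b ∈ D | r b s}, ⟨?_, ?_, ?_⟩, subset_union_left⟩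
    · refine union_subset hS ?_
      intro x hx
      simp only [mem_iUnion, exists_prop] at hx
      obtain ⟨s, -, hx⟩ := hx
      exact hx.1
    · exact hSc.union (hSc.biUnion fun s hs => hr s (hS hs))
    · rintro a (ha | ha) b hb hba
      · exact Or.inr (mem_biUnion ha ⟨hb, hba⟩)
      · simp only [mem_iUnion, exists_prop] at ha
        obtain ⟨s, hs, ha⟩ := ha
        exact Or.inr (mem_biUnion hs ⟨hb, htr _ _ _ hba ha.2⟩)
  · intro A hA _
    refine ⟨iUnion_subset fun n => (hA n).1, countable_iUnion fun n => (hA n).2.1, ?_⟩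
    intro a ha b hb hba
    obtain ⟨n, hn⟩ := mem_iUnion.1 ha
    exact mem_iUnion.2 ⟨n, (hA n).2.2 a hn b hb hba⟩

end Pool.Agent.H479R3.GO
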