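import Mathlib
import Pool.Agent.H479R3.GO4

set_option autoImplicit false

/-! Countable cellularity gives hereditarily Lindelöf; final theorem. -/

namespace Pool.Agent.H479R3.GO

open Set Topology

universe u

/-- Countable cellularity. -/
def CCC (X : Type u) [TopologicalSpace X] : Prop :=
  ∀ 𝒢 : Set (Set X), (∀ G ∈ 𝒢, IsOpen G ∧ G.Nonempty) → 𝒢.PairwiseDisjoint id → 𝒢.Countable

lemma ccc_cof {X : Type u} [LinearOrder X] [TopologicalSpace X] (go : IsGO X) (hc : CCC X)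
    (E : Set X) : ∃ S ⊆ E, S.Countable ∧ ∀ e ∈ E, ∃ s ∈ S, e ≤ s := by
  classical
  by_contra hcon
  push Not at hcon
  obtain ⟨𝒢, h𝒢⟩ : ∃ 𝒢 : Set (Set X), Maximal (· ∈ {𝒢 : Set (Set X) |
      (∀ G ∈ 𝒢, G.Nonempty ∧ ∃ a ∈ E, ∃ b ∈ E, G = Ioo a b) ∧ 𝒢.PairwiseDisjoint id}) 𝒢 := by
    apply zorn_subset
    intro c hc1 hc2
    refine ⟨⋃₀ c, ⟨?_, ?_⟩, fun s hs => subset_sUnion_of_mem hs⟩
    · rintro G ⟨𝒢, h𝒢, hG⟩
      exact (hc1 h𝒢).1 G hG
    · exact (pairwiseDisjoint_sUnion hc2.directedOn).2 fun s hs => (hc1 hs).2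
  have hcount : 𝒢.Countable := hc 𝒢 (fun G hG => by
    obtain ⟨h1, a, -, b, -, rfl⟩ := h𝒢.prop.1 G hG
    refine ⟨?_, h1⟩
    exact (go.ioi a).inter (go.iio b)) h𝒢.prop.2
  have hsel : ∀ G : Set X, ∃ b : Set X, b ⊆ E ∧ b.Countable ∧ (G ∈ 𝒢 → ∃ b' ∈ b, G ⊆ Iio b') := by
    intro G
    by_cases hG : G ∈ 𝒢
    · obtain ⟨h1, a, ha, b, hb, rfl⟩ := h𝒢.prop.1 G hG
      exact ⟨{b}, by simpa using hb, countable_singleton _, fun _ => ⟨b, rfl, fun x hx => hx.2⟩⟩
    · exact ⟨∅, empty_subset _, countable_empty, fun h => absurd h hG⟩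
  choose b hb1 hb2 hb3 using hsel
  obtain ⟨c, hc1, hc2⟩ := hcon (⋃ G ∈ 𝒢, b G) (iUnion₂_subset fun G _ => hb1 G)
    (hcount.biUnion fun G _ => hb2 G)
  obtain ⟨c', hc1', hc2'⟩ := hcon {c} (by simpa using hc1) (countable_singleton _)
  obtain ⟨c'', hc1'', hc2''⟩ := hcon {c'} (by simpa using hc1') (countable_singleton _)
  have hcc' : c < c' := hc2' c rfl
  have hcc'' : c' < c'' := hc2'' c' rfl
  have hdis : ∀ G ∈ 𝒢, Disjoint (Ioo c c'') G := by
    intro G hG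
    rw [Set.disjoint_left]
    intro x hx hxG
    obtain ⟨b', hb', hGb⟩ := hb3 G hG
    have h1 : x < b' := hGb hxG
    have h2 : b' < c := hc2 b' (mem_biUnion hG hb')
    exact lt_asymm (h1.trans h2) hx.1
  have hmem : insert (Ioo c c'') 𝒢 ∈ {𝒢 : Set (Set X) |
      (∀ G ∈ 𝒢, G.Nonempty ∧ ∃ a ∈ E, ∃ b ∈ E, G = Ioo a b) ∧ 𝒢.PairwiseDisjoint id} := by
    refine ⟨?_, ?_⟩
    · rintro G (rfl | hG)
      · exact ⟨⟨c', hcc', hcc''⟩, c, hc1, c'', hc1'', rfl⟩
      · exact h𝒢.prop.1 G hG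
    · exact h𝒢.prop.2.insert fun G hG _ => hdis G hG
  have := h𝒢.le_of_ge hmem (subset_insert _ _) (mem_insert _ _)
  have h1 := hdis _ this
  rw [disjoint_self] at h1
  have h2 : c' ∈ (Ioo c c'' : Set X) := ⟨hcc', hcc''⟩
  rw [h1] at h2
  exact h2

lemma ccc_coi {X : Type u} [LinearOrder X] [TopologicalSpace X] (go : IsGO X) (hc : CCC X)
    (E : Set X) : ∃ S ⊆ E, S.Countable ∧ ∀ e ∈ E, ∃ s ∈ S, s ≤ e :=
  ccc_cof (X := Xᵒᵈ) go.dual hc E

theorem ccc_HL {X : Type u} [LinearOrder X] [TopologicalSpace X] (go : IsGO X) (hc : CCC X)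
    (s : Set X) : IsLindelof s := by
  classical
  apply isLindelof_of_countable_subcover
  intro ι U hU hcov
  let R : X → X → Prop := fun x y => ∃ t : Set ι, t.Countable ∧ uIcc x y ⊆ ⋃ i ∈ t, U i
  have hRs : ∀ x y, R x y → R y x := by
    rintro x y ⟨t, h1, h2⟩
    exact ⟨t, h1, by rwa [uIcc_comm]⟩
  have hRt : ∀ x y z, R x y → R y z → R x z := by
    rintro x y z ⟨t, h1, h2⟩ ⟨t', h1', h2'⟩
    refine ⟨t ∪ t', h1.union h1', ?_⟩
    refine (uIcc_subset_uIcc_union_uIcc (b := y)).trans (union_subset ?_ ?_)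
    · exact h2.trans (biUnion_subset_biUnion_left subset_union_left)
    · exact h2'.trans (biUnion_subset_biUnion_left subset_union_right)
  have hRr : ∀ x, x ∈ ⋃ i, U i → R x x := by
    intro x hx
    obtain ⟨i, hi⟩ := mem_iUnion.1 hx
    refine ⟨{i}, countable_singleton _, ?_⟩
    simpa using hi
  have hmemU : ∀ x y, R x y → y ∈ ⋃ i, U i := by
    rintro x y ⟨t, h1, h2⟩
    have := h2 right_mem_uIcc
    simp only [mem_iUnion, exists_prop] at this
    obtain ⟨i, -, hi⟩ := this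
    exact mem_iUnion.2 ⟨i, hi⟩
  have hopen : ∀ x, IsOpen {y | R x y} := by
    intro x
    rw [isOpen_iff_forall_mem_open]
    intro y hy
    obtain ⟨i, hi⟩ := mem_iUnion.1 (hmemU x y hy)
    obtain ⟨V, h1, h2, h3, h4⟩ := go.conv y (U i) (hU i) hi
    refine ⟨V, ?_, h1, h2⟩
    intro z hz
    refine hRt x y z hy ⟨{i}, countable_singleton _, ?_⟩
    intro w hw
    simp only [mem_iUnion, mem_singleton_iff, exists_prop, exists_eq_left]
    rcases le_total y z with h | h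
    · rw [uIcc_of_le h] at hw
      exact h3 (h4 y z w h2 hz hw.1 hw.2)
    · rw [uIcc_of_ge h] at hw
      exact h3 (h4 z y w hz h2 hw.1 hw.2)
  have hcls : ((fun x => {y | R x y}) '' (⋃ i, U i)).Countable := by
    apply hc
    · rintro _ ⟨x, hx, rfl⟩
      exact ⟨hopen x, x, hRr x hx⟩
    · rintro _ ⟨x, hx, rfl⟩ _ ⟨y, hy, rfl⟩ hne
      rw [Function.onFun, Set.disjoint_left]
      intro z hz1 hz2
      apply hne
      ext w
      have hxy : R x y := hRt x z y hz1 (hRs y z hz2)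
      exact ⟨fun h => hRt y x w (hRs x y hxy) h, fun h => hRt x y w hxy h⟩
  -- each class is covered by countably many
  have hone : ∀ x, ∃ t : Set ι, t.Countable ∧ {y | R x y} ⊆ ⋃ i ∈ t, U i := by
    intro x
    obtain ⟨S, hS1, hS2, hS3⟩ := ccc_cof go hc {y | R x y}
    obtain ⟨T, hT1, hT2, hT3⟩ := ccc_coi go hc {y | R x y}
    have : ∀ a b : X, ∃ t : Set ι, t.Countable ∧ (R a b → uIcc a b ⊆ ⋃ i ∈ t, U i) := by
      intro a b
      by_cases h : R a b
      · obtain ⟨t, h1, h2⟩ := h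
        exact ⟨t, h1, fun _ => h2⟩
      · exact ⟨∅, countable_empty, fun h' => absurd h' h⟩
    choose t ht1 ht2 using this
    refine ⟨⋃ a ∈ T, ⋃ b ∈ S, t a b, hT2.biUnion fun a _ => hS2.biUnion fun b _ => ht1 a b, ?_⟩
    intro y hy
    obtain ⟨b, hb, hyb⟩ := hS3 y hy
    obtain ⟨a, ha, hay⟩ := hT3 y hy
    have hRab : R a b := hRt a x b (hRs x a (hT1 ha)) (hS1 hb)
    have h1 := ht2 a b hRab (mem_uIcc_of_le hay hyb)
    simp only [mem_iUnion, exists_prop] at h1 ⊢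
    obtain ⟨i, hi, hyi⟩ := h1
    exact ⟨i, ⟨a, ha, b, hb, hi⟩, hyi⟩
  have hone' : ∀ E ∈ ((fun x => {y | R x y}) '' (⋃ i, U i)), ∃ t : Set ι, t.Countable ∧
      E ⊆ ⋃ i ∈ t, U i := by
    rintro _ ⟨x, hx, rfl⟩
    exact hone x
  choose! t ht1 ht2 using hone'
  refine ⟨⋃ E ∈ ((fun x => {y | R x y}) '' (⋃ i, U i)), t E, hcls.biUnion ht1, ?_⟩
  intro x hx
  have hxE : {y | R x y} ∈ ((fun x => {y | R x y}) '' (⋃ i, U i)) :=
    mem_image_of_mem _ (hcov hx)
  have h1 := ht2 _ hxE (hRr x (hcov hx))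
  simp only [mem_iUnion, exists_prop] at h1
  obtain ⟨i, hi, hxi⟩ := h1
  exact mem_biUnion (mem_biUnion hxE hi) hxi

lemma HS_sub {X : Type u} [TopologicalSpace X] (hs : HS X) (Z : Set X) : HS Z := by
  intro Y
  obtain ⟨F, C, hF1, hF2, hC1, hC2, hC3, hnet⟩ := hs (Subtype.val '' Y)
  have hm : ∀ y : Z, y ∈ Y → y.1 ∈ (Subtype.val '' Y : Set X) := fun y hy => mem_image_of_mem _ hy
  refine ⟨fun n => (fun s => Subtype.val ⁻¹' s) '' F n, fun y => Subtype.val ⁻¹' C y.1,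
    ?_, ?_, ?_, ?_, ?_, ?_⟩
  · intro n y hy
    obtain ⟨U, h1, h2, h3⟩ := hF1 n y.1 (hm y hy)
    refine ⟨Subtype.val ⁻¹' U, isOpen_induced_iff.2 ⟨U, h1, rfl⟩, h2, ?_⟩
    refine (h3.image (fun s => (Subtype.val ⁻¹' s : Set Z))).subset ?_
    rintro _ ⟨⟨s, hs, rfl⟩, x, hx1, hx2⟩
    exact ⟨s, ⟨hs, x.1, hx1, hx2⟩, rfl⟩
  · rintro n _ ⟨s, hs, rfl⟩ x hx
    obtain ⟨y, hy, hyx⟩ := hF2 n s hs hx
    rwa [Subtype.ext hyx] at hy
  · intro y hy
    refine ⟨(hC1 _ (hm y hy)).1, ?_⟩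
    intro x hx
    obtain ⟨z, hz, hzx⟩ := (hC1 _ (hm y hy)).2 hx
    rwa [Subtype.ext hzx] at hz
  · intro y hy
    obtain ⟨K, hK1, hK2⟩ := hC2 _ (hm y hy)
    refine ⟨Subtype.val ⁻¹' K, hK1.preimage continuous_subtype_val, ?_⟩
    simp only [hK2]
    ext x
    simp
  · intro y hy u hu hcov
    choose O hO1 hO2 using fun n => isOpen_induced_iff.1 (hu n)
    obtain ⟨t, ht⟩ := hC3 _ (hm y hy) O hO1 (by
      intro x hx
      obtain ⟨z, hz, rfl⟩ := (hC1 _ (hm y hy)).2 hx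
      have := hcov (a := z) hx
      obtain ⟨n, hn⟩ := mem_iUnion.1 this
      rw [← hO2 n] at hn
      exact mem_iUnion.2 ⟨n, hn⟩)
    refine ⟨t, ?_⟩
    intro x hx
    have h1 := ht (show x.1 ∈ C y.1 from hx)
    simp only [mem_iUnion, exists_prop] at h1 ⊢
    obtain ⟨n, hn, hxn⟩ := h1
    refine ⟨n, hn, ?_⟩
    rw [← hO2 n]
    exact hxn
  · intro y hy U hU hCU
    obtain ⟨O, hO, rfl⟩ := isOpen_induced_iff.1 hU
    obtain ⟨n, s, h1, h2, h3⟩ := hnet _ (hm y hy) O hO (by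
      intro x hx
      obtain ⟨z, hz, rfl⟩ := (hC1 _ (hm y hy)).2 hx
      exact hCU (a := z) hx)
    exact ⟨n, Subtype.val ⁻¹' s, ⟨s, h1, rfl⟩, preimage_mono h2, preimage_mono h3⟩

lemma exists_wo {X : Type u} (hX : Cardinal.mk X = Cardinal.aleph 1) :
    ∃ r : X → X → Prop, IsWellOrder X r ∧ ∀ a, {b | r b a}.Countable := by
  obtain ⟨r, hr, hord⟩ := Cardinal.exists_ord_eq X
  refine ⟨r, hr, fun a => ?_⟩
  have h1 : Cardinal.mk {b | r b a} < Cardinal.mk X := by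
    have := Ordinal.typein_lt_type r a
    rw [← hord] at this
    have h2 := Cardinal.lt_ord.1 this
    rwa [Ordinal.card_typein] at h2
  rw [hX] at h1
  have h3 : Cardinal.mk {b | r b a} < Order.succ Cardinal.aleph0 := by
    rw [Cardinal.succ_aleph0]; exact h1
  exact Cardinal.le_aleph0_iff_set_countable.1 (Order.lt_succ_iff.1 h3)

/-- Main theorem, set form. -/
theorem main {X : Type u} [LinearOrder X] [TopologicalSpace X] (go : IsGO X) (hs : HS X)
    (hL : IsLindelof (univ : Set X)) : CCC X := by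
  classical
  by_contra hcc
  unfold CCC at hcc
  push Not at hcc
  obtain ⟨𝒢, h𝒢1, h𝒢2, h𝒢3⟩ := hcc
  have hsel : ∀ G : 𝒢, ∃ x : X, x ∈ (G : Set X) := fun G => (h𝒢1 G.1 G.2).2
  choose x hx using hsel
  have hinj : Function.Injective x := by
    intro G G' h
    by_contra hne
    have := h𝒢2 G.2 G'.2 (fun h' => hne (Subtype.ext h'))
    rw [Function.onFun, Set.disjoint_left] at this
    exact this (hx G) (h ▸ hx G')
  have hunc : ¬ (range x).Countable := by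
    intro h
    apply h𝒢3
    have h2 : (univ : Set 𝒢).Countable := by
      have := h.preimage hinj
      rwa [preimage_range] at this
    exact Set.countable_coe_iff.1 (Set.countable_univ_iff.1 h2)
  have hle : Cardinal.aleph 1 ≤ Cardinal.mk (range x) := by
    rw [← Cardinal.succ_aleph0, Order.succ_le_iff]
    by_contra h
    exact hunc (Cardinal.le_aleph0_iff_set_countable.1 (not_lt.1 h))
  obtain ⟨D, hD1, hD2⟩ := Cardinal.le_mk_iff_exists_subset.1 hle
  obtain ⟨r, hwo, hr⟩ := exists_wo hD2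
  have hDunc : ¬ D.Countable := by
    intro h
    have := Cardinal.le_aleph0_iff_set_countable.2 h
    rw [hD2, ← Cardinal.succ_aleph0] at this
    exact absurd this (not_le.2 (Order.lt_succ _))
  -- the relation on X
  let Z : Set X := closure D
  have hZL : IsLindelof Z := by
    have := hL.inter_right (t := Z) isClosed_closure
    rwa [univ_inter] at this
  have hDZ : D ⊆ Z := subset_closure
  set D' : Set Z := Subtype.val ⁻¹' D with hD'
  obtain ⟨𝒜, hf⟩ := exists_fil D'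
    (fun a b => ∃ (ha : a.1 ∈ D) (hb : b.1 ∈ D), r ⟨a.1, ha⟩ ⟨b.1, hb⟩)
    (by rintro a b c ⟨ha, hb, h⟩ ⟨_, hc, h'⟩
        exact ⟨ha, hc, _root_.trans h h'⟩)
    (by intro a ha b hb
        rcases trichotomous_of r ⟨a.1, ha⟩ ⟨b.1, hb⟩ with h | h | h
        · exact Or.inl ⟨ha, hb, h⟩
        · exact Or.inr (Or.inl (Subtype.ext (Subtype.mk_eq_mk.1 h)))
        · exact Or.inr (Or.inr ⟨hb, ha, h⟩))
    (by intro a ha
        have h1 := ((hr ⟨a.1, ha⟩).image Subtype.val).preimage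
          (Subtype.val_injective (p := fun z => z ∈ Z))
        refine h1.mono ?_
        rintro b ⟨hb, hb', ha', h⟩
        exact ⟨⟨b.1, hb'⟩, h, rfl⟩)
  refine noD (isGO_sub go Z) (HS_sub hs Z) ?_ D' ?_ ?_ 𝒜 hf ?_
  · have := hZL
    rw [← Subtype.range_coe (s := Z), ← image_univ] at this
    exact (Topology.IsInducing.subtypeVal.isLindelof_iff).2 this
  · intro d hd
    obtain ⟨G, hG⟩ := hD1 hd
    have ho : IsOpen (G : Set X) := (h𝒢1 G.1 G.2).1
    refine isOpen_induced_iff.2 ⟨G.1, ho, ?_⟩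
    ext z
    simp only [mem_preimage, mem_singleton_iff]
    constructor
    · intro hz
      by_contra hne
      have hne' : z.1 ≠ d.1 := fun h => hne (Subtype.ext h)
      have ho2 : IsOpen (G.1 ∩ (Iio d.1 ∪ Ioi d.1)) :=
        ho.inter ((go.iio _).union (go.ioi _))
      obtain ⟨e, he1, he2⟩ := mem_closure_iff.1 z.2 _ ho2 ⟨hz, lt_or_gt_of_ne hne'⟩
      obtain ⟨G', hG'⟩ := hD1 he2
      have hGG' : G = G' := by
        by_contra hGG
        have := h𝒢2 G.2 G'.2 (fun h' => hGG (Subtype.ext h'))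
        rw [Function.onFun, Set.disjoint_left] at this
        exact this he1.1 (hG' ▸ hx G')
      rw [← hGG', hG] at hG'
      rcases he1.2 with h | h
      · exact absurd h (hG' ▸ lt_irrefl _)
      · exact absurd h (hG' ▸ lt_irrefl _)
    · rintro rfl
      exact hG ▸ hx G
  · intro U hU hne
    obtain ⟨O, hO, rfl⟩ := isOpen_induced_iff.1 hU
    obtain ⟨z, hz⟩ := hne
    obtain ⟨d, hd1, hd2⟩ := mem_closure_iff.1 z.2 O hO hz
    exact ⟨⟨d, hDZ hd2⟩, hd2, hd1⟩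
  · intro h
    apply hDunc
    have h1 := h.image Subtype.val
    rwa [hD', Subtype.image_preimage_coe, inter_eq_self_of_subset_right hDZ] at h1

end Pool.Agent.H479R3.GO
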