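import Mathlib
import Pool.Agent.H479R3.GO5

set_option autoImplicit false

/-! Conversion of the hypotheses. -/

namespace Pool.Agent.H479R3.GO

open Set Topology

universe u

lemma go_of {X : Type u} [LinearOrder X] [TopologicalSpace X]
    (h1 : ∀ a : X, IsOpen (Set.Ioi a) ∧ IsOpen (Set.Iio a))
    (h2 : TopologicalSpace.IsTopologicalBasis {U : Set X | IsOpen U ∧ U.OrdConnected}) :
    IsGO X where
  ioi := fun a => (h1 a).1
  iio := fun a => (h1 a).2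
  conv := fun x U hU hx => by
    obtain ⟨V, hV1, hV2, hV3⟩ := h2.exists_subset_of_mem_open hx hU
    exact ⟨V, hV1.1, hV2, hV3, fun a b c ha hb hac hcb => hV1.2.out ha hb ⟨hac, hcb⟩⟩

lemma sig_of {X : Type u} [TopologicalSpace X] (Y : Set X)
    (h : ∃ (F : ℕ → Set (Set ↥Y)) (K : Set (Set ↥Y)),
      (∀ n, LocallyFinite (fun s : F n => (s : Set ↥Y))) ∧
      (∀ n, ∀ s ∈ F n, IsClosed s) ∧
      (∀ y : ↥Y, ∃ k ∈ K, y ∈ k) ∧
      (∀ k ∈ K, IsClosed k ∧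
        ∀ u : ℕ → Set ↥Y, (∀ n, IsOpen (u n)) → k ⊆ ⋃ n, u n →
          ∃ t : Finset ℕ, k ⊆ ⋃ n ∈ t, u n) ∧
      (∀ k ∈ K, ∀ U : Set ↥Y, IsOpen U → k ⊆ U →
          ∃ n, ∃ s ∈ F n, k ⊆ s ∧ s ⊆ U)) : Sig Y := by
  classical
  obtain ⟨F, K, hF, -, hK1, hK2, hnet⟩ := h
  choose k hk1 hk2 using hK1
  let C : X → Set X := fun y => if hy : y ∈ Y then Subtype.val '' k ⟨y, hy⟩ else ∅
  have hC : ∀ y (hy : y ∈ Y), C y = Subtype.val '' k ⟨y, hy⟩ := fun y hy => dif_pos hy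
  refine ⟨fun n => (fun s => Subtype.val '' s) '' F n, C, ?_, ?_, ?_, ?_, ?_, ?_⟩
  · intro n y hy
    obtain ⟨t, ht1, ht2⟩ := hF n ⟨y, hy⟩
    obtain ⟨t', ht', hto, hty⟩ := mem_nhds_iff.1 ht1
    obtain ⟨U, hU, rfl⟩ := isOpen_induced_iff.1 hto
    refine ⟨U, hU, hty, ?_⟩
    refine (ht2.image (fun s : F n => (Subtype.val '' (s : Set Y) : Set X))).subset ?_
    rintro _ ⟨⟨s, hs, rfl⟩, x, ⟨z, hz, rfl⟩, hx2⟩
    exact ⟨⟨s, hs⟩, ⟨z, hz, ht' hx2⟩, rfl⟩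
  · rintro n _ ⟨s, hs, rfl⟩ x ⟨z, hz, rfl⟩
    exact z.2
  · intro y hy
    rw [hC y hy]
    refine ⟨⟨⟨y, hy⟩, hk2 _, rfl⟩, ?_⟩
    rintro x ⟨z, hz, rfl⟩
    exact z.2
  · intro y hy
    obtain ⟨O, hO, hO2⟩ := isClosed_induced_iff.1 (hK2 _ (hk1 ⟨y, hy⟩)).1
    refine ⟨O, hO, ?_⟩
    rw [hC y hy, ← hO2, Subtype.image_preimage_coe]
  · intro y hy u hu hcov
    rw [hC y hy] at hcov ⊢
    obtain ⟨t, ht⟩ := (hK2 _ (hk1 ⟨y, hy⟩)).2 (fun n => Subtype.val ⁻¹' u n)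
      (fun n => (hu n).preimage continuous_subtype_val) (by
        intro z hz
        obtain ⟨n, hn⟩ := mem_iUnion.1 (hcov (mem_image_of_mem _ hz))
        exact mem_iUnion.2 ⟨n, hn⟩)
    refine ⟨t, ?_⟩
    rintro x ⟨z, hz, rfl⟩
    have h1 := ht hz
    simp only [mem_iUnion, exists_prop] at h1 ⊢
    exact h1
  · intro y hy U hU hCU
    rw [hC y hy] at hCU ⊢
    obtain ⟨n, s, hs1, hs2, hs3⟩ := hnet _ (hk1 ⟨y, hy⟩) (Subtype.val ⁻¹' U)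
      (hU.preimage continuous_subtype_val) (by
        intro z hz
        exact hCU (mem_image_of_mem _ hz))
    exact ⟨n, Subtype.val '' s, ⟨s, hs1, rfl⟩, image_mono hs2, by
      rintro x ⟨z, hz, rfl⟩
      exact hs3 hz⟩

end Pool.Agent.H479R3.GO
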