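import Mathlib
import Pool.Agent.H479R3.GO6

set_option autoImplicit false

/-! Metrization of GO spaces from a sigma-closed-discrete good set. -/

namespace Pool.Agent.H479R3.GO

open Set Topology Filter

universe u

theorem metr_of_seq {X : Type u} [TopologicalSpace X] [T0Space X] (V : ℕ → Set (X × X))
    (hrefl : ∀ n x, (x, x) ∈ V n) (hsymm : ∀ n x y, (x, y) ∈ V n → (y, x) ∈ V n)
    (hanti : ∀ n, V (n + 1) ⊆ V n)
    (hcomp : ∀ n x y z, (x, y) ∈ V (n + 1) → (y, z) ∈ V (n + 1) → (x, z) ∈ V n)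
    (hnhds : ∀ x n, {y | (x, y) ∈ V n} ∈ 𝓝 x)
    (hbase : ∀ x, ∀ U ∈ 𝓝 x, ∃ n, {y | (x, y) ∈ V n} ⊆ U) :
    TopologicalSpace.MetrizableSpace X := by
  have hA : Antitone V := antitone_nat_of_succ_le hanti
  have hb : (⨅ n, 𝓟 (V n)).HasAntitoneBasis V :=
    ⟨hasBasis_iInf_principal hA.directed_ge, hA⟩
  let us : UniformSpace X :=
    { uniformity := ⨅ n, 𝓟 (V n)
      symm := by
        refine (hb.1.tendsto_iff hb.1).2 fun n _ => ⟨n, trivial, fun p hp => hsymm n _ _ hp⟩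
      comp := by
        refine ((hb.1.lift' (monotone_id.relComp monotone_id)).le_basis_iff hb.1).2 ?_
        intro n _
        refine ⟨n + 1, trivial, ?_⟩
        rintro ⟨x, z⟩ ⟨y, h1, h2⟩
        exact hcomp n x y z h1 h2
      nhds_eq_comap_uniformity := by
        intro x
        have hc := hb.1.comap (Prod.mk x)
        apply Filter.ext
        intro s
        rw [hc.mem_iff]
        constructor
        · intro hs
          obtain ⟨n, hn⟩ := hbase x s hs
          exact ⟨n, trivial, hn⟩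
        · rintro ⟨n, -, hn⟩
          exact mem_of_superset (hnhds x n) hn }
  have : IsCountablyGenerated (uniformity X) := hb.isCountablyGenerated
  exact UniformSpace.metrizableSpace

/-- Closed discrete sets. -/
def CD {X : Type u} [TopologicalSpace X] (S : Set X) : Prop :=
  ∀ p : X, ∃ O : Set X, IsOpen O ∧ p ∈ O ∧ (O ∩ S).Finite

lemma CD.union {X : Type u} [TopologicalSpace X] {S T : Set X} (hS : CD S) (hT : CD T) :
    CD (S ∪ T) := by
  intro p
  obtain ⟨O, h1, h2, h3⟩ := hS p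
  obtain ⟨O', h1', h2', h3'⟩ := hT p
  refine ⟨O ∩ O', h1.inter h1', ⟨h2, h2'⟩, (h3.union h3').subset ?_⟩
  rintro x ⟨⟨hx1, hx2⟩, hx | hx⟩
  · exact Or.inl ⟨hx1, hx⟩
  · exact Or.inr ⟨hx2, hx⟩

lemma CD.mono {X : Type u} [TopologicalSpace X] {S T : Set X} (hT : CD T) (h : S ⊆ T) :
    CD S := by
  intro p
  obtain ⟨O, h1, h2, h3⟩ := hT p
  exact ⟨O, h1, h2, h3.subset (inter_subset_inter_right _ h)⟩

lemma IsGO.t1 {X : Type u} [LinearOrder X] [TopologicalSpace X] (go : IsGO X) : T1Space X :=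
  ⟨fun a => by
    have h : ({a} : Set X)ᶜ = Iio a ∪ Ioi a := by
      ext x
      simp [lt_or_lt_iff_ne]
    rw [← isOpen_compl_iff, h]
    exact (go.iio a).union (go.ioi a)⟩

lemma CD.strong {X : Type u} [LinearOrder X] [TopologicalSpace X] (go : IsGO X) {S : Set X}
    (hS : CD S) (p : X) : ∃ O : Set X, IsOpen O ∧ p ∈ O ∧ (∀ x ∈ O, x ∈ S → x = p) ∧
      ∀ a b c : X, a ∈ O → b ∈ O → a ≤ c → c ≤ b → c ∈ O := by
  have := go.t1
  obtain ⟨O, h1, h2, h3⟩ := hS p
  obtain ⟨V, hV1, hV2, hV3, hV4⟩ := go.conv p (O ∩ ((O ∩ S) \ {p})ᶜ)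
    (h1.inter (h3.subset diff_subset).isClosed.isOpen_compl) ⟨h2, fun h => h.2 rfl⟩
  refine ⟨V, hV1, hV2, ?_, hV4⟩
  intro x hx hxS
  by_contra hne
  exact (hV3 hx).2 ⟨⟨(hV3 hx).1, hxS⟩, hne⟩

lemma cd_step {X : Type u} [LinearOrder X] [TopologicalSpace X] (go : IsGO X) {T : Set X}
    (hT : CD T) : ∃ T' : Set X, CD T' ∧ T ⊆ T' ∧
      ∀ a ∈ T, ¬ IsOpen (Iic a) → ∀ b ∈ T, a < b → ∃ h ∈ T', a < h ∧ h < b := by
  classical
  choose O hO1 hO2 hO3 hO4 using fun a => hT.strong go a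
  have hex : ∀ a : X, ∃ h : X, ¬ IsOpen (Iic a) → h ∈ O a ∧ a < h := by
    intro a
    by_cases ho : IsOpen (Iic a)
    · exact ⟨a, fun h => absurd ho h⟩
    · by_contra hno
      push Not at hno
      apply ho
      have : Iic a = Iio a ∪ O a := by
        ext x
        constructor
        · intro hx
          rcases (mem_Iic.1 hx).lt_or_eq with h | h
          · exact Or.inl h
          · exact Or.inr (h ▸ hO2 a)
        · rintro (h | h)
          · exact le_of_lt h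
          · exact (hno x).2 h
      rw [this]
      exact (go.iio a).union (hO1 a)
  choose h hh using hex
  have hlt : ∀ a ∈ T, ¬ IsOpen (Iic a) → ∀ b ∈ T, a < b → h a < b := by
    intro a ha ho b hb hab
    by_contra hle
    rw [not_lt] at hle
    have := hO3 a b (hO4 a a (h a) b (hO2 a) (hh a ho).1 hab.le hle) hb
    exact hab.ne this.symm
  refine ⟨T ∪ h '' {a ∈ T | ¬ IsOpen (Iic a)}, hT.union ?_, subset_union_left, ?_⟩
  · intro p
    obtain ⟨V, hV1, hV2, hV3, hV4⟩ := hT.strong go p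
    refine ⟨V, hV1, hV2, ?_⟩
    have hsub : {a | a ∈ T ∧ ¬ IsOpen (Iic a) ∧ a ∉ V ∧ h a ∈ V}.Subsingleton := by
      have key : ∀ a b : X, a ∈ {a | a ∈ T ∧ ¬ IsOpen (Iic a) ∧ a ∉ V ∧ h a ∈ V} →
          b ∈ {a | a ∈ T ∧ ¬ IsOpen (Iic a) ∧ a ∉ V ∧ h a ∈ V} → ¬ a < b := by
        intro a b ha hb hab
        have h1 := hlt a ha.1 ha.2.1 b hb.1 hab
        have h2 := (hh b hb.2.1).2
        exact hb.2.2.1 (hV4 (h a) (h b) b ha.2.2.2 hb.2.2.2 h1.le h2.le)
      intro a ha b hb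
      exact le_antisymm (not_lt.1 (key b a hb ha)) (not_lt.1 (key a b ha hb))
    refine ((hsub.finite.image h).union (finite_singleton (h p))).subset ?_
    rintro x ⟨hxV, a, ⟨haT, hao⟩, rfl⟩
    by_cases haV : a ∈ V
    · right
      rw [hV3 a haV haT]
      rfl
    · left
      exact mem_image_of_mem _ ⟨haT, hao, haV, hxV⟩
  · intro a ha ho b hb hab
    exact ⟨h a, Or.inr (mem_image_of_mem _ ⟨ha, ho⟩), (hh a ho).2, hlt a ha ho b hb hab⟩

/-- the relation defining the entourages -/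
def Wr {X : Type u} [LinearOrder X] [TopologicalSpace X] (T : Set X) (x y : X) : Prop :=
  (∀ a ∈ T, ∀ b ∈ T, x ≤ a → a ≤ y → x ≤ b → b ≤ y → a = b) ∧
  (∀ a ∈ T, IsOpen (Ici a) → x < a → a ≤ y → False) ∧
  (∀ a ∈ T, IsOpen (Iic a) → x ≤ a → a < y → False)

lemma Wr.mono {X : Type u} [LinearOrder X] [TopologicalSpace X] {T : Set X} {x y x' y' : X}
    (h : Wr T x y) (hx : x ≤ x') (hy : y' ≤ y) : Wr T x' y' :=
  ⟨fun a ha b hb h1 h2 h3 h4 => h.1 a ha b hb (hx.trans h1) (h2.trans hy) (hx.trans h3)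
    (h4.trans hy), fun a ha ho h1 h2 => h.2.1 a ha ho (lt_of_le_of_lt hx h1) (h2.trans hy),
    fun a ha ho h1 h2 => h.2.2 a ha ho (hx.trans h1) (lt_of_lt_of_le h2 hy)⟩

lemma Wr.anti {X : Type u} [LinearOrder X] [TopologicalSpace X] {S T : Set X} {x y : X}
    (h : Wr T x y) (hS : S ⊆ T) : Wr S x y :=
  ⟨fun a ha b hb => h.1 a (hS ha) b (hS hb), fun a ha => h.2.1 a (hS ha),
    fun a ha => h.2.2 a (hS ha)⟩

lemma Wr.comp {X : Type u} [LinearOrder X] [TopologicalSpace X] {S T : Set X} {x y z : X}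
    (hS : S ⊆ T) (hst : ∀ a ∈ S, ¬ IsOpen (Iic a) → ∀ b ∈ S, a < b → ∃ h ∈ T, a < h ∧ h < b)
    (hxy : x ≤ y) (hyz : y ≤ z) (h1 : Wr T x y) (h2 : Wr T y z) : Wr S x z := by
  have key : ∀ a ∈ S, ∀ b ∈ S, x ≤ a → b ≤ z → a < b → False := by
    intro a ha b hb hxa hbz hab
    have hay : a < y := by
      by_contra h
      rw [not_lt] at h
      exact hab.ne (h2.1 a (hS ha) b (hS hb) h (hab.le.trans hbz) (h.trans hab.le) hbz)
    have hyb : y < b := by
      by_contra h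
      rw [not_lt] at h
      exact hab.ne (h1.1 a (hS ha) b (hS hb) hxa (hab.le.trans h) (hxa.trans hab.le) h)
    have hao : ¬ IsOpen (Iic a) := fun ho => h1.2.2 a (hS ha) ho hxa hay
    obtain ⟨c, hc, hac, hcb⟩ := hst a ha hao b hb hab
    rcases le_total c y with h | h
    · exact hac.ne (h1.1 a (hS ha) c hc hxa hay.le (hxa.trans hac.le) h)
    · exact hcb.ne (h2.1 c hc b (hS hb) h (hcb.le.trans hbz) hyb.le hbz)
  refine ⟨?_, ?_, ?_⟩
  · intro a ha b hb h3 h4 h5 h6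
    rcases lt_trichotomy a b with h | h | h
    · exact (key a ha b hb h3 h6 h).elim
    · exact h
    · exact (key b hb a ha h5 h4 h).elim
  · intro a ha ho h3 h4
    rcases le_or_gt a y with h | h
    · exact h1.2.1 a (hS ha) ho h3 h
    · exact h2.2.1 a (hS ha) ho h h4
  · intro a ha ho h3 h4
    rcases lt_or_ge a y with h | h
    · exact h1.2.2 a (hS ha) ho h3 h
    · exact h2.2.2 a (hS ha) ho h h4

lemma left_pts {X : Type u} [LinearOrder X] [TopologicalSpace X] (go : IsGO X) (D : Set X)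
    (hdense : ∀ U : Set X, IsOpen U → U.Nonempty → ∃ d ∈ D, d ∈ U) (x : X)
    (hx : ¬ IsOpen (Ici x)) (V : Set X) (hV : IsOpen V) (hxV : x ∈ V) :
    ∃ q ∈ D, ∃ q' ∈ D, q ∈ V ∧ q' ∈ V ∧ q < q' ∧ q' < x := by
  have hlim : ∀ W : Set X, IsOpen W → x ∈ W → ∃ v ∈ W, v < x := by
    intro W hW hxW
    by_contra hno
    push Not at hno
    apply hx
    have : Ici x = Ioi x ∪ W := by
      ext y
      constructor
      · intro hy
        rcases (mem_Ici.1 hy).lt_or_eq with h | h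
        · exact Or.inl h
        · exact Or.inr (h ▸ hxW)
      · rintro (h | h)
        · exact le_of_lt h
        · exact hno y h
    rw [this]
    exact (go.ioi x).union hW
  obtain ⟨v, hvV, hvx⟩ := hlim V hV hxV
  obtain ⟨v', hv', hvx'⟩ := hlim (V ∩ Ioi v) (hV.inter (go.ioi v)) ⟨hxV, hvx⟩
  obtain ⟨q', hq'D, ⟨hq'V, hq'v⟩, hq'x⟩ := hdense ((V ∩ Ioi v) ∩ Iio x)
    ((hV.inter (go.ioi v)).inter (go.iio x)) ⟨v', hv', hvx'⟩
  obtain ⟨q, hqD, hqV, hqq'⟩ := hdense (V ∩ Iio q') (hV.inter (go.iio q')) ⟨v, hvV, hq'v⟩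
  exact ⟨q, hqD, q', hq'D, hqV, hq'V, hqq', hq'x⟩

lemma right_pts {X : Type u} [LinearOrder X] [TopologicalSpace X] (go : IsGO X) (D : Set X)
    (hdense : ∀ U : Set X, IsOpen U → U.Nonempty → ∃ d ∈ D, d ∈ U) (x : X)
    (hx : ¬ IsOpen (Iic x)) (V : Set X) (hV : IsOpen V) (hxV : x ∈ V) :
    ∃ q ∈ D, ∃ q' ∈ D, q ∈ V ∧ q' ∈ V ∧ q' < q ∧ x < q' :=
  left_pts (X := Xᵒᵈ) go.dual D hdense x hx V hV hxV

/-- Metrization theorem. -/
theorem metrize {X : Type u} [LinearOrder X] [TopologicalSpace X] (go : IsGO X)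
    (D : ℕ → Set X) (hCD : ∀ n, CD (D n))
    (hgood : ∀ x, x ∈ ⋃ n, D n ∨ (x ∈ closure ((⋃ n, D n) ∩ Iio x) ∧
      x ∈ closure ((⋃ n, D n) ∩ Ioi x))) :
    TopologicalSpace.MetrizableSpace X := by
  classical
  have := go.t1
  have hdense : ∀ U : Set X, IsOpen U → U.Nonempty → ∃ d ∈ ⋃ n, D n, d ∈ U := by
    rintro U hU ⟨x, hx⟩
    rcases hgood x with h | h
    · exact ⟨x, h, hx⟩
    · obtain ⟨d, hd1, hd2⟩ := mem_closure_iff.1 h.1 U hU hx
      exact ⟨d, hd2.1, hd1⟩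
  have hJL : ∀ x : X, IsOpen (Ici x) → x ∈ ⋃ n, D n := by
    intro x hx
    rcases hgood x with h | h
    · exact h
    · obtain ⟨d, hd1, hd2⟩ := mem_closure_iff.1 h.1 (Ici x) hx (mem_Ici.2 le_rfl)
      exact absurd hd2.2 (not_lt.2 hd1)
  have hJR : ∀ x : X, IsOpen (Iic x) → x ∈ ⋃ n, D n := by
    intro x hx
    rcases hgood x with h | h
    · exact h
    · obtain ⟨d, hd1, hd2⟩ := mem_closure_iff.1 h.2 (Iic x) hx (mem_Iic.2 le_rfl)
      exact absurd hd2.2 (not_lt.2 hd1)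
  choose nx hnx1 hnx2 hnx3 using fun T : {T : Set X // CD T} => cd_step go T.2
  let H : ℕ → {T : Set X // CD T} := fun n => Nat.rec ⟨D 0, hCD 0⟩
    (fun k T => ⟨nx T ∪ D (k + 1), (hnx1 T).union (hCD (k + 1))⟩) n
  have hH0 : (H 0).1 = D 0 := rfl
  have hHs : ∀ n, (H (n + 1)).1 = nx (H n) ∪ D (n + 1) := fun n => rfl
  have hHsub : ∀ n, (H n).1 ⊆ (H (n + 1)).1 := fun n => by
    rw [hHs]; exact (hnx2 (H n)).trans subset_union_left
  have hHD : ∀ n, D n ⊆ (H n).1 := by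
    intro n
    cases n with
    | zero => rw [hH0]
    | succ k => rw [hHs]; exact subset_union_right
  have hHmono : Monotone (fun n => (H n).1) := monotone_nat_of_le_succ hHsub
  have hHst : ∀ n, ∀ a ∈ (H n).1, ¬ IsOpen (Iic a) → ∀ b ∈ (H n).1, a < b →
      ∃ h ∈ (H (n + 1)).1, a < h ∧ h < b := by
    intro n a ha ho b hb hab
    obtain ⟨h, h1, h2⟩ := hnx3 (H n) a ha ho b hb hab
    exact ⟨h, by rw [hHs]; exact Or.inl h1, h2⟩
  let V : ℕ → Set (X × X) := fun n => {p | Wr (H n).1 (min p.1 p.2) (max p.1 p.2)}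
  have hanti : ∀ n, V (n + 1) ⊆ V n := fun n p hp => Wr.anti hp (hHsub n)
  refine metr_of_seq V ?_ ?_ hanti ?_ ?_ ?_
  · intro n x
    change Wr (H n).1 (min x x) (max x x)
    rw [min_self, max_self]
    exact ⟨fun a _ b _ h1 h2 h3 h4 => (le_antisymm h2 h1).trans (le_antisymm h3 h4),
      fun a _ _ h1 h2 => absurd h1 (not_lt.2 h2), fun a _ _ h1 h2 => absurd h2 (not_lt.2 h1)⟩
  · intro n x y h
    change Wr (H n).1 (min y x) (max y x)
    rw [min_comm, max_comm]
    exact h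
  · intro n x y z h1 h2
    change Wr (H (n + 1)).1 (min x y) (max x y) at h1
    change Wr (H (n + 1)).1 (min y z) (max y z) at h2
    change Wr (H n).1 (min x z) (max x z)
    rcases le_total x y with hxy | hxy <;> rcases le_total y z with hyz | hyz
    · rw [min_eq_left hxy, max_eq_right hxy] at h1
      rw [min_eq_left hyz, max_eq_right hyz] at h2
      rw [min_eq_left (hxy.trans hyz), max_eq_right (hxy.trans hyz)]
      exact Wr.comp (hHsub n) (hHst n) hxy hyz h1 h2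
    · rw [min_eq_left hxy, max_eq_right hxy] at h1
      rw [min_eq_right hyz, max_eq_left hyz] at h2
      rcases le_total x z with hxz | hxz
      · rw [min_eq_left hxz, max_eq_right hxz]
        exact (h1.mono le_rfl hyz).anti (hHsub n)
      · rw [min_eq_right hxz, max_eq_left hxz]
        exact (h2.mono le_rfl hxy).anti (hHsub n)
    · rw [min_eq_right hxy, max_eq_left hxy] at h1
      rw [min_eq_left hyz, max_eq_right hyz] at h2
      rcases le_total x z with hxz | hxz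
      · rw [min_eq_left hxz, max_eq_right hxz]
        exact (h2.mono hxy le_rfl).anti (hHsub n)
      · rw [min_eq_right hxz, max_eq_left hxz]
        exact (h1.mono hyz le_rfl).anti (hHsub n)
    · rw [min_eq_right hxy, max_eq_left hxy] at h1
      rw [min_eq_right hyz, max_eq_left hyz] at h2
      rw [min_eq_right (hyz.trans hxy), max_eq_left (hyz.trans hxy)]
      exact Wr.comp (hHsub n) (hHst n) hyz hxy h2 h1
  · intro x n
    obtain ⟨O, hO1, hO2, hO3, hO4⟩ := (H n).2.strong go x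
    have hex : ∃ O' : Set X, IsOpen O' ∧ x ∈ O' ∧ O' ⊆ O ∧ (IsOpen (Ici x) → O' ⊆ Ici x) ∧
        (IsOpen (Iic x) → O' ⊆ Iic x) := by
      by_cases ha : IsOpen (Ici x) <;> by_cases hb : IsOpen (Iic x)
      · exact ⟨(O ∩ Ici x) ∩ Iic x, (hO1.inter ha).inter hb, ⟨⟨hO2, le_rfl⟩, le_rfl⟩,
          fun y hy => hy.1.1, fun _ y hy => hy.1.2, fun _ y hy => hy.2⟩
      · exact ⟨O ∩ Ici x, hO1.inter ha, ⟨hO2, le_rfl⟩, fun y hy => hy.1, fun _ y hy => hy.2,
          fun h => absurd h hb⟩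
      · exact ⟨O ∩ Iic x, hO1.inter hb, ⟨hO2, le_rfl⟩, fun y hy => hy.1, fun h => absurd h ha,
          fun _ y hy => hy.2⟩
      · exact ⟨O, hO1, hO2, le_rfl, fun h => absurd h ha, fun h => absurd h hb⟩
    obtain ⟨O', hO'1, hO'2, hO'3, hO'4, hO'5⟩ := hex
    refine mem_of_superset (hO'1.mem_nhds hO'2) ?_
    intro y hy
    have hyO := hO'3 hy
    have hax : ∀ a ∈ (H n).1, min x y ≤ a → a ≤ max x y → a = x := by
      intro a ha h1 h2
      refine hO3 a ?_ ha
      rcases le_total x y with h | h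
      · rw [min_eq_left h] at h1
        rw [max_eq_right h] at h2
        exact hO4 x y a hO2 hyO h1 h2
      · rw [min_eq_right h] at h1
        rw [max_eq_left h] at h2
        exact hO4 y x a hyO hO2 h1 h2
    refine ⟨?_, ?_, ?_⟩
    · intro a ha b hb h1 h2 h3 h4
      exact (hax a ha h1 h2).trans (hax b hb h3 h4).symm
    · intro a ha ho h1 h2
      have hax' := hax a ha h1.le h2
      rw [hax'] at h1 ho
      rcases min_lt_iff.1 h1 with h | h
      · exact lt_irrefl _ h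
      · exact absurd h (not_lt.2 (hO'4 ho hy))
    · intro a ha ho h1 h2
      have hax' := hax a ha h1 h2.le
      rw [hax'] at h2 ho
      rcases lt_max_iff.1 h2 with h | h
      · exact lt_irrefl _ h
      · exact absurd h (not_lt.2 (hO'5 ho hy))
  · intro x U hU
    obtain ⟨U', hU'1, hU'2, hU'3⟩ := mem_nhds_iff.1 hU
    obtain ⟨O, hO1, hO2, hO3, hO4⟩ := go.conv x U' hU'2 hU'3
    have hL : ∃ n, ∀ y, y < x → Wr (H n).1 y x → y ∈ O := by
      by_cases ho : IsOpen (Ici x)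
      · obtain ⟨n, hn⟩ := mem_iUnion.1 (hJL x ho)
        exact ⟨n, fun y hy hw => (hw.2.1 x (hHD n hn) ho hy le_rfl).elim⟩
      · obtain ⟨q, hq, q', hq', hqO, hq'O, hqq', hq'x⟩ := left_pts go _ hdense x ho O hO1 hO2
        obtain ⟨m, hm⟩ := mem_iUnion.1 hq
        obtain ⟨k, hk⟩ := mem_iUnion.1 hq'
        refine ⟨max m k, fun y hy hw => ?_⟩
        have hqy : q < y := by
          by_contra h
          rw [not_lt] at h
          exact hqq'.ne (hw.1 q (hHmono (le_max_left m k) (hHD m hm)) q'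
            (hHmono (le_max_right m k) (hHD k hk)) h (hqq'.le.trans hq'x.le)
            (h.trans hqq'.le) hq'x.le)
        exact hO4 q x y hqO hO2 hqy.le hy.le
    have hR : ∃ n, ∀ y, x < y → Wr (H n).1 x y → y ∈ O := by
      by_cases ho : IsOpen (Iic x)
      · obtain ⟨n, hn⟩ := mem_iUnion.1 (hJR x ho)
        exact ⟨n, fun y hy hw => (hw.2.2 x (hHD n hn) ho le_rfl hy).elim⟩
      · obtain ⟨q, hq, q', hq', hqO, hq'O, hqq', hxq'⟩ := right_pts go _ hdense x ho O hO1 hO2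
        obtain ⟨m, hm⟩ := mem_iUnion.1 hq
        obtain ⟨k, hk⟩ := mem_iUnion.1 hq'
        refine ⟨max m k, fun y hy hw => ?_⟩
        have hqy : y < q := by
          by_contra h
          rw [not_lt] at h
          exact hqq'.ne (hw.1 q' (hHmono (le_max_right m k) (hHD k hk)) q
            (hHmono (le_max_left m k) (hHD m hm)) hxq'.le (hqq'.le.trans h)
            (hxq'.le.trans hqq'.le) h)
        exact hO4 x q y hO2 hqO hy.le hqy.le
    obtain ⟨m, hm⟩ := hL
    obtain ⟨k, hk⟩ := hR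
    refine ⟨max m k, ?_⟩
    intro y hy
    have hy' : Wr (H (max m k)).1 (min x y) (max x y) := hy
    apply hU'1
    apply hO3
    rcases lt_trichotomy y x with h | h | h
    · rw [min_eq_right h.le, max_eq_left h.le] at hy'
      exact hm y h (hy'.anti (hHmono (le_max_left m k)))
    · exact h ▸ hO2
    · rw [min_eq_left h.le, max_eq_right h.le] at hy'
      exact hk y h (hy'.anti (hHmono (le_max_right m k)))

end Pool.Agent.H479R3.GO
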