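import Mathlib
import Pool.Agent.H479R3.GO7

set_option autoImplicit false

/-! Hereditarily Lindelöf and hereditarily Sigma gives a countable good set. -/

namespace Pool.Agent.H479R3.GO

open Set Topology

universe u

/-- the convex sets with end points in `A` -/
def BB {X : Type u} [LinearOrder X] (A : Set X) : Set (Set X) :=
  {B | ∃ l r : Set X, (l = univ ∨ ∃ a ∈ A, l = Ioi a) ∧ (r = univ ∨ ∃ b ∈ A, r = Iio b) ∧
    B = l ∩ r}

lemma BB_inter {X : Type u} [LinearOrder X] {A : Set X} {B B' : Set X} (h : B ∈ BB A)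
    (h' : B' ∈ BB A) : B ∩ B' ∈ BB A := by
  obtain ⟨l, r, hl, hr, rfl⟩ := h
  obtain ⟨l', r', hl', hr', rfl⟩ := h'
  refine ⟨l ∩ l', r ∩ r', ?_, ?_, inter_inter_inter_comm _ _ _ _⟩
  · rcases hl with rfl | ⟨a, ha, rfl⟩
    · rcases hl' with rfl | ⟨a', ha', rfl⟩
      · exact Or.inl (inter_self _)
      · exact Or.inr ⟨a', ha', univ_inter _⟩
    · rcases hl' with rfl | ⟨a', ha', rfl⟩
      · exact Or.inr ⟨a, ha, inter_univ _⟩
      · refine Or.inr ⟨max a a', ?_, Ioi_inter_Ioi⟩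
        rcases le_total a a' with h | h
        · rwa [max_eq_right h]
        · rwa [max_eq_left h]
  · rcases hr with rfl | ⟨a, ha, rfl⟩
    · rcases hr' with rfl | ⟨a', ha', rfl⟩
      · exact Or.inl (inter_self _)
      · exact Or.inr ⟨a', ha', univ_inter _⟩
    · rcases hr' with rfl | ⟨a', ha', rfl⟩
      · exact Or.inr ⟨a, ha, inter_univ _⟩
      · refine Or.inr ⟨min a a', ?_, Iio_inter_Iio⟩
        rcases le_total a a' with h | h
        · rwa [min_eq_left h]
        · rwa [min_eq_right h]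

lemma iic_open_of {X : Type u} [LinearOrder X] [TopologicalSpace X] (go : IsGO X) {a : X}
    (h : a ∉ closure (Ioi a)) : IsOpen (Iic a) := by
  have : Iic a = Iio a ∪ (closure (Ioi a))ᶜ := by
    ext x
    constructor
    · intro hx
      rcases (mem_Iic.1 hx).lt_or_eq with h' | h'
      · exact Or.inl h'
      · exact Or.inr (h' ▸ h)
    · rintro (h' | h')
      · exact le_of_lt h'
      · exact not_lt.1 fun hlt => h' (subset_closure hlt)
  rw [this]
  exact (go.iio a).union isClosed_closure.isOpen_compl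

lemma ici_open_of {X : Type u} [LinearOrder X] [TopologicalSpace X] (go : IsGO X) {a : X}
    (h : a ∉ closure (Iio a)) : IsOpen (Ici a) :=
  iic_open_of (X := Xᵒᵈ) go.dual h

theorem sep_core {X : Type u} [LinearOrder X] [TopologicalSpace X] (go : IsGO X)
    (F : ℕ → Set X) (C : X → Set X) (ls : LSig X F C) (A : Set X) (hA : IsClosed A)
    (h1 : ∀ a ∈ A, a ∈ closure (Ioi a) → a ∈ closure (A ∩ Ioi a))
    (h1' : ∀ a ∈ A, a ∈ closure (Iio a) → a ∈ closure (A ∩ Iio a))
    (h2 : ∀ n, ∀ B ∈ BB A, (F n ∩ B).Nonempty → (F n ∩ B ∩ A).Nonempty)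
    (d : X) (hd : d ∉ A) : False := by
  classical
  have hex : ∀ a : X, ∃ N B : Set X, a ∈ A → IsClosed N ∧ B ∈ BB A ∧ d ∈ B ∧ B ⊆ N ∧ a ∉ N := by
    intro a
    by_cases ha : a ∈ A
    · rcases lt_or_gt_of_ne (show a ≠ d from fun h => hd (h ▸ ha)) with had | had
      · by_cases hc : a ∈ closure (Ioi a)
        · obtain ⟨a', ha'1, ha'2, ha'3⟩ := mem_closure_iff.1 (h1 a ha hc) (Iio d) (go.iio d) had
          refine ⟨Ici a', Ioi a', fun _ => ⟨?_, ⟨Ioi a', univ, Or.inr ⟨a', ha'2, rfl⟩,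
            Or.inl rfl, (inter_univ _).symm⟩, ha'1, Ioi_subset_Ici_self, not_le.2 ha'3⟩⟩
          have := (go.iio a').isClosed_compl
          rwa [compl_Iio] at this
        · refine ⟨Ioi a, Ioi a, fun _ => ⟨?_, ⟨Ioi a, univ, Or.inr ⟨a, ha, rfl⟩,
            Or.inl rfl, (inter_univ _).symm⟩, had, le_rfl, lt_irrefl a⟩⟩
          have := (iic_open_of go hc).isClosed_compl
          rwa [compl_Iic] at this
      · by_cases hc : a ∈ closure (Iio a)
        · obtain ⟨a', ha'1, ha'2, ha'3⟩ := mem_closure_iff.1 (h1' a ha hc) (Ioi d) (go.ioi d) had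
          refine ⟨Iic a', Iio a', fun _ => ⟨?_, ⟨univ, Iio a', Or.inl rfl, Or.inr ⟨a', ha'2, rfl⟩,
            (univ_inter _).symm⟩, ha'1, Iio_subset_Iic_self, not_le.2 ha'3⟩⟩
          have := (go.ioi a').isClosed_compl
          rwa [compl_Ioi] at this
        · refine ⟨Iio a, Iio a, fun _ => ⟨?_, ⟨univ, Iio a, Or.inl rfl, Or.inr ⟨a, ha, rfl⟩,
            (univ_inter _).symm⟩, had, le_rfl, lt_irrefl a⟩⟩
          have := (ici_open_of go hc).isClosed_compl
          rwa [compl_Ici] at this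
    · exact ⟨∅, ∅, fun h => absurd h ha⟩
  choose N B hN using hex
  have hK : IsCompact (C d ∩ A) := (ls.comp d).inter_right hA
  obtain ⟨t, ht⟩ := hK.elim_finite_subcover (fun a : A => (N a)ᶜ)
    (fun a => (hN a a.2).1.isOpen_compl) (by
      rintro x ⟨-, hx⟩
      exact mem_iUnion.2 ⟨⟨x, hx⟩, (hN x hx).2.2.2.2⟩)
  -- intersection of the finitely many
  have hind : ∀ t : Finset A, ∃ B' ∈ BB A, d ∈ B' ∧ ∀ a ∈ t, B' ⊆ N a := by
    intro t
    induction t using Finset.induction_on with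
    | empty =>
      exact ⟨univ, ⟨univ, univ, Or.inl rfl, Or.inl rfl, (inter_univ _).symm⟩, mem_univ _,
        fun a ha => absurd ha (Finset.notMem_empty _)⟩
    | insert a t _ ih =>
      obtain ⟨B', h3, h4, h5⟩ := ih
      refine ⟨B a ∩ B', BB_inter (hN a a.2).2.1 h3, ⟨(hN a a.2).2.2.1, h4⟩, ?_⟩
      intro c hc
      rcases Finset.mem_insert.1 hc with rfl | hc
      · exact inter_subset_left.trans (hN _ c.2).2.2.2.1
      · exact inter_subset_right.trans (h5 c hc)
  obtain ⟨B', h3, h4, h5⟩ := hind t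
  set Z : Set X := A ∩ ⋂ a ∈ t, N a with hZ
  have hZc : IsClosed Z := hA.inter (isClosed_biInter fun a _ => (hN a a.2).1)
  obtain ⟨n, hn1, hn2⟩ := ls.net d Zᶜ hZc.isOpen_compl (by
    intro c hc hcZ
    have := ht ⟨hc, hcZ.1⟩
    simp only [mem_iUnion, exists_prop] at this
    obtain ⟨a, ha, hca⟩ := this
    exact hca (mem_iInter₂.1 hcZ.2 a ha))
  obtain ⟨z, ⟨hz1, hz2⟩, hz3⟩ := h2 n B' h3 ⟨d, hn1 (ls.mem d), h4⟩
  exact hn2 hz1 ⟨hz3, mem_iInter₂.2 fun a ha => h5 a ha hz2⟩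

lemma exists_W : ∃ (W : Type) (_ : LinearOrder W) (_ : WellFoundedLT W),
    (∀ a : W, (Iio a).Countable) ∧ ¬ (univ : Set W).Countable ∧
      Cardinal.mk W = Cardinal.aleph 1 := by
  classical
  obtain ⟨r, hr, hc⟩ := exists_wo (X := (Cardinal.aleph 1 : Cardinal.{0}).out)
    (Cardinal.mk_out _)
  refine ⟨(Cardinal.aleph 1 : Cardinal.{0}).out, linearOrderOfSTO r, ⟨hr.wf⟩, hc, ?_,
    Cardinal.mk_out _⟩
  intro h
  have := Cardinal.le_aleph0_iff_set_countable.2 h
  rw [Cardinal.mk_univ, Cardinal.mk_out, ← Cardinal.succ_aleph0] at this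
  exact absurd this (not_le.2 (Order.lt_succ _))

lemma rec_W {W : Type} [LinearOrder W] [WellFoundedLT W] {X : Type u} (G : Set X → X) :
    ∃ e : W → X, ∀ l, e l = G (e '' Iio l) := by
  let e : W → X := (wellFounded_lt (α := W)).fix
    (fun l ih => G {x | ∃ a, ∃ h : a < l, ih a h = x})
  refine ⟨e, fun l => ?_⟩
  have h := (wellFounded_lt (α := W)).fix_eq
    (fun l (ih : (a : W) → a < l → X) => G {x | ∃ a, ∃ h : a < l, ih a h = x}) l
  change e l = _ at h
  rw [h]
  congr 1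
  ext x
  constructor
  · rintro ⟨a, ha, rfl⟩
    exact ⟨a, ha, rfl⟩
  · rintro ⟨a, ha, rfl⟩
    exact ⟨a, ha, rfl⟩

/-- Hereditary separability. -/
theorem hsep {X : Type u} [LinearOrder X] [TopologicalSpace X] (go : IsGO X) (hs : HS X)
    (hc : CCC X) (Z : Set X) : ∃ S ⊆ Z, S.Countable ∧ Z ⊆ closure S := by
  classical
  by_contra hcon
  push Not at hcon
  have hcon' : ∀ S : Set X, ∃ z : X, S ⊆ Z → S.Countable → z ∈ Z ∧ z ∉ closure S := by
    intro S
    by_cases h : S ⊆ Z ∧ S.Countable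
    · obtain ⟨z, hz1, hz2⟩ := Set.not_subset.1 (hcon S h.1 h.2)
      exact ⟨z, fun _ _ => ⟨hz1, hz2⟩⟩
    · obtain ⟨z, -, -⟩ := Set.not_subset.1 (hcon ∅ (empty_subset _) countable_empty)
      exact ⟨z, fun h1 h2 => absurd ⟨h1, h2⟩ h⟩
  choose G hG using hcon'
  obtain ⟨W, _, _, hW1, hW2, -⟩ := exists_W
  obtain ⟨y, hy⟩ := rec_W (W := W) G
  have hyZ : ∀ l, y l ∈ Z ∧ y l ∉ closure (y '' Iio l) := by
    intro l
    induction l using WellFoundedLT.induction with
    | ind l ih =>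
      rw [hy l]
      exact hG _ (by rintro _ ⟨a, ha, rfl⟩; exact (ih a ha).1) ((hW1 l).image _)
  have hinj : Function.Injective y := by
    have key : ∀ a b, a < b → y a ≠ y b := by
      intro a b hab h
      exact (hyZ b).2 (h ▸ subset_closure (mem_image_of_mem y hab))
    intro a b h
    rcases lt_trichotomy a b with h' | h' | h'
    · exact absurd h (key a b h')
    · exact h'
    · exact absurd h.symm (key b a h')
  set Y : Set X := range y with hY
  have hYL : IsLindelof Y := ccc_HL go hc Y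
  have goY := isGO_sub go Y
  have hsY := HS_sub hs Y
  have hLY : IsLindelof (univ : Set Y) := by
    have h := hYL
    rw [← Subtype.range_coe (s := Y), ← image_univ] at h
    exact (Topology.IsInducing.subtypeVal.isLindelof_iff).2 h
  have hcY : CCC Y := main goY hsY hLY
  obtain ⟨F, C, ls⟩ := lsig_univ hLY hsY
  let y' : W → Y := fun a => ⟨y a, mem_range_self a⟩
  have hy'inj : Function.Injective y' := fun a b h => hinj (congrArg Subtype.val h)
  have hy'surj : ∀ z : Y, ∃ a, y' a = z := by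
    rintro ⟨z, a, rfl⟩
    exact ⟨a, rfl⟩
  have hy'cl : ∀ l, y' l ∉ closure (y' '' Iio l) := by
    intro l h
    rw [closure_subtype, ← image_comp] at h
    exact (hyZ l).2 h
  let 𝒜 : Set (Set Y) := {A | ∃ T : Set W, T.Countable ∧ (∀ a ∈ T, ∀ b, b < a → b ∈ T) ∧
    A = y' '' T}
  have hf : Fil (univ : Set Y) 𝒜 := by
    refine ⟨fun A _ => subset_univ A, ?_, ?_, ?_, ?_⟩
    · rintro _ ⟨T, h1, -, rfl⟩
      exact h1.image _
    · rintro _ ⟨T, h1, h2, rfl⟩ _ ⟨T', h1', h2', rfl⟩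
      by_cases h : T ⊆ T'
      · exact Or.inl (image_mono h)
      · right
        obtain ⟨a, ha1, ha2⟩ := Set.not_subset.1 h
        apply image_mono
        intro b hb
        rcases lt_trichotomy a b with h' | h' | h'
        · exact absurd (h2' b hb a h') ha2
        · exact h' ▸ ha1
        · exact h2 a ha1 b h'
    · intro S _ hS
      refine ⟨y' '' (⋃ s ∈ S, ⋃ a ∈ {a | y' a = s}, Iic a), ⟨_, ?_, ?_, rfl⟩, ?_⟩
      · refine hS.biUnion fun s _ => Set.Countable.biUnion ?_ fun a _ => ?_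
        · refine Set.Subsingleton.countable ?_
          intro a ha b hb
          exact hy'inj (ha.trans hb.symm)
        · have : Iic a = insert a (Iio a) := by
            ext x; simp [le_iff_eq_or_lt]
          rw [this]
          exact (hW1 a).insert a
      · intro a ha b hb
        simp only [mem_iUnion, exists_prop] at ha ⊢
        obtain ⟨s, hs, c, hc', hac⟩ := ha
        exact ⟨s, hs, c, hc', hb.le.trans hac⟩
      · intro s hs
        obtain ⟨a, ha⟩ := hy'surj s
        refine ⟨a, ?_, ha⟩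
        simp only [mem_iUnion, exists_prop]
        exact ⟨s, hs, a, ha, le_rfl⟩
    · intro A hA _
      choose T h1 h2 h3 using hA
      refine ⟨⋃ n, T n, countable_iUnion h1, ?_, ?_⟩
      · intro a ha b hb
        obtain ⟨n, hn⟩ := mem_iUnion.1 ha
        exact mem_iUnion.2 ⟨n, h2 n a hn b hb⟩
      · rw [image_iUnion]
        exact iUnion_congr h3
  have hAclosed : ∀ A ∈ 𝒜, IsClosed A := by
    rintro _ ⟨T, h1, h2, rfl⟩
    apply isClosed_of_closure_subset
    intro z hz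
    obtain ⟨b, rfl⟩ := hy'surj z
    by_contra hb
    have hbT : b ∉ T := fun h => hb (mem_image_of_mem _ h)
    have hsub : T ⊆ Iio b := by
      intro a ha
      rcases lt_trichotomy a b with h | h | h
      · exact h
      · exact absurd (h ▸ ha) hbT
      · exact absurd (h2 a ha b h) hbT
    exact hy'cl b (closure_mono (image_mono hsub) hz)
  -- closure functions
  choose SR hSR1 hSR2 hSR3 using fun a : Y => ccc_coi goY hcY (Ioi a)
  choose SL hSL1 hSL2 hSL3 using fun a : Y => ccc_cof goY hcY (Iio a)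
  have hsel : ∀ T : Set Y, ∃ s : Set Y, s.Countable ∧ s ⊆ T ∧ (T.Nonempty → s.Nonempty) := by
    intro T
    rcases T.eq_empty_or_nonempty with h | ⟨x, hx⟩
    · exact ⟨∅, countable_empty, empty_subset _, fun h' => absurd h' (by rw [h]; simp)⟩
    · exact ⟨{x}, countable_singleton x, singleton_subset_iff.2 hx, fun _ => singleton_nonempty x⟩
  choose sel hsel1 hsel2 hsel3 using hsel
  obtain ⟨A, hA, hA0, hAg⟩ := closing hf
    (fun a b => (SR a ∪ SL a) ∪ ⋃ n, (sel (F n ∩ (Ioi a ∩ univ)) ∪ sel (F n ∩ (univ ∩ Iio a)) ∪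
      sel (F n ∩ (Ioi a ∩ Iio b))))
    (fun a b => ((hSR2 a).union (hSL2 a)).union (countable_iUnion fun n =>
      ((hsel1 _).union (hsel1 _)).union (hsel1 _)))
    (fun a b => subset_univ _) (⋃ n, sel (F n ∩ (univ ∩ univ)))
    (countable_iUnion fun n => hsel1 _) (subset_univ _)
  obtain ⟨d, hd⟩ : ∃ d : Y, d ∉ A := by
    by_contra hno
    push Not at hno
    apply hW2
    have h1 := (hf.cnt A hA).preimage hy'inj
    refine h1.mono fun a _ => hno _
  refine sep_core goY F C ls A (hAclosed A hA) ?_ ?_ ?_ d hd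
  · intro a ha hcl
    rw [mem_closure_iff] at hcl ⊢
    intro O hO haO
    obtain ⟨V, hV1, hV2, hV3, hV4⟩ := goY.conv a O hO haO
    obtain ⟨v, hv1, hv2⟩ := hcl V hV1 hV2
    obtain ⟨s, hs1, hs2⟩ := hSR3 a v hv2
    have hs3 := hSR1 a hs1
    exact ⟨s, hV3 (hV4 a v s hV2 hv1 (le_of_lt hs3) hs2), hAg a ha a ha (Or.inl (Or.inl hs1)),
      hs3⟩
  · intro a ha hcl
    rw [mem_closure_iff] at hcl ⊢
    intro O hO haO
    obtain ⟨V, hV1, hV2, hV3, hV4⟩ := goY.conv a O hO haO
    obtain ⟨v, hv1, hv2⟩ := hcl V hV1 hV2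
    obtain ⟨s, hs1, hs2⟩ := hSL3 a v hv2
    have hs3 := hSL1 a hs1
    exact ⟨s, hV3 (hV4 v a s hv1 hV2 hs2 (le_of_lt hs3)), hAg a ha a ha (Or.inl (Or.inr hs1)),
      hs3⟩
  · rintro n _ ⟨l, r, hl, hr, rfl⟩ hne
    obtain ⟨s, hs⟩ := hsel3 _ hne
    refine ⟨s, hsel2 _ hs, ?_⟩
    rcases hl with rfl | ⟨a, ha, rfl⟩
    · rcases hr with rfl | ⟨b, hb, rfl⟩
      · exact hA0 (mem_iUnion.2 ⟨n, hs⟩)
      · exact hAg b hb b hb (Or.inr (mem_iUnion.2 ⟨n, Or.inl (Or.inr hs)⟩))
    · rcases hr with rfl | ⟨b, hb, rfl⟩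
      · exact hAg a ha a ha (Or.inr (mem_iUnion.2 ⟨n, Or.inl (Or.inl hs)⟩))
      · exact hAg a ha b hb (Or.inr (mem_iUnion.2 ⟨n, Or.inr hs⟩))

/-- all points left-isolated: countable -/
theorem JC {X : Type u} [LinearOrder X] [TopologicalSpace X] (go : IsGO X)
    (F : ℕ → Set X) (C : X → Set X) (ls : LSig X F C) (hop : ∀ x : X, IsOpen (Ici x))
    (Q : Set X) (hQ : Q.Countable) (hd : ∀ U : Set X, IsOpen U → U.Nonempty → ∃ q ∈ Q, q ∈ U) :
    (univ : Set X).Countable := by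
  classical
  have : ClosedIciTopology X := ⟨fun a => by
    have := (go.iio a).isClosed_compl
    rwa [compl_Iio] at this⟩
  have h1 : (⋃ n, {x : X | x ∈ F n ∧ F n ⊆ Ici x}).Countable := by
    refine countable_iUnion fun n => Set.Subsingleton.countable ?_
    intro x hx y hy
    exact le_antisymm (hx.2 hy.1) (hy.2 hx.1)
  have h2 : (⋃ n, ⋃ q ∈ Q, {x : X | x ∈ F n ∧ q ≤ x ∧ ∀ z ∈ F n, q ≤ z → x ≤ z}).Countable := by
    refine countable_iUnion fun n => hQ.biUnion fun q _ => Set.Subsingleton.countable ?_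
    intro x hx y hy
    exact le_antisymm (hx.2.2 y hy.1 hy.2.1) (hy.2.2 x hx.1 hx.2.1)
  have h3 : (⋃ q ∈ Q, {x : X | IsLeast (Ioi q) x}).Countable := by
    refine hQ.biUnion fun q _ => Set.Subsingleton.countable ?_
    intro x hx y hy
    exact hx.unique hy
  refine ((h1.union h2).union h3).mono ?_
  intro x _
  have hIio : IsClosed (Iio x) := by
    have := (hop x).isClosed_compl
    rwa [compl_Ici] at this
  have hT : IsCompact (C x ∩ Iio x) := (ls.comp x).inter_right hIio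
  rcases (C x ∩ Iio x).eq_empty_or_nonempty with he | hne
  · left; left
    obtain ⟨n, hn1, hn2⟩ := ls.net x (Ici x) (hop x) (by
      intro c hc
      by_contra h
      have : c ∈ C x ∩ Iio x := ⟨hc, not_le.1 h⟩
      rw [he] at this
      exact this)
    exact mem_iUnion.2 ⟨n, hn1 (ls.mem x), hn2⟩
  · obtain ⟨m, hm1, hm2⟩ := hT.exists_isGreatest hne
    by_cases hq : ∃ q ∈ Q, m < q ∧ q < x
    · obtain ⟨q, hqQ, hmq, hqx⟩ := hq
      left; right
      obtain ⟨n, hn1, hn2⟩ := ls.net x (Iio q ∪ Ici x) ((go.iio q).union (hop x)) (by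
        intro c hc
        by_cases hcx : c < x
        · exact Or.inl (lt_of_le_of_lt (hm2 ⟨hc, hcx⟩) hmq)
        · exact Or.inr (not_lt.1 hcx))
      refine mem_iUnion.2 ⟨n, mem_iUnion₂.2 ⟨q, hqQ, hn1 (ls.mem x), hqx.le, ?_⟩⟩
      intro z hz hqz
      rcases hn2 hz with h | h
      · exact absurd hqz (not_le.2 h)
      · exact h
    · push Not at hq
      have hadj : ∀ y, m < y → x ≤ y := by
        intro y hy
        by_contra hyx
        rw [not_le] at hyx
        obtain ⟨q, hqQ, hq1, hq2⟩ := hd (Ici y ∩ Iio x) ((hop y).inter (go.iio x))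
          ⟨y, le_rfl, hyx⟩
        exact absurd hq2 (not_lt.2 (hq q hqQ (lt_of_lt_of_le hy hq1)))
      have hmx : m < x := hm1.2
      obtain ⟨q, hqQ, hq1, hq2⟩ := hd (Ici m ∩ Iio x) ((hop m).inter (go.iio x)) ⟨m, le_rfl, hmx⟩
      have hqm : q = m := by
        refine le_antisymm ?_ hq1
        by_contra h
        exact absurd hq2 (not_lt.2 (hadj q (not_le.1 h)))
      right
      exact mem_iUnion₂.2 ⟨q, hqQ, by rw [hqm]; exact ⟨hmx, fun y hy => hadj y hy⟩⟩

lemma JL_countable {X : Type u} [LinearOrder X] [TopologicalSpace X] (go : IsGO X) (hs : HS X)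
    (hc : CCC X) : {x : X | IsOpen (Ici x)}.Countable := by
  classical
  set J : Set X := {x : X | IsOpen (Ici x)} with hJ
  have hJL : IsLindelof J := ccc_HL go hc J
  obtain ⟨F, C, ls⟩ := lsig_sub hJL (hs J)
  obtain ⟨S, hS1, hS2, hS3⟩ := hsep go hs hc J
  have := JC (isGO_sub go J) F C ls (fun x => isOpen_induced_iff.2 ⟨Ici x.1, x.2, rfl⟩)
    (Subtype.val ⁻¹' S) (hS2.preimage Subtype.val_injective) (by
      intro U hU hne
      obtain ⟨O, hO, rfl⟩ := isOpen_induced_iff.1 hU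
      obtain ⟨x, hx⟩ := hne
      obtain ⟨s, hs1, hs2⟩ := mem_closure_iff.1 (hS3 x.2) O hO hx
      exact ⟨⟨s, hS1 hs2⟩, hs2, hs1⟩)
  have h2 := this.image Subtype.val
  rwa [image_univ, Subtype.range_coe] at h2

/-- Countable good set of a Lindelöf hereditarily Sigma GO space. -/
theorem good_of_lindelof {X : Type u} [LinearOrder X] [TopologicalSpace X] (go : IsGO X)
    (hs : HS X) (hL : IsLindelof (univ : Set X)) :
    ∃ D : Set X, D.Countable ∧ ∀ z, z ∈ D ∨ (z ∈ closure (D ∩ Iio z) ∧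
      z ∈ closure (D ∩ Ioi z)) := by
  classical
  have hc := main go hs hL
  obtain ⟨Q, -, hQ2, hQ3⟩ := hsep go hs hc univ
  have hJL := JL_countable go hs hc
  have hJR : {x : X | IsOpen (Iic x)}.Countable := JL_countable (X := Xᵒᵈ) go.dual hs.dual hc
  refine ⟨Q ∪ {x : X | IsOpen (Ici x)} ∪ {x : X | IsOpen (Iic x)}, (hQ2.union hJL).union hJR, ?_⟩
  intro z
  by_cases hz : z ∈ Q ∪ {x : X | IsOpen (Ici x)} ∪ {x : X | IsOpen (Iic x)}
  · exact Or.inl hz
  · right
    have h1 : ¬ IsOpen (Ici z) := fun h => hz (Or.inl (Or.inr h))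
    have h2 : ¬ IsOpen (Iic z) := fun h => hz (Or.inr h)
    have h1' : z ∈ closure (Iio z) := by
      by_contra h
      exact h1 (ici_open_of go h)
    have h2' : z ∈ closure (Ioi z) := by
      by_contra h
      exact h2 (iic_open_of go h)
    constructor
    · rw [mem_closure_iff] at h1' ⊢
      intro O hO hzO
      obtain ⟨w, hw⟩ := h1' O hO hzO
      obtain ⟨q, hq1, hq2⟩ := mem_closure_iff.1 (hQ3 (mem_univ w)) (O ∩ Iio z)
        (hO.inter (go.iio z)) hw
      exact ⟨q, hq1.1, Or.inl (Or.inl hq2), hq1.2⟩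
    · rw [mem_closure_iff] at h2' ⊢
      intro O hO hzO
      obtain ⟨w, hw⟩ := h2' O hO hzO
      obtain ⟨q, hq1, hq2⟩ := mem_closure_iff.1 (hQ3 (mem_univ w)) (O ∩ Ioi z)
        (hO.inter (go.ioi z)) hw
      exact ⟨q, hq1.1, Or.inl (Or.inl hq2), hq1.2⟩

end Pool.Agent.H479R3.GO
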