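import Mathlib

set_option autoImplicit false

namespace Pool.Agent.H479R3.SGrp

open Set Filter Topology

universe u v

/-- A well order with countable initial segments on an uncountable type of size `ℵ₁`. -/
lemma exists_wo {X : Type} (hX : Cardinal.mk X = Cardinal.aleph 1) :
    ∃ r : X → X → Prop, IsWellOrder X r ∧ ∀ a, {b | r b a}.Countable := by
  obtain ⟨r, hr, hord⟩ := Cardinal.exists_ord_eq X
  refine ⟨r, hr, fun a => ?_⟩
  have h1 : Cardinal.mk {b | r b a} < Cardinal.mk X := by
    have := Ordinal.typein_lt_type r a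
    rw [← hord] at this
    have h2 := Cardinal.lt_ord.1 this
    rwa [Ordinal.card_typein] at h2
  rw [hX] at h1
  have h3 : Cardinal.mk {b | r b a} < Order.succ Cardinal.aleph0 := by
    rw [Cardinal.succ_aleph0]; exact h1
  exact Cardinal.le_aleph0_iff_set_countable.1 (Order.lt_succ_iff.1 h3)

/-- Ulam matrix. -/
lemma ulam {X : Type} (hX : Cardinal.mk X = Cardinal.aleph 1) :
    ∃ A : ℕ → X → Set X, (∀ n, Pairwise (fun a b => Disjoint (A n a) (A n b))) ∧
      (∀ a, Pairwise (fun m n => Disjoint (A m a) (A n a))) ∧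
      ∀ a, ((⋃ n, A n a)ᶜ).Countable := by
  classical
  obtain ⟨r, hwo, hr⟩ := exists_wo hX
  have h : ∀ b : X, ∃ e : X → ℕ, InjOn e {a | r a b} := by
    intro b
    have : Countable {a | r a b} := (hr b).to_subtype
    obtain ⟨f, hf⟩ := exists_injective_nat {a | r a b}
    refine ⟨fun a => if h : r a b then f ⟨a, h⟩ else 0, ?_⟩
    intro x hx y hy hxy
    have hx' : r x b := hx
    have hy' : r y b := hy
    simp only [hx', hy', dif_pos] at hxy
    exact congrArg Subtype.val (hf hxy)
  choose e he using h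
  refine ⟨fun n a => {b | r a b ∧ e b a = n}, ?_, ?_, ?_⟩
  · intro n a a' hne
    rw [Set.disjoint_left]
    rintro b ⟨h1, h2⟩ ⟨h3, h4⟩
    exact hne (he b h1 h3 (h2.trans h4.symm))
  · intro a m n hne
    rw [Set.disjoint_left]
    rintro b ⟨h1, h2⟩ ⟨h3, h4⟩
    exact hne (h2.symm.trans h4)
  · intro a
    refine ((hr a).insert a).mono ?_
    intro b hb
    simp only [mem_compl_iff, mem_iUnion, mem_ofPred_eq, not_exists, not_and] at hb
    rcases trichotomous_of r a b with h | h | h
    · exact absurd rfl (hb (e b a) h)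
    · exact Or.inl h.symm
    · exact Or.inr h

/-- Main lemma: a homomorphism `ℝ^X → H`, `|X| = ℵ₁`, that maps pointwise convergent null sequences
to convergent sequences maps some basic neighbourhood of `0` into a given neighbourhood of `1`. -/
theorem main {X : Type} (hX : Cardinal.mk X = Cardinal.aleph 1) {H : Type u} [Group H]
    [TopologicalSpace H] [IsTopologicalGroup H] (f : (X → ℝ) → H)
    (hf : ∀ x y, f (x + y) = f x * f y)
    (hs : ∀ v : ℕ → X → ℝ, (∀ x, Tendsto (fun n => v n x) atTop (𝓝 0)) →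
      Tendsto (fun n => f (v n)) atTop (𝓝 1)) (W : Set H) (hW : W ∈ 𝓝 (1 : H)) :
    ∃ F : Finset X, ∃ ε > 0, ∀ v : X → ℝ, (∀ x ∈ F, |v x| < ε) → f v ∈ W := by
  classical
  have hf0 : f 0 = 1 := by
    have := hf 0 0
    rw [add_zero] at this
    exact (mul_eq_left.1 this.symm)
  -- W' W' ⊆ W
  obtain ⟨W', hW', hWW⟩ : ∃ W' ∈ 𝓝 (1 : H), ∀ a ∈ W', ∀ b ∈ W', a * b ∈ W := by
    obtain ⟨V, hV, h1, hVW⟩ := exists_open_nhds_one_mul_subset hW
    exact ⟨V, hV.mem_nhds h1, fun a ha b hb => hVW (Set.mul_mem_mul ha hb)⟩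
  -- a closed neighbourhood inside W'
  obtain ⟨U0, hU0, hU0c, hU0W⟩ : ∃ U0 ∈ 𝓝 (1 : H), IsClosed U0 ∧ U0 ⊆ W' := by
    obtain ⟨t, ht, htc, htW⟩ := exists_mem_nhds_isClosed_subset hW'
    exact ⟨t, ht, htc, htW⟩
  -- the sequence of neighbourhoods
  have hhalf : ∀ U : {U : Set H // U ∈ 𝓝 (1 : H)}, ∃ V : {U : Set H // U ∈ 𝓝 (1 : H)},
      ∀ a ∈ V.1, ∀ b ∈ V.1, a * b ∈ U.1 := by
    rintro ⟨U, hU⟩
    obtain ⟨V, hV, h1, hVW⟩ := exists_open_nhds_one_mul_subset hU
    exact ⟨⟨V, hV.mem_nhds h1⟩, fun a ha b hb => hVW (Set.mul_mem_mul ha hb)⟩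
  choose half hhalf using hhalf
  obtain ⟨U, hUz, hUs⟩ : ∃ U : ℕ → {U : Set H // U ∈ 𝓝 (1 : H)}, (U 0).1 = U0 ∧
      ∀ n, ∀ a ∈ (U (n + 1)).1, ∀ b ∈ (U (n + 1)).1, a * b ∈ (U n).1 :=
    ⟨fun n => Nat.rec ⟨U0, hU0⟩ (fun _ u => half u) n, rfl, fun n => hhalf _⟩
  -- Step A
  obtain ⟨F, ε, hε, hA⟩ : ∃ F : Finset X, ∃ ε > 0, ∀ v : X → ℝ, (Function.support v).Countable →
      (∀ x ∈ F, |v x| < ε) → f v ∈ W' := by
    by_contra hcon
    push Not at hcon
    choose g hg1 hg2 hg3 using fun (F : Finset X) (n : ℕ) =>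
      hcon F (1 / ((n : ℝ) + 1)) (by positivity)
    -- enumerate supports
    have henum : ∀ v : X → ℝ, (Function.support v).Countable →
        ∃ s : ℕ → X, Function.support v ⊆ range s := by
      intro v hv
      have : Nonempty X := by
        rw [← Cardinal.mk_ne_zero_iff, hX]
        exact (Cardinal.aleph_pos 1).ne'
      obtain ⟨x0⟩ := this
      obtain ⟨s, hs⟩ := (hv.insert x0).exists_eq_range (insert_nonempty _ _)
      exact ⟨s, by rw [← hs]; exact subset_insert _ _⟩
    choose en hen using henum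
    -- recursion: state = finset of coordinates chosen so far and the list of enumerations
    let Sg : Finset X → ℕ → (ℕ → X) := fun F n => en (g F n) (hg1 F n)
    obtain ⟨st, hst0, hst⟩ : ∃ st : ℕ → (Finset X × Finset (ℕ → X)), st 0 = (∅, ∅) ∧
        ∀ n, st (n + 1) = ((st n).1 ∪ (insert (Sg (st n).1 n) (st n).2).biUnion
          (fun s => (Finset.range (n + 1)).image s), insert (Sg (st n).1 n) (st n).2) :=
      ⟨fun n => Nat.rec (∅, ∅) (fun n s => (s.1 ∪ (insert (Sg s.1 n) s.2).biUnion
          (fun s => (Finset.range (n + 1)).image s), insert (Sg s.1 n) s.2)) n, rfl, fun _ => rfl⟩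
    have hmono1 : ∀ n k, n ≤ k → (st n).1 ⊆ (st k).1 := by
      intro n k hnk
      induction hnk with
      | refl => exact Finset.Subset.refl _
      | step _ ih => exact ih.trans (by rw [hst]; exact Finset.subset_union_left)
    have hmono2 : ∀ n k, n ≤ k → (st n).2 ⊆ (st k).2 := by
      intro n k hnk
      induction hnk with
      | refl => exact Finset.Subset.refl _
      | step _ ih => exact ih.trans (by rw [hst]; exact Finset.subset_insert _ _)
    have hcatch : ∀ i k : ℕ, ∃ N, ∀ n, N ≤ n → Sg (st i).1 i k ∈ (st n).1 := by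
      intro i k
      refine ⟨max (i + 1) k + 1, fun n hn => ?_⟩
      apply hmono1 _ _ hn
      rw [hst]
      apply Finset.mem_union_right
      rw [Finset.mem_biUnion]
      refine ⟨Sg (st i).1 i, ?_, ?_⟩
      · apply Finset.mem_insert_of_mem
        apply hmono2 (i + 1) _ (le_max_left _ _)
        rw [hst]
        exact Finset.mem_insert_self _ _
      · exact Finset.mem_image.2 ⟨k, Finset.mem_range.2 (Nat.lt_succ_of_le (le_max_right _ _)), rfl⟩
    have hconv := hs (fun n => g (st n).1 n) (by
      intro x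
      by_cases hx : ∃ i, x ∈ Function.support (g (st i).1 i)
      · obtain ⟨i, hi⟩ := hx
        obtain ⟨k, hk⟩ := hen _ (hg1 (st i).1 i) hi
        obtain ⟨N, hN⟩ := hcatch i k
        have hk' : Sg (st i).1 i k = x := hk
        rw [hk'] at hN
        refine squeeze_zero_norm' (a := fun n : ℕ => 1 / ((n : ℝ) + 1)) ?_
          tendsto_one_div_add_atTop_nhds_zero_nat
        filter_upwards [eventually_ge_atTop N] with n hn
        exact (hg2 (st n).1 n x (hN n hn)).le
      · push Not at hx
        have : ∀ n, g (st n).1 n x = 0 := fun n => by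
          have := hx n
          rwa [Function.notMem_support] at this
        simp only [this]
        exact tendsto_const_nhds)
    have h1 := hconv.eventually_mem hW'
    obtain ⟨n, hn⟩ := h1.exists
    exact hg3 _ _ hn
  refine ⟨F, ε, hε, fun v hv => ?_⟩
  obtain ⟨A, hA1, hA2, hA3⟩ := ulam hX
  -- the measure
  let m : Set X → H := fun S => f (S.indicator v)
  have hmdisj : ∀ S : ℕ → Set X, (∀ i j, i ≠ j → Disjoint (S i) (S j)) →
      Tendsto (fun n => m (S n)) atTop (𝓝 1) := by
    intro S hS
    apply hs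
    intro x
    apply tendsto_const_nhds.congr'
    by_cases hx : ∃ i, x ∈ S i
    · obtain ⟨i, hi⟩ := hx
      filter_upwards [eventually_gt_atTop i] with n hn
      have : x ∉ S n := fun h => Set.disjoint_left.1 (hS i n hn.ne) hi h
      simp [this]
    · push Not at hx
      filter_upwards with n
      simp [hx n]
  have hkey : ∃ a : X, ∀ n, m (A n a) ∈ (U (n + 1)).1 := by
    by_contra hcon
    push Not at hcon
    choose n hn using hcon
    have hinfX : Infinite X := by
      rw [Cardinal.infinite_iff, hX]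
      exact Cardinal.aleph0_le_aleph 1
    -- pigeonhole
    have huX : ¬ (univ : Set X).Countable := by
      rw [← Cardinal.le_aleph0_iff_set_countable, Cardinal.mk_univ, hX, not_le]
      exact Cardinal.aleph0_lt_aleph_one
    obtain ⟨k, hk⟩ : ∃ k, {a | n a = k}.Infinite := by
      by_contra hcon
      push Not at hcon
      apply huX
      have : (univ : Set X) ⊆ ⋃ k, {a | n a = k} := fun a _ => mem_iUnion.2 ⟨n a, rfl⟩
      exact (Set.countable_iUnion (fun k => (hcon k).countable)).mono this
    let s : ℕ → X := fun i => (hk.natEmbedding _ i : X)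
    have hsinj : Function.Injective s := fun i j hij =>
      (hk.natEmbedding _).injective (Subtype.ext hij)
    have hsk : ∀ i, n (s i) = k := fun i => (hk.natEmbedding _ i).2
    have h1 := hmdisj (fun i => A k (s i)) (fun i j hij => hA1 k (fun h => hij (hsinj h)))
    have h2 := h1.eventually_mem (U (k + 1)).2
    obtain ⟨i, hi⟩ := h2.exists
    apply hn (s i)
    rw [hsk]
    exact hi
  obtain ⟨a, ha⟩ := hkey
  -- decompose v
  set S : Set X := ⋃ n, A n a with hS
  have hdec : v = Sᶜ.indicator v + S.indicator v := by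
    rw [add_comm]; exact (Set.indicator_self_add_compl S v).symm
  have h1 : f (Sᶜ.indicator v) ∈ W' := by
    apply hA
    · refine (hA3 a).mono ?_
      intro x hx
      by_contra hx'
      rw [Function.mem_support] at hx
      exact hx (Set.indicator_of_notMem hx' v)
    · intro x hx
      by_cases hxS : x ∈ Sᶜ
      · rw [Set.indicator_of_mem hxS]; exact hv x hx
      · rw [Set.indicator_of_notMem hxS]; simpa using hε
  have hpart : ∀ M N : ℕ, f ((⋃ n ∈ Finset.Ico N (N + M), A n a).indicator v) ∈ (U N).1 := by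
    intro M
    induction M with
    | zero =>
      intro N
      have : (⋃ n ∈ Finset.Ico N (N + 0), A n a).indicator v = 0 := by
        simp
        rfl
      rw [this, hf0]
      exact mem_of_mem_nhds (U N).2
    | succ M ih =>
      intro N
      have h3 : (⋃ n ∈ Finset.Ico N (N + (M + 1)), A n a) =
          A N a ∪ ⋃ n ∈ Finset.Ico (N + 1) (N + 1 + M), A n a := by
        ext x
        simp only [mem_iUnion, mem_union, Finset.mem_Ico, exists_prop]
        constructor
        · rintro ⟨n, ⟨hn1, hn2⟩, hx⟩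
          rcases Nat.eq_or_lt_of_le hn1 with h | h
          · left; rw [h]; exact hx
          · right; exact ⟨n, ⟨h, by omega⟩, hx⟩
        · rintro (hx | ⟨n, ⟨hn1, hn2⟩, hx⟩)
          · exact ⟨N, ⟨le_refl _, by omega⟩, hx⟩
          · exact ⟨n, ⟨by omega, by omega⟩, hx⟩
      have h4 : Disjoint (A N a) (⋃ n ∈ Finset.Ico (N + 1) (N + 1 + M), A n a) := by
        rw [Set.disjoint_left]
        intro x hx hx'
        simp only [mem_iUnion, Finset.mem_Ico, exists_prop] at hx'
        obtain ⟨n, ⟨hn1, _⟩, hxn⟩ := hx'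
        exact Set.disjoint_left.1 (hA2 a (show N ≠ n by omega)) hx hxn
      rw [h3, Set.indicator_union_of_disjoint h4]
      have h5 : (fun x => (A N a).indicator v x +
          (⋃ n ∈ Finset.Ico (N + 1) (N + 1 + M), A n a).indicator v x) =
          (A N a).indicator v + (⋃ n ∈ Finset.Ico (N + 1) (N + 1 + M), A n a).indicator v := rfl
      rw [h5, hf]
      exact hUs N _ (ha N) _ (ih (N + 1))
  have h2 : f (S.indicator v) ∈ U0 := by
    -- tails
    let P : ℕ → Set X := fun M => ⋃ n ∈ Finset.Ico 0 (0 + M), A n a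
    have hPS : ∀ M, P M ⊆ S := by
      intro M x hx
      simp only [P, mem_iUnion] at hx
      obtain ⟨n, _, hx⟩ := hx
      exact mem_iUnion.2 ⟨n, hx⟩
    have hdecM : ∀ M, S.indicator v = (P M).indicator v + (S \ P M).indicator v := by
      intro M
      have h3 : S = P M ∪ (S \ P M) := (Set.union_sdiff_cancel (hPS M)).symm
      conv_lhs => rw [h3]
      rw [Set.indicator_union_of_disjoint Set.disjoint_sdiff_right]
      rfl
    have htail : Tendsto (fun M => f ((S \ P M).indicator v)) atTop (𝓝 1) := by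
      apply hs
      intro x
      apply tendsto_const_nhds.congr'
      by_cases hx : x ∈ S
      · obtain ⟨n, hn⟩ := mem_iUnion.1 hx
        filter_upwards [eventually_gt_atTop n] with M hM
        have : x ∉ S \ P M := fun h => h.2 (by
          simp only [P, mem_iUnion]
          exact ⟨n, by simpa using hM, hn⟩)
        rw [Set.indicator_of_notMem this]
      · filter_upwards with M
        have : x ∉ S \ P M := fun h => hx h.1
        rw [Set.indicator_of_notMem this]
    have hlim : Tendsto (fun M => f ((P M).indicator v)) atTop (𝓝 (f (S.indicator v))) := by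
      have h3 : ∀ M, f ((P M).indicator v) = f (S.indicator v) * (f ((S \ P M).indicator v))⁻¹ := by
        intro M
        conv_rhs => rw [hdecM M, hf]
        rw [mul_inv_cancel_right]
      simp only [h3]
      have := (tendsto_const_nhds (x := f (S.indicator v))).mul htail.inv
      simpa using this
    refine hU0c.mem_of_tendsto hlim (Filter.Eventually.of_forall (fun M => ?_))
    have := hpart M 0
    rw [hUz] at this
    exact this
  rw [hdec, hf]
  exact hWW _ h1 _ (hU0W h2)

end Pool.Agent.H479R3.SGrp
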