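import Mathlib
import Pool.Agent.H479R3.GO8
import Pool.Agent.H479R3.SGrp

set_option autoImplicit false

/-! Countably compact sets are compact. -/

namespace Pool.Agent.H479R3.GO

open Set Topology

universe u

section W

variable {W : Type} [LinearOrder W] [WellFoundedLT W]

def St (T : Set W) : Prop := ∀ b : W → W, ∃ l ∈ T, (∃ g, g < l) ∧ ∀ g < l, b g < l

lemma iic_count (hW1 : ∀ a : W, (Iio a).Countable) (a : W) : (Iic a).Countable := by
  have : Iic a = insert a (Iio a) := by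
    ext x; simp [le_iff_eq_or_lt]
  rw [this]
  exact (hW1 a).insert a

lemma bdd_W (hW1 : ∀ a : W, (Iio a).Countable) (hW2 : ¬ (univ : Set W).Countable) (T : Set W)
    (hT : T.Countable) : ∃ d, ∀ t ∈ T, t < d := by
  by_contra h
  push Not at h
  apply hW2
  refine (hT.biUnion fun t _ => iic_count hW1 t).mono ?_
  intro d _
  obtain ⟨t, ht, hdt⟩ := h d
  exact mem_biUnion ht hdt

lemma St_univ (hW1 : ∀ a : W, (Iio a).Countable) (hW2 : ¬ (univ : Set W).Countable) :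
    St (univ : Set W) := by
  intro b
  have hw0 : ∃ w : W, True := by
    by_contra h
    push Not at h
    exact hW2 (Set.Subsingleton.countable fun x _ => (h x).elim)
  obtain ⟨w0, -⟩ := hw0
  have hstep : ∀ w : W, ∃ w' : W, w < w' ∧ ∀ g ≤ w, b g < w' := by
    intro w
    obtain ⟨d, hd⟩ := bdd_W hW1 hW2 (insert w (b '' Iic w)) (((iic_count hW1 w).image b).insert w)
    exact ⟨d, hd w (mem_insert _ _), fun g hg => hd _ (mem_insert_of_mem _ (mem_image_of_mem b hg))⟩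
  choose nx h1 h2 using hstep
  let s : ℕ → W := fun n => Nat.rec w0 (fun _ w => nx w) n
  have hs : ∀ n, s (n + 1) = nx (s n) := fun n => rfl
  obtain ⟨d, hd⟩ := bdd_W hW1 hW2 (range s) (countable_range s)
  obtain ⟨l, hl1, hl2⟩ := (wellFounded_lt (α := W)).has_min {l | ∀ n, s n < l}
    ⟨d, fun n => hd _ (mem_range_self n)⟩
  refine ⟨l, mem_univ _, ⟨s 0, hl1 0⟩, ?_⟩
  intro g hg
  have : ∃ n, g ≤ s n := by
    by_contra h
    push Not at h
    exact hl2 g h hg
  obtain ⟨n, hn⟩ := this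
  have h3 := h2 (s n) g hn
  rw [← hs] at h3
  exact h3.trans (hl1 (n + 1))

lemma St_split (hW1 : ∀ a : W, (Iio a).Countable) (hW2 : ¬ (univ : Set W).Countable)
    (hW3 : Cardinal.mk W = Cardinal.aleph 1) :
    ∃ A A' : Set W, Disjoint A A' ∧ St A ∧ St A' := by
  classical
  obtain ⟨M, hM1, -, hM3⟩ := SGrp.ulam hW3
  have hex : ∀ a, ∃ n, St (M n a) := by
    intro a
    by_contra hno
    push Not at hno
    unfold St at hno
    push Not at hno
    choose b hb using hno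
    obtain ⟨d, hd⟩ := bdd_W hW1 hW2 _ (hM3 a)
    have hbb : ∀ g : W, ∃ w : W, d < w ∧ ∀ n, b n g < w := by
      intro g
      obtain ⟨w, hw⟩ := bdd_W hW1 hW2 (insert d (range fun n => b n g))
        ((countable_range _).insert d)
      exact ⟨w, hw d (mem_insert _ _), fun n => hw _ (mem_insert_of_mem _ (mem_range_self n))⟩
    choose B hB1 hB2 using hbb
    obtain ⟨l, -, ⟨g, hg⟩, hl⟩ := St_univ hW1 hW2 B
    by_cases hlM : l ∈ ⋃ n, M n a
    · obtain ⟨n, hn⟩ := mem_iUnion.1 hlM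
      obtain ⟨g', hg', hlg⟩ := hb n l hn ⟨g, hg⟩
      exact absurd ((hB2 g' n).trans (hl g' hg')) (not_lt.2 hlg)
    · exact lt_asymm (hd l hlM) ((hB1 g).trans (hl g hg))
  choose n hn using hex
  have : ∃ a a', a ≠ a' ∧ n a = n a' := by
    by_contra h
    push Not at h
    apply hW2
    have hinj : Function.Injective n := fun a a' h' => by
      by_contra hne
      exact h a a' hne h'
    have : Countable W := hinj.countable
    exact Set.countable_univ
  obtain ⟨a, a', hne, haa⟩ := this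
  exact ⟨M (n a) a, M (n a) a', hM1 (n a) hne, hn a, haa ▸ hn a'⟩

end W

/-- countable compactness in terms of open covers in the ambient space -/
def CCpt {X : Type u} [TopologicalSpace X] (Q : Set X) : Prop :=
  ∀ u : ℕ → Set X, (∀ n, IsOpen (u n)) → Q ⊆ ⋃ n, u n → ∃ t : Finset ℕ, Q ⊆ ⋃ n ∈ t, u n

lemma CCpt.inter {X : Type u} [TopologicalSpace X] {Q K : Set X} (hQ : CCpt Q)
    (hK : IsClosed K) : CCpt (Q ∩ K) := by
  intro u hu hcov
  obtain ⟨t, ht⟩ := hQ (fun n => u n ∪ Kᶜ) (fun n => (hu n).union hK.isOpen_compl) (by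
    intro x hx
    by_cases hxK : x ∈ K
    · obtain ⟨n, hn⟩ := mem_iUnion.1 (hcov ⟨hx, hxK⟩)
      exact mem_iUnion.2 ⟨n, Or.inl hn⟩
    · exact mem_iUnion.2 ⟨0, Or.inr hxK⟩)
  refine ⟨t, ?_⟩
  rintro x ⟨hx, hxK⟩
  have h1 := ht hx
  simp only [mem_iUnion, exists_prop] at h1 ⊢
  obtain ⟨n, hn, h2⟩ := h1
  exact ⟨n, hn, h2.resolve_right (fun h => h hxK)⟩

/-- Key use of countable compactness: a sequence cannot be cofinal. -/
lemma cc_aux {X : Type u} [LinearOrder X] [TopologicalSpace X] (go : IsGO X) {Q : Set X}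
    (hQ : CCpt Q) (hne : Q.Nonempty) (O : Set X) (hO : IsOpen O) (f : ℕ → X)
    (hcov : ∀ q ∈ Q, q ∈ O ∨ ∃ n, q < f n) :
    ∃ m, ∀ q ∈ Q, q ∈ O ∨ q < f m := by
  classical
  let u : ℕ → Set X := fun n => Nat.casesOn n O (fun m => Iio (f m))
  have hu0 : u 0 = O := rfl
  have hus : ∀ m, u (m + 1) = Iio (f m) := fun m => rfl
  obtain ⟨t, ht⟩ := hQ u (by
    intro n
    cases n with
    | zero => exact hO
    | succ m => exact go.iio _) (by
    intro q hq
    rcases hcov q hq with h | ⟨n, hn⟩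
    · exact mem_iUnion.2 ⟨0, h⟩
    · exact mem_iUnion.2 ⟨n + 1, hn⟩)
  obtain ⟨q0, hq0⟩ := hne
  have htne : t.Nonempty := by
    have h1 := ht hq0
    simp only [mem_iUnion, exists_prop] at h1
    obtain ⟨n, hn, -⟩ := h1
    exact ⟨n, hn⟩
  obtain ⟨m, hm1, hm2⟩ := t.exists_max_image (fun n => f (n - 1)) htne
  refine ⟨m - 1, fun q hq => ?_⟩
  have h1 := ht hq
  simp only [mem_iUnion, exists_prop] at h1
  obtain ⟨n, hn, hqn⟩ := h1
  cases n with
  | zero => exact Or.inl hqn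
  | succ k =>
    right
    have := hm2 (k + 1) hn
    simp only [Nat.add_sub_cancel] at this
    exact lt_of_lt_of_le hqn this

theorem no_max_false {X : Type u} [LinearOrder X] [TopologicalSpace X] (go : IsGO X) (hs : HS X)
    (Q : Set X) (hQ : CCpt Q) (hne : Q.Nonempty) (hnm : ∀ q ∈ Q, ∃ q' ∈ Q, q < q') : False := by
  classical
  -- no countable cofinal subsets
  have hnc : ∀ S : Set X, S ⊆ Q → S.Countable → ∃ z ∈ Q, ∀ s ∈ S, s < z := by
    intro S hS hSc
    by_contra hno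
    push Not at hno
    have hSne : S.Nonempty := by
      obtain ⟨q, hq⟩ := hne
      obtain ⟨s, hs, -⟩ := hno q hq
      exact ⟨s, hs⟩
    obtain ⟨f, hf⟩ := hSc.exists_eq_range hSne
    obtain ⟨m, hm⟩ := cc_aux go hQ hne ∅ isOpen_empty f (by
      intro q hq
      obtain ⟨q', hq', hqq'⟩ := hnm q hq
      obtain ⟨s, hs, hqs⟩ := hno q' hq'
      rw [hf] at hs
      obtain ⟨n, rfl⟩ := hs
      exact Or.inr ⟨n, lt_of_lt_of_le hqq' hqs⟩)
    have hfm : f m ∈ Q := hS (by rw [hf]; exact mem_range_self m)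
    rcases hm _ hfm with h | h
    · exact h
    · exact lt_irrefl _ h
  let UB : Set X → Set X := fun T => {z ∈ Q | ∀ t ∈ T, t < z}
  have hG : ∀ T : Set X, ∃ z : X, T ⊆ Q → T.Countable → (z ∈ UB T ∧
      ((∃ w, IsLeast (UB T) w) → IsLeast (UB T) z)) := by
    intro T
    by_cases hT : T ⊆ Q ∧ T.Countable
    · by_cases hw : ∃ w, IsLeast (UB T) w
      · obtain ⟨w, hw⟩ := hw
        exact ⟨w, fun _ _ => ⟨hw.1, fun _ => hw⟩⟩
      · obtain ⟨z, hz1, hz2⟩ := hnc T hT.1 hT.2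
        exact ⟨z, fun _ _ => ⟨⟨hz1, hz2⟩, fun h => absurd h hw⟩⟩
    · obtain ⟨q, -⟩ := hne
      exact ⟨q, fun h1 h2 => absurd ⟨h1, h2⟩ hT⟩
  choose G hG using hG
  obtain ⟨W, _, _, hW1, hW2, hW3⟩ := exists_W
  obtain ⟨e, he⟩ := rec_W (W := W) G
  have heQ : ∀ l, e l ∈ Q := by
    intro l
    induction l using WellFoundedLT.induction with
    | ind l ih =>
      rw [he l]
      exact (hG _ (by rintro _ ⟨a, ha, rfl⟩; exact ih a ha) ((hW1 l).image _)).1.1
  have heG : ∀ l, e l ∈ UB (e '' Iio l) ∧ ((∃ w, IsLeast (UB (e '' Iio l)) w) →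
      IsLeast (UB (e '' Iio l)) (e l)) := by
    intro l
    have := hG (e '' Iio l) (by rintro _ ⟨a, -, rfl⟩; exact heQ a) ((hW1 l).image _)
    rwa [← he l] at this
  have hmono : StrictMono e := fun a b hab => (heG b).1.2 _ (mem_image_of_mem e hab)
  have hinj := hmono.injective
  -- enumeration of initial segments
  have henum : ∀ l : W, (∃ g, g < l) → ∃ f : ℕ → W, Iio l = range f := fun l ⟨g, hg⟩ =>
    (hW1 l).exists_eq_range ⟨g, hg⟩
  have hlim : ∀ l, (∃ g, g < l) → (∀ g < l, ∃ g' < l, g < g') → e l ∈ closure (e '' Iio l) := by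
    intro l hl0 hl
    by_contra hncl
    obtain ⟨f, hf⟩ := henum l hl0
    obtain ⟨m, hm⟩ := cc_aux go hQ hne (closure (e '' Iio l))ᶜ isClosed_closure.isOpen_compl
      (fun n => e (f n)) (by
        intro q hq
        by_cases hg : ∃ g < l, q < e g
        · obtain ⟨g, hg1, hg2⟩ := hg
          have : g ∈ range f := hf ▸ hg1
          obtain ⟨n, rfl⟩ := this
          exact Or.inr ⟨n, hg2⟩
        · push Not at hg
          left
          have hqUB : q ∈ UB (e '' Iio l) := by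
            refine ⟨hq, ?_⟩
            rintro _ ⟨g, hgl, rfl⟩
            obtain ⟨g', hg', hgg'⟩ := hl g hgl
            exact lt_of_lt_of_le (hmono hgg') (hg g' hg')
          have hsep : ∀ z ∈ UB (e '' Iio l), z < q → q ∉ closure (e '' Iio l) := by
            intro z hz hzq hcl
            obtain ⟨x, hx1, hx2⟩ := mem_closure_iff.1 hcl (Ioi z) (go.ioi z) hzq
            exact lt_asymm (hz.2 x hx2) hx1
          by_cases hw : ∃ w, IsLeast (UB (e '' Iio l)) w
          · have hle := ((heG l).2 hw).2 hqUB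
            rcases hle.lt_or_eq with h | h
            · exact hsep _ (heG l).1 h
            · exact h ▸ hncl
          · have : ∃ z ∈ UB (e '' Iio l), z < q := by
              by_contra hno
              push Not at hno
              exact hw ⟨q, hqUB, hno⟩
            obtain ⟨z, hz, hzq⟩ := this
            exact hsep z hz hzq)
    have hfl : f m < l := by
      have : f m ∈ range f := mem_range_self m
      rw [← hf] at this
      exact this
    rcases hm (e (f m)) (heQ _) with h | h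
    · exact h (subset_closure (mem_image_of_mem e hfl))
    · exact lt_irrefl _ h
  obtain ⟨A, A', hAA', hA, hA'⟩ := St_split hW1 hW2 hW3
  have hsucc : ∀ w : W, ∃ w', w < w' := fun w => by
    obtain ⟨d, hd⟩ := bdd_W hW1 hW2 {w} (countable_singleton w)
    exact ⟨d, hd w rfl⟩
  choose sc hsc using hsucc
  obtain ⟨F, C, hF1, hF2, hC1, hC2, hC3, hnet⟩ := hs (e '' A)
  -- (i) bounded
  have hbd : ∀ α ∈ A, ∃ δ, C (e α) ⊆ Iio (e δ) := by
    intro α hα
    have hαY : e α ∈ e '' A := mem_image_of_mem e hα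
    by_contra hno
    push Not at hno
    have : ∀ δ : W, ∃ β, δ < β ∧ e β ∈ C (e α) := by
      intro δ
      obtain ⟨c, hc1, hc2⟩ := Set.not_subset.1 (hno (sc δ))
      obtain ⟨β, -, rfl⟩ := (hC1 _ hαY).2 hc1
      refine ⟨β, lt_of_lt_of_le (hsc δ) ?_, hc1⟩
      exact hmono.le_iff_le.1 (not_lt.1 hc2)
    choose b hb1 hb2 using this
    obtain ⟨l, hlA', hl0, hl⟩ := hA' b
    obtain ⟨f, hf⟩ := henum l hl0
    obtain ⟨m, hm⟩ := cc_aux go (Q := C (e α)) (hC3 _ hαY) ⟨_, (hC1 _ hαY).1⟩ (Ioi (e l))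
      (go.ioi _) (fun n => e (f n)) (by
        intro c hc
        obtain ⟨β, hβ, rfl⟩ := (hC1 _ hαY).2 hc
        rcases lt_trichotomy β l with h | h | h
        · have : b β ∈ range f := hf ▸ hl β h
          obtain ⟨n, hn⟩ := this
          exact Or.inr ⟨n, by
            change e β < e (f n)
            rw [hn]; exact hmono (hb1 β)⟩
        · exact absurd (h ▸ hβ) (Set.disjoint_right.1 hAA' hlA')
        · exact Or.inl (hmono h))
    have hfl : f m < l := by
      have : f m ∈ range f := mem_range_self m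
      rw [← hf] at this
      exact this
    rcases hm _ (hb2 (f m)) with h | h
    · exact lt_asymm (hmono (hl _ hfl)) h
    · exact lt_asymm (hmono (hb1 (f m))) h
  -- (iii)
  have hfin : ∀ n, ∃ γ, {s ∈ F n | (s ∩ Ici (e γ)).Nonempty}.Finite := by
    intro n
    have hh : ∀ l, ∃ g, l ∈ A → (∃ g, g < l) → (∀ g < l, ∃ g' < l, g < g') →
        (g < l ∧ {s ∈ F n | (s ∩ Icc (e g) (e l)).Nonempty}.Finite) := by
      intro l
      by_cases hcond : l ∈ A ∧ (∃ g, g < l) ∧ (∀ g < l, ∃ g' < l, g < g')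
      · obtain ⟨hlA, hl0, hl⟩ := hcond
        obtain ⟨U, hU1, hU2, hU3⟩ := hF1 n (e l) (mem_image_of_mem e hlA)
        obtain ⟨V, hV1, hV2, hV3, hV4⟩ := go.conv (e l) U hU1 hU2
        obtain ⟨x, hx1, g, hg, rfl⟩ := mem_closure_iff.1 (hlim l hl0 hl) V hV1 hV2
        refine ⟨g, fun _ _ _ => ⟨hg, hU3.subset ?_⟩⟩
        rintro s ⟨hs1, x, hx2, hx3⟩
        exact ⟨hs1, x, hx2, hV3 (hV4 _ _ x hx1 hV2 hx3.1 hx3.2)⟩
      · exact ⟨l, fun h1 h2 h3 => absurd ⟨h1, h2, h3⟩ hcond⟩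
    choose h hh using hh
    have : ∃ γ, ∀ B, ∃ l ∈ A, B < l ∧ h l ≤ γ ∧ h l < l ∧
        {s ∈ F n | (s ∩ Icc (e (h l)) (e l)).Nonempty}.Finite := by
      by_contra hno
      push Not at hno
      choose B hB using hno
      obtain ⟨l, hlA, hl0, hl⟩ := hA (fun g => max (B g) (sc g))
      have hl' : ∀ g < l, ∃ g' < l, g < g' := fun g hg =>
        ⟨sc g, lt_of_le_of_lt (le_max_right _ _) (hl g hg), hsc g⟩
      obtain ⟨h1, h2⟩ := hh l hlA hl0 hl'
      exact hB (h l) l hlA (lt_of_le_of_lt (le_max_left _ _) (hl _ h1)) le_rfl h1 h2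
    obtain ⟨γ, hγ⟩ := this
    refine ⟨γ, ?_⟩
    by_contra hinf
    have hinf' : {s ∈ F n | (s ∩ Ici (e γ)).Nonempty}.Infinite := hinf
    obtain ⟨s, hsinj⟩ := Set.Infinite.natEmbedding _ hinf'
    have hx : ∀ i, ∃ β, e β ∈ (s i : Set X) ∧ e γ ≤ e β := by
      intro i
      obtain ⟨hs1, x, hx1, hx2⟩ := (s i).2
      obtain ⟨β, -, rfl⟩ := hF2 n _ hs1 hx1
      exact ⟨β, hx1, hx2⟩
    choose β hβ1 hβ2 using hx
    obtain ⟨B, hB⟩ := bdd_W hW1 hW2 (range β) (countable_range β)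
    obtain ⟨l, hlA, hBl, h1, h2, h3⟩ := hγ B
    have hmem : ∀ i, (s i : Set X) ∈ {s ∈ F n | (s ∩ Icc (e (h l)) (e l)).Nonempty} := by
      intro i
      refine ⟨(s i).2.1, e (β i), hβ1 i, (hmono.monotone h1).trans (hβ2 i), ?_⟩
      exact (hmono ((hB _ (mem_range_self i)).trans hBl)).le
    have hinj2 : Function.Injective (fun i => (s i : Set X)) := fun i j hij =>
      hsinj (Subtype.ext hij)
    exact (Set.infinite_range_of_injective hinj2) (h3.subset (by
      rintro _ ⟨i, rfl⟩; exact hmem i))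
  choose γ hγ using hfin
  have hcount : (⋃ n, {s ∈ F n | (s ∩ Ici (e (γ n))).Nonempty}).Countable :=
    countable_iUnion fun n => (hγ n).countable
  have hδ : ∀ s : Set X, ∃ δ : W, (∃ δ', s ⊆ Iio (e δ')) → s ⊆ Iio (e δ) := by
    intro s
    by_cases h : ∃ δ', s ⊆ Iio (e δ')
    · obtain ⟨δ', h'⟩ := h
      exact ⟨δ', fun _ => h'⟩
    · exact ⟨γ 0, fun h' => absurd h' h⟩
  choose δ hδ using hδ
  obtain ⟨d, hd⟩ := bdd_W hW1 hW2
    ((δ '' (⋃ n, {s ∈ F n | (s ∩ Ici (e (γ n))).Nonempty})) ∪ range γ)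
    ((hcount.image δ).union (countable_range γ))
  obtain ⟨α, hαA, ⟨g, hg⟩, hα⟩ := hA (fun _ => d)
  have hdα : d < α := hα g hg
  obtain ⟨δ', hδ'⟩ := hbd α hαA
  obtain ⟨n, s, hs1, hs2, hs3⟩ := hnet (e α) (mem_image_of_mem e hαA) (Iio (e δ')) (go.iio _) hδ'
  have hαs : e α ∈ s := hs2 (hC1 _ (mem_image_of_mem e hαA)).1
  have hγα : e (γ n) ≤ e α := (hmono ((hd _ (Or.inr (mem_range_self n))).trans hdα)).le
  have hsF : s ∈ ⋃ n, {s ∈ F n | (s ∩ Ici (e (γ n))).Nonempty} :=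
    mem_iUnion.2 ⟨n, hs1, e α, hαs, hγα⟩
  have h1 := hδ s ⟨δ', hs3⟩ hαs
  have h2 : δ s < d := hd _ (Or.inl (mem_image_of_mem δ hsF))
  exact lt_asymm (hmono (h2.trans hdα)) h1

lemma cc_max {X : Type u} [LinearOrder X] [TopologicalSpace X] (go : IsGO X) (hs : HS X)
    {Q : Set X} (hQ : CCpt Q) (hne : Q.Nonempty) : ∃ m ∈ Q, ∀ q ∈ Q, q ≤ m := by
  by_contra h
  push Not at h
  exact no_max_false go hs Q hQ hne h

lemma cc_min {X : Type u} [LinearOrder X] [TopologicalSpace X] (go : IsGO X) (hs : HS X)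
    {Q : Set X} (hQ : CCpt Q) (hne : Q.Nonempty) : ∃ m ∈ Q, ∀ q ∈ Q, m ≤ q :=
  cc_max (X := Xᵒᵈ) go.dual hs.dual hQ hne

theorem compact_of_cc {X : Type u} [LinearOrder X] [TopologicalSpace X] (go : IsGO X)
    (hs : HS X) {Q : Set X} (hQ : CCpt Q) : IsCompact Q := by
  classical
  apply isCompact_of_finite_subcover
  intro ι U hU hcov
  rcases Q.eq_empty_or_nonempty with rfl | hne
  · exact ⟨∅, empty_subset _⟩
  set B : Set X := {c ∈ Q | ∃ t : Finset ι, Q ∩ Iic c ⊆ ⋃ i ∈ t, U i} with hB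
  -- extension step
  have hext : ∀ b ∈ B, ∀ x ∈ Q, ∀ i, ∀ V ⊆ U i, (∀ y ∈ Q, y ≤ x → y ≤ b ∨ y ∈ V) →
      x ∈ B := by
    rintro b ⟨hbQ, t, ht⟩ x hx i V hV h
    refine ⟨hx, insert i t, ?_⟩
    rintro y ⟨hyQ, hyx⟩
    rcases h y hyQ hyx with h' | h'
    · have h1 := ht ⟨hyQ, h'⟩
      simp only [mem_iUnion, exists_prop] at h1 ⊢
      obtain ⟨j, hj, hyj⟩ := h1
      exact ⟨j, Finset.mem_insert_of_mem hj, hyj⟩
    · simp only [mem_iUnion, exists_prop]
      exact ⟨i, Finset.mem_insert_self i t, hV h'⟩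
  obtain ⟨c0, hc0, hc0'⟩ := cc_min go hs hQ hne
  have hc0B : c0 ∈ B := by
    obtain ⟨i, hi⟩ := mem_iUnion.1 (hcov hc0)
    refine ⟨hc0, {i}, ?_⟩
    rintro y ⟨hyQ, hy⟩
    have : y = c0 := le_antisymm hy (hc0' y hyQ)
    rw [this]
    simpa using hi
  obtain ⟨b, ⟨hbQ, hbcl⟩, hbmax⟩ := cc_max go hs (hQ.inter (K := closure B) isClosed_closure)
    ⟨c0, hc0, subset_closure hc0B⟩
  obtain ⟨i, hi⟩ := mem_iUnion.1 (hcov hbQ)
  obtain ⟨V, hV1, hV2, hV3, hV4⟩ := go.conv b (U i) (hU i) hi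
  have hbB : b ∈ B := by
    obtain ⟨b', hb'1, hb'2⟩ := mem_closure_iff.1 hbcl V hV1 hV2
    refine hext b' hb'2 b hbQ i V hV3 ?_
    intro y hyQ hyb
    rcases le_total y b' with h | h
    · exact Or.inl h
    · exact Or.inr (hV4 b' b y hb'1 hV2 h hyb)
  have hgt : ∀ q ∈ Q, q ∉ B → b < q := by
    intro q hq hqB
    by_contra h
    rw [not_lt] at h
    obtain ⟨-, t, ht⟩ := hbB
    exact hqB ⟨hq, t, fun y hy => ht ⟨hy.1, hy.2.trans h⟩⟩
  have hVB : ∀ a ∈ Q, a ∈ V → a ∈ B := by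
    intro a ha haV
    refine hext b hbB a ha i V hV3 ?_
    intro y hyQ hya
    rcases le_total y b with h | h
    · exact Or.inl h
    · exact Or.inr (hV4 b a y hV2 haV h hya)
  have hall : ∀ q ∈ Q, q ∈ B := by
    by_contra hno
    push Not at hno
    obtain ⟨q, hq, hqB⟩ := hno
    have hopen : IsOpen (Iio b ∪ V) := (go.iio b).union hV1
    obtain ⟨a, ⟨haQ, haV⟩, hamin⟩ := cc_min go hs (hQ.inter hopen.isClosed_compl)
      ⟨q, hq, fun h => h.elim (fun h => lt_asymm h (hgt q hq hqB)) (fun h => hqB (hVB q hq h))⟩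
    have haB : a ∉ B := by
      intro h
      have h1 := hbmax a ⟨haQ, subset_closure h⟩
      rcases h1.lt_or_eq with h2 | h2
      · exact haV (Or.inl h2)
      · exact haV (Or.inr (h2 ▸ hV2))
    obtain ⟨j, hj⟩ := mem_iUnion.1 (hcov haQ)
    apply haB
    refine hext b hbB a haQ j {a} (singleton_subset_iff.2 hj) ?_
    intro y hyQ hya
    by_cases hyB : y ∈ B
    · exact Or.inl (hbmax y ⟨hyQ, subset_closure hyB⟩)
    · right
      have : y ∈ Q ∩ (Iio b ∪ V)ᶜ := ⟨hyQ, fun h => h.elim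
        (fun h => lt_asymm h (hgt y hyQ hyB)) (fun h => hyB (hVB y hyQ h))⟩
      exact le_antisymm hya (hamin y this)
  obtain ⟨m, hm1, hm2⟩ := cc_max go hs hQ hne
  obtain ⟨-, t, ht⟩ := hall m hm1
  exact ⟨t, fun x hx => ht ⟨hx, hm2 x hx⟩⟩

end Pool.Agent.H479R3.GO
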