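import Mathlib
import Pool.Agent.H479R3.GO9

set_option autoImplicit false

/-! The clopen convex partitions and the Lindelöf fibres. -/

namespace Pool.Agent.H479R3.GO

open Set Topology

universe u

/-- points between `x` and `y` -/
def Btw {X : Type u} [LinearOrder X] (x y : X) : Set X :=
  {z | (x ≤ z ∧ z ≤ y) ∨ (y ≤ z ∧ z ≤ x)}

lemma Btw_symm {X : Type u} [LinearOrder X] (x y : X) : Btw x y = Btw y x := by
  ext z; exact or_comm

lemma Btw_sub {X : Type u} [LinearOrder X] (x y z : X) : Btw x z ⊆ Btw x y ∪ Btw y z := by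
  rintro w (⟨h1, h2⟩ | ⟨h1, h2⟩)
  · rcases le_total w y with h | h
    · exact Or.inl (Or.inl ⟨h1, h⟩)
    · exact Or.inr (Or.inl ⟨h, h2⟩)
  · rcases le_total w y with h | h
    · exact Or.inr (Or.inr ⟨h1, h⟩)
    · exact Or.inl (Or.inr ⟨h, h2⟩)

lemma Btw_mono {X : Type u} [LinearOrder X] {x y z : X} (h : z ∈ Btw x y) :
    Btw x z ⊆ Btw x y := by
  rintro w (⟨h1, h2⟩ | ⟨h1, h2⟩)
  · rcases h with ⟨h3, h4⟩ | ⟨h3, h4⟩
    · exact Or.inl ⟨h1, h2.trans h4⟩
    · have : w = x := le_antisymm (h2.trans h4) h1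
      rw [this]
      exact Or.inr ⟨h3.trans h4, le_rfl⟩
  · rcases h with ⟨h3, h4⟩ | ⟨h3, h4⟩
    · have : w = x := le_antisymm h2 (h3.trans h1)
      rw [this]
      exact Or.inl ⟨le_rfl, h3.trans h4⟩
    · exact Or.inr ⟨h3.trans h1, h2⟩

/-- decreasing sequence of partitions into open convex sets -/
structure PS (X : Type u) [LinearOrder X] [TopologicalSpace X] (P : ℕ → X → X → Prop) :
    Prop where
  refl : ∀ n x, P n x x
  symm : ∀ n x y, P n x y → P n y x
  trans : ∀ n x y z, P n x y → P n y z → P n x z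
  opn : ∀ n x, IsOpen {y | P n x y}
  conv : ∀ n x y z, P n x y → z ∈ Btw x y → P n x z
  mono : ∀ n x y, P (n + 1) x y → P n x y

lemma PS.dual {X : Type u} [LinearOrder X] [TopologicalSpace X] {P : ℕ → X → X → Prop}
    (h : PS X P) : PS Xᵒᵈ P where
  refl := h.refl
  symm := h.symm
  trans := h.trans
  opn := h.opn
  conv := fun n x y z hxy hz => h.conv n x y z hxy (hz.elim (fun h' => Or.inr ⟨h'.2, h'.1⟩)
    (fun h' => Or.inl ⟨h'.2, h'.1⟩))
  mono := h.mono

lemma PS.anti {X : Type u} [LinearOrder X] [TopologicalSpace X] {P : ℕ → X → X → Prop}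
    (h : PS X P) {m n : ℕ} (hmn : m ≤ n) {x y : X} (hxy : P n x y) : P m x y := by
  induction n, hmn using Nat.le_induction with
  | base => exact hxy
  | succ k _ ih => exact ih (h.mono k x y hxy)

/-- the fibre relation -/
def EE {X : Type u} (P : ℕ → X → X → Prop) (x y : X) : Prop := ∀ n, P n x y

section EE

variable {X : Type u} [LinearOrder X] [TopologicalSpace X] {P : ℕ → X → X → Prop}

lemma EE.refl (h : PS X P) (x : X) : EE P x x := fun n => h.refl n x
lemma EE.symm (h : PS X P) {x y : X} (hxy : EE P x y) : EE P y x := fun n => h.symm n x y (hxy n)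
lemma EE.trans (h : PS X P) {x y z : X} (hxy : EE P x y) (hyz : EE P y z) : EE P x z :=
  fun n => h.trans n x y z (hxy n) (hyz n)
lemma EE.conv (h : PS X P) {x y z : X} (hxy : EE P x y) (hz : z ∈ Btw x y) : EE P x z :=
  fun n => h.conv n x y z (hxy n) hz

lemma EE_closed (h : PS X P) (x : X) : IsClosed {y | EE P x y} := by
  rw [← isOpen_compl_iff, isOpen_iff_forall_mem_open]
  intro y hy
  have : ∃ n, ¬ P n x y := by
    by_contra hno
    push Not at hno
    exact hy hno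
  obtain ⟨n, hn⟩ := this
  refine ⟨{z | P n y z}, ?_, h.opn n y, h.refl n y⟩
  intro z hz hxz
  exact hn (h.trans n x z y (hxz n) (h.symm n y z hz))

end EE

lemma right_count {X : Type u} [LinearOrder X] (𝓕 : Set (Set X)) (x : X) (R : X → Prop)
    (h : ∀ z, R z → x ≤ z → {s ∈ 𝓕 | (s ∩ {w | x ≤ w ∧ w ≤ z}).Nonempty}.Finite) :
    {s ∈ 𝓕 | (s ∩ {z | R z ∧ x ≤ z}).Nonempty}.Countable := by
  classical
  by_cases hc : ∃ S : Set X, S ⊆ {z | R z ∧ x ≤ z} ∧ S.Countable ∧
      ∀ z, R z → x ≤ z → ∃ s ∈ S, z ≤ s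
  · obtain ⟨S, hS1, hS2, hS3⟩ := hc
    refine (hS2.biUnion fun b hb => (h b (hS1 hb).1 (hS1 hb).2).countable).mono ?_
    rintro s ⟨hs, w, hw1, hw2, hw3⟩
    obtain ⟨b, hb, hwb⟩ := hS3 w hw2 hw3
    exact mem_biUnion hb ⟨hs, w, hw1, hw3, hwb⟩
  · apply Set.Finite.countable
    by_contra hinf
    have hinf' : {s ∈ 𝓕 | (s ∩ {z | R z ∧ x ≤ z}).Nonempty}.Infinite := hinf
    obtain ⟨s, hsinj⟩ := Set.Infinite.natEmbedding _ hinf'
    choose hs1 w hw1 hw2 using fun i => (s i).2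
    apply hc
    refine ⟨range w, ?_, countable_range w, ?_⟩
    · rintro _ ⟨i, rfl⟩
      exact hw2 i
    · intro z hz hxz
      by_contra hno
      push Not at hno
      have hinj2 : Function.Injective (fun i => (s i : Set X)) := fun i j hij =>
        hsinj (Subtype.ext hij)
      refine (Set.infinite_range_of_injective hinj2) ((h z hz hxz).subset ?_)
      rintro _ ⟨i, rfl⟩
      exact ⟨hs1 i, w i, hw1 i, (hw2 i).2, (hno _ (mem_range_self i)).le⟩

lemma left_count {X : Type u} [LinearOrder X] (𝓕 : Set (Set X)) (x : X) (R : X → Prop)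
    (h : ∀ z, R z → z ≤ x → {s ∈ 𝓕 | (s ∩ {w | w ≤ x ∧ z ≤ w}).Nonempty}.Finite) :
    {s ∈ 𝓕 | (s ∩ {z | R z ∧ z ≤ x}).Nonempty}.Countable :=
  right_count (X := Xᵒᵈ) 𝓕 x R h

/-- The data extracted from a Sigma structure on the whole space. -/
structure Dat (X : Type u) [LinearOrder X] [TopologicalSpace X] (F : ℕ → Set (Set X))
    (C : X → Set X) (P : ℕ → X → X → Prop) (D : X → Set X) : Prop where
  ps : PS X P
  lf : ∀ k p, ∃ U : Set X, IsOpen U ∧ p ∈ U ∧ {s ∈ F k | (s ∩ U).Nonempty}.Finite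
  mem : ∀ y, y ∈ C y
  comp : ∀ y, IsCompact (C y)
  net : ∀ y, ∀ U : Set X, IsOpen U → (∀ z ∈ C y, EE P y z → z ∈ U) →
    ∃ n k, ∃ s ∈ F k, C y ⊆ s ∧ ∀ z ∈ s, P n y z → z ∈ U
  sub : ∀ x, D x ⊆ {z | EE P x z}
  cnt : ∀ x, (D x).Countable
  good : ∀ x z, EE P x z → z ∈ D x ∨ (z ∈ closure (D x ∩ Iio z) ∧ z ∈ closure (D x ∩ Ioi z))

theorem exists_dat {X : Type u} [LinearOrder X] [TopologicalSpace X] (go : IsGO X) (hs : HS X) :
    ∃ (F : ℕ → Set (Set X)) (C : X → Set X) (P : ℕ → X → X → Prop) (D : X → Set X),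
      Dat X F C P D := by
  classical
  obtain ⟨F, C, hF1, -, hC1, hC2, hC3, hnet⟩ := hs univ
  let P0 : ℕ → X → X → Prop := fun m x y => {s ∈ F m | (s ∩ Btw x y).Nonempty}.Finite
  let P : ℕ → X → X → Prop := fun n x y => ∀ m ≤ n, P0 m x y
  have hlf : ∀ k p, ∃ U : Set X, IsOpen U ∧ p ∈ U ∧ {s ∈ F k | (s ∩ U).Nonempty}.Finite :=
    fun k p => hF1 k p (mem_univ p)
  have h0refl : ∀ m x, P0 m x x := by
    intro m x
    obtain ⟨U, hU1, hU2, hU3⟩ := hlf m x
    refine hU3.subset ?_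
    rintro s ⟨hs1, z, hz1, hz2⟩
    refine ⟨hs1, z, hz1, ?_⟩
    have : z = x := hz2.elim (fun h => le_antisymm h.2 h.1) (fun h => le_antisymm h.2 h.1)
    exact this ▸ hU2
  have h0symm : ∀ m x y, P0 m x y → P0 m y x := by
    intro m x y h
    change {s ∈ F m | (s ∩ Btw y x).Nonempty}.Finite
    rw [Btw_symm]
    exact h
  have h0trans : ∀ m x y z, P0 m x y → P0 m y z → P0 m x z := by
    intro m x y z h1 h2
    refine (h1.union h2).subset ?_
    rintro s ⟨hs1, w, hw1, hw2⟩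
    rcases Btw_sub x y z hw2 with h | h
    · exact Or.inl ⟨hs1, w, hw1, h⟩
    · exact Or.inr ⟨hs1, w, hw1, h⟩
  have h0conv : ∀ m x y z, P0 m x y → z ∈ Btw x y → P0 m x z := by
    intro m x y z h hz
    refine h.subset ?_
    rintro s ⟨hs1, w, hw1, hw2⟩
    exact ⟨hs1, w, hw1, Btw_mono hz hw2⟩
  have h0open : ∀ m x, IsOpen {y | P0 m x y} := by
    intro m x
    rw [isOpen_iff_forall_mem_open]
    intro y hy
    obtain ⟨U, hU1, hU2, hU3⟩ := hlf m y
    obtain ⟨V, hV1, hV2, hV3, hV4⟩ := go.conv y U hU1 hU2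
    refine ⟨V, ?_, hV1, hV2⟩
    intro z hz
    refine h0trans m x y z hy ?_
    refine hU3.subset ?_
    rintro s ⟨hs1, w, hw1, hw2⟩
    refine ⟨hs1, w, hw1, hV3 ?_⟩
    rcases hw2 with h | h
    · exact hV4 y z w hV2 hz h.1 h.2
    · exact hV4 z y w hz hV2 h.1 h.2
  have ps : PS X P := by
    refine ⟨fun n x m _ => h0refl m x, fun n x y h m hm => h0symm m x y (h m hm),
      fun n x y z h1 h2 m hm => h0trans m x y z (h1 m hm) (h2 m hm), ?_,
      fun n x y z h hz m hm => h0conv m x y z (h m hm) hz,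
      fun n x y h m hm => h m (hm.trans (Nat.le_succ n))⟩
    intro n x
    have : {y | P n x y} = ⋂ m ∈ {m : ℕ | m ≤ n}, {y | P0 m x y} := by
      ext y
      simp only [mem_iInter]
      exact Iff.rfl
    rw [this]
    exact (Set.finite_le_nat n).isOpen_biInter fun m _ => h0open m x
  have hcc : ∀ y, CCpt (C y) := fun y => hC3 y (mem_univ y)
  have hmem : ∀ y, y ∈ C y := fun y => (hC1 y (mem_univ y)).1
  have hcomp : ∀ y, IsCompact (C y) := fun y => compact_of_cc go hs (hcc y)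
  -- the fibres are Lindelöf
  have hfc : ∀ x m, {s ∈ F m | (s ∩ {z | EE P x z}).Nonempty}.Countable := by
    intro x m
    have h1 := right_count (F m) x (fun z => EE P x z) (by
      intro z hz _
      refine (hz m m le_rfl).subset ?_
      rintro s ⟨hs1, w, hw1, hw2⟩
      exact ⟨hs1, w, hw1, Or.inl hw2⟩)
    have h2 := left_count (F m) x (fun z => EE P x z) (by
      intro z hz _
      refine (hz m m le_rfl).subset ?_
      rintro s ⟨hs1, w, hw1, hw2⟩
      exact ⟨hs1, w, hw1, Or.inr ⟨hw2.2, hw2.1⟩⟩)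
    refine (h1.union h2).mono ?_
    rintro s ⟨hs1, w, hw1, hw2⟩
    rcases le_total x w with h | h
    · exact Or.inl ⟨hs1, w, hw1, hw2, h⟩
    · exact Or.inr ⟨hs1, w, hw1, hw2, h⟩
  have hLK : ∀ x, IsLindelof {z | EE P x z} := by
    intro x
    apply isLindelof_of_countable_subcover
    intro ι U hU hcov
    set K : Set X := {z | EE P x z} with hK
    have hKcl : IsClosed K := EE_closed ps x
    have hsel : ∀ s : Set X, ∃ t : Set ι, t.Countable ∧
        ((∃ t' : Finset ι, s ∩ K ⊆ ⋃ i ∈ t', U i) → s ∩ K ⊆ ⋃ i ∈ t, U i) := by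
      intro s
      by_cases h : ∃ t' : Finset ι, s ∩ K ⊆ ⋃ i ∈ t', U i
      · obtain ⟨t', ht'⟩ := h
        exact ⟨t', t'.countable_toSet, fun _ => ht'⟩
      · exact ⟨∅, countable_empty, fun h' => absurd h' h⟩
    choose t ht1 ht2 using hsel
    refine ⟨⋃ m, ⋃ s ∈ {s ∈ F m | (s ∩ K).Nonempty}, t s,
      countable_iUnion fun m => (hfc x m).biUnion fun s _ => ht1 s, ?_⟩
    intro z hz
    have hCK : IsCompact (C z ∩ K) := (hcomp z).inter_right hKcl
    obtain ⟨t', ht'⟩ := hCK.elim_finite_subcover U hU (fun w hw => hcov hw.2)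
    obtain ⟨m, s, hs1, hs2, hs3⟩ := hnet z (mem_univ z) ((⋃ i ∈ t', U i) ∪ Kᶜ)
      ((isOpen_biUnion fun i _ => hU i).union hKcl.isOpen_compl) (by
        intro w hw
        by_cases hwK : w ∈ K
        · exact Or.inl (ht' ⟨hw, hwK⟩)
        · exact Or.inr hwK)
    have hzs : z ∈ s := hs2 (hmem z)
    have h1 := ht2 s ⟨t', fun w hw => (hs3 hw.1).resolve_right (fun h => h hw.2)⟩ ⟨hzs, hz⟩
    simp only [mem_iUnion, exists_prop] at h1
    obtain ⟨i, hi, hzi⟩ := h1
    exact mem_biUnion (mem_iUnion.2 ⟨m, mem_biUnion (⟨hs1, z, hzs, hz⟩ :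
      s ∈ {s ∈ F m | (s ∩ K).Nonempty}) hi⟩) hzi
  -- good sets
  have hgood : ∀ x, ∃ D : Set X, D ⊆ {z | EE P x z} ∧ D.Countable ∧ ∀ z, EE P x z → z ∈ D ∨
      (z ∈ closure (D ∩ Iio z) ∧ z ∈ closure (D ∩ Ioi z)) := by
    intro x
    have hL := hLK x
    set K : Set X := {z | EE P x z} with hK
    have hLY : IsLindelof (univ : Set K) := by
      have h := hL
      rw [← Subtype.range_coe (s := K), ← image_univ] at h
      exact (Topology.IsInducing.subtypeVal.isLindelof_iff).2 h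
    obtain ⟨D, hD1, hD2⟩ := good_of_lindelof (isGO_sub go K) (HS_sub hs K) hLY
    refine ⟨Subtype.val '' D, ?_, hD1.image _, ?_⟩
    · rintro _ ⟨z, -, rfl⟩
      exact z.2
    · intro z hz
      rcases hD2 ⟨z, hz⟩ with h | h
      · exact Or.inl ⟨⟨z, hz⟩, h, rfl⟩
      · right
        constructor
        · have h1 := h.1
          rw [closure_subtype] at h1
          refine closure_mono ?_ h1
          rintro _ ⟨w, hw, rfl⟩
          exact ⟨mem_image_of_mem _ hw.1, hw.2⟩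
        · have h1 := h.2
          rw [closure_subtype] at h1
          refine closure_mono ?_ h1
          rintro _ ⟨w, hw, rfl⟩
          exact ⟨mem_image_of_mem _ hw.1, hw.2⟩
  choose D hD1 hD2 hD3 using hgood
  refine ⟨F, C, P, D, ps, hlf, hmem, hcomp, ?_, hD1, hD2, hD3⟩
  intro y U hU hCU
  have hPcl : ∀ n, IsOpen {z | P n y z}ᶜ := by
    intro n
    rw [isOpen_iff_forall_mem_open]
    intro z hz
    refine ⟨{w | P n z w}, ?_, ps.opn n z, ps.refl n z⟩
    intro w hw hyw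
    exact hz (ps.trans n y w z hyw (ps.symm n z w hw))
  obtain ⟨t, ht⟩ := hcc y (fun n => U ∪ {z | P n y z}ᶜ) (fun n => hU.union (hPcl n)) (by
    intro z hz
    by_cases hE : EE P y z
    · exact mem_iUnion.2 ⟨0, Or.inl (hCU z hz hE)⟩
    · have : ∃ n, ¬ P n y z := by
        by_contra hno
        push Not at hno
        exact hE hno
      obtain ⟨n, hn⟩ := this
      exact mem_iUnion.2 ⟨n, Or.inr hn⟩)
  have hN : ∃ N, ∀ n ∈ t, n ≤ N := ⟨t.sup id, fun n hn => Finset.le_sup (f := id) hn⟩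
  obtain ⟨N, hN⟩ := hN
  obtain ⟨k, s, hs1, hs2, hs3⟩ := hnet y (mem_univ y) (U ∪ {z | P N y z}ᶜ) (hU.union (hPcl N)) (by
    intro z hz
    have h1 := ht hz
    simp only [mem_iUnion, exists_prop] at h1
    obtain ⟨n, hn, h | h⟩ := h1
    · exact Or.inl h
    · exact Or.inr fun h' => h (ps.anti (hN n hn) h'))
  exact ⟨N, k, s, hs1, hs2, fun z hz hPz => (hs3 hz).resolve_right (fun h => h hPz)⟩

lemma Dat.dual {X : Type u} [LinearOrder X] [TopologicalSpace X] {F : ℕ → Set (Set X)}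
    {C : X → Set X} {P : ℕ → X → X → Prop} {D : X → Set X} (h : Dat X F C P D) :
    Dat Xᵒᵈ F C P D where
  ps := h.ps.dual
  lf := h.lf
  mem := h.mem
  comp := h.comp
  net := h.net
  sub := h.sub
  cnt := h.cnt
  good := fun x z hz => (h.good x z hz).imp id (fun h' => ⟨h'.2, h'.1⟩)

end Pool.Agent.H479R3.GO
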