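import Mathlib
import Pool.Agent.H479R3.GO10

set_option autoImplicit false

/-! Sigma-closed-discrete sets. -/

namespace Pool.Agent.H479R3.GO

open Set Topology

universe u

/-- contained in a countable union of closed discrete sets -/
def SCD {X : Type u} [TopologicalSpace X] (S : Set X) : Prop :=
  ∃ T : ℕ → Set X, (∀ i, CD (T i)) ∧ S ⊆ ⋃ i, T i

lemma SCD.mono {X : Type u} [TopologicalSpace X] {S T : Set X} (hT : SCD T) (h : S ⊆ T) :
    SCD S := by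
  obtain ⟨U, h1, h2⟩ := hT
  exact ⟨U, h1, h.trans h2⟩

lemma CD.scd {X : Type u} [TopologicalSpace X] {S : Set X} (h : CD S) : SCD S :=
  ⟨fun _ => S, fun _ => h, fun _ hx => mem_iUnion.2 ⟨0, hx⟩⟩

lemma CD.empty {X : Type u} [TopologicalSpace X] : CD (∅ : Set X) := fun p =>
  ⟨univ, isOpen_univ, mem_univ p, by simp⟩

lemma SCD.iUnion {X : Type u} [TopologicalSpace X] {ι : Type} [Countable ι] {S : ι → Set X}
    (h : ∀ i, SCD (S i)) : SCD (⋃ i, S i) := by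
  rcases isEmpty_or_nonempty ι with hι | hι
  · exact ⟨fun _ => ∅, fun _ => CD.empty, by simp⟩
  · choose T hT1 hT2 using h
    obtain ⟨f, hf⟩ := exists_surjective_nat (ι × ℕ)
    refine ⟨fun n => T (f n).1 (f n).2, fun n => hT1 _ _, ?_⟩
    intro x hx
    obtain ⟨i, hi⟩ := mem_iUnion.1 hx
    obtain ⟨j, hj⟩ := mem_iUnion.1 (hT2 i hi)
    obtain ⟨n, hn⟩ := hf (i, j)
    exact mem_iUnion.2 ⟨n, by rw [hn]; exact hj⟩

lemma SCD.union {X : Type u} [TopologicalSpace X] {S T : Set X} (hS : SCD S) (hT : SCD T) :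
    SCD (S ∪ T) := by
  have := SCD.iUnion (ι := Bool) (S := fun b => if b then S else T) (by
    intro b
    cases b
    · exact hT
    · exact hS)
  refine this.mono ?_
  rintro x (hx | hx)
  · exact mem_iUnion.2 ⟨true, hx⟩
  · exact mem_iUnion.2 ⟨false, hx⟩

section

variable {X : Type u} [LinearOrder X] [TopologicalSpace X] {P : ℕ → X → X → Prop}

/-- Selection lemma. -/
lemma sel_cd (go : IsGO X) (ps : PS X P) {T T' : Set X} (hT : CD T)
    (h1 : ∀ x ∈ T', ∀ y ∈ T', EE P x y → x = y) (h2 : ∀ x ∈ T', ∃ t ∈ T, EE P x t) : CD T' := by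
  intro p
  obtain ⟨O, hO1, hO2, hO3, hO4⟩ := hT.strong go p
  refine ⟨O, hO1, hO2, ?_⟩
  have hA : {x | x ∈ T' ∧ x ∈ O ∧ x < p ∧ ¬ EE P x p}.Subsingleton := by
    have key : ∀ x x', x ∈ {x | x ∈ T' ∧ x ∈ O ∧ x < p ∧ ¬ EE P x p} →
        x' ∈ {x | x ∈ T' ∧ x ∈ O ∧ x < p ∧ ¬ EE P x p} → ¬ x < x' := by
      rintro x x' ⟨ha, hb, hc, hd⟩ ⟨ha', hb', hc', hd'⟩ hlt
      obtain ⟨t, ht, hxt⟩ := h2 x' ha'
      have hne : ¬ EE P x' x := fun h => hlt.ne (h1 x' ha' x ha h).symm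
      have h3 : x < t := by
        by_contra h
        rw [not_lt] at h
        exact hne (hxt.conv ps (Or.inr ⟨h, hlt.le⟩))
      have h4 : t < p := by
        by_contra h
        rw [not_lt] at h
        exact hd' (hxt.conv ps (Or.inl ⟨hc'.le, h⟩))
      have h5 := hO3 t (hO4 x p t hb hO2 h3.le h4.le) ht
      exact h4.ne h5
    intro x hx y hy
    exact le_antisymm (not_lt.1 (key y x hy hx)) (not_lt.1 (key x y hx hy))
  have hB : {x | x ∈ T' ∧ x ∈ O ∧ p < x ∧ ¬ EE P x p}.Subsingleton := by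
    have key : ∀ x x', x ∈ {x | x ∈ T' ∧ x ∈ O ∧ p < x ∧ ¬ EE P x p} →
        x' ∈ {x | x ∈ T' ∧ x ∈ O ∧ p < x ∧ ¬ EE P x p} → ¬ x' < x := by
      rintro x x' ⟨ha, hb, hc, hd⟩ ⟨ha', hb', hc', hd'⟩ hlt
      obtain ⟨t, ht, hxt⟩ := h2 x' ha'
      have hne : ¬ EE P x' x := fun h => hlt.ne (h1 x' ha' x ha h)
      have h3 : t < x := by
        by_contra h
        rw [not_lt] at h
        exact hne (hxt.conv ps (Or.inl ⟨hlt.le, h⟩))
      have h4 : p < t := by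
        by_contra h
        rw [not_lt] at h
        exact hd' (hxt.conv ps (Or.inr ⟨h, hc'.le⟩))
      have h5 := hO3 t (hO4 p x t hO2 hb h4.le h3.le) ht
      exact h4.ne h5.symm
    intro x hx y hy
    exact le_antisymm (not_lt.1 (key x y hx hy)) (not_lt.1 (key y x hy hx))
  have hC : {x | x ∈ T' ∧ EE P x p}.Subsingleton := by
    rintro x ⟨hx1, hx2⟩ y ⟨hy1, hy2⟩
    exact h1 x hx1 y hy1 (hx2.trans ps (hy2.symm ps))
  refine ((hA.finite.union hB.finite).union hC.finite).subset ?_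
  rintro x ⟨hxO, hxT⟩
  by_cases hE : EE P x p
  · exact Or.inr ⟨hxT, hE⟩
  · left
    rcases lt_trichotomy x p with h | h | h
    · exact Or.inl ⟨hxT, hxO, h, hE⟩
    · exact absurd (h ▸ EE.refl ps x) hE
    · exact Or.inr ⟨hxT, hxO, h, hE⟩

/-- A set meeting each class of `P n` in at most one point is closed discrete. -/
lemma cd_of_class (ps : PS X P) (n : ℕ) {T : Set X}
    (h : ∀ x ∈ T, ∀ y ∈ T, P n x y → x = y) : CD T := by
  intro p
  refine ⟨{y | P n p y}, ps.opn n p, ps.refl n p, Set.Subsingleton.finite ?_⟩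
  rintro x ⟨hx1, hx2⟩ y ⟨hy1, hy2⟩
  exact h x hx2 y hy2 (ps.trans n x p y (ps.symm n p x hx1) hy1)

/-- sets attached to the members of a locally finite family -/
lemma cd_of_lf (ps : PS X P) (𝓕 : Set (Set X))
    (hlf : ∀ p, ∃ U : Set X, IsOpen U ∧ p ∈ U ∧ {s ∈ 𝓕 | (s ∩ U).Nonempty}.Finite) (n : ℕ)
    (φ : Set X → X → Prop)
    (h : ∀ s ∈ 𝓕, ∀ x ∈ s, ∀ y ∈ s, P n x y → φ s x → φ s y → x = y) :
    CD {x | ∃ s ∈ 𝓕, x ∈ s ∧ φ s x} := by
  intro p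
  obtain ⟨U, hU1, hU2, hU3⟩ := hlf p
  refine ⟨U ∩ {y | P n p y}, hU1.inter (ps.opn n p), ⟨hU2, ps.refl n p⟩, ?_⟩
  have : (⋃ s ∈ {s ∈ 𝓕 | (s ∩ U).Nonempty}, {x | s ∈ 𝓕 ∧ x ∈ s ∧ P n p x ∧ φ s x}).Finite := by
    refine hU3.biUnion fun s _ => Set.Subsingleton.finite ?_
    rintro x ⟨hs, hx1, hx2, hx3⟩ y ⟨-, hy1, hy2, hy3⟩
    exact h s hs x hx1 y hy1 (ps.trans n x p y (ps.symm n p x hx2) hy2) hx3 hy3
  refine this.subset ?_
  rintro x ⟨⟨hxU, hxP⟩, s, hs, hxs, hφ⟩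
  exact mem_biUnion (⟨hs, x, hxs, hxU⟩ : s ∈ {s ∈ 𝓕 | (s ∩ U).Nonempty}) ⟨hs, hxs, hxP, hφ⟩

/-- minima of `s` within a class -/
def NL (F : ℕ → Set (Set X)) (P : ℕ → X → X → Prop) (n k : ℕ) : Set X :=
  {x | ∃ s ∈ F k, x ∈ s ∧ ∀ z ∈ s, P n x z → x ≤ z}

def NR (F : ℕ → Set (Set X)) (P : ℕ → X → X → Prop) (n k : ℕ) : Set X :=
  {x | ∃ s ∈ F k, x ∈ s ∧ ∀ z ∈ s, P n x z → z ≤ x}

lemma NL_cd {F : ℕ → Set (Set X)} {C : X → Set X} {D : X → Set X} (dat : Dat X F C P D)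
    (n k : ℕ) : CD (NL F P n k) := by
  refine cd_of_lf dat.ps (F k) (dat.lf k) n (fun s x => ∀ z ∈ s, P n x z → x ≤ z) ?_
  intro s _ x hx y hy hxy h1 h2
  exact le_antisymm (h1 y hy hxy) (h2 x hx (dat.ps.symm n x y hxy))

lemma NR_cd {F : ℕ → Set (Set X)} {C : X → Set X} {D : X → Set X} (dat : Dat X F C P D)
    (n k : ℕ) : CD (NR F P n k) := by
  refine cd_of_lf dat.ps (F k) (dat.lf k) n (fun s x => ∀ z ∈ s, P n x z → z ≤ x) ?_
  intro s _ x hx y hy hxy h1 h2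
  exact le_antisymm (h2 x hx (dat.ps.symm n x y hxy)) (h1 y hy hxy)

/-- if the fibre of `y` meets `C y` above `m ∈ C y` in its fibre with `Ici m` open -/
lemma mem_NL {F : ℕ → Set (Set X)} {C : X → Set X} {D : X → Set X} (dat : Dat X F C P D)
    {y m : X} (hm1 : m ∈ C y) (hm2 : EE P y m) (hm : ∀ z ∈ C y, EE P y z → m ≤ z)
    (ho : IsOpen (Ici m)) : m ∈ ⋃ p : ℕ × ℕ, NL F P p.1 p.2 := by
  obtain ⟨n, k, s, hs1, hs2, hs3⟩ := dat.net y (Ici m) ho hm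
  exact mem_iUnion.2 ⟨(n, k), s, hs1, hs2 hm1, fun z hz hPz =>
    hs3 z hz (dat.ps.trans n y m z (hm2 n) hPz)⟩

lemma mem_NR {F : ℕ → Set (Set X)} {C : X → Set X} {D : X → Set X} (dat : Dat X F C P D)
    {y m : X} (hm1 : m ∈ C y) (hm2 : EE P y m) (hm : ∀ z ∈ C y, EE P y z → z ≤ m)
    (ho : IsOpen (Iic m)) : m ∈ ⋃ p : ℕ × ℕ, NR F P p.1 p.2 := by
  obtain ⟨n, k, s, hs1, hs2, hs3⟩ := dat.net y (Iic m) ho hm
  exact mem_iUnion.2 ⟨(n, k), s, hs1, hs2 hm1, fun z hz hPz =>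
    hs3 z hz (dat.ps.trans n y m z (hm2 n) hPz)⟩

/-- representatives and enumerations -/
lemma exists_rep (Q : X → X → Prop) (h1 : ∀ x, Q x x) (h2 : ∀ x y, Q x y → Q y x)
    (h3 : ∀ x y z, Q x y → Q y z → Q x z) :
    ∃ rep : X → X, (∀ x, Q x (rep x)) ∧ ∀ x y, Q x y → rep x = rep y := by
  let s : Setoid X := ⟨Q, h1, fun {x y} h => h2 x y h, fun {x y z} h h' => h3 x y z h h'⟩
  refine ⟨fun x => (Quotient.mk s x).out, ?_, ?_⟩
  · intro x
    have : Q (Quotient.mk s x).out x := Quotient.exact (Quotient.out_eq (Quotient.mk s x))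
    exact h2 _ _ this
  · intro x y h
    have : Quotient.mk s x = Quotient.mk s y := Quotient.sound h
    change (Quotient.mk s x).out = (Quotient.mk s y).out
    rw [this]

/-- Assembly: from good sets on fibres to a sigma-closed-discrete set. -/
lemma fibre_scd (go : IsGO X) {F : ℕ → Set (Set X)} {C : X → Set X} {D : X → Set X}
    (dat : Dat X F C P D) (H : Set X) (hH : SCD H) :
    ∃ S : Set X, SCD S ∧ ∀ x, (∃ t ∈ H, EE P x t) →
      (x ∈ S ∨ (x ∈ closure (S ∩ Iio x) ∧ x ∈ closure (S ∩ Ioi x))) := by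
  classical
  have ps := dat.ps
  obtain ⟨rep, hrep1, hrep2⟩ := exists_rep (EE P) (EE.refl ps) (fun x y h => h.symm ps)
    (fun x y z h h' => h.trans ps h')
  obtain ⟨T, hT1, hT2⟩ := hH
  choose f hf using fun x => Set.countable_iff_exists_injOn.1 (dat.cnt x)
  let S : Set X := {x | x ∈ D (rep x) ∧ ∃ t ∈ H, EE P x t}
  refine ⟨S, ?_, ?_⟩
  · have : S ⊆ ⋃ p : ℕ × ℕ, {x | x ∈ D (rep x) ∧ f (rep x) x = p.1 ∧ ∃ t ∈ T p.2, EE P x t} := by
      rintro x ⟨hx1, t, ht, hxt⟩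
      obtain ⟨i, hi⟩ := mem_iUnion.1 (hT2 ht)
      exact mem_iUnion.2 ⟨(f (rep x) x, i), hx1, rfl, t, hi, hxt⟩
    refine SCD.mono (SCD.iUnion fun p => CD.scd ?_) this
    refine sel_cd go ps (hT1 p.2) ?_ ?_
    · rintro x ⟨hx1, hx2, -⟩ y ⟨hy1, hy2, -⟩ hxy
      have hr := hrep2 x y hxy
      rw [← hr] at hy1 hy2
      exact hf (rep x) hx1 hy1 (hx2.trans hy2.symm)
    · rintro x ⟨-, -, h⟩
      exact h
  · rintro x ⟨t, ht, hxt⟩
    have hsub : D (rep x) ⊆ S := by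
      intro y hy
      have h1 : EE P (rep x) y := dat.sub _ hy
      have h2 : EE P x y := (hrep1 x).trans ps h1
      have hr := hrep2 x y h2
      exact ⟨hr ▸ hy, t, ht, (h2.symm ps).trans ps hxt⟩
    rcases dat.good (rep x) x ((hrep1 x).symm ps) with h | h
    · exact Or.inl (hsub h)
    · exact Or.inr ⟨closure_mono (inter_subset_inter_left _ hsub) h.1,
        closure_mono (inter_subset_inter_left _ hsub) h.2⟩

/-- Theorem J: if all points are left-isolated, the space is sigma-closed-discrete. -/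
theorem thmJ (go : IsGO X) (hs : HS X) (hop : ∀ x : X, IsOpen (Ici x)) :
    SCD (univ : Set X) := by
  classical
  obtain ⟨F, C, P, D, dat⟩ := exists_dat go hs
  have ps := dat.ps
  have : ClosedIicTopology X := ⟨fun a => by
    have := (go.ioi a).isClosed_compl
    rwa [compl_Ioi] at this⟩
  have hH : SCD (⋃ p : ℕ × ℕ, NL F P p.1 p.2) := SCD.iUnion fun p => (NL_cd dat p.1 p.2).scd
  obtain ⟨S, hS1, hS2⟩ := fibre_scd go dat _ hH
  refine hS1.mono ?_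
  intro x _
  have hK : IsCompact (C x ∩ {z | EE P x z}) := (dat.comp x).inter_right (EE_closed ps x)
  obtain ⟨m, hm1, hm2⟩ := hK.exists_isLeast ⟨x, dat.mem x, EE.refl ps x⟩
  have hm := mem_NL dat hm1.1 hm1.2 (fun z hz hE => hm2 ⟨hz, hE⟩) (hop m)
  rcases hS2 x ⟨m, hm, hm1.2⟩ with h | h
  · exact h
  · obtain ⟨y, hy1, hy2⟩ := mem_closure_iff.1 h.1 (Ici x) (hop x) (mem_Ici.2 le_rfl)
    exact absurd hy2.2 (not_lt.2 hy1)

lemma scd_of_sub {Y : Set X} (h : SCD (univ : Set Y)) :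
    ∃ T : ℕ → Set Y, (∀ i, CD (T i)) ∧ ⋃ i, T i = univ := by
  obtain ⟨T, hT1, hT2⟩ := h
  exact ⟨T, hT1, univ_subset_iff.1 hT2⟩

/-- minima of nondegenerate fibres which are left limits -/
theorem GA (go : IsGO X) (hs : HS X) (ps : PS X P) :
    SCD {y : X | (∀ z, EE P y z → y ≤ z) ∧ (∃ z, EE P y z ∧ y < z) ∧ y ∈ closure (Iio y)} := by
  classical
  set Y : Set X := {y : X | (∀ z, EE P y z → y ≤ z) ∧ (∃ z, EE P y z ∧ y < z) ∧
    y ∈ closure (Iio y)} with hY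
  have goY := isGO_sub go Y
  have hsY := HS_sub hs Y
  have hop : ∀ y : Y, IsOpen (Iic y) := by
    intro y
    obtain ⟨h1, ⟨z, hz1, hz2⟩, h3⟩ := y.2
    have : Iic y = {w : Y | w.1 ∈ Iio z} := by
      ext w
      constructor
      · intro hw
        exact lt_of_le_of_lt (show w.1 ≤ y.1 from hw) hz2
      · intro hw
        by_contra h
        have hyw : y.1 < w.1 := not_le.1 h
        have hwz : w.1 < z := hw
        have hE : EE P y.1 w.1 := hz1.conv ps (Or.inl ⟨hyw.le, hwz.le⟩)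
        exact absurd (w.2.1 y.1 (hE.symm ps)) (not_le.2 hyw)
    rw [this]
    exact isOpen_induced_iff.2 ⟨Iio z, go.iio z, rfl⟩
  have hJ : SCD (univ : Set Y) := thmJ (X := (Y)ᵒᵈ) goY.dual hsY.dual hop
  obtain ⟨T, hT1, hT2⟩ := scd_of_sub hJ
  have hsub : Y ⊆ ⋃ p : ℕ × ℕ, {y | y ∈ Subtype.val '' T p.1 ∧
      ∀ y' ∈ Subtype.val '' T p.1, P p.2 y y' → y ≤ y'} := by
    intro y hy
    have hyT : (⟨y, hy⟩ : Y) ∈ ⋃ i, T i := by rw [hT2]; exact mem_univ _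
    obtain ⟨i, hi⟩ := mem_iUnion.1 hyT
    obtain ⟨O', hO'1, hO'2, hO'3, -⟩ := (hT1 i).strong goY ⟨y, hy⟩
    obtain ⟨O, hO, hOO'⟩ := isOpen_induced_iff.1 hO'1
    have hyO : y ∈ O := by
      rw [← hOO'] at hO'2
      exact hO'2
    obtain ⟨V, hV1, hV2, hV3, hV4⟩ := go.conv y O hO hyO
    obtain ⟨v, hv1, hv2⟩ := mem_closure_iff.1 hy.2.2 V hV1 hV2
    have hvE : ¬ EE P y v := fun h => absurd (hy.1 v h) (not_le.2 hv2)
    have : ∃ n, ¬ P n y v := by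
      by_contra hno
      push Not at hno
      exact hvE hno
    obtain ⟨n, hn⟩ := this
    refine mem_iUnion.2 ⟨(i, n), ⟨⟨y, hy⟩, hi, rfl⟩, ?_⟩
    rintro _ ⟨y', hy', rfl⟩ hP
    by_contra hlt
    rw [not_le] at hlt
    have hvy' : v < y'.1 := by
      by_contra h
      rw [not_lt] at h
      exact hn (ps.conv n y y'.1 v hP (Or.inr ⟨h, le_of_lt hv2⟩))
    have h1 : y'.1 ∈ V := hV4 v y y'.1 hv1 hV2 hvy'.le hlt.le
    have h2 : y' ∈ O' := by
      rw [← hOO']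
      exact hV3 h1
    have h3 := hO'3 y' h2 hy'
    rw [h3] at hlt
    exact lt_irrefl _ hlt
  refine SCD.mono (SCD.iUnion fun p => CD.scd ?_) hsub
  refine cd_of_class ps p.2 ?_
  rintro x ⟨hx1, hx2⟩ y ⟨hy1, hy2⟩ hxy
  exact le_antisymm (hx2 y hy1 hxy) (hy2 x hx1 (ps.symm _ x y hxy))

theorem GB (go : IsGO X) (hs : HS X) (ps : PS X P) :
    SCD {y : X | (∀ z, EE P y z → z ≤ y) ∧ (∃ z, EE P y z ∧ z < y) ∧ y ∈ closure (Ioi y)} :=
  GA (X := Xᵒᵈ) go.dual hs.dual ps.dual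

end

end Pool.Agent.H479R3.GO
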