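import Mathlib
import Pool.Agent.H479R3.GO11

set_option autoImplicit false

/-! Hereditarily Sigma GO spaces are metrizable. -/

namespace Pool.Agent.H479R3.GO

open Set Topology

universe u

theorem metrizable_of_HS {X : Type u} [LinearOrder X] [TopologicalSpace X] (go : IsGO X)
    (hs : HS X) : TopologicalSpace.MetrizableSpace X := by
  classical
  obtain ⟨F, C, P, D, dat⟩ := exists_dat go hs
  have ps := dat.ps
  obtain ⟨rep, hrep1, hrep2⟩ := exists_rep (EE P) (EE.refl ps) (fun x y h => h.symm ps)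
    (fun x y z h h' => h.trans ps h')
  have hreprep : ∀ x, rep (rep x) = rep x := fun x => (hrep2 x (rep x) (hrep1 x)).symm
  choose rn hrn1 hrn2 using fun n => exists_rep (P n) (ps.refl n) (ps.symm n) (ps.trans n)
  have hNL : SCD (⋃ p : ℕ × ℕ, NL F P p.1 p.2) := SCD.iUnion fun p => (NL_cd dat p.1 p.2).scd
  have hNR : SCD (⋃ p : ℕ × ℕ, NR F P p.1 p.2) := SCD.iUnion fun p => (NR_cd dat p.1 p.2).scd
  have hTC : SCD (⋃ p : ℕ × ℕ, {x | ∃ s ∈ F p.2, x ∈ s ∧ (rep x = x ∧
      ∀ z ∈ s, P p.1 x z → EE P x z)}) := by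
    refine SCD.iUnion fun p => CD.scd ?_
    refine cd_of_lf ps (F p.2) (dat.lf p.2) p.1
      (fun s x => rep x = x ∧ ∀ z ∈ s, P p.1 x z → EE P x z) ?_
    intro s _ x hx y hy hxy h1 h2
    have := hrep2 x y (h1.2 y hy hxy)
    rw [h1.1, h2.1] at this
    exact this
  have hYA := GA go hs ps
  have hYB := GB go hs ps
  set H : Set X := (⋃ p : ℕ × ℕ, NL F P p.1 p.2) ∪ (⋃ p : ℕ × ℕ, NR F P p.1 p.2) ∪
    {y : X | (∀ z, EE P y z → y ≤ z) ∧ (∃ z, EE P y z ∧ y < z) ∧ y ∈ closure (Iio y)} ∪
    {y : X | (∀ z, EE P y z → z ≤ y) ∧ (∃ z, EE P y z ∧ z < y) ∧ y ∈ closure (Ioi y)} ∪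
    (⋃ p : ℕ × ℕ, {x | ∃ s ∈ F p.2, x ∈ s ∧ (rep x = x ∧
      ∀ z ∈ s, P p.1 x z → EE P x z)}) with hH
  have hHs : SCD H := (((hNL.union hNR).union hYA).union hYB).union hTC
  have hhit : ∀ x, (∃ z, EE P x z ∧ z ≠ x) → ∃ t ∈ H, EE P x t := by
    rintro x ⟨z, hxz, hzx⟩
    by_cases hmin : ∃ y, EE P x y ∧ ∀ w, EE P x w → y ≤ w
    · obtain ⟨y, hxy, hy⟩ := hmin
      refine ⟨y, ?_, hxy⟩
      have hy' : ∀ w, EE P y w → y ≤ w := fun w hw => hy w (hxy.trans ps hw)
      by_cases hcl : y ∈ closure (Iio y)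
      · left; left; right
        refine ⟨hy', ?_, hcl⟩
        rcases (hy x (EE.refl ps x)).lt_or_eq with h | h
        · exact ⟨x, hxy.symm ps, h⟩
        · refine ⟨z, (hxy.symm ps).trans ps hxz, ?_⟩
          exact lt_of_le_of_ne (hy z hxz) (fun h' => hzx (h'.symm.trans h))
      · left; left; left; left
        exact mem_NL dat (dat.mem y) (EE.refl ps y) (fun w _ hw => hy' w hw)
          (ici_open_of go hcl)
    · by_cases hmax : ∃ y, EE P x y ∧ ∀ w, EE P x w → w ≤ y
      · obtain ⟨y, hxy, hy⟩ := hmax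
        refine ⟨y, ?_, hxy⟩
        have hy' : ∀ w, EE P y w → w ≤ y := fun w hw => hy w (hxy.trans ps hw)
        by_cases hcl : y ∈ closure (Ioi y)
        · left; right
          refine ⟨hy', ?_, hcl⟩
          rcases (hy x (EE.refl ps x)).lt_or_eq with h | h
          · exact ⟨x, hxy.symm ps, h⟩
          · refine ⟨z, (hxy.symm ps).trans ps hxz, ?_⟩
            exact lt_of_le_of_ne (hy z hxz) (fun h' => hzx (h'.trans h.symm))
        · left; left; left; right
          exact mem_NR dat (dat.mem y) (EE.refl ps y) (fun w _ hw => hy' w hw)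
            (iic_open_of go hcl)
      · push Not at hmin hmax
        have hxr := hrep1 x
        have hKo : IsOpen {w | EE P (rep x) w} := by
          rw [isOpen_iff_forall_mem_open]
          intro w hw
          have hxw : EE P x w := hxr.trans ps hw
          obtain ⟨a, ha1, ha2⟩ := hmin w hxw
          obtain ⟨b, hb1, hb2⟩ := hmax w hxw
          refine ⟨Ioo a b, ?_, (go.ioi a).inter (go.iio b), ⟨ha2, hb2⟩⟩
          rintro v ⟨hv1, hv2⟩
          have h1 : EE P a v := ((ha1.symm ps).trans ps hb1).conv ps (Or.inl ⟨hv1.le, hv2.le⟩)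
          exact (hxr.symm ps).trans ps (ha1.trans ps h1)
        obtain ⟨n, k, s, hs1, hs2, hs3⟩ := dat.net (rep x) _ hKo (fun w _ hw => hw)
        refine ⟨rep x, Or.inr (mem_iUnion.2 ⟨(n, k), s, hs1, hs2 (dat.mem _), hreprep x, hs3⟩),
          hxr⟩
  obtain ⟨S, hS1, hS2⟩ := fibre_scd go dat H hHs
  have hD2 : SCD (⋃ n, {x | rn n x = x}) := SCD.iUnion fun n => CD.scd (cd_of_class ps n (by
    intro x hx y hy hxy
    have := hrn2 n x y hxy
    rw [hx, hy] at this
    exact this))
  set DD : Set X := (⋃ p : ℕ × ℕ, NL F P p.1 p.2) ∪ (⋃ p : ℕ × ℕ, NR F P p.1 p.2) ∪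
    (⋃ n, {x | rn n x = x}) ∪ S with hDD
  obtain ⟨T, hT1, hT2⟩ := ((hNL.union hNR).union hD2).union hS1
  have hmono : DD ⊆ ⋃ i, T i := hT2
  have hgood : ∀ x, x ∈ DD ∨ (x ∈ closure (DD ∩ Iio x) ∧ x ∈ closure (DD ∩ Ioi x)) := by
    intro x
    by_cases hnd : ∃ z, EE P x z ∧ z ≠ x
    · rcases hS2 x (hhit x hnd) with h | h
      · exact Or.inl (Or.inr h)
      · exact Or.inr ⟨closure_mono (inter_subset_inter_left _ subset_union_right) h.1,
          closure_mono (inter_subset_inter_left _ subset_union_right) h.2⟩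
    · push Not at hnd
      by_cases hL : IsOpen (Ici x)
      · left; left; left; left
        exact mem_NL dat (dat.mem x) (EE.refl ps x) (fun w _ hw => (hnd w hw).ge) hL
      by_cases hR : IsOpen (Iic x)
      · left; left; left; right
        exact mem_NR dat (dat.mem x) (EE.refl ps x) (fun w _ hw => (hnd w hw).le) hR
      right
      have hL' : x ∈ closure (Iio x) := by
        by_contra h
        exact hL (ici_open_of go h)
      have hR' : x ∈ closure (Ioi x) := by
        by_contra h
        exact hR (iic_open_of go h)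
      constructor
      · rw [mem_closure_iff]
        intro O hO hxO
        obtain ⟨V, hV1, hV2, hV3, hV4⟩ := go.conv x O hO hxO
        obtain ⟨y, hyV, hyx⟩ := mem_closure_iff.1 hL' V hV1 hV2
        have hyx' : y < x := hyx
        have hex : ∃ y', y < y' ∧ y' < x ∧ ¬ EE P y y' := by
          by_contra hno
          push Not at hno
          have h1 : x ∈ {z | EE P y z} := by
            rw [← (EE_closed ps y).closure_eq, mem_closure_iff]
            intro U hU hxU
            obtain ⟨w, hw1, hw2⟩ := mem_closure_iff.1 hL' (U ∩ Ioi y) (hU.inter (go.ioi y))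
              ⟨hxU, hyx'⟩
            exact ⟨w, hw1.1, hno w hw1.2 hw2⟩
          exact hyx'.ne (hnd y (EE.symm ps h1))
        obtain ⟨y', hy1, hy2, hy3⟩ := hex
        have hy4 : ¬ EE P y' x := fun h => hy2.ne (hnd y' (h.symm ps))
        obtain ⟨n1, hn1⟩ : ∃ n, ¬ P n y' y := by
          by_contra hno
          push Not at hno
          exact hy3 (EE.symm ps hno)
        obtain ⟨n2, hn2⟩ : ∃ n, ¬ P n y' x := by
          by_contra hno
          push Not at hno
          exact hy4 hno
        set n := max n1 n2 with hn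
        have hr := hrn1 n y'
        have h1 : y < rn n y' := by
          by_contra h
          rw [not_lt] at h
          exact hn1 (ps.anti (le_max_left n1 n2)
            (ps.conv n y' (rn n y') y hr (Or.inr ⟨h, hy1.le⟩)))
        have h2 : rn n y' < x := by
          by_contra h
          rw [not_lt] at h
          exact hn2 (ps.anti (le_max_right n1 n2)
            (ps.conv n y' (rn n y') x hr (Or.inl ⟨hy2.le, h⟩)))
        refine ⟨rn n y', hV3 (hV4 y x _ hyV hV2 h1.le h2.le), Or.inl (Or.inr (mem_iUnion.2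
          ⟨n, (hrn2 n y' (rn n y') hr).symm⟩)), h2⟩
      · rw [mem_closure_iff]
        intro O hO hxO
        obtain ⟨V, hV1, hV2, hV3, hV4⟩ := go.conv x O hO hxO
        obtain ⟨y, hyV, hyx⟩ := mem_closure_iff.1 hR' V hV1 hV2
        have hyx' : x < y := hyx
        have hex : ∃ y', y' < y ∧ x < y' ∧ ¬ EE P y y' := by
          by_contra hno
          push Not at hno
          have h1 : x ∈ {z | EE P y z} := by
            rw [← (EE_closed ps y).closure_eq, mem_closure_iff]
            intro U hU hxU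
            obtain ⟨w, hw1, hw2⟩ := mem_closure_iff.1 hR' (U ∩ Iio y) (hU.inter (go.iio y))
              ⟨hxU, hyx'⟩
            exact ⟨w, hw1.1, hno w hw1.2 hw2⟩
          exact hyx'.ne' (hnd y (EE.symm ps h1))
        obtain ⟨y', hy1, hy2, hy3⟩ := hex
        have hy4 : ¬ EE P y' x := fun h => hy2.ne' (hnd y' (h.symm ps))
        obtain ⟨n1, hn1⟩ : ∃ n, ¬ P n y' y := by
          by_contra hno
          push Not at hno
          exact hy3 (EE.symm ps hno)
        obtain ⟨n2, hn2⟩ : ∃ n, ¬ P n y' x := by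
          by_contra hno
          push Not at hno
          exact hy4 hno
        set n := max n1 n2 with hn
        have hr := hrn1 n y'
        have h1 : rn n y' < y := by
          by_contra h
          rw [not_lt] at h
          exact hn1 (ps.anti (le_max_left n1 n2)
            (ps.conv n y' (rn n y') y hr (Or.inl ⟨hy1.le, h⟩)))
        have h2 : x < rn n y' := by
          by_contra h
          rw [not_lt] at h
          exact hn2 (ps.anti (le_max_right n1 n2)
            (ps.conv n y' (rn n y') x hr (Or.inr ⟨h, hy2.le⟩)))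
        refine ⟨rn n y', hV3 (hV4 x y _ hV2 hyV h2.le h1.le), Or.inl (Or.inr (mem_iUnion.2
          ⟨n, (hrn2 n y' (rn n y') hr).symm⟩)), h2⟩
  refine metrize go T hT1 ?_
  intro x
  rcases hgood x with h | h
  · exact Or.inl (hmono h)
  · exact Or.inr ⟨closure_mono (inter_subset_inter_left _ hmono) h.1,
      closure_mono (inter_subset_inter_left _ hmono) h.2⟩

end Pool.Agent.H479R3.GO
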