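import Mathlib

set_option autoImplicit false

namespace Pool.Agent.H479R3.OG

open Set

/-- `z` agrees with `(s n).2` on the interval `[n, (s n).1)`. -/
def Occ (s : ℕ → ℕ × (ℕ → Bool)) (n : ℕ) (z : ℕ → Bool) : Prop :=
  ∀ i, n ≤ i → i < (s n).1 → z i = (s n).2 i

/-- number of differences below `m` -/
def nd (f : ℕ → Bool × Bool) (m : ℕ) : ℕ :=
  ((Finset.range m).filter (fun k => (f k).1 ≠ (f k).2)).card

lemma nd_mono (f : ℕ → Bool × Bool) {a b : ℕ} (h : a ≤ b) : nd f a ≤ nd f b := by
  unfold nd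
  apply Finset.card_le_card
  intro k hk
  simp only [Finset.mem_filter, Finset.mem_range] at hk ⊢
  exact ⟨lt_of_lt_of_le hk.1 h, hk.2⟩

lemma nd_congr {f g : ℕ → Bool × Bool} {a : ℕ} (h : ∀ k < a, f k = g k) : nd f a = nd g a := by
  unfold nd
  congr 1
  apply Finset.filter_congr
  intro k hk
  rw [h k (Finset.mem_range.1 hk)]

lemma nd_succ (f : ℕ → Bool × Bool) (a : ℕ) : nd f (a + 1) ≤ nd f a + 1 := by
  unfold nd
  rw [Finset.range_add_one, Finset.filter_insert]
  split_ifs
  · exact (Finset.card_insert_le _ _)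
  · omega

lemma nd_eq_of_eq (f : ℕ → Bool × Bool) {a b : ℕ} (hab : a ≤ b)
    (h : ∀ k, a ≤ k → k < b → (f k).1 = (f k).2) : nd f b = nd f a := by
  unfold nd
  congr 1
  ext k
  simp only [Finset.mem_filter, Finset.mem_range]
  constructor
  · rintro ⟨h1, h2⟩
    by_cases hk : k < a
    · exact ⟨hk, h2⟩
    · exact absurd (h k (not_lt.1 hk) h1) h2
  · rintro ⟨h1, h2⟩
    exact ⟨lt_of_lt_of_le h1 hab, h2⟩

/-- conditions -/
structure Cond (m : ℕ → ℕ) where
  L : ℕ
  f : ℕ → Bool × Bool
  good : ∀ n, 2 ≤ n → nd f (min L (m n)) < n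

instance (m : ℕ → ℕ) : Preorder (Cond m) where
  le c d := c.L ≤ d.L ∧ ∀ k < c.L, d.f k = c.f k
  le_refl c := ⟨le_refl _, fun _ _ => rfl⟩
  le_trans c d e h1 h2 := ⟨h1.1.trans h2.1, fun k hk => by
    rw [h2.2 k (lt_of_lt_of_le hk h1.1), h1.2 k hk]⟩

lemma Cond.le_def {m : ℕ → ℕ} (c d : Cond m) : c ≤ d ↔ c.L ≤ d.L ∧ ∀ k < c.L, d.f k = c.f k :=
  Iff.rfl

/-- Extend a condition by equal pairs `w` up to `L'`. -/
def Cond.ext {m : ℕ → ℕ} (c : Cond m) (L' : ℕ) (w : ℕ → Bool) : Cond m where
  L := max c.L L'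
  f := fun k => if k < c.L then c.f k else (w k, w k)
  good := by
    intro n hn
    have h1 := c.good n hn
    set g : ℕ → Bool × Bool := fun k => if k < c.L then c.f k else (w k, w k) with hg
    have h2 : nd g (min (max c.L L') (m n)) = nd g (min c.L (m n)) := by
      apply nd_eq_of_eq
      · exact min_le_min_right _ (le_max_left _ _)
      · intro k hk hk'
        have : ¬ k < c.L := by
          intro hkL
          have : k < m n := lt_of_lt_of_le hk' (min_le_right _ _)
          have := lt_min hkL this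
          omega
        simp [hg, this]
    have h3 : nd g (min c.L (m n)) = nd c.f (min c.L (m n)) := by
      apply nd_congr
      intro k hk
      have : k < c.L := lt_of_lt_of_le hk (min_le_left _ _)
      simp [hg, this]
    rw [h2, h3]; exact h1

lemma Cond.le_ext {m : ℕ → ℕ} (c : Cond m) (L' : ℕ) (w : ℕ → Bool) : c ≤ c.ext L' w := by
  refine ⟨le_max_left _ _, ?_⟩
  intro k hk
  simp [Cond.ext, hk]

/-- Extend a condition by a difference. -/
lemma Cond.exists_diff {m : ℕ → ℕ} (c : Cond m) (r : ℕ) :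
    ∃ d : Cond m, c ≤ d ∧ ∃ n, r ≤ n ∧ n < d.L ∧ (d.f n).1 ≠ (d.f n).2 := by
  -- choose a far position
  obtain ⟨M, hM⟩ : ∃ M : ℕ, r ≤ M ∧ c.L ≤ M ∧ ∀ n ≤ nd c.f c.L + 1, m n ≤ M := by
    refine ⟨max (max r c.L) (∑ n ∈ Finset.range (nd c.f c.L + 2), m n), ?_, ?_, ?_⟩
    · exact (le_max_left _ _).trans (le_max_left _ _)
    · exact (le_max_right _ _).trans (le_max_left _ _)
    · intro n hn
      refine le_trans ?_ (le_max_right _ _)
      exact Finset.single_le_sum (f := fun n => m n) (fun _ _ => Nat.zero_le _)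
        (Finset.mem_range.2 (by omega))
  obtain ⟨hr, hL, hm⟩ := hM
  set g : ℕ → Bool × Bool := fun k => if k < c.L then c.f k else
    if k = M then (false, true) else (false, false) with hg
  have hgc : ∀ k < c.L, g k = c.f k := by intro k hk; simp [hg, hk]
  have hnd : nd g M = nd c.f c.L := by
    rw [nd_eq_of_eq g hL, nd_congr hgc]
    intro k hk hk'
    have h1 : ¬ k < c.L := not_lt.2 hk
    have h2 : k ≠ M := by omega
    simp [hg, h1, h2]
  refine ⟨⟨M + 1, g, ?_⟩, ?_, M, hr, Nat.lt_succ_self _, ?_⟩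
  · intro n hn
    by_cases hn' : n ≤ nd c.f c.L + 1
    · have h1 : min (M + 1) (m n) = m n := min_eq_right ((hm n hn').trans (Nat.le_succ _))
      rw [h1]
      have h2 := c.good n hn
      refine lt_of_le_of_lt ?_ h2
      have h3 : nd g (m n) = nd g (min c.L (m n)) := by
        apply nd_eq_of_eq _ (min_le_right _ _)
        intro k hk hk'
        have h1 : ¬ k < c.L := by
          intro hkL
          have := lt_min hkL hk'
          omega
        have h2 : k ≠ M := by have := hm n hn'; omega
        simp [hg, h1, h2]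
      rw [h3, nd_congr (g := c.f)]
      intro k hk
      exact hgc k (lt_of_lt_of_le hk (min_le_left _ _))
    · have h1 : nd g (min (M + 1) (m n)) ≤ nd g (M + 1) := nd_mono _ (min_le_left _ _)
      have h2 := nd_succ g M
      omega
  · refine ⟨by show c.L ≤ M + 1; omega, ?_⟩
    intro k hk
    exact hgc k hk
  · have h1 : ¬ M < c.L := not_lt.2 hL
    simp [hg, h1]

/-- The one-step lemma. -/
lemma step (m : ℕ → ℕ) {ι κ : Type} [Countable ι] [Countable κ] (N : ι → Set ℕ)
    (s : ι → ℕ → ℕ × (ℕ → Bool)) (z : κ → ℕ → Bool) :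
    ∃ v : ℕ → Bool × Bool, v 0 = (false, true) ∧ {k | (v k).1 ≠ (v k).2}.Infinite ∧
      (∀ n, 2 ≤ n → nd v (m n) < n) ∧
      (∀ i, (N i).Infinite →
        {n ∈ N i | Occ (s i) n (fun k => (v k).1) ∧ Occ (s i) n (fun k => (v k).2)}.Infinite) ∧
      (∀ j, {n | (v n).1 ≠ z j n}.Infinite ∧ {n | (v n).2 ≠ z j n}.Infinite) := by
  classical
  letI : Encodable ι := Encodable.ofCountable ι
  letI : Encodable κ := Encodable.ofCountable κ
  -- the dense sets
  let D : (ι × ℕ) ⊕ (κ × ℕ) ⊕ ℕ → Order.Cofinal (Cond m) := fun t =>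
    match t with
    | Sum.inl (i, r) =>
      { carrier := {c | (N i).Infinite → ∃ n ∈ N i, r ≤ n ∧ (s i n).1 ≤ c.L ∧ n ≤ c.L ∧
          ∀ k, n ≤ k → k < (s i n).1 → c.f k = ((s i n).2 k, (s i n).2 k)}
        isCofinal := by
          intro c
          by_cases hN : (N i).Infinite
          · obtain ⟨n, hn, hn'⟩ := hN.exists_gt (max r c.L)
            refine ⟨c.ext (max (s i n).1 n) ((s i n).2), ?_, c.le_ext _ _⟩
            intro _
            refine ⟨n, hn, ?_, ?_, ?_, ?_⟩
            · exact (le_max_left _ _).trans hn'.le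
            · exact (le_max_left _ _).trans (le_max_right _ _)
            · exact (le_max_right _ _).trans (le_max_right _ _)
            · intro k hk _
              have : ¬ k < c.L := by
                have := (le_max_right r c.L).trans hn'.le
                omega
              simp [Cond.ext, this]
          · exact ⟨c, fun h => absurd h hN, le_refl _⟩ }
    | Sum.inr (Sum.inl (j, r)) =>
      { carrier := {c | ∃ n, r ≤ n ∧ n < c.L ∧ (c.f n).1 ≠ z j n ∧ (c.f n).2 ≠ z j n}
        isCofinal := by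
          intro c
          refine ⟨c.ext (max r c.L + 1) (fun k => ! (z j k)), ?_, c.le_ext _ _⟩
          refine ⟨max r c.L, le_max_left _ _, ?_, ?_, ?_⟩
          · exact lt_of_lt_of_le (Nat.lt_succ_self _) (le_max_right _ _)
          · have : ¬ max r c.L < c.L := not_lt.2 (le_max_right _ _)
            simp [Cond.ext]
          · have : ¬ max r c.L < c.L := not_lt.2 (le_max_right _ _)
            simp [Cond.ext] }
    | Sum.inr (Sum.inr r) =>
      { carrier := {c | ∃ n, r ≤ n ∧ n < c.L ∧ (c.f n).1 ≠ (c.f n).2}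
        isCofinal := by
          intro c
          obtain ⟨d, hd, hn⟩ := c.exists_diff r
          exact ⟨d, hn, hd⟩ }
  let c0 : Cond m :=
    { L := 1
      f := fun _ => (false, true)
      good := by
        intro n hn
        have h1 : nd (fun _ => (false, true)) (min 1 (m n)) ≤ nd (fun _ => (false, true)) 1 :=
          nd_mono _ (min_le_left _ _)
        have h2 := nd_succ (fun _ => (false, true)) 0
        have h3 : nd (fun _ => (false, true)) 0 = 0 := by simp [nd]
        simp only [zero_add] at h2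
        omega }
  let q : ℕ → Cond m := Order.sequenceOfCofinals c0 D
  have hq : Monotone q := Order.sequenceOfCofinals.monotone c0 D
  have hqD : ∀ t, q (Encodable.encode t + 1) ∈ D t := Order.sequenceOfCofinals.encode_mem c0 D
  have hq0 : q 0 = c0 := rfl
  -- lengths unbounded
  have hlen : ∀ n, ∃ k, n < (q k).L := by
    intro n
    obtain ⟨a, ha, ha', _⟩ := hqD (Sum.inr (Sum.inr n))
    exact ⟨_, lt_of_le_of_lt ha ha'⟩
  choose K hK using hlen
  let v : ℕ → Bool × Bool := fun n => (q (K n)).f n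
  have hv : ∀ k n, n < (q k).L → v n = (q k).f n := by
    intro k n hn
    rcases le_total k (K n) with h | h
    · exact (hq h).2 n hn
    · exact ((hq h).2 n (hK n)).symm
  refine ⟨v, ?_, ?_, ?_, ?_, ?_⟩
  · rw [hv 0 0 (by rw [hq0]; exact Nat.one_pos)]
    rfl
  · apply Set.infinite_of_forall_exists_gt
    intro a
    obtain ⟨n, hn, hn', hne⟩ := hqD (Sum.inr (Sum.inr (a + 1)))
    refine ⟨n, ?_, hn⟩
    show (v n).1 ≠ (v n).2
    rw [hv _ n hn']
    exact hne
  · intro n hn
    have h1 := hK (m n)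
    have h2 := (q (K (m n))).good n hn
    rw [min_eq_right h1.le] at h2
    rw [nd_congr (g := (q (K (m n))).f) (fun k hk => hv _ k (hk.trans h1))]
    exact h2
  · intro i hN
    apply Set.infinite_of_forall_exists_gt
    intro a
    obtain ⟨n, hn, ha, hL1, hL2, hocc⟩ := hqD (Sum.inl (i, a + 1)) hN
    refine ⟨n, ⟨hn, ?_, ?_⟩, ha⟩
    · intro k hk hk'
      show (v k).1 = _
      rw [hv _ k (lt_of_lt_of_le hk' hL1), hocc k hk hk']
    · intro k hk hk'
      show (v k).2 = _
      rw [hv _ k (lt_of_lt_of_le hk' hL1), hocc k hk hk']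
  · intro j
    constructor
    · apply Set.infinite_of_forall_exists_gt
      intro a
      obtain ⟨n, ha, hL, h1, h2⟩ := hqD (Sum.inr (Sum.inl (j, a + 1)))
      refine ⟨n, ?_, ha⟩
      show (v n).1 ≠ _
      rw [hv _ n hL]; exact h1
    · apply Set.infinite_of_forall_exists_gt
      intro a
      obtain ⟨n, ha, hL, h1, h2⟩ := hqD (Sum.inr (Sum.inl (j, a + 1)))
      refine ⟨n, ?_, ha⟩
      show (v n).2 ≠ _
      rw [hv _ n hL]; exact h2

/-! ### The transfinite construction -/

/-- index type -/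
abbrev T : Type := (ℕ → ℕ × (ℕ → Bool)) × (ℕ → ℕ)

lemma card_T : Cardinal.mk T = Cardinal.continuum := by
  have h1 : Cardinal.mk (ℕ → Bool) = Cardinal.continuum := by
    simp
  have h2 : Cardinal.mk (ℕ → ℕ) = Cardinal.continuum := by
    simp
  have h3 : Cardinal.mk (ℕ × (ℕ → Bool)) = Cardinal.continuum := by
    rw [Cardinal.mk_prod, h1]
    simp [Cardinal.aleph0_mul_continuum]
  have h4 : Cardinal.mk (ℕ → ℕ × (ℕ → Bool)) = Cardinal.continuum := by
    rw [← Cardinal.power_def, h3]
    simp
  show Cardinal.mk ((ℕ → ℕ × (ℕ → Bool)) × (ℕ → ℕ)) = _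
  rw [Cardinal.mk_prod, h4, h2]
  simp

/-- Under CH there is a well-order of `T` all whose proper initial segments are countable. -/
lemma exists_wo (CH : Cardinal.continuum.{0} = Cardinal.aleph 1) :
    ∃ r : T → T → Prop, IsWellOrder T r ∧ ∀ a, {b | r b a}.Countable := by
  obtain ⟨r, hr, hord⟩ := Cardinal.ord_eq T
  refine ⟨r, hr, fun a => ?_⟩
  have h1 : Cardinal.mk {b | r b a} < Cardinal.mk T := by
    have := Ordinal.typein_lt_type r a
    rw [← hord] at this
    have h2 := Cardinal.lt_ord.1 this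
    rwa [Ordinal.card_typein] at h2
  rw [card_T, CH] at h1
  have h3 : Cardinal.mk {b | r b a} < Order.succ Cardinal.aleph0 := by
    rw [Cardinal.succ_aleph0]; exact h1
  exact Cardinal.le_aleph0_iff_set_countable.1 (Order.lt_succ_iff.1 h3)


/-- what is required at stage `a` -/
def Good (r : T → T → Prop) (a : T) (g : ∀ b, r b a → ℕ → Bool × Bool) (v : ℕ → Bool × Bool) :
    Prop :=
  v 0 = (false, true) ∧ {k | (v k).1 ≠ (v k).2}.Infinite ∧ (∀ n, 2 ≤ n → nd v (a.2 n) < n) ∧
  (∀ b (h : r b a), {n | (v n).1 ≠ (g b h n).2}.Infinite ∧ {n | (v n).2 ≠ (g b h n).1}.Infinite) ∧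
  (∀ b (_ : r b a) (F : Finset {c // r c a}),
    {n | ∀ c ∈ F, Occ b.1 n (fun k => (g c.1 c.2 k).1) ∧ Occ b.1 n (fun k => (g c.1 c.2 k).2)}.Infinite →
    {n | (∀ c ∈ F, Occ b.1 n (fun k => (g c.1 c.2 k).1) ∧ Occ b.1 n (fun k => (g c.1 c.2 k).2)) ∧
      Occ b.1 n (fun k => (v k).1) ∧ Occ b.1 n (fun k => (v k).2)}.Infinite)

lemma exists_good (r : T → T → Prop) (hr : ∀ a, {b | r b a}.Countable) (a : T)
    (g : ∀ b, r b a → ℕ → Bool × Bool) : ∃ v, Good r a g v := by
  haveI : Countable {b // r b a} := (hr a).to_subtype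
  obtain ⟨v, h0, hinf, hsp, hN, hz⟩ := step a.2
    (ι := {b // r b a} × Finset {c // r c a}) (κ := {b // r b a} × Bool)
    (fun t => {n | ∀ c ∈ t.2, Occ t.1.1.1 n (fun k => (g c.1 c.2 k).1) ∧
      Occ t.1.1.1 n (fun k => (g c.1 c.2 k).2)})
    (fun t => t.1.1.1)
    (fun t => if t.2 then (fun n => (g t.1.1 t.1.2 n).1) else (fun n => (g t.1.1 t.1.2 n).2))
  refine ⟨v, h0, hinf, hsp, ?_, ?_⟩
  · intro b h
    constructor
    · have := (hz (⟨b, h⟩, false)).1
      simpa using this
    · have := (hz (⟨b, h⟩, true)).2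
      simpa using this
  · intro b hb F hF
    exact hN (⟨b, hb⟩, F) hF

theorem construction (CH : Cardinal.continuum.{0} = Cardinal.aleph 1) :
    ∃ G : T → ℕ → Bool × Bool,
      (∀ a, G a 0 = (false, true)) ∧ (∀ a, {k | (G a k).1 ≠ (G a k).2}.Infinite) ∧
      (∀ m : ℕ → ℕ, ∃ a, ∀ n, 2 ≤ n → nd (G a) (m n) < n) ∧
      (∀ a b, {n | (G a n).1 ≠ (G b n).2}.Infinite) ∧
      (∀ s : ℕ → ℕ × (ℕ → Bool), ∃ C : Set T, C.Countable ∧ ∀ F : Finset T, (∀ c ∈ F, c ∉ C) →
        {n | ∀ c ∈ F, Occ s n (fun k => (G c k).1) ∧ Occ s n (fun k => (G c k).2)}.Infinite) := by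
  classical
  obtain ⟨r, hwo, hr⟩ := exists_wo CH
  have hwf : WellFounded r := hwo.wf
  let G : T → ℕ → Bool × Bool := hwf.fix (fun a g => Classical.choose (exists_good r hr a g))
  have hG : ∀ a, Good r a (fun b _ => G b) (G a) := by
    intro a
    have h1 : G a = Classical.choose (exists_good r hr a (fun b _ => G b)) := hwf.fix_eq _ a
    rw [h1]
    exact Classical.choose_spec (exists_good r hr a (fun b _ => G b))
  refine ⟨G, fun a => (hG a).1, fun a => (hG a).2.1, ?_, ?_, ?_⟩
  · intro m
    exact ⟨(fun _ => (0, fun _ => false), m), (hG _).2.2.1⟩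
  · intro a b
    rcases trichotomous_of r a b with h | h | h
    · have := ((hG b).2.2.2.1 a h).2
      refine this.mono ?_
      intro n hn hn'
      exact hn hn'.symm
    · subst h
      exact (hG a).2.1
    · exact ((hG a).2.2.2.1 b h).1
  · intro s
    set b : T := (s, fun _ => 0) with hb
    refine ⟨{c | r c b} ∪ {b}, (hr b).union (Set.countable_singleton b), ?_⟩
    have key : ∀ k : ℕ, ∀ F : Finset T, F.card = k → (∀ c ∈ F, c ∉ ({c | r c b} ∪ {b} : Set T)) →
        {n | ∀ c ∈ F, Occ s n (fun k => (G c k).1) ∧ Occ s n (fun k => (G c k).2)}.Infinite := by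
      intro k
      induction k with
      | zero =>
        intro F hF _
        rw [Finset.card_eq_zero] at hF
        subst hF
        simpa using Set.infinite_univ (α := ℕ)
      | succ k ih =>
        intro F hF hFC
        have hne : F.Nonempty := Finset.card_pos.1 (by omega)
        obtain ⟨a, haF, hmax⟩ := Finset.exists_max_image F (fun c => Ordinal.typein r c) hne
        have hra : ∀ c ∈ F.erase a, r c a := by
          intro c hc
          rw [Finset.mem_erase] at hc
          rcases trichotomous_of r c a with h | h | h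
          · exact h
          · exact absurd h hc.1
          · have := hmax c hc.2
            rw [Ordinal.typein_le_typein] at this
            exact absurd h this
        have hba : r b a := by
          have := hFC a haF
          simp only [Set.mem_union, Set.mem_setOf_eq, Set.mem_singleton_iff, not_or] at this
          rcases trichotomous_of r b a with h | h | h
          · exact h
          · exact absurd h.symm this.2
          · exact absurd h this.1
        have ih' := ih (F.erase a) (by rw [Finset.card_erase_of_mem haF]; omega)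
          (fun c hc => hFC c (Finset.mem_of_mem_erase hc))
        let F' : Finset {c // r c a} := (F.erase a).attach.image (fun c => ⟨c.1, hra c.1 c.2⟩)
        have hF' : ∀ (Q : T → Prop), (∀ c ∈ F', Q c.1) ↔ ∀ c ∈ F.erase a, Q c := by
          intro Q
          constructor
          · intro h c hc
            exact h ⟨c, hra c hc⟩ (Finset.mem_image.2 ⟨⟨c, hc⟩, Finset.mem_attach _ _, rfl⟩)
          · intro h c hc
            obtain ⟨d, _, rfl⟩ := Finset.mem_image.1 hc
            exact h d.1 d.2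
        have h3 := (hG a).2.2.2.2 b hba F' (by
          refine ih'.mono ?_
          intro n hn
          exact (hF' (fun c => Occ s n (fun k => (G c k).1) ∧ Occ s n (fun k => (G c k).2))).2 hn)
        refine h3.mono ?_
        rintro n ⟨hn1, hn2⟩ c hc
        by_cases hca : c = a
        · subst hca; exact hn2
        · exact (hF' (fun c => Occ s n (fun k => (G c k).1) ∧ Occ s n (fun k => (G c k).2))).1 hn1 c
            (Finset.mem_erase.2 ⟨hca, hc⟩)
    intro F hF
    exact key _ F rfl hF

end Pool.Agent.H479R3.OG
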