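import Mathlib

set_option autoImplicit false

namespace Pool.Agent.H479R3.OG

open Set

/-- `U` is an open cover of the space `Y` (by convention `Y` itself is not a member). -/
def OpenCover (Y : Type) [TopologicalSpace Y] (U : Set (Set Y)) : Prop :=
  (∀ u ∈ U, IsOpen u) ∧ univ ∉ U ∧ ⋃₀ U = univ

/-- `U` is an open `ω`-cover of the space `Y`: an open cover (not containing `Y`) such that every
finite subset of `Y` is contained in some member of `U`. -/
def OmegaCover (Y : Type) [TopologicalSpace Y] (U : Set (Set Y)) : Prop :=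
  OpenCover Y U ∧ ∀ F : Set Y, F.Finite → ∃ u ∈ U, F ⊆ u

/-- `P` is a partition of the family `U` into finite (nonempty) families. -/
def IsFinPartition {Y : Type} (P : Set (Set (Set Y))) (U : Set (Set Y)) : Prop :=
  (∀ G ∈ P, G.Finite ∧ G.Nonempty) ∧ P.PairwiseDisjoint id ∧ ⋃₀ P = U

/-- `U` is multifinite: it can be partitioned into infinitely many finite covers of `Y`. -/
def Multifinite {Y : Type} (U : Set (Set Y)) : Prop :=
  ∃ P : Set (Set (Set Y)), IsFinPartition P U ∧ P.Infinite ∧ ∀ G ∈ P, ⋃₀ G = univ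

/-- `U` is an `ω`-groupable open cover of `Y`: it is an open cover which is multifinite, or which
can be partitioned into countably infinitely many finite families `G` such that the unions `⋃₀ G`
form an `ω`-cover of `Y`. -/
def OmegaGroupable (Y : Type) [TopologicalSpace Y] (U : Set (Set Y)) : Prop :=
  OpenCover Y U ∧ (Multifinite U ∨
    ∃ P : Set (Set (Set Y)), IsFinPartition P U ∧ P.Infinite ∧ P.Countable ∧
      OmegaCover Y ((fun G => ⋃₀ G) '' P))

/-- The selection principle `S₁(A, B)`. -/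
def S1 {Y : Type} (A B : Set (Set Y) → Prop) : Prop :=
  ∀ U : ℕ → Set (Set Y), (∀ n, A (U n)) → ∃ u : ℕ → Set Y, (∀ n, u n ∈ U n) ∧ B (range u)

variable {Y : Type}

/-- colourings give partitions -/
lemma partition_of_coloring (U : Set (Set Y)) (c : Set Y → ℕ)
    (hc : ∀ n, {W ∈ U | c W = n}.Finite) :
    IsFinPartition {G | ∃ n, G = {W ∈ U | c W = n} ∧ G.Nonempty} U := by
  refine ⟨?_, ?_, ?_⟩
  · rintro G ⟨n, rfl, hn⟩
    exact ⟨hc n, hn⟩
  · rintro G ⟨n, rfl, hn⟩ H ⟨m, rfl, hm⟩ hne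
    simp only [Function.onFun, id]
    rw [Set.disjoint_left]
    rintro W ⟨_, h1⟩ ⟨_, h2⟩
    apply hne
    rw [← h1, ← h2]
  · ext W
    constructor
    · rintro ⟨G, ⟨n, rfl, hn⟩, hW⟩
      exact hW.1
    · intro hW
      exact ⟨{V ∈ U | c V = c W}, ⟨c W, rfl, ⟨W, hW, rfl⟩⟩, hW, rfl⟩

lemma partition_infinite (U : Set (Set Y)) (hU : U.Infinite) (P : Set (Set (Set Y)))
    (hP : IsFinPartition P U) : P.Infinite := by
  intro hfin
  apply hU
  rw [← hP.2.2]
  exact hfin.sUnion (fun G hG => (hP.1 G hG).1)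

/-- Grouping lemma for disjoint groups. -/
lemma grouping_disjoint [TopologicalSpace Y] [Nonempty Y] (U : Set (Set Y)) (hU : U.Countable)
    (hopen : ∀ u ∈ U, IsOpen u) (hun : univ ∉ U)
    (H : ℕ → Set (Set Y)) (hHU : ∀ j, H j ⊆ U) (hHf : ∀ j, (H j).Finite)
    (hd : ∀ i j, i ≠ j → Disjoint (H i) (H j))
    (hF : ∀ F : Set Y, F.Finite → {j | F ⊆ ⋃₀ (H j)}.Infinite) : OmegaGroupable Y U := by
  classical
  have hcov : ⋃₀ U = univ := by
    rw [eq_univ_iff_forall]
    intro y
    obtain ⟨j, hj⟩ := (hF {y} (finite_singleton y)).nonempty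
    obtain ⟨W, hW, hyW⟩ := hj (mem_singleton y)
    exact ⟨W, hHU j hW, hyW⟩
  have hcover : OpenCover Y U := ⟨hopen, hun, hcov⟩
  have hUinf : U.Infinite := by
    intro hfin
    have : ∀ u ∈ U, ∃ y : Y, y ∉ u := by
      intro u hu
      by_contra hcon
      push Not at hcon
      exact hun (by rwa [← eq_univ_iff_forall.2 hcon])
    -- only finitely many nonempty groups
    have h1 : {j | (H j).Nonempty}.Finite := by
      have hch : ∀ j : {j | (H j).Nonempty}, ∃ W : Set Y, W ∈ H j.1 := fun j => j.2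
      choose f hf using hch
      have hinj : Function.Injective (fun j : {j | (H j).Nonempty} => (⟨f j, hHU _ (hf j)⟩ : U)) := by
        intro i j hij
        by_contra hne
        have hne' : i.1 ≠ j.1 := fun h => hne (Subtype.ext h)
        have h2 : f i = f j := congrArg Subtype.val hij
        exact Set.disjoint_left.1 (hd _ _ hne') (hf i) (h2 ▸ hf j)
      have : Finite U := hfin
      have := Finite.of_injective _ hinj
      exact Set.toFinite _
    obtain ⟨y⟩ := ‹Nonempty Y›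
    apply (hF {y} (finite_singleton y))
    refine h1.subset ?_
    intro j hj
    obtain ⟨W, hW, _⟩ := hj (mem_singleton y)
    exact ⟨W, hW⟩
  obtain ⟨K, hK⟩ : ∃ K : Set Y → ℕ, InjOn K U := by
    have : Countable U := hU.to_subtype
    obtain ⟨f, hf⟩ := exists_injective_nat U
    refine ⟨fun W => if h : W ∈ U then f ⟨W, h⟩ else 0, ?_⟩
    intro V hV W hW hVW
    simp only [hV, hW, dif_pos] at hVW
    exact congrArg Subtype.val (hf hVW)
  refine ⟨hcover, ?_⟩
  -- J: groups whose union is everything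
  by_cases hJ : {j | ⋃₀ (H j) = univ}.Infinite
  · left
    -- coloring
    let J : Set ℕ := {j | ⋃₀ (H j) = univ}
    let e : ℕ → ℕ := Nat.nth (· ∈ J)
    have he : ∀ n, e n ∈ J := fun n => Nat.nth_mem_of_infinite hJ n
    have heinj : Function.Injective e := Nat.nth_injective hJ
    let c : Set Y → ℕ := fun W => if h : ∃ j ∈ J, W ∈ H j then h.choose else e (K W)
    have hc1 : ∀ j ∈ J, ∀ W ∈ H j, c W = j := by
      intro j hj W hW
      have h : ∃ j ∈ J, W ∈ H j := ⟨j, hj, hW⟩
      have h1 : c W = h.choose := by simp only [c, h, dif_pos]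
      rw [h1]
      by_contra hne
      exact Set.disjoint_left.1 (hd _ _ hne) h.choose_spec.2 hW
    have hc2 : ∀ W, (¬ ∃ j ∈ J, W ∈ H j) → c W = e (K W) := by
      intro W h
      simp only [c, h, dif_neg, not_false_eq_true]
    have hcJ : ∀ W, c W ∈ J := by
      intro W
      by_cases h : ∃ j ∈ J, W ∈ H j
      · obtain ⟨j, hj, hW⟩ := h
        rw [hc1 j hj W hW]; exact hj
      · rw [hc2 W h]; exact he _
    have hfin : ∀ n, {W ∈ U | c W = n}.Finite := by
      intro n
      refine ((hHf n).union (?_ : {W ∈ U | e (K W) = n}.Finite)).subset ?_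
      · apply Set.Subsingleton.finite
        rintro V ⟨hV, h1⟩ W ⟨hW, h2⟩
        exact hK hV hW (heinj (h1.trans h2.symm))
      · rintro W ⟨hW, hn⟩
        by_cases h : ∃ j ∈ J, W ∈ H j
        · obtain ⟨j, hj, hWj⟩ := h
          rw [hc1 j hj W hWj] at hn
          subst hn
          exact Or.inl hWj
        · rw [hc2 W h] at hn
          exact Or.inr ⟨hW, hn⟩
    have hpart := partition_of_coloring U c hfin
    refine ⟨_, hpart, partition_infinite U hUinf _ hpart, ?_⟩
    rintro G ⟨n, rfl, hn⟩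
    obtain ⟨W, hW, hcW⟩ := hn
    have hnJ : n ∈ J := hcW ▸ hcJ W
    have h1 : ⋃₀ (H n) = univ := hnJ
    rw [eq_univ_iff_forall] at h1 ⊢
    intro y
    obtain ⟨V, hV, hyV⟩ := h1 y
    exact ⟨V, ⟨hHU n hV, hc1 n hnJ V hV⟩, hyV⟩
  · right
    rw [Set.not_infinite] at hJ
    let J : Set ℕ := {j | ⋃₀ (H j) = univ}
    let c : Set Y → ℕ := fun W => if h : ∃ j, j ∉ J ∧ W ∈ H j then 2 * h.choose else 2 * K W + 1
    have hc1 : ∀ j, j ∉ J → ∀ W ∈ H j, c W = 2 * j := by
      intro j hj W hW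
      have h : ∃ j, j ∉ J ∧ W ∈ H j := ⟨j, hj, hW⟩
      have h1 : c W = 2 * h.choose := by simp only [c, h, dif_pos]
      rw [h1]
      congr 1
      by_contra hne
      exact Set.disjoint_left.1 (hd _ _ hne) h.choose_spec.2 hW
    have hc2 : ∀ W, (¬ ∃ j, j ∉ J ∧ W ∈ H j) → c W = 2 * K W + 1 := by
      intro W h
      simp only [c, h, dif_neg, not_false_eq_true]
    have hfib : ∀ n, {W ∈ U | c W = n} ⊆ H (n / 2) ∧ n / 2 ∉ J ∨ ({W ∈ U | c W = n}).Subsingleton := by
      intro n
      rcases Nat.even_or_odd' n with ⟨k, hk | hk⟩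
      · by_cases hkJ : k ∈ J
        · right
          rintro V ⟨hV, h1⟩ W ⟨hW, h2⟩
          exfalso
          by_cases h : ∃ j, j ∉ J ∧ V ∈ H j
          · obtain ⟨j, hj, hVj⟩ := h
            rw [hc1 j hj V hVj] at h1
            have : j = k := by omega
            exact hj (this ▸ hkJ)
          · rw [hc2 V h] at h1; omega
        · left
          have : n / 2 = k := by omega
          rw [this]
          refine ⟨?_, hkJ⟩
          rintro V ⟨hV, h1⟩
          by_cases h : ∃ j, j ∉ J ∧ V ∈ H j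
          · obtain ⟨j, hj, hVj⟩ := h
            rw [hc1 j hj V hVj] at h1
            have : j = k := by omega
            exact this ▸ hVj
          · rw [hc2 V h] at h1; omega
      · right
        rintro V ⟨hV, h1⟩ W ⟨hW, h2⟩
        have aux : ∀ Z, c Z = n → c Z = 2 * K Z + 1 := by
          intro Z hZ
          by_cases h : ∃ j, j ∉ J ∧ Z ∈ H j
          · obtain ⟨j, hj, hZj⟩ := h
            rw [hc1 j hj Z hZj] at hZ; omega
          · exact hc2 Z h
        have h3 := aux V h1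
        have h4 := aux W h2
        apply hK hV hW
        omega
    have hfin : ∀ n, {W ∈ U | c W = n}.Finite := by
      intro n
      rcases hfib n with h | h
      · exact (hHf _).subset h.1
      · exact h.finite
    have hpart := partition_of_coloring U c hfin
    have hcountP : ({G | ∃ n, G = {W ∈ U | c W = n} ∧ G.Nonempty} : Set (Set (Set Y))).Countable := by
      refine (Set.countable_range (fun n => {W ∈ U | c W = n})).mono ?_
      rintro G ⟨n, rfl, _⟩
      exact ⟨n, rfl⟩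
    refine ⟨_, hpart, partition_infinite U hUinf _ hpart, hcountP, ⟨?_, ?_, ?_⟩, ?_⟩
    · rintro _ ⟨G, ⟨n, rfl, hn⟩, rfl⟩
      exact isOpen_sUnion (fun W hW => hopen W hW.1)
    · rintro ⟨G, ⟨n, rfl, hn⟩, hG⟩
      simp only at hG
      rcases hfib n with h | h
      · apply h.2
        show ⋃₀ (H (n / 2)) = univ
        rw [eq_univ_iff_forall] at hG ⊢
        intro y
        obtain ⟨V, hV, hyV⟩ := hG y
        exact ⟨V, h.1 hV, hyV⟩
      · obtain ⟨W, hW⟩ := hn
        apply hun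
        have : {V ∈ U | c V = n} = {W} := by
          ext V
          constructor
          · intro hV; exact h hV hW
          · rintro rfl; exact hW
        rw [this, sUnion_singleton] at hG
        rw [← hG]
        exact hW.1
    · rw [eq_univ_iff_forall]
      intro y
      have : y ∈ ⋃₀ U := by rw [hcov]; trivial
      obtain ⟨W, hW, hyW⟩ := this
      exact ⟨_, ⟨{V ∈ U | c V = c W}, ⟨c W, rfl, ⟨W, hW, rfl⟩⟩, rfl⟩, ⟨W, ⟨hW, rfl⟩, hyW⟩⟩
    · intro F hFf
      obtain ⟨y⟩ := ‹Nonempty Y›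
      obtain ⟨j, hj, hjJ⟩ := ((hF (insert y F) (hFf.insert y)).sdiff hJ).nonempty
      have hj' : insert y F ⊆ ⋃₀ (H j) := hj
      obtain ⟨W, hW, hyW⟩ := hj' (mem_insert y F)
      refine ⟨_, ⟨{V ∈ U | c V = 2 * j}, ⟨2 * j, rfl, ⟨W, hHU j hW, hc1 j hjJ W hW⟩⟩, rfl⟩, ?_⟩
      intro x hx
      obtain ⟨V, hV, hxV⟩ := hj' (mem_insert_of_mem y hx)
      exact ⟨V, ⟨hHU j hV, hc1 j hjJ V hV⟩, hxV⟩


/-- Grouping lemma. -/
lemma grouping [TopologicalSpace Y] [Nonempty Y] (U : Set (Set Y)) (hU : U.Countable)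
    (hopen : ∀ u ∈ U, IsOpen u) (hun : univ ∉ U)
    (G : ℕ → Set (Set Y)) (hGU : ∀ j, G j ⊆ U) (hGf : ∀ j, (G j).Finite)
    (hpf : ∀ W, {k | W ∈ G k}.Finite)
    (hF : ∀ F : Set Y, F.Finite → {j | F ⊆ ⋃₀ (G j)}.Infinite) : OmegaGroupable Y U := by
  classical
  -- the bound function
  have hB : ∀ n : ℕ, ∃ b : ℕ, n < b ∧ ∀ k < n, ∀ W ∈ G k, ∀ k', W ∈ G k' → k' < b := by
    intro n
    have h1 : (⋃ k ∈ Finset.range n, ⋃ W ∈ G k, {k' | W ∈ G k'}).Finite := by
      refine Set.Finite.biUnion (Finset.finite_toSet _) ?_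
      intro k _
      exact (hGf k).biUnion (fun W _ => hpf W)
    obtain ⟨b, hb⟩ := h1.bddAbove
    refine ⟨max n b + 1, by omega, ?_⟩
    intro k hk W hW k' hk'
    have : k' ≤ b := hb (by
      simp only [mem_iUnion]
      exact ⟨k, Finset.mem_range.2 hk, W, hW, hk'⟩)
    omega
  choose B hB1 hB2 using hB
  obtain ⟨m, hm0, hms⟩ : ∃ m : ℕ → ℕ, m 0 = 0 ∧ ∀ n, m (n + 1) = B (m n) :=
    ⟨fun n => Nat.rec 0 (fun _ x => B x) n, rfl, fun _ => rfl⟩
  have hm : StrictMono m := strictMono_nat_of_lt_succ (fun n => by rw [hms]; exact hB1 _)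
  obtain ⟨H, hH⟩ : ∃ H : ℕ → Set (Set Y), ∀ i, H i = ⋃ k ∈ Finset.Ico (m i) (m (i + 1)), G k :=
    ⟨_, fun _ => rfl⟩
  have hHU : ∀ i, H i ⊆ U := by
    intro i W hW
    simp only [hH, mem_iUnion] at hW
    obtain ⟨k, _, hW⟩ := hW
    exact hGU k hW
  have hHf : ∀ i, (H i).Finite := fun i => by
    rw [hH]
    exact Set.Finite.biUnion (Finset.finite_toSet _) (fun k _ => hGf k)
  have hdis : ∀ i j, i + 2 ≤ j → Disjoint (H i) (H j) := by
    intro i j hij
    rw [Set.disjoint_left]
    intro W hi hj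
    simp only [hH, mem_iUnion, Finset.mem_Ico] at hi hj
    obtain ⟨k, ⟨_, hk⟩, hW⟩ := hi
    obtain ⟨k', ⟨hk', _⟩, hW'⟩ := hj
    have h1 := hB2 (m (i + 1)) k hk W hW k' hW'
    rw [← hms] at h1
    have h2 := hm.monotone (show i + 1 + 1 ≤ j by omega)
    omega
  have hloc : ∀ k, ∃ i, m i ≤ k ∧ k < m (i + 1) := by
    intro k
    have hex : ∃ i, k < m (i + 1) := ⟨k, lt_of_lt_of_le (Nat.lt_succ_self k) (hm.id_le (k + 1))⟩
    refine ⟨Nat.find hex, ?_, Nat.find_spec hex⟩
    rcases Nat.eq_zero_or_pos (Nat.find hex) with h | h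
    · rw [h, hm0]; exact Nat.zero_le _
    · obtain ⟨j, hj⟩ := Nat.exists_eq_succ_of_ne_zero h.ne'
      have := Nat.find_min hex (m := j) (by omega)
      rw [hj]
      exact not_lt.1 this
  have hFH : ∀ F : Set Y, F.Finite → {i | F ⊆ ⋃₀ (H i)}.Infinite := by
    intro F hFf
    apply Set.infinite_of_forall_exists_gt
    intro a
    obtain ⟨k, hk, hka⟩ := (hF F hFf).exists_gt (m (a + 1))
    obtain ⟨i, hi1, hi2⟩ := hloc k
    refine ⟨i, ?_, ?_⟩
    · intro y hy
      obtain ⟨W, hW, hyW⟩ := hk hy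
      refine ⟨W, ?_, hyW⟩
      simp only [hH, mem_iUnion, Finset.mem_Ico]
      exact ⟨k, ⟨hi1, hi2⟩, hW⟩
    · have h1 : m (a + 1) < m (i + 1) := lt_trans hka hi2
      have h2 := hm.lt_iff_lt.1 h1
      omega
  by_cases hE : ∀ F : Set Y, F.Finite → {i | F ⊆ ⋃₀ (H (2 * i))}.Infinite
  · refine grouping_disjoint U hU hopen hun (fun i => H (2 * i)) (fun i => hHU _) (fun i => hHf _) ?_ hE
    intro i j hij
    rcases lt_or_gt_of_ne hij with h | h
    · exact hdis _ _ (by omega)
    · exact (hdis _ _ (by omega)).symm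
  · push Not at hE
    obtain ⟨F0, hF0, hF0'⟩ := hE
    have hO : ∀ F : Set Y, F.Finite → {i | F ⊆ ⋃₀ (H (2 * i + 1))}.Infinite := by
      intro F hFf hcon
      have h1 := hFH (F ∪ F0) (hFf.union hF0)
      apply h1
      refine ((hF0'.image (fun i => 2 * i)).union (hcon.image (fun i => 2 * i + 1))).subset ?_
      intro i hi
      have hi' : F ∪ F0 ⊆ ⋃₀ (H i) := hi
      rcases Nat.even_or_odd' i with ⟨k, hk | hk⟩
      · left
        exact ⟨k, by show F0 ⊆ ⋃₀ (H (2 * k)); rw [← hk]; exact subset_union_right.trans hi', hk.symm⟩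
      · right
        exact ⟨k, by show F ⊆ ⋃₀ (H (2 * k + 1)); rw [← hk]; exact subset_union_left.trans hi', hk.symm⟩
    refine grouping_disjoint U hU hopen hun (fun i => H (2 * i + 1)) (fun i => hHU _) (fun i => hHf _) ?_ hO
    intro i j hij
    rcases lt_or_gt_of_ne hij with h | h
    · exact hdis _ _ (by omega)
    · exact (hdis _ _ (by omega)).symm

end Pool.Agent.H479R3.OG
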