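import Mathlib
import Pool.Agent.H479R3.OG1
import Pool.Agent.H479R3.OG2

set_option autoImplicit false

namespace Pool.Agent.H479R3.OG

open Set

/-- The set of points: finite modifications of the first (second) coordinates, with a marker. -/
def XX (G : T → ℕ → Bool × Bool) : Set (ℕ → Bool) :=
  {z | (z 0 = false ∧ ∃ a L, ∀ k, L ≤ k → z k = (G a k).1) ∨
    (z 0 = true ∧ ∃ a L, ∀ k, L ≤ k → z k = (G a k).2)}

lemma finite_tail (w : ℕ → Bool) (k : ℕ) : {z : ℕ → Bool | ∀ i, k ≤ i → z i = w i}.Finite := by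
  have h : {z : ℕ → Bool | ∀ i, k ≤ i → z i = w i} ⊆
      Set.range (fun (g : Fin k → Bool) (i : ℕ) => if h : i < k then g ⟨i, h⟩ else w i) := by
    intro z hz
    refine ⟨fun i => z i, ?_⟩
    funext i
    by_cases h : i < k
    · simp [h]
    · simp only [h, dif_neg, not_false_eq_true]
      exact (hz i (not_lt.1 h)).symm
  exact (Set.finite_range _).subset h

variable {Y : Type}

lemma finite_tail' {c : Y → ℕ → Bool} (hc : Function.Injective c) (w : ℕ → Bool) (k : ℕ) :
    {y : Y | ∀ i, k ≤ i → c y i = w i}.Finite :=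
  (finite_tail w k).preimage hc.injOn

section
variable [TopologicalSpace Y]

lemma isOpen_of_local {R : Set (ℕ → Bool)} (m : ℕ)
    (h : ∀ x y : ℕ → Bool, (∀ i < m, x i = y i) → x ∈ R → y ∈ R) : IsOpen R := by
  rw [isOpen_pi_iff]
  intro x hx
  refine ⟨Finset.range m, fun i => {x i}, fun i _ => ⟨isOpen_discrete _, rfl⟩, ?_⟩
  intro y hy
  exact h x y (fun i hi => (hy i (by simpa using hi)).symm) hx

lemma exists_nbhd {c : Y → ℕ → Bool} (hc : Topology.IsInducing c) {E : Set Y} (hE : IsOpen E) (y : Y)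
    (hy : y ∈ E) : ∃ l : ℕ, ∀ z : Y, (∀ i < l, c z i = c y i) → z ∈ E := by
  obtain ⟨O, hO, rfl⟩ := hc.isOpen_iff.1 hE
  obtain ⟨I, u, hu, hsub⟩ := isOpen_pi_iff.1 hO (c y) hy
  refine ⟨I.sup id + 1, fun z hz => ?_⟩
  apply hsub
  intro i hi
  rw [hz i (Nat.lt_succ_of_le (Finset.le_sup (f := id) hi))]
  exact (hu i hi).2

lemma exists_nbhd_finite {c : Y → ℕ → Bool} (hc : Topology.IsInducing c) {E : Set Y} (hE : IsOpen E)
    (P : Set Y) (hP : P.Finite) (hPE : P ⊆ E) :
    ∃ l : ℕ, ∀ y ∈ P, ∀ z : Y, (∀ i < l, c z i = c y i) → z ∈ E := by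
  have h : ∀ y : Y, ∃ l : ℕ, y ∈ P → ∀ z : Y, (∀ i < l, c z i = c y i) → z ∈ E := by
    intro y
    by_cases hy : y ∈ P
    · obtain ⟨l, hl⟩ := exists_nbhd hc hE y (hPE hy)
      exact ⟨l, fun _ => hl⟩
    · exact ⟨0, fun h => absurd h hy⟩
  choose l hl using h
  obtain ⟨b, hb⟩ := (hP.image l).bddAbove
  refine ⟨b, fun y hy z hz => hl y hy z (fun i hi => hz i (lt_of_lt_of_le hi ?_))⟩
  exact hb ⟨y, hy, rfl⟩

/-- In an `ω`-cover one finds members containing a given finite set and avoiding a given finite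
family of proper sets. -/
lemma OmegaCover.exists_avoid {U : Set (Set Y)} (hU : OmegaCover Y U) (P : Set Y) (hP : P.Finite)
    (B : Set (Set Y)) (hB : B.Finite) (hB' : univ ∉ B) : ∃ E ∈ U, P ⊆ E ∧ E ∉ B := by
  classical
  have h : ∀ b : Set Y, ∃ S : Set Y, S.Finite ∧ (b ∈ B → ¬ S ⊆ b) := by
    intro b
    by_cases hb : b ∈ B
    · have : b ≠ univ := fun h => hB' (h ▸ hb)
      rw [Ne, eq_univ_iff_forall] at this
      push Not at this
      obtain ⟨y, hy⟩ := this
      exact ⟨{y}, finite_singleton y, fun _ h => hy (h rfl)⟩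
    · exact ⟨∅, finite_empty, fun h => absurd h hb⟩
  choose S hS hS' using h
  obtain ⟨E, hE, hPE⟩ := hU.2 (P ∪ ⋃ b ∈ B, S b) (hP.union (hB.biUnion (fun b _ => hS b)))
  refine ⟨E, hE, subset_union_left.trans hPE, fun hEB => ?_⟩
  apply hS' E hEB
  refine Subset.trans ?_ hPE
  intro y hy
  exact Or.inr (mem_biUnion hEB hy)

lemma choice (G : T → ℕ → Bool × Bool) {c : Y → ℕ → Bool} (hc : Topology.IsInducing c)
    (hinj : Function.Injective c) (hr : range c = XX G)
    (k : ℕ) {U U' : Set (Set Y)} (hU : OmegaCover Y U) (hU' : OmegaCover Y U')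
    (B : Set (Set Y)) (hB : B.Finite) (hB' : univ ∉ B) :
    ∃ E ∈ U, ∃ E' ∈ U', E ∉ B ∧ E' ∉ B ∧ ∃ σ : ℕ × (ℕ → Bool),
      ∀ z : Y, (∀ i, k ≤ i → i < σ.1 → c z i = σ.2 i) → z ∈ E ∨ z ∈ E' := by
  classical
  let a0 : T := (fun _ => (0, fun _ => false), fun _ => 0)
  let p : ℕ → Bool := fun i => (G a0 i).1
  let q : ℕ → Bool := fun i => (G a0 i).2
  have hmem : ∀ x : ℕ → Bool, x ∈ XX G → ∃ y, c y = x := by
    intro x hx
    rw [← hr] at hx
    exact hx
  let P : Set Y := {y | c y 0 = false ∧ ∀ i, k ≤ i → 1 ≤ i → c y i = p i}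
  have hP : P.Finite := by
    refine (finite_tail' hinj p (k + 1)).subset ?_
    rintro y ⟨_, hy⟩ i hi
    exact hy i (by omega) (by omega)
  obtain ⟨E, hE, hPE, hEB⟩ := hU.exists_avoid P hP B hB hB'
  obtain ⟨l, hl⟩ := exists_nbhd_finite hc (hU.1.1 E hE) P hP hPE
  set l0 := max l (k + 1) with hl0
  have hl0k : k + 1 ≤ l0 := le_max_right _ _
  have hEz : ∀ z : Y, c z 0 = false → (∀ i, k ≤ i → 1 ≤ i → i < l0 → c z i = p i) → z ∈ E := by
    intro z hz0 hz
    obtain ⟨y, hy⟩ := hmem (fun i => if i < l0 then c z i else p i) (by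
      left
      refine ⟨?_, a0, l0, ?_⟩
      · have : 0 < l0 := by omega
        simp [this, hz0]
      · intro i hi
        have : ¬ i < l0 := not_lt.2 hi
        simp [this, p])
    have hyP : y ∈ P := by
      constructor
      · have : 0 < l0 := by omega
        rw [hy]; simp [this, hz0]
      · intro i hi hi'
        rw [hy]
        by_cases h : i < l0
        · simp [h, hz i hi hi' h]
        · simp [h]
    refine hl y hyP z (fun i hi => ?_)
    have : i < l0 := lt_of_lt_of_le hi (le_max_left _ _)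
    rw [hy]; simp [this]
  let Q : Set Y := {y | c y 0 = true ∧ (∀ i, k ≤ i → 1 ≤ i → i < l0 → c y i = p i) ∧
    ∀ i, l0 ≤ i → c y i = q i}
  have hQ : Q.Finite := by
    refine (finite_tail' hinj q l0).subset ?_
    rintro y ⟨_, _, hy⟩
    exact hy
  obtain ⟨E', hE', hQE, hEB'⟩ := hU'.exists_avoid Q hQ B hB hB'
  obtain ⟨l', hl'⟩ := exists_nbhd_finite hc (hU'.1.1 E' hE') Q hQ hQE
  refine ⟨E, hE, E', hE', hEB, hEB', (max l' l0, fun i => if i < l0 then p i else q i), ?_⟩
  intro z hz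
  simp only at hz
  cases hz0 : c z 0 with
  | false =>
    left
    refine hEz z hz0 (fun i hi hi' hil => ?_)
    rw [hz i hi (lt_of_lt_of_le hil (le_max_right _ _))]
    simp [hil]
  | true =>
    right
    obtain ⟨y, hy⟩ := hmem (fun i => if i < max l' l0 then c z i else q i) (by
      right
      refine ⟨?_, a0, max l' l0, ?_⟩
      · have : 0 < max l' l0 := lt_of_lt_of_le (by omega) (le_max_right _ _)
        simp only [this, if_true, hz0]
      · intro i hi
        have : ¬ i < max l' l0 := not_lt.2 hi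
        simp only [this, if_false, q])
    have hyQ : y ∈ Q := by
      refine ⟨?_, ?_, ?_⟩
      · have : 0 < max l' l0 := lt_of_lt_of_le (by omega) (le_max_right _ _)
        rw [hy]; simp only [this, if_true, hz0]
      · intro i hi hi' hil
        have h1 : i < max l' l0 := lt_of_lt_of_le hil (le_max_right _ _)
        rw [hy]; simp only [h1, if_true]
        rw [hz i hi h1]; simp [hil]
      · intro i hi
        rw [hy]
        by_cases h : i < max l' l0
        · simp only [h, if_true]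
          rw [hz i (by omega) h]
          have : ¬ i < l0 := not_lt.2 hi
          simp [this]
        · simp only [h, if_false]
    refine hl' y hyQ z (fun i hi => ?_)
    have : i < max l' l0 := lt_of_lt_of_le hi (le_max_left _ _)
    rw [hy]; simp only [this, if_true]

end

lemma rec_choice {α : Type} (new : α → Set (Set Y)) (Φ : ℕ → α → Prop)
    (h : ∀ k (B : Set (Set Y)), B.Finite → univ ∉ B →
      ∃ a, Φ k a ∧ (new a).Finite ∧ univ ∉ new a ∧ Disjoint (new a) B) :
    ∃ a : ℕ → α, (∀ k, Φ k (a k)) ∧ ∀ j k, j < k → Disjoint (new (a j)) (new (a k)) := by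
  choose f hf1 hf2 hf3 hf4 using fun (k : ℕ) (B : {B : Set (Set Y) // B.Finite ∧ univ ∉ B}) =>
    h k B.1 B.2.1 B.2.2
  obtain ⟨S, hS0, hS⟩ : ∃ S : ℕ → {B : Set (Set Y) // B.Finite ∧ univ ∉ B},
      (S 0).1 = ∅ ∧ ∀ k, (S (k + 1)).1 = (S k).1 ∪ new (f k (S k)) :=
    ⟨fun n => Nat.rec ⟨∅, finite_empty, fun h => h⟩ (fun k s => ⟨s.1 ∪ new (f k s),
      s.2.1.union (hf2 k s), fun h => h.elim s.2.2 (hf3 k s)⟩) n, rfl, fun _ => rfl⟩
  have hmono : ∀ j k, j ≤ k → (S j).1 ⊆ (S k).1 := by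
    intro j k hjk
    induction hjk with
    | refl => exact Subset.rfl
    | step _ ih => exact ih.trans (by rw [hS]; exact subset_union_left)
  refine ⟨fun k => f k (S k), fun k => hf1 k (S k), ?_⟩
  intro j k hjk
  have h1 : new (f j (S j)) ⊆ (S k).1 := by
    refine Subset.trans ?_ (hmono (j + 1) k hjk)
    rw [hS]; exact subset_union_right
  exact ((hf4 k (S k)).mono_right h1).symm

end Pool.Agent.H479R3.OG
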