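import Mathlib
import Pool.Agent.H479R3.OG3

set_option autoImplicit false

namespace Pool.Agent.H479R3.OG

open Set

variable {Y : Type} [TopologicalSpace Y]

/-- First half: `S₁(Ω, O^{ω-gp})`. -/
theorem s1_groupable (G : T → ℕ → Bool × Bool) {c : Y → ℕ → Bool} (hc : Topology.IsInducing c)
    (hinj : Function.Injective c) (hr : range c = XX G)
    (hs : ∀ s : ℕ → ℕ × (ℕ → Bool), ∃ C : Set T, C.Countable ∧ ∀ F : Finset T, (∀ c ∈ F, c ∉ C) →
        {n | ∀ c ∈ F, Occ s n (fun k => (G c k).1) ∧ Occ s n (fun k => (G c k).2)}.Infinite)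
    (hG0 : ∀ a, G a 0 = (false, true)) :
    S1 (OmegaCover Y) (OmegaGroupable Y) := by
  classical
  intro U hU
  -- choose E, E', s
  obtain ⟨a, ha, had⟩ := rec_choice (Y := Y) (α := Set Y × Set Y × (ℕ × (ℕ → Bool)))
    (fun a => {a.1, a.2.1})
    (fun k a => a.1 ∈ U (3 * k) ∧ a.2.1 ∈ U (3 * k + 1) ∧
      ∀ z : Y, (∀ i, k ≤ i → i < a.2.2.1 → c z i = a.2.2.2 i) → z ∈ a.1 ∨ z ∈ a.2.1)
    (by
      intro k B hB hB'
      obtain ⟨E, hE, E', hE', hEB, hEB', σ, hσ⟩ := choice G hc hinj hr k (hU (3 * k))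
        (hU (3 * k + 1)) B hB hB'
      refine ⟨(E, E', σ), ⟨hE, hE', hσ⟩, Set.toFinite _, ?_, ?_⟩
      · rintro (h | h)
        · exact (hU _).1.2.1 ((show univ = E from h) ▸ hE)
        · exact (hU _).1.2.1 ((show univ = E' from h) ▸ hE')
      · rw [Set.disjoint_left]
        rintro W (h | h) hWB
        · exact hEB ((show W = E from h) ▸ hWB)
        · exact hEB' ((show W = E' from h) ▸ hWB))
  obtain ⟨C, hC, hCs⟩ := hs (fun k => (a k).2.2)
  -- exceptional points
  let Z : Set Y := {y | ∃ b ∈ C, ∃ L, (∀ i, L ≤ i → c y i = (G b i).1) ∨ (∀ i, L ≤ i → c y i = (G b i).2)}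
  have hZ : Z.Countable := by
    have h1 : Z ⊆ ⋃ b ∈ C, ⋃ L : ℕ, ({y : Y | ∀ i, L ≤ i → c y i = (G b i).1} ∪
        {y : Y | ∀ i, L ≤ i → c y i = (G b i).2}) := by
      rintro y ⟨b, hb, L, h⟩
      simp only [mem_iUnion]
      exact ⟨b, hb, L, h⟩
    refine Set.Countable.mono h1 ?_
    refine hC.biUnion (fun b _ => Set.countable_iUnion (fun L => ?_))
    exact ((finite_tail' hinj _ L).union (finite_tail' hinj _ L)).countable
  obtain ⟨y0, hy0⟩ : ∃ y : Y, True := by
    have : (fun i => (G (fun _ => (0, fun _ => false), fun _ => 0) i).1) ∈ XX G := by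
      left
      refine ⟨?_, (fun _ => (0, fun _ => false), fun _ => 0), 0, fun _ _ => rfl⟩
      simp only [hG0]
    rw [← hr] at this
    obtain ⟨y, _⟩ := this
    exact ⟨y, trivial⟩
  have : Nonempty Y := ⟨y0⟩
  obtain ⟨ζ, hζ⟩ : ∃ ζ : ℕ → Y, Z ⊆ range ζ := by
    obtain ⟨ζ, hζ⟩ := (hZ.insert y0).exists_eq_range (insert_nonempty _ _)
    exact ⟨ζ, by rw [← hζ]; exact subset_insert _ _⟩
  -- choose O
  obtain ⟨O, hO, hOd⟩ := rec_choice (Y := Y) (α := Set Y) (fun W => {W})
    (fun k W => W ∈ U (3 * k + 2) ∧ ∀ i ≤ k, ζ i ∈ W)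
    (by
      intro k B hB hB'
      obtain ⟨W, hW, hPW, hWB⟩ := (hU (3 * k + 2)).exists_avoid (ζ '' Set.Iic k)
        ((Set.finite_Iic k).image ζ) B hB hB'
      refine ⟨W, ⟨hW, fun i hi => hPW ⟨i, hi, rfl⟩⟩, Set.finite_singleton W, ?_, ?_⟩
      · intro h
        exact (hU _).1.2.1 ((show univ = W from h) ▸ hW)
      · rw [Set.disjoint_left]
        rintro V h hVB
        exact hWB ((show V = W from h) ▸ hVB))
  -- the selection
  let u : ℕ → Set Y := fun n => if n % 3 = 0 then (a (n / 3)).1 else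
    if n % 3 = 1 then (a (n / 3)).2.1 else O (n / 3)
  have hu0 : ∀ k, u (3 * k) = (a k).1 := by
    intro k
    have h1 : 3 * k % 3 = 0 := by omega
    have h2 : 3 * k / 3 = k := by omega
    simp only [u, h1, h2, if_true]
  have hu1 : ∀ k, u (3 * k + 1) = (a k).2.1 := by
    intro k
    have h1 : (3 * k + 1) % 3 = 1 := by omega
    have h2 : (3 * k + 1) / 3 = k := by omega
    simp [u, h1, h2]
  have hu2 : ∀ k, u (3 * k + 2) = O k := by
    intro k
    have h1 : (3 * k + 2) % 3 = 2 := by omega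
    have h2 : (3 * k + 2) / 3 = k := by omega
    simp [u, h1, h2]
  have huU : ∀ n, u n ∈ U n := by
    intro n
    have h3 : n = 3 * (n / 3) ∨ n = 3 * (n / 3) + 1 ∨ n = 3 * (n / 3) + 2 := by omega
    rcases h3 with h | h | h
    · rw [h, hu0]; exact (ha _).1
    · rw [h, hu1]; exact (ha _).2.1
    · rw [h, hu2]; exact (hO _).1
  refine ⟨u, huU, ?_⟩
  refine grouping (range u) (countable_range u) ?_ ?_
    (fun k => {(a k).1, (a k).2.1, O k}) ?_ (fun k => Set.toFinite _) ?_ ?_
  · rintro _ ⟨n, rfl⟩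
    exact (hU n).1.1 _ (huU n)
  · rintro ⟨n, hn⟩
    exact (hU n).1.2.1 (hn ▸ huU n)
  · rintro k W (h | h | h)
    · exact ⟨3 * k, by rw [hu0, h]⟩
    · exact ⟨3 * k + 1, by rw [hu1, h]⟩
    · exact ⟨3 * k + 2, by rw [hu2, h]⟩
  · intro W
    have h1 : {k | W ∈ ({(a k).1, (a k).2.1} : Set (Set Y))}.Finite := by
      apply Set.Subsingleton.finite
      intro j hj k hk
      by_contra hne
      rcases lt_or_gt_of_ne hne with h | h
      · exact Set.disjoint_left.1 (had j k h) hj hk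
      · exact Set.disjoint_left.1 (had k j h) hk hj
    have h2 : {k | W ∈ ({O k} : Set (Set Y))}.Finite := by
      apply Set.Subsingleton.finite
      intro j hj k hk
      by_contra hne
      rcases lt_or_gt_of_ne hne with h | h
      · exact Set.disjoint_left.1 (hOd j k h) hj hk
      · exact Set.disjoint_left.1 (hOd k j h) hk hj
    refine (h1.union h2).subset ?_
    rintro k (h | h | h)
    · exact Or.inl (Or.inl h)
    · exact Or.inl (Or.inr h)
    · exact Or.inr h
  · intro F hF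
    -- for each point
    have hpt : ∀ y : Y, ∃ (A : Finset T) (M : ℕ), (∀ b ∈ A, b ∉ C) ∧ ∀ n, M ≤ n →
        (∀ b ∈ A, Occ (fun k => (a k).2.2) n (fun k => (G b k).1) ∧
          Occ (fun k => (a k).2.2) n (fun k => (G b k).2)) →
        y ∈ ⋃₀ ({(a n).1, (a n).2.1, O n} : Set (Set Y)) := by
      intro y
      by_cases hy : y ∈ Z
      · obtain ⟨i, rfl⟩ := hζ hy
        refine ⟨∅, i, by simp, fun n hn _ => ?_⟩
        exact ⟨O n, Or.inr (Or.inr rfl), (hO n).2 i hn⟩
      · have hyX : c y ∈ XX G := by rw [← hr]; exact ⟨y, rfl⟩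
        obtain ⟨b, L, hbL⟩ : ∃ b L, (∀ i, L ≤ i → c y i = (G b i).1) ∨ (∀ i, L ≤ i → c y i = (G b i).2) := by
          rcases hyX with ⟨_, b, L, h⟩ | ⟨_, b, L, h⟩
          · exact ⟨b, L, Or.inl h⟩
          · exact ⟨b, L, Or.inr h⟩
        refine ⟨{b}, L, ?_, fun n hn hocc => ?_⟩
        · intro b' hb' hbC
          rw [Finset.mem_singleton] at hb'
          subst hb'
          exact hy ⟨b', hbC, L, hbL⟩
        · have hocc' := hocc b (Finset.mem_singleton_self b)
          have h1 : ∀ i, n ≤ i → i < ((a n).2.2).1 → c y i = ((a n).2.2).2 i := by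
            intro i hi hi'
            rcases hbL with h | h
            · rw [h i (hn.trans hi)]
              exact hocc'.1 i hi hi'
            · rw [h i (hn.trans hi)]
              exact hocc'.2 i hi hi'
          rcases (ha n).2.2 y h1 with h | h
          · exact ⟨_, Or.inl rfl, h⟩
          · exact ⟨_, Or.inr (Or.inl rfl), h⟩
    choose A M hAC hAM using hpt
    let A' : Finset T := hF.toFinset.biUnion A
    have hA' := hCs A' (by
      intro b hb
      obtain ⟨y, _, hby⟩ := Finset.mem_biUnion.1 hb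
      exact hAC y b hby)
    obtain ⟨M', hM'⟩ := (hF.image M).bddAbove
    apply Set.infinite_of_forall_exists_gt
    intro d
    obtain ⟨n, hn, hnd⟩ := hA'.exists_gt (max d M')
    refine ⟨n, ?_, lt_of_le_of_lt (le_max_left _ _) hnd⟩
    intro y hy
    apply hAM y n
    · exact (hM' ⟨y, hy, rfl⟩).trans ((le_max_right d M').trans hnd.le)
    · intro b hb
      exact hn b (Finset.mem_biUnion.2 ⟨y, hF.mem_toFinset.2 hy, hb⟩)

/-- Second half: failure of `S₁(Ω, Ω)`. -/
theorem not_s1_omega (G : T → ℕ → Bool × Bool) {c : Y → ℕ → Bool} (hc : Topology.IsInducing c)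
    (hr : range c = XX G)
    (hG0 : ∀ a, G a 0 = (false, true))
    (hsp : ∀ m : ℕ → ℕ, ∃ a, ∀ n, 2 ≤ n → nd (G a) (m n) < n)
    (hinf : ∀ a b, {n | (G a n).1 ≠ (G b n).2}.Infinite) :
    ¬ S1 (OmegaCover Y) (OmegaCover Y) := by
  classical
  intro hS
  have hmem : ∀ x : ℕ → Bool, x ∈ XX G → ∃ y, c y = x := by
    intro x hx
    rw [← hr] at hx
    exact hx
  let a0 : T := (fun _ => (0, fun _ => false), fun _ => 0)
  let U : ℕ → Set (Set Y) := fun n => {W | IsOpen W ∧ ∃ m, ∀ x ∈ W, ∀ y ∈ W, c x 0 = false →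
    c y 0 = true → n + 2 ≤ nd (fun k => (c x k, c y k)) m}
  have hfin : ∀ n, ∀ F : Set Y, F.Finite → ∃ W ∈ U n, F ⊆ W := by
    intro n F hF
    have h1 : ∀ t : Y × Y, ∃ m, c t.1 0 = false → c t.2 0 = true →
        n + 2 ≤ nd (fun k => (c t.1 k, c t.2 k)) m := by
      rintro ⟨x, y⟩
      by_cases hx : c x 0 = false
      swap
      · exact ⟨0, fun h => absurd h hx⟩
      by_cases hy : c y 0 = true
      swap
      · exact ⟨0, fun _ h => absurd h hy⟩
      have hxX : c x ∈ XX G := by rw [← hr]; exact ⟨x, rfl⟩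
      have hyX : c y ∈ XX G := by rw [← hr]; exact ⟨y, rfl⟩
      obtain ⟨a, L, haL⟩ : ∃ a L, ∀ k, L ≤ k → c x k = (G a k).1 := by
        rcases hxX with h | h
        · exact h.2
        · rw [hx] at h; exact absurd h.1 (by simp)
      obtain ⟨b, L', hbL⟩ : ∃ b L', ∀ k, L' ≤ k → c y k = (G b k).2 := by
        rcases hyX with h | h
        · rw [hy] at h; exact absurd h.1 (by simp)
        · exact h.2
      have hd : {k | c x k ≠ c y k}.Infinite := by
        have := (hinf a b).sdiff (Set.finite_Iio (max L L'))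
        refine this.mono ?_
        rintro k ⟨hk, hk'⟩
        have hk'' : max L L' ≤ k := not_lt.1 hk'
        show c x k ≠ c y k
        rw [haL k ((le_max_left _ _).trans hk''), hbL k ((le_max_right _ _).trans hk'')]
        exact hk
      obtain ⟨t, ht, htc⟩ := hd.exists_subset_card_eq (n + 2)
      refine ⟨t.sup id + 1, fun _ _ => ?_⟩
      rw [← htc]
      unfold nd
      apply Finset.card_le_card
      intro k hk
      simp only [Finset.mem_filter, Finset.mem_range]
      exact ⟨Nat.lt_succ_of_le (Finset.le_sup (f := id) hk), ht hk⟩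
    choose m hm using h1
    obtain ⟨b, hb⟩ := ((hF.prod hF).image m).bddAbove
    set M := b + 1 with hM
    refine ⟨c ⁻¹' {z | ∃ y ∈ F, ∀ i < M, z i = c y i}, ⟨?_, M, ?_⟩, ?_⟩
    · apply IsOpen.preimage hc.continuous
      apply isOpen_of_local M
      rintro x y hxy ⟨w, hw, hxw⟩
      exact ⟨w, hw, fun i hi => by rw [← hxy i hi, hxw i hi]⟩
    · rintro x ⟨x', hx', hxx'⟩ y ⟨y', hy', hyy'⟩ hx0 hy0
      have h2 := hm (x', y') (by rw [← hx0]; exact (hxx' 0 (Nat.succ_pos _)).symm)
        (by rw [← hy0]; exact (hyy' 0 (Nat.succ_pos _)).symm)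
      have h3 : m (x', y') ≤ M := (hb ⟨(x', y'), ⟨hx', hy'⟩, rfl⟩).trans (Nat.le_succ _)
      refine h2.trans ((nd_mono _ h3).trans (le_of_eq ?_))
      apply nd_congr
      intro k hk
      rw [hxx' k hk, hyy' k hk]
    · intro y hy
      exact ⟨y, hy, fun _ _ => rfl⟩
  have hU : ∀ n, OmegaCover Y (U n) := by
    intro n
    refine ⟨⟨fun u hu => hu.1, ?_, ?_⟩, hfin n⟩
    · rintro ⟨_, m, hm⟩
      obtain ⟨x, hx⟩ := hmem (fun i => (G a0 i).1) (by
        left
        exact ⟨by simp only [hG0], a0, 0, fun _ _ => rfl⟩)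
      obtain ⟨y, hy⟩ := hmem (fun i => if i = 0 then true else if i < m then (G a0 i).1
          else (G a0 i).2) (by
        right
        refine ⟨by simp, a0, m + 1, fun k hk => ?_⟩
        have h1 : k ≠ 0 := by omega
        have h2 : ¬ k < m := by omega
        simp [h1, h2])
      have h1 := hm x (mem_univ _) y (mem_univ _) (by rw [hx]; simp only [hG0]) (by rw [hy]; simp)
      have h2 : nd (fun k => (c x k, c y k)) m ≤ 1 := by
        unfold nd
        refine (Finset.card_le_card (t := {0}) ?_).trans (le_of_eq (Finset.card_singleton 0))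
        intro k hk
        simp only [Finset.mem_filter, Finset.mem_range] at hk
        rw [Finset.mem_singleton]
        by_contra hk0
        apply hk.2
        rw [hx, hy]
        simp [hk0, hk.1]
      omega
    · rw [eq_univ_iff_forall]
      intro y
      obtain ⟨W, hW, hyW⟩ := hfin n {y} (finite_singleton y)
      exact ⟨W, hW, hyW rfl⟩
  obtain ⟨u, hu, hω⟩ := hS U hU
  choose hopen m hm using hu
  obtain ⟨a, ha⟩ := hsp (fun n => m (n - 2))
  obtain ⟨x, hx⟩ := hmem (fun i => (G a i).1) (by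
    left
    exact ⟨by simp only [hG0], a, 0, fun _ _ => rfl⟩)
  obtain ⟨y, hy⟩ := hmem (fun i => (G a i).2) (by
    right
    exact ⟨by simp only [hG0], a, 0, fun _ _ => rfl⟩)
  obtain ⟨_, ⟨n, rfl⟩, hn⟩ := hω.2 {x, y} (Set.toFinite _)
  have h1 := hm n x (hn (Or.inl rfl)) y (hn (Or.inr rfl)) (by rw [hx]; simp only [hG0])
    (by rw [hy]; simp only [hG0])
  have h2 := ha (n + 2) (by omega)
  simp only [Nat.add_sub_cancel] at h2
  have h3 : (fun k => (c x k, c y k)) = G a := by
    funext k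
    rw [hx, hy]
  rw [h3] at h1
  omega

end Pool.Agent.H479R3.OG
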