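import Mathlib

set_option autoImplicit false

open Filter Topology Set

namespace Pool.Agent.H479R3.RC

/-- Scattered continuity of a real function. -/
def SC {X : Type} [TopologicalSpace X] (f : X → ℝ) : Prop :=
  ∀ A : Set X, A.Nonempty → ∃ a ∈ A, ContinuousWithinAt f A a

theorem sc_open {X : Type} [TopologicalSpace X] {f : X → ℝ} (hf : SC f) (A : Set X)
    (hA : A.Nonempty) : ∃ O : Set X, IsOpen O ∧ (O ∩ A).Nonempty ∧ ContinuousOn f (O ∩ A) := by
  classical
  by_contra hcon
  push Not at hcon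
  set C : Set X := {a | a ∈ A ∧ ContinuousWithinAt f A a} with hC
  -- C dense in A
  have hCdense : ∀ O : Set X, IsOpen O → (O ∩ A).Nonempty → (O ∩ C).Nonempty := by
    intro O hO hOA
    obtain ⟨a, haOA, hca⟩ := hf (O ∩ A) hOA
    refine ⟨a, haOA.1, haOA.2, ?_⟩
    rwa [inter_comm, continuousWithinAt_inter (hO.mem_nhds haOA.1)] at hca
  set D' : Set X := {d | d ∈ A ∧ ¬ ContinuousWithinAt f C d} with hD'
  have hD'dense : ∀ O : Set X, IsOpen O → (O ∩ A).Nonempty → (O ∩ D').Nonempty := by
    intro O hO hOA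
    by_contra hno
    apply hcon O hO hOA
    have hlim : ∀ a ∈ O ∩ A, ContinuousWithinAt f C a := by
      intro a ha
      by_contra hna
      exact hno ⟨a, ha.1, ha.2, hna⟩
    have hcl : O ∩ A ⊆ closure C := by
      intro a ha
      rw [mem_closure_iff]
      intro N hN haN
      obtain ⟨c, hc1, hc2⟩ := hCdense (N ∩ O) (hN.inter hO) ⟨a, ⟨haN, ha.1⟩, ha.2⟩
      exact ⟨c, hc1.1, hc2⟩
    have h1 : ContinuousOn (extendFrom C f) (O ∩ A) :=
      continuousOn_extendFrom hcl (fun a ha => ⟨f a, hlim a ha⟩)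
    refine h1.congr ?_
    intro a ha
    exact (extendFrom_eq (hcl ha) (hlim a ha)).symm
  have hD'ne : D'.Nonempty := by
    obtain ⟨d, hd⟩ := hD'dense univ isOpen_univ (by simpa using hA)
    exact ⟨d, hd.2⟩
  obtain ⟨d0, hd0, hcd0⟩ := hf D' hD'ne
  apply hd0.2
  rw [ContinuousWithinAt, Metric.tendsto_nhds]
  intro ε hε
  have h2 : ∀ᶠ d in 𝓝[D'] d0, dist (f d) (f d0) < ε / 2 :=
    (Metric.tendsto_nhds.mp hcd0) (ε / 2) (by positivity)
  rw [eventually_nhdsWithin_iff] at h2
  obtain ⟨N, hN1, hN2, hN3⟩ := eventually_nhds_iff.mp h2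
  rw [eventually_nhdsWithin_iff, eventually_nhds_iff]
  refine ⟨N, ?_, hN2, hN3⟩
  intro c hcN hcC
  have h3 : ∀ᶠ d in 𝓝[A] c, dist (f d) (f c) < ε / 2 :=
    (Metric.tendsto_nhds.mp hcC.2) (ε / 2) (by positivity)
  rw [eventually_nhdsWithin_iff] at h3
  obtain ⟨N', hN'1, hN'2, hN'3⟩ := eventually_nhds_iff.mp h3
  obtain ⟨d, hd1, hd2⟩ := hD'dense (N ∩ N') (hN2.inter hN'2) ⟨c, ⟨hcN, hN'3⟩, hcC.1⟩
  have h4 := hN1 d hd1.1 hd2
  have h5 := hN'1 d hd1.2 hd2.1
  calc dist (f c) (f d0) ≤ dist (f c) (f d) + dist (f d) (f d0) := dist_triangle _ _ _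
    _ = dist (f d) (f c) + dist (f d) (f d0) := by rw [dist_comm (f c) (f d)]
    _ < ε := by linarith

theorem sc_measurable {X : Type} [TopologicalSpace X] [SecondCountableTopology X]
    [MeasurableSpace X] [BorelSpace X] {f : X → ℝ} (hf : SC f) : Measurable f := by
  classical
  set 𝒪 : Set (Set X) := {O | IsOpen O ∧ ∀ V : Set ℝ, IsOpen V → MeasurableSet (O ∩ f ⁻¹' V)}
    with h𝒪
  obtain ⟨T, hTc, hTs, hTU⟩ := TopologicalSpace.isOpen_sUnion_countable 𝒪 (fun O hO => hO.1)
  have hU : ⋃₀ 𝒪 = univ := by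
    by_contra hne
    have hA : (⋃₀ 𝒪)ᶜ.Nonempty := by
      rw [nonempty_compl]; exact hne
    obtain ⟨O, hO, hOA, hcO⟩ := sc_open hf _ hA
    have hmem : O ∪ ⋃₀ 𝒪 ∈ 𝒪 := by
      refine ⟨hO.union (isOpen_sUnion (fun O hO => hO.1)), ?_⟩
      intro V hV
      have h1 : (O ∪ ⋃₀ 𝒪) ∩ f ⁻¹' V = (⋃ O' ∈ T, O' ∩ f ⁻¹' V) ∪ ((O ∩ (⋃₀ 𝒪)ᶜ) ∩ f ⁻¹' V) := by
        rw [← iUnion₂_inter, ← sUnion_eq_biUnion, hTU, ← union_inter_distrib_right]
        congr 1
        ext x
        by_cases hx : x ∈ ⋃₀ 𝒪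
        · simp only [mem_union, mem_inter_iff, mem_compl_iff, hx, or_true, true_or]
        · simp only [mem_union, mem_inter_iff, mem_compl_iff, hx, or_false, false_or,
            not_false_eq_true, and_true]
      rw [h1]
      refine MeasurableSet.union (MeasurableSet.biUnion hTc (fun O' hO' => (hTs hO').2 V hV)) ?_
      obtain ⟨u, hu, hu2⟩ := (continuousOn_iff'.mp hcO) V hV
      rw [inter_comm, hu2]
      refine hu.measurableSet.inter (hO.measurableSet.inter ?_)
      exact (isOpen_sUnion (fun O hO => hO.1)).measurableSet.compl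
    obtain ⟨a, ha1, ha2⟩ := hOA
    exact ha2 (mem_sUnion.mpr ⟨_, hmem, Or.inl ha1⟩)
  apply measurable_of_isOpen
  intro V hV
  have h2 : f ⁻¹' V = ⋃ O' ∈ T, O' ∩ f ⁻¹' V := by
    rw [← iUnion₂_inter, ← sUnion_eq_biUnion, hTU, hU, univ_inter]
  rw [h2]
  exact MeasurableSet.biUnion hTc (fun O' hO' => (hTs hO').2 V hV)

/-- A function on Baire space with countably many discontinuities is of the first class. -/
theorem baire_one_of_countable (f : (ℕ → ℕ) → ℝ)
    (hf : {x | ¬ ContinuousAt f x}.Countable) :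
    ∃ u : ℕ → (ℕ → ℕ) → ℝ, (∀ n, Continuous (u n)) ∧
      ∀ x, Tendsto (fun n => u n x) atTop (𝓝 (f x)) := by
  classical
  obtain ⟨d, hd⟩ := (hf.union (countable_singleton (0 : ℕ → ℕ))).exists_eq_range
    ⟨0, Or.inr rfl⟩
  set r : ℕ → (ℕ → ℕ) → (ℕ → ℕ) := fun n x =>
    if h : ∃ i, i ≤ n ∧ ∀ m < n, d i m = x m then d (Nat.find h)
    else fun m => if m < n then x m else 0 with hr
  have hragree : ∀ n x, ∀ m < n, r n x m = x m := by
    intro n x m hm
    by_cases h : ∃ i, i ≤ n ∧ ∀ m < n, d i m = x m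
    · simp only [hr, dif_pos h]
      exact (Nat.find_spec h).2 m hm
    · simp only [hr, dif_neg h, if_pos hm]
  have hrcongr : ∀ n x x', (∀ m < n, x' m = x m) → r n x' = r n x := by
    intro n x x' hxx
    have hP : ∀ i, (i ≤ n ∧ ∀ m < n, d i m = x' m) ↔ (i ≤ n ∧ ∀ m < n, d i m = x m) := by
      intro i
      constructor
      · rintro ⟨h1, h2⟩
        exact ⟨h1, fun m hm => (h2 m hm).trans (hxx m hm)⟩
      · rintro ⟨h1, h2⟩
        exact ⟨h1, fun m hm => (h2 m hm).trans (hxx m hm).symm⟩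
    by_cases h : ∃ i, i ≤ n ∧ ∀ m < n, d i m = x m
    · have h' : ∃ i, i ≤ n ∧ ∀ m < n, d i m = x' m := by
        obtain ⟨i, hi⟩ := h
        exact ⟨i, (hP i).mpr hi⟩
      simp only [hr, dif_pos h, dif_pos h']
      congr 1
      exact Nat.find_congr' (fun {i} => hP i)
    · have h' : ¬ ∃ i, i ≤ n ∧ ∀ m < n, d i m = x' m := by
        rintro ⟨i, hi⟩
        exact h ⟨i, (hP i).mp hi⟩
      simp only [hr, dif_neg h, dif_neg h']
      funext m
      by_cases hm : m < n
      · simp only [if_pos hm, hxx m hm]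
      · simp only [if_neg hm]
  refine ⟨fun n x => f (r n x), ?_, ?_⟩
  · intro n
    apply IsLocallyConstant.continuous
    rw [IsLocallyConstant.iff_exists_open]
    intro x
    refine ⟨⋂ m ∈ Finset.range n, {x' | x' m = x m}, ?_, ?_, ?_⟩
    · apply isOpen_biInter_finset
      intro m _
      have hcm : Continuous (fun x' : ℕ → ℕ => x' m) := continuous_apply m
      exact (isOpen_discrete ({x m} : Set ℕ)).preimage hcm
    · simp
    · intro x' hx'
      simp only [mem_iInter, Finset.mem_range, mem_ofPred_eq] at hx'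
      show f (r n x') = f (r n x)
      rw [hrcongr n x x' hx']
  · intro x
    have hrx : Tendsto (fun n => r n x) atTop (𝓝 x) := by
      rw [tendsto_pi_nhds]
      intro m
      apply tendsto_const_nhds.congr'
      filter_upwards [eventually_gt_atTop m] with n hn
      exact (hragree n x m hn).symm
    by_cases hx : x ∈ range d
    · have hx' : ∃ k, d k = x := hx
      set k0 := Nat.find hx' with hk0
      have hk0s : d k0 = x := Nat.find_spec hx'
      have hlt : ∀ i < k0, ∃ m, d i m ≠ x m := by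
        intro i hi
        by_contra hno
        push Not at hno
        exact Nat.find_min hx' hi (funext hno)
      choose! mm hmm using hlt
      apply tendsto_const_nhds.congr'
      filter_upwards [eventually_gt_atTop ((Finset.range k0).sup mm),
        eventually_ge_atTop k0] with n hn hn2
      have hex : ∃ i, i ≤ n ∧ ∀ m < n, d i m = x m := ⟨k0, hn2, fun m _ => by rw [hk0s]⟩
      have hfind : Nat.find hex = k0 := by
        rw [Nat.find_eq_iff]
        refine ⟨⟨hn2, fun m _ => by rw [hk0s]⟩, ?_⟩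
        rintro i hi ⟨_, h2⟩
        have h3 : mm i ≤ (Finset.range k0).sup mm := Finset.le_sup (Finset.mem_range.mpr hi)
        exact hmm i hi (h2 (mm i) (by omega))
      show f x = f (r n x)
      simp only [hr, dif_pos hex, hfind, hk0s]
    · have hcx : ContinuousAt f x := by
        by_contra hno
        apply hx
        rw [← hd]
        exact Or.inl hno
      exact hcx.tendsto.comp hrx

/-- There is a continuous injection of Baire space into the line. -/
theorem exists_pi : ∃ p : (ℕ → ℕ) → ℝ, Continuous p ∧ Function.Injective p := by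
  classical
  obtain ⟨g, -, hg2, hg3⟩ :=
    (isClosed_univ (X := ℝ)).exists_nat_bool_injection_of_not_countable
      (by rw [countable_univ_iff]; exact fun h => Cardinal.not_countable_real (countable_univ_iff.mpr h))
  set q : (ℕ → ℕ) → (ℕ → Bool) :=
    fun x m => decide (x (Nat.unpair m).1 = (Nat.unpair m).2) with hq
  have hqc : Continuous q := by
    apply continuous_pi
    intro m
    have : Continuous (fun k : ℕ => decide (k = (Nat.unpair m).2)) := continuous_of_discreteTopology
    exact this.comp (continuous_apply (Nat.unpair m).1)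
  have hqi : Function.Injective q := by
    intro x y hxy
    funext k
    have h1 := congrFun hxy (Nat.pair k (x k))
    simp only [hq, Nat.unpair_pair, decide_true] at h1
    have h2 := h1.symm
    rw [decide_eq_true_iff] at h2
    exact h2.symm
  exact ⟨g ∘ q, hg2.comp hqc, hg3.comp hqi⟩

end Pool.Agent.H479R3.RC
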