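import Pool.Agent.H479R3.RC9

set_option autoImplicit false
set_option linter.unusedSectionVars false

open Filter Topology Set

namespace Pool.Agent.H479R3.RC

theorem st1_mem {τ v : ℝ} (h0 : 0 ≤ v) (h1 : v ≤ 1) : st1 τ 1 v ∈ Mon :=
  ⟨st1_mono h0 h1, fun _ => ⟨st1_nonneg zero_le_one h0, st1_le zero_le_one h1⟩⟩

theorem dst1_mem {n : ℕ} {k : ℤ} {v : ℝ} (h0 : 0 ≤ v) (h1 : v ≤ 1) : dst1 n k 1 v ∈ Mon :=
  ⟨dst1_mono h0 h1, fun _ => ⟨dst1_nonneg h0 h1, dst1_le h0 h1⟩⟩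

theorem meas_st1 {E : (ℕ → ℕ) → (ℝ → ℝ) → ℝ} (hE : ∀ y, ContinuousOn (E y) Mon)
    (hE2 : ∀ g ∈ Mon, Measurable (fun y => E y g)) {p : (ℕ → ℕ) → ℝ} (hp : Continuous p)
    {v : ℝ} (h0 : 0 ≤ v) (h1 : v ≤ 1) :
    Measurable (fun a : (ℕ → ℕ) × (ℕ → ℕ) => E a.1 (st1 (p a.2) 1 v)) := by
  have h2 : ∀ n : ℕ, Measurable (fun a : (ℕ → ℕ) × (ℕ → ℕ) =>
      E a.1 (dst1 n ⌊2 ^ n * p a.2⌋ 1 v)) := by
    intro n
    have h3 : Measurable (fun b : (ℕ → ℕ) × ℤ => E b.1 (dst1 n b.2 1 v)) := by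
      apply measurable_from_prod_countable_left
      intro k
      exact hE2 _ (dst1_mem h0 h1)
    have h4 : Measurable (fun a : (ℕ → ℕ) × (ℕ → ℕ) => (⌊2 ^ n * p a.2⌋ : ℤ)) := by
      apply Int.measurable_floor.comp
      exact (hp.measurable.comp measurable_snd).const_mul _
    exact h3.comp (measurable_fst.prodMk h4)
  refine measurable_of_tendsto_metrizable h2 ?_
  rw [tendsto_pi_nhds]
  intro a
  refine E_tendsto hE ?_ (Eventually.of_forall (fun n => dst1_mem h0 h1)) (st1_mem h0 h1) _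
  rw [tendsto_pi_nhds]
  intro s
  exact dst1_tendsto (p a.2) 1 v s

theorem not_countable_range {p : (ℕ → ℕ) → ℝ} (hp : Function.Injective p) :
    ¬ (range p).Countable := by
  intro h
  have h1 : Countable (ℕ → ℕ) := by
    have : Countable (range p) := h.to_subtype
    exact (Equiv.ofInjective p hp).countable_iff.mpr this
  obtain ⟨f, hf⟩ := exists_surjective_nat (ℕ → ℕ)
  obtain ⟨n, hn⟩ := hf (fun k => f k k + 1)
  have := congrFun hn n
  omega

theorem main_contra {E : (ℕ → ℕ) → (ℝ → ℝ) → ℝ} (hE : ∀ y, ContinuousOn (E y) Mon)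
    (hSC : ∀ g ∈ Mon, SC (fun y => E y g)) {p : (ℕ → ℕ) → ℝ} (hp : Continuous p)
    (hpi : Function.Injective p)
    (hsep : ∀ y, ∃ a, E a (st1 (p y) 1 0) ≠ E a (st1 (p y) 1 1)) : False := by
  classical
  have hE2 : ∀ g ∈ Mon, Measurable (fun y => E y g) := fun g hg => sc_measurable (hSC g hg)
  set R : Set ((ℕ → ℕ) × (ℕ → ℕ)) := {a | E a.1 (st1 (p a.2) 1 0) ≠ E a.1 (st1 (p a.2) 1 1)}
    with hR
  have hRm : MeasurableSet R := by
    have h1 := meas_st1 hE hE2 hp (v := 0) le_rfl zero_le_one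
    have h2 := meas_st1 hE hE2 hp (v := 1) zero_le_one le_rfl
    exact (measurableSet_eq_fun h1 h2).compl
  have hRa := hRm.analyticSet
  rw [MeasureTheory.AnalyticSet] at hRa
  rcases hRa with hemp | ⟨g, hg, hgR⟩
  · obtain ⟨a, ha⟩ := hsep 0
    have : (a, (0 : ℕ → ℕ)) ∈ R := ha
    rw [hemp] at this
    exact this
  set τ : (ℕ → ℕ) → ℝ := fun u => p (g u).2 with hτ
  have hτc : Continuous τ := hp.comp (continuous_snd.comp hg)
  have hτr : range τ = range p := by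
    ext s
    constructor
    · rintro ⟨u, rfl⟩
      exact ⟨_, rfl⟩
    · rintro ⟨y, rfl⟩
      obtain ⟨a, ha⟩ := hsep y
      have h1 : (a, y) ∈ range g := by rw [hgR]; exact ha
      obtain ⟨u, hu⟩ := h1
      exact ⟨u, by simp only [hτ, hu]⟩
  set BB : Set (Set (ℕ → ℕ)) := {O | O ∈ TopologicalSpace.countableBasis (ℕ → ℕ) ∧
    (τ '' O).Countable} with hBB
  have hBBc : BB.Countable :=
    (TopologicalSpace.countable_countableBasis (ℕ → ℕ)).mono (fun O hO => hO.1)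
  set Bad : Set (ℕ → ℕ) := ⋃₀ BB with hBad
  have hBado : IsOpen Bad := isOpen_sUnion
    (fun O hO => TopologicalSpace.isOpen_of_mem_countableBasis hO.1)
  have hBadc : (τ '' Bad).Countable := by
    rw [hBad, sUnion_eq_biUnion, image_iUnion₂]
    exact hBBc.biUnion (fun O hO => hO.2)
  have hne : Badᶜ.Nonempty := by
    rw [nonempty_compl]
    intro h
    rw [h, image_univ, hτr] at hBadc
    exact not_countable_range hpi hBadc
  have hcl : IsClosed (Badᶜ : Set (ℕ → ℕ)) := hBado.isClosed_compl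
  have hpol : PolishSpace (Badᶜ : Set (ℕ → ℕ)) := hcl.polishSpace
  let := TopologicalSpace.upgradeIsCompletelyMetrizable (Badᶜ : Set (ℕ → ℕ))
  have hnon : Nonempty (Badᶜ : Set (ℕ → ℕ)) := hne.to_subtype
  have hxc : Continuous (fun u : (Badᶜ : Set (ℕ → ℕ)) => (g u).1) :=
    continuous_fst.comp (hg.comp continuous_subtype_val)
  have htc : Continuous (fun u : (Badᶜ : Set (ℕ → ℕ)) => τ u) :=
    hτc.comp continuous_subtype_val
  have hunc : ∀ O : Set (Badᶜ : Set (ℕ → ℕ)), IsOpen O → O.Nonempty →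
      ¬ ((fun u : (Badᶜ : Set (ℕ → ℕ)) => τ u) '' O).Countable := by
    rintro O hO ⟨u, hu⟩ hcount
    obtain ⟨O', hO', rfl⟩ := isOpen_induced_iff.mp hO
    obtain ⟨B, hB, huB, hBO⟩ :=
      (TopologicalSpace.isBasis_countableBasis (ℕ → ℕ)).exists_subset_of_mem_open
        (show (u : ℕ → ℕ) ∈ O' from hu) hO'
    have h2 : (τ '' B).Countable := by
      refine (hcount.union hBadc).mono ?_
      rintro _ ⟨b, hb, rfl⟩
      by_cases hbb : b ∈ Bad
      · exact Or.inr ⟨b, hbb, rfl⟩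
      · exact Or.inl ⟨⟨b, hbb⟩, hBO hb, rfl⟩
    exact u.2 (mem_sUnion.mpr ⟨B, ⟨hB, h2⟩, huB⟩)
  obtain ⟨G, hG⟩ := exists_Gen (E := E) hE hE2 hxc htc hunc
  refine no_package hG hE htc hxc ?_ hSC
  intro u
  have h3 : g u ∈ R := by rw [← hgR]; exact mem_range_self _
  exact h3

end Pool.Agent.H479R3.RC
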