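import Mathlib

set_option autoImplicit false

open Filter Topology Set

namespace Pool.Agent.H479R3.RC

/-- Monotone functions with values in the unit interval. -/
def Mon : Set (ℝ → ℝ) := {g | Monotone g ∧ ∀ s, 0 ≤ g s ∧ g s ≤ 1}

theorem isCompact_Mon : IsCompact Mon := by
  have h1 : IsCompact (Set.pi univ (fun _ : ℝ => Icc (0 : ℝ) 1)) :=
    isCompact_univ_pi (fun _ => isCompact_Icc)
  have h2 : Mon = (Set.pi univ (fun _ : ℝ => Icc (0 : ℝ) 1)) ∩
      ⋂ (s : ℝ) (s' : ℝ) (_ : s ≤ s'), {g : ℝ → ℝ | g s ≤ g s'} := by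
    ext g
    simp only [Mon, mem_ofPred_eq, mem_inter_iff, Set.mem_pi, mem_univ, true_imp_iff, mem_Icc,
      mem_iInter]
    constructor
    · rintro ⟨h3, h4⟩
      exact ⟨h4, fun s s' h => h3 h⟩
    · rintro ⟨h3, h4⟩
      exact ⟨fun s s' h => h4 s s' h, h3⟩
  rw [h2]
  refine h1.inter_right ?_
  refine isClosed_iInter fun s => isClosed_iInter fun s' => isClosed_iInter fun _ => ?_
  exact isClosed_le (continuous_apply s) (continuous_apply s')

/-- One jump at `τ` of height `w`, with value `v` at the jump point. -/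
noncomputable def st1 (τ w v s : ℝ) : ℝ := if τ < s then w else if τ = s then v else 0

/-- Step function with jumps `w l` at `τ l`, for `l < N`. -/
noncomputable def st (N : ℕ) (w v τ : ℕ → ℝ) (s : ℝ) : ℝ :=
  ∑ l ∈ Finset.range N, st1 (τ l) (w l) (v l) s

theorem st1_nonneg {τ w v s : ℝ} (hw : 0 ≤ w) (hv : 0 ≤ v) : 0 ≤ st1 τ w v s := by
  unfold st1; split_ifs <;> simp [hw, hv]

theorem st1_le {τ w v s : ℝ} (hw : 0 ≤ w) (hvw : v ≤ w) : st1 τ w v s ≤ w := by
  unfold st1; split_ifs <;> simp [hw, hvw]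

theorem st1_mono {τ w v : ℝ} (hv : 0 ≤ v) (hvw : v ≤ w) : Monotone (st1 τ w v) := by
  intro s s' hss
  unfold st1
  rcases lt_trichotomy τ s with h | h | h
  · rw [if_pos h, if_pos (lt_of_lt_of_le h hss)]
  · rw [if_neg (by linarith), if_pos h]
    rcases lt_or_eq_of_le hss with h' | h'
    · rw [if_pos (by linarith)]
      exact hvw
    · rw [if_neg (by linarith), if_pos (by linarith)]
  · rw [if_neg (by linarith), if_neg (by linarith)]
    split_ifs <;> linarith

theorem st_mem {N : ℕ} {w v τ : ℕ → ℝ} (hv : ∀ l < N, 0 ≤ v l) (hvw : ∀ l < N, v l ≤ w l)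
    (hsum : ∑ l ∈ Finset.range N, w l ≤ 1) : st N w v τ ∈ Mon := by
  refine ⟨?_, ?_⟩
  · intro s s' hss
    apply Finset.sum_le_sum
    intro l hl
    have hl' := Finset.mem_range.mp hl
    exact st1_mono (hv l hl') (hvw l hl') hss
  · intro s
    constructor
    · apply Finset.sum_nonneg
      intro l hl
      have hl' := Finset.mem_range.mp hl
      exact st1_nonneg ((hv l hl').trans (hvw l hl')) (hv l hl')
    · refine le_trans (Finset.sum_le_sum ?_) hsum
      intro l hl
      have hl' := Finset.mem_range.mp hl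
      exact st1_le ((hv l hl').trans (hvw l hl')) (hvw l hl')

theorem st_congr {N : ℕ} {w v τ w' v' τ' : ℕ → ℝ} (hw : ∀ l < N, w l = w' l)
    (hv : ∀ l < N, v l = v' l) (hτ : ∀ l < N, τ l = τ' l) : st N w v τ = st N w' v' τ' := by
  funext s
  apply Finset.sum_congr rfl
  intro l hl
  have hl' := Finset.mem_range.mp hl
  rw [hw l hl', hv l hl', hτ l hl']

/-- limit of a jump moving in from the right -/
theorem st1_right {ι : Type} {F : Filter ι} {T : ι → ℝ} {τ w v s : ℝ}
    (hT : Tendsto T F (𝓝 τ)) (hT2 : ∀ᶠ j in F, τ < T j) :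
    Tendsto (fun j => st1 (T j) w v s) F (𝓝 (st1 τ w 0 s)) := by
  apply tendsto_const_nhds.congr'
  rcases lt_trichotomy τ s with h | h | h
  · filter_upwards [hT.eventually (gt_mem_nhds h)] with j hj
    unfold st1
    rw [if_pos h, if_pos hj]
  · filter_upwards [hT2] with j hj
    unfold st1
    rw [if_neg (by linarith), if_pos h, if_neg (by linarith), if_neg (by linarith)]
  · filter_upwards [hT2] with j hj
    unfold st1
    rw [if_neg (by linarith), if_neg (by linarith), if_neg (by linarith), if_neg (by linarith)]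

/-- limit of a jump moving in from the left -/
theorem st1_left {ι : Type} {F : Filter ι} {T : ι → ℝ} {τ w v s : ℝ}
    (hT : Tendsto T F (𝓝 τ)) (hT2 : ∀ᶠ j in F, T j < τ) :
    Tendsto (fun j => st1 (T j) w v s) F (𝓝 (st1 τ w w s)) := by
  apply tendsto_const_nhds.congr'
  rcases lt_trichotomy τ s with h | h | h
  · filter_upwards [hT2] with j hj
    unfold st1
    rw [if_pos h, if_pos (by linarith)]
  · filter_upwards [hT2] with j hj
    unfold st1
    rw [if_neg (by linarith), if_pos h, if_pos (by linarith)]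
  · filter_upwards [hT.eventually (lt_mem_nhds h)] with j hj
    unfold st1
    rw [if_neg (by linarith), if_neg (by linarith), if_neg (by linarith), if_neg (by linarith)]

/-- discretised jump -/
noncomputable def dst1 (n : ℕ) (k : ℤ) (w v s : ℝ) : ℝ :=
  (if (k : ℝ) / 2 ^ n ≤ s then v else 0) + (if ((k : ℝ) + 1) / 2 ^ n ≤ s then w - v else 0)

theorem dst1_nonneg {n : ℕ} {k : ℤ} {w v s : ℝ} (hv : 0 ≤ v) (hvw : v ≤ w) :
    0 ≤ dst1 n k w v s := by
  unfold dst1; split_ifs <;> linarith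

theorem dst1_le {n : ℕ} {k : ℤ} {w v s : ℝ} (hv : 0 ≤ v) (hvw : v ≤ w) :
    dst1 n k w v s ≤ w := by
  unfold dst1; split_ifs <;> linarith

theorem dst1_mono {n : ℕ} {k : ℤ} {w v : ℝ} (hv : 0 ≤ v) (hvw : v ≤ w) :
    Monotone (dst1 n k w v) := by
  intro s s' hss
  unfold dst1
  split_ifs <;> linarith

theorem dst1_tendsto (τ w v s : ℝ) :
    Tendsto (fun n : ℕ => dst1 n ⌊2 ^ n * τ⌋ w v s) atTop (𝓝 (st1 τ w v s)) := by
  have hpos : ∀ n : ℕ, (0 : ℝ) < 2 ^ n := fun n => by positivity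
  have h1 : ∀ n : ℕ, ((⌊2 ^ n * τ⌋ : ℤ) : ℝ) / 2 ^ n ≤ τ := by
    intro n
    rw [div_le_iff₀ (hpos n), mul_comm]
    exact Int.floor_le _
  have h2 : ∀ n : ℕ, τ < (((⌊2 ^ n * τ⌋ : ℤ) : ℝ) + 1) / 2 ^ n := by
    intro n
    rw [lt_div_iff₀ (hpos n), mul_comm]
    exact Int.lt_floor_add_one _
  have h3 : Tendsto (fun n : ℕ => (1 : ℝ) / 2 ^ n) atTop (𝓝 0) := by
    have := tendsto_pow_atTop_nhds_zero_of_lt_one (r := (1 / 2 : ℝ)) (by norm_num) (by norm_num)
    refine this.congr ?_
    intro n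
    rw [div_pow, one_pow]
  apply tendsto_const_nhds.congr'
  rcases lt_trichotomy τ s with h | h | h
  · filter_upwards [h3.eventually (gt_mem_nhds (sub_pos.mpr h))] with n hn
    have h4 : (((⌊2 ^ n * τ⌋ : ℤ) : ℝ) + 1) / 2 ^ n ≤ s := by
      rw [add_div]
      have := h1 n
      linarith
    have h5 := h1 n
    unfold dst1 st1
    rw [if_pos h, if_pos (by linarith), if_pos h4]
    ring
  · refine Eventually.of_forall ?_
    intro n
    have h4 := h1 n
    have h5 := h2 n
    subst h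
    show _ = dst1 _ _ _ _ _
    unfold dst1 st1
    rw [if_neg (lt_irrefl _), if_pos rfl, if_pos h4, if_neg (not_le.mpr h5)]
    ring
  · filter_upwards [h3.eventually (gt_mem_nhds (sub_pos.mpr h))] with n hn
    have h4 : s < ((⌊2 ^ n * τ⌋ : ℤ) : ℝ) / 2 ^ n := by
      have := h2 n
      rw [add_div] at this
      linarith
    have h5 := h2 n
    unfold dst1 st1
    rw [if_neg (by linarith), if_neg (by linarith), if_neg (not_le.mpr h4),
      if_neg (not_le.mpr (by linarith))]
    ring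

/-- discretised step function -/
noncomputable def dst (N n : ℕ) (w v : ℕ → ℝ) (k : ℕ → ℤ) (s : ℝ) : ℝ :=
  ∑ l ∈ Finset.range N, dst1 n (k l) (w l) (v l) s

theorem dst_mem {N n : ℕ} {w v : ℕ → ℝ} {k : ℕ → ℤ} (hv : ∀ l < N, 0 ≤ v l)
    (hvw : ∀ l < N, v l ≤ w l)
    (hsum : ∑ l ∈ Finset.range N, w l ≤ 1) : dst N n w v k ∈ Mon := by
  refine ⟨?_, ?_⟩
  · intro s s' hss
    apply Finset.sum_le_sum
    intro l hl
    have hl' := Finset.mem_range.mp hl
    exact dst1_mono (hv l hl') (hvw l hl') hss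
  · intro s
    constructor
    · apply Finset.sum_nonneg
      intro l hl
      have hl' := Finset.mem_range.mp hl
      exact dst1_nonneg (hv l hl') (hvw l hl')
    · refine le_trans (Finset.sum_le_sum ?_) hsum
      intro l hl
      have hl' := Finset.mem_range.mp hl
      exact dst1_le (hv l hl') (hvw l hl')

theorem dst_tendsto (N : ℕ) (w v τ : ℕ → ℝ) :
    Tendsto (fun n : ℕ => dst N n w v (fun l => ⌊2 ^ n * τ l⌋)) atTop (𝓝 (st N w v τ)) := by
  rw [tendsto_pi_nhds]
  intro s
  exact tendsto_finsetSum _ (fun l _ => dst1_tendsto (τ l) (w l) (v l) s)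

end Pool.Agent.H479R3.RC
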