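import Mathlib

set_option autoImplicit false
set_option linter.unusedSectionVars false

open Filter Topology Set

namespace Pool.Agent.H479R3.RC

section
variable {P : Type} [MetricSpace P] [CompleteSpace P] [SecondCountableTopology P]

theorem swap_residual (i j : ℕ) (Q : (ℕ → P) → Prop) (h : ∀ᶠ z in residual (ℕ → P), Q z) :
    ∀ᶠ z : ℕ → P in residual (ℕ → P), Q (fun k => z (Equiv.swap i j k)) := by
  let e : (ℕ → P) ≃ₜ (ℕ → P) :=
    { toFun := fun z k => z (Equiv.swap i j k)
      invFun := fun z k => z (Equiv.swap i j k)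
      left_inv := by intro z; funext k; simp
      right_inv := by intro z; funext k; simp
      continuous_toFun := continuous_pi (fun k => continuous_apply _)
      continuous_invFun := continuous_pi (fun k => continuous_apply _) }
  exact (tendsto_residual_of_isOpenMap e.continuous e.isOpenMap).eventually h

theorem exists_invariant [Nonempty P] (Q : (ℕ → P) → Prop)
    (h : ∀ᶠ z in residual (ℕ → P), Q z) :
    ∃ G : Set (ℕ → P), G.Nonempty ∧ (∀ z ∈ G, Q z) ∧
      ∀ z ∈ G, ∀ i j : ℕ, (fun k => z (Equiv.swap i j k)) ∈ G := by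
  have h1 : ∀ L : List (ℕ × ℕ), ∀ᶠ z : ℕ → P in residual (ℕ → P),
      Q (L.foldl (fun z' (p : ℕ × ℕ) k => z' (Equiv.swap p.1 p.2 k)) z) := by
    intro L
    induction L with
    | nil => exact h
    | cons p L ih => exact swap_residual p.1 p.2 _ ih
  have h2 : ∀ᶠ z : ℕ → P in residual (ℕ → P), ∀ L : List (ℕ × ℕ),
      Q (L.foldl (fun z' (p : ℕ × ℕ) k => z' (Equiv.swap p.1 p.2 k)) z) :=
    eventually_countable_forall.mpr h1
  refine ⟨{z | ∀ L : List (ℕ × ℕ),
      Q (L.foldl (fun z' (p : ℕ × ℕ) k => z' (Equiv.swap p.1 p.2 k)) z)}, ?_, ?_, ?_⟩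
  · exact (dense_of_mem_residual h2).nonempty
  · intro z hz
    exact hz []
  · intro z hz i j L
    exact hz ((i, j) :: L)

theorem generic_closed (U : Set (ℕ → P)) (hU : IsOpen U) (i q : ℕ) (hiq : i ≠ q) (l : ℕ) :
    ∀ᶠ z : ℕ → P in residual (ℕ → P), Function.update z q (z i) ∈ closure U →
      ∃ p : P, dist p (z i) < 1 / ((l : ℝ) + 1) ∧
        Function.update (Function.update z q (z i)) i p ∈ U := by
  set D : Set (ℕ → P) := {z | Function.update z q (z i) ∈ closure U} with hD
  set W : Set (ℕ → P) := {z | ∃ p : P, dist p (z i) < 1 / ((l : ℝ) + 1) ∧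
        Function.update (Function.update z q (z i)) i p ∈ U} with hW
  have hDcl : IsClosed D := by
    apply isClosed_closure.preimage
    exact continuous_id.update q (continuous_apply i)
  have hWo : IsOpen W := by
    have : W = ⋃ p : P, {z : ℕ → P | dist p (z i) < 1 / ((l : ℝ) + 1)} ∩
        {z : ℕ → P | Function.update (Function.update z q (z i)) i p ∈ U} := by
      ext z
      simp only [hW, mem_ofPred_eq, mem_iUnion, mem_inter_iff]
    rw [this]
    refine isOpen_iUnion fun p => IsOpen.inter ?_ ?_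
    · exact isOpen_lt (continuous_const.dist (continuous_apply i)) continuous_const
    · apply hU.preimage
      exact (continuous_id.update q (continuous_apply i)).update i continuous_const
  have hC : IsClosed (D ∩ Wᶜ) := hDcl.inter hWo.isClosed_compl
  have hint : interior (D ∩ Wᶜ) = ∅ := by
    by_contra hne
    obtain ⟨z0, hz0⟩ := nonempty_iff_ne_empty.mpr hne
    have hz0D : z0 ∈ D := (interior_subset hz0).1
    set y0 := Function.update z0 q (z0 i) with hy0
    let θ : (ℕ → P) → (ℕ → P) := fun y => Function.update (Function.update y i (y q)) q (z0 q)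
    have hθc : Continuous θ :=
      (continuous_id.update i (continuous_apply q)).update q continuous_const
    have hθ0 : θ y0 = z0 := by
      funext k
      show Function.update (Function.update y0 i (y0 q)) q (z0 q) k = z0 k
      by_cases hkq : k = q
      · subst hkq; simp
      · rw [Function.update_of_ne hkq]
        by_cases hki : k = i
        · subst hki
          simp [hy0]
        · rw [Function.update_of_ne hki, hy0, Function.update_of_ne hkq]
    have hy0i : y0 i = z0 i := by rw [hy0, Function.update_of_ne hiq]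
    have hy0q : y0 q = z0 i := by rw [hy0, Function.update_self]
    have hO1 : IsOpen {y : ℕ → P | θ y ∈ interior (D ∩ Wᶜ)} := isOpen_interior.preimage hθc
    have hO2 : IsOpen {y : ℕ → P | dist (y i) (y q) < 1 / ((l : ℝ) + 1)} :=
      isOpen_lt ((continuous_apply i).dist (continuous_apply q)) continuous_const
    have hcl : y0 ∈ closure U := hz0D
    rw [mem_closure_iff] at hcl
    have hm1 : θ y0 ∈ interior (D ∩ Wᶜ) := by
      rw [hθ0]; exact hz0
    have hm2 : dist (y0 i) (y0 q) < 1 / ((l : ℝ) + 1) := by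
      rw [hy0i, hy0q, dist_self]; positivity
    obtain ⟨y, ⟨hy1, hy2⟩, hyU⟩ := hcl _ (hO1.inter hO2) ⟨hm1, hm2⟩
    have hy3 : θ y ∈ D ∩ Wᶜ := interior_subset hy1
    apply hy3.2
    have hθi : θ y i = y q := by
      show Function.update (Function.update y i (y q)) q (z0 q) i = y q
      rw [Function.update_of_ne hiq, Function.update_self]
    refine ⟨y i, ?_, ?_⟩
    · rw [hθi]; exact hy2
    · have : Function.update (Function.update (θ y) q (θ y i)) i (y i) = y := by
        funext k
        by_cases hki : k = i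
        · subst hki; simp
        · rw [Function.update_of_ne hki]
          by_cases hkq : k = q
          · subst hkq; rw [Function.update_self, hθi]
          · rw [Function.update_of_ne hkq]
            show Function.update (Function.update y i (y q)) q (z0 q) k = y k
            rw [Function.update_of_ne hkq, Function.update_of_ne hki]
      rw [this]; exact hyU
  have hres : (D ∩ Wᶜ)ᶜ ∈ residual (ℕ → P) :=
    residual_of_dense_open hC.isOpen_compl (interior_eq_empty_iff_dense_compl.mp hint)
  filter_upwards [hres] with z hz hzD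
  by_contra hno
  exact hz ⟨hzD, hno⟩

/-- Replacing a far coordinate does not move a sequence. -/
theorem tendsto_update_far (z : ℕ → P) (p : P) :
    Tendsto (fun j => Function.update z j p) atTop (𝓝 z) := by
  rw [tendsto_pi_nhds]
  intro k
  apply tendsto_const_nhds.congr'
  filter_upwards [eventually_gt_atTop k] with j hj
  rw [Function.update_of_ne (by omega)]

theorem generic_visit (O : Set P) (hO : IsOpen O) (hne : O.Nonempty) (M : ℕ) :
    ∀ᶠ z : ℕ → P in residual (ℕ → P), ∃ j, M ≤ j ∧ z j ∈ O := by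
  apply residual_of_dense_open
  · have : {z : ℕ → P | ∃ j, M ≤ j ∧ z j ∈ O} = ⋃ j, ⋃ (_ : M ≤ j), {z : ℕ → P | z j ∈ O} := by
      ext z; simp
    show IsOpen {z : ℕ → P | ∃ j, M ≤ j ∧ z j ∈ O}
    rw [this]
    exact isOpen_iUnion fun j => isOpen_iUnion fun _ => hO.preimage (continuous_apply j)
  · intro z
    rw [mem_closure_iff]
    intro N hN hzN
    obtain ⟨p, hp⟩ := hne
    have h1 := (tendsto_update_far z p).eventually (hN.mem_nhds hzN)
    obtain ⟨j, hj1, hj2⟩ := (h1.and (eventually_ge_atTop M)).exists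
    exact ⟨_, hj1, j, hj2, by simpa using hp⟩

theorem generic_right (t : P → ℝ) (ht : Continuous t)
    (hunc : ∀ O : Set P, IsOpen O → O.Nonempty → ¬ (t '' O).Countable) (i l M : ℕ) :
    ∀ᶠ z : ℕ → P in residual (ℕ → P), ∃ j, M ≤ j ∧ dist (z j) (z i) < 1 / ((l : ℝ) + 1) ∧
      t (z i) < t (z j) := by
  apply residual_of_dense_open
  · have : {z : ℕ → P | ∃ j, M ≤ j ∧ dist (z j) (z i) < 1 / ((l : ℝ) + 1) ∧ t (z i) < t (z j)} =
      ⋃ j, ⋃ (_ : M ≤ j), ({z : ℕ → P | dist (z j) (z i) < 1 / ((l : ℝ) + 1)} ∩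
        {z : ℕ → P | t (z i) < t (z j)}) := by
      ext z
      simp only [mem_ofPred_eq, mem_iUnion, mem_inter_iff, exists_prop]
    show IsOpen {z : ℕ → P | ∃ j, M ≤ j ∧ dist (z j) (z i) < 1 / ((l : ℝ) + 1) ∧
      t (z i) < t (z j)}
    rw [this]
    refine isOpen_iUnion fun j => isOpen_iUnion fun _ => IsOpen.inter ?_ ?_
    · exact isOpen_lt ((continuous_apply j).dist (continuous_apply i)) continuous_const
    · exact isOpen_lt (ht.comp (continuous_apply i)) (ht.comp (continuous_apply j))
  · intro z0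
    rw [mem_closure_iff]
    intro N hN hzN
    set O : Set P := {p | Function.update z0 i p ∈ N} ∩ Metric.ball (z0 i) (1 / ((l : ℝ) + 1) / 2)
      with hOdef
    have hO : IsOpen O := by
      apply IsOpen.inter _ Metric.isOpen_ball
      exact hN.preimage (continuous_const.update i continuous_id)
    have hOne : O.Nonempty := by
      refine ⟨z0 i, ?_, ?_⟩
      · show Function.update z0 i (z0 i) ∈ N
        rw [Function.update_eq_self]; exact hzN
      · exact Metric.mem_ball_self (by positivity)
    have h2 : ∃ p1 ∈ O, ∃ p2 ∈ O, t p1 < t p2 := by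
      by_contra hno
      push Not at hno
      apply hunc O hO hOne
      apply Set.Subsingleton.countable
      rintro _ ⟨p1, hp1, rfl⟩ _ ⟨p2, hp2, rfl⟩
      exact le_antisymm (hno p2 hp2 p1 hp1) (hno p1 hp1 p2 hp2)
    obtain ⟨p1, hp1, p2, hp2, hlt⟩ := h2
    have h1 := (tendsto_update_far (Function.update z0 i p1) p2).eventually
      (hN.mem_nhds hp1.1)
    obtain ⟨j, ⟨hj1, hj2⟩, hj3⟩ :=
      ((h1.and (eventually_ge_atTop M)).and (eventually_gt_atTop i)).exists
    refine ⟨_, hj1, j, hj2, ?_, ?_⟩
    · rw [Function.update_self, Function.update_of_ne (by omega), Function.update_self]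
      have h3 := Metric.mem_ball.mp hp1.2
      have h4 := Metric.mem_ball.mp hp2.2
      calc dist p2 p1 ≤ dist p2 (z0 i) + dist p1 (z0 i) := dist_triangle_right _ _ _
        _ < _ := by linarith
    · rw [Function.update_self, Function.update_of_ne (by omega), Function.update_self]
      exact hlt

variable [MeasurableSpace P] [BorelSpace P]

theorem generic_borel_set (B : Set (ℕ → P)) (hB : MeasurableSet B) :
    ∃ U : Set (ℕ → P), IsOpen U ∧ ∀ᶠ z : ℕ → P in residual (ℕ → P), (z ∈ B ↔ z ∈ U) := by
  obtain ⟨U, hU, h⟩ := hB.residualEq_isOpen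
  refine ⟨U, hU, ?_⟩
  filter_upwards [h] with z hz
  exact Iff.of_eq hz

theorem generic_borel_fun (f : (ℕ → P) → ℝ) (hf : Measurable f) :
    ∃ U : ℚ → ℚ → Set (ℕ → P), (∀ a b, IsOpen (U a b)) ∧
      ∀ᶠ z : ℕ → P in residual (ℕ → P), ∀ a b : ℚ, (f z ∈ Ioo (a : ℝ) b ↔ z ∈ U a b) := by
  have h : ∀ a b : ℚ, ∃ U : Set (ℕ → P), IsOpen U ∧
      ∀ᶠ z : ℕ → P in residual (ℕ → P), (z ∈ f ⁻¹' (Ioo (a : ℝ) b) ↔ z ∈ U) :=
    fun a b => generic_borel_set _ (hf measurableSet_Ioo)
  choose U hU hUB using h
  refine ⟨U, hU, ?_⟩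
  rw [eventually_countable_forall]
  intro a
  rw [eventually_countable_forall]
  intro b
  exact hUB a b

omit [CompleteSpace P] [SecondCountableTopology P] [MeasurableSpace P] [BorelSpace P] in
theorem continuousOn_of_generic (G : Set (ℕ → P)) (f : (ℕ → P) → ℝ)
    (U : ℚ → ℚ → Set (ℕ → P)) (hU : ∀ a b, IsOpen (U a b))
    (h : ∀ z ∈ G, ∀ a b : ℚ, (f z ∈ Ioo (a : ℝ) b ↔ z ∈ U a b)) : ContinuousOn f G := by
  intro z hz
  rw [ContinuousWithinAt, Metric.tendsto_nhds]
  intro ε hε
  obtain ⟨a, ha1, ha2⟩ := exists_rat_btwn (show f z - ε < f z by linarith)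
  obtain ⟨b, hb1, hb2⟩ := exists_rat_btwn (show f z < f z + ε by linarith)
  have hzU : z ∈ U a b := (h z hz a b).mp ⟨ha2, hb1⟩
  rw [eventually_nhdsWithin_iff]
  filter_upwards [(hU a b).mem_nhds hzU] with z' hz' hz'G
  have h2 := (h z' hz'G a b).mpr hz'
  rw [Real.dist_eq, abs_lt]
  constructor
  · linarith [h2.1]
  · linarith [h2.2]

end

end Pool.Agent.H479R3.RC
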