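import Pool.Agent.H479R3.RC2
import Pool.Agent.H479R3.RC3

set_option autoImplicit false
set_option linter.unusedSectionVars false

open Filter Topology Set

namespace Pool.Agent.H479R3.RC

/-- admissible shapes -/
def Adm (N : ℕ) (w v : ℕ → ℚ) : Prop :=
  (∀ l < N, 0 ≤ v l) ∧ (∀ l < N, v l ≤ w l) ∧ ∑ l ∈ Finset.range N, w l ≤ 1

theorem Adm.mem {N : ℕ} {w v : ℕ → ℚ} (h : Adm N w v) (τ : ℕ → ℝ) :
    st N (fun l => (w l : ℝ)) (fun l => (v l : ℝ)) τ ∈ Mon := by
  refine st_mem ?_ ?_ ?_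
  · intro l hl
    exact_mod_cast h.1 l hl
  · intro l hl
    exact_mod_cast h.2.1 l hl
  · exact_mod_cast h.2.2

theorem Adm.dmem {N : ℕ} {w v : ℕ → ℚ} (h : Adm N w v) (n : ℕ) (k : ℕ → ℤ) :
    dst N n (fun l => (w l : ℝ)) (fun l => (v l : ℝ)) k ∈ Mon := by
  refine dst_mem ?_ ?_ ?_
  · intro l hl
    exact_mod_cast h.1 l hl
  · intro l hl
    exact_mod_cast h.2.1 l hl
  · exact_mod_cast h.2.2

/-- extension by zero -/
def ext0 (N : ℕ) (f : Fin N → ℚ) : ℕ → ℚ := fun l => if h : l < N then f ⟨l, h⟩ else 0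

theorem ext0_eq (N : ℕ) (w : ℕ → ℚ) (l : ℕ) (hl : l < N) :
    ext0 N (fun j => w j) l = w l := by
  simp [ext0, hl]

theorem Adm.ext {N : ℕ} {w v : ℕ → ℚ} (h : Adm N w v) :
    Adm N (ext0 N (fun j => w j)) (ext0 N (fun j => v j)) := by
  refine ⟨?_, ?_, ?_⟩
  · intro l hl
    rw [ext0_eq N v l hl]
    exact h.1 l hl
  · intro l hl
    rw [ext0_eq N v l hl, ext0_eq N w l hl]
    exact h.2.1 l hl
  · refine le_trans (le_of_eq (Finset.sum_congr rfl ?_)) h.2.2
    intro l hl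
    exact ext0_eq N w l (Finset.mem_range.mp hl)

theorem E_tendsto {E : (ℕ → ℕ) → (ℝ → ℝ) → ℝ} (hE : ∀ y, ContinuousOn (E y) Mon)
    {ι : Type} {F : Filter ι} {g : ι → (ℝ → ℝ)} {g0 : ℝ → ℝ} (hg : Tendsto g F (𝓝 g0))
    (hgM : ∀ᶠ j in F, g j ∈ Mon) (hg0 : g0 ∈ Mon) (y : ℕ → ℕ) :
    Tendsto (fun j => E y (g j)) F (𝓝 (E y g0)) :=
  (hE y g0 hg0).tendsto.comp (tendsto_nhdsWithin_iff.mpr ⟨hg, hgM⟩)

section
variable {P : Type} [MetricSpace P] [CompleteSpace P] [SecondCountableTopology P]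

/-- The basic functions. -/
noncomputable def Ph (E : (ℕ → ℕ) → (ℝ → ℝ) → ℝ) (x : P → (ℕ → ℕ)) (t : P → ℝ)
    (N : ℕ) (w v : ℕ → ℚ) (i : ℕ) (z : ℕ → P) : ℝ :=
  E (x (z i)) (st N (fun l => (w l : ℝ)) (fun l => (v l : ℝ)) (fun l => t (z l)))

theorem Ph_congr {E : (ℕ → ℕ) → (ℝ → ℝ) → ℝ} {x : P → (ℕ → ℕ)} {t : P → ℝ}
    {N : ℕ} {w v w' v' : ℕ → ℚ} {i i' : ℕ} {z z' : ℕ → P} (hw : ∀ l < N, w l = w' l)
    (hv : ∀ l < N, v l = v' l) (hz : ∀ l < N, z l = z' l) (hi : z i = z' i') :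
    Ph E x t N w v i z = Ph E x t N w' v' i' z' := by
  unfold Ph
  rw [hi, st_congr (w' := fun l => (w' l : ℝ)) (v' := fun l => (v' l : ℝ))
    (τ' := fun l => t (z' l))]
  · intro l hl
    exact_mod_cast hw l hl
  · intro l hl
    exact_mod_cast hv l hl
  · intro l hl
    show t (z l) = t (z' l)
    rw [hz l hl]

variable [MeasurableSpace P] [BorelSpace P]

/-- extension by zero, integers -/
def extZ (N : ℕ) (k : Fin N → ℤ) : ℕ → ℤ := fun l => if h : l < N then k ⟨l, h⟩ else 0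

theorem extZ_eq (N : ℕ) (k : Fin N → ℤ) (l : ℕ) (hl : l < N) : extZ N k l = k ⟨l, hl⟩ := by
  simp [extZ, hl]

theorem meas_aux {E : (ℕ → ℕ) → (ℝ → ℝ) → ℝ}
    (hE2 : ∀ g ∈ Mon, Measurable (fun y => E y g)) {N : ℕ} (F : (Fin N → ℤ) → (ℝ → ℝ))
    (hF : ∀ k, F k ∈ Mon) :
    Measurable (fun p : (ℕ → ℕ) × (Fin N → ℤ) => E p.1 (F p.2)) := by
  apply measurable_from_prod_countable_left
  intro k
  exact hE2 _ (hF k)

theorem measurable_congr_fun {α β : Type} [MeasurableSpace α] [MeasurableSpace β] {f g : α → β}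
    (hf : Measurable f) (h : ∀ a, g a = f a) : Measurable g := by
  have : g = f := funext h
  rw [this]; exact hf

theorem Ph_measurable {E : (ℕ → ℕ) → (ℝ → ℝ) → ℝ} (hE : ∀ y, ContinuousOn (E y) Mon)
    (hE2 : ∀ g ∈ Mon, Measurable (fun y => E y g)) {x : P → (ℕ → ℕ)} (hx : Continuous x)
    {t : P → ℝ} (ht : Continuous t) {N : ℕ} {w v : ℕ → ℚ} (h : Adm N w v) (i : ℕ) :
    Measurable (Ph E x t N w v i) := by
  have h1 : ∀ n : ℕ, Measurable (fun z : ℕ → P => E (x (z i))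
      (dst N n (fun l => (w l : ℝ)) (fun l => (v l : ℝ)) (fun l => ⌊2 ^ n * t (z l)⌋))) := by
    intro n
    have hK : Measurable (fun (z : ℕ → P) (l : Fin N) => (⌊2 ^ n * t (z l)⌋ : ℤ)) := by
      rw [measurable_pi_iff]
      intro l
      apply Int.measurable_floor.comp
      exact (ht.measurable.comp (measurable_pi_apply (l : ℕ))).const_mul _
    have hH := meas_aux hE2 (N := N) (fun k => dst N n (fun l => (w l : ℝ)) (fun l => (v l : ℝ))
        (extZ N k)) (fun k => h.dmem n (extZ N k))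
    have h2 := hH.comp ((hx.measurable.comp (measurable_pi_apply i)).prodMk hK)
    refine measurable_congr_fun h2 ?_
    intro z
    show E (x (z i)) _ = E (x (z i)) _
    congr 1
    funext s
    apply Finset.sum_congr rfl
    intro l hl
    have hl' := Finset.mem_range.mp hl
    rw [extZ_eq N _ l hl']
  refine measurable_of_tendsto_metrizable h1 ?_
  rw [tendsto_pi_nhds]
  intro z
  exact E_tendsto hE (dst_tendsto N _ _ _) (Eventually.of_forall (fun n => h.dmem n _))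
    (h.mem _) _

/-- The generic package. -/
structure Gen (E : (ℕ → ℕ) → (ℝ → ℝ) → ℝ) (x : P → (ℕ → ℕ)) (t : P → ℝ)
    (G : Set (ℕ → P)) : Prop where
  ne : G.Nonempty
  swap : ∀ z ∈ G, ∀ i j : ℕ, (fun k => z (Equiv.swap i j k)) ∈ G
  right : ∀ z ∈ G, ∀ i l M : ℕ, ∃ j, M ≤ j ∧ dist (z j) (z i) < 1 / ((l : ℝ) + 1) ∧
    t (z i) < t (z j)
  visit : ∀ z ∈ G, ∀ O : Set P, IsOpen O → O.Nonempty → ∀ M : ℕ, ∃ j, M ≤ j ∧ z j ∈ O
  cont : ∀ (N : ℕ) (w v : ℕ → ℚ) (i : ℕ), Adm N w v → ContinuousOn (Ph E x t N w v i) G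
  bset : ∀ (N' : ℕ) (w' v' : ℕ → ℚ) (N : ℕ) (w v : ℕ → ℚ) (i q m : ℕ), i ≠ q →
    Adm N' w' v' → Adm N w v → ∃ U : Set (ℕ → P), IsOpen U ∧
      ∀ z ∈ G, ((t (z i) < t (z q) ∧ 1 / ((m : ℝ) + 1) <
        |Ph E x t N' w' v' q z - Ph E x t N w v i (Function.update z i (z q))|) ↔ z ∈ U) ∧
      (Function.update z q (z i) ∈ closure U → ∀ l : ℕ, ∃ p : P,
        dist p (z i) < 1 / ((l : ℝ) + 1) ∧
        Function.update (Function.update z q (z i)) i p ∈ U)

theorem exists_Gen [Nonempty P] {E : (ℕ → ℕ) → (ℝ → ℝ) → ℝ} (hE : ∀ y, ContinuousOn (E y) Mon)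
    (hE2 : ∀ g ∈ Mon, Measurable (fun y => E y g)) {x : P → (ℕ → ℕ)} (hx : Continuous x)
    {t : P → ℝ} (ht : Continuous t)
    (hunc : ∀ O : Set P, IsOpen O → O.Nonempty → ¬ (t '' O).Countable) :
    ∃ G : Set (ℕ → P), Gen E x t G := by
  classical
  have hA : ∀ᶠ z : ℕ → P in residual (ℕ → P), ∀ i l M : ℕ, ∃ j, M ≤ j ∧
      dist (z j) (z i) < 1 / ((l : ℝ) + 1) ∧ t (z i) < t (z j) := by
    simp only [eventually_countable_forall]
    exact fun i l M => generic_right t ht hunc i l M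
  have hB : ∀ᶠ z : ℕ → P in residual (ℕ → P), ∀ O : TopologicalSpace.countableBasis P,
      ∀ M : ℕ, ∃ j, M ≤ j ∧ z j ∈ (O : Set P) := by
    simp only [eventually_countable_forall]
    exact fun O M => generic_visit _ (TopologicalSpace.isOpen_of_mem_countableBasis O.2)
      (TopologicalSpace.nonempty_of_mem_countableBasis O.2) M
  have hC : ∀ (N : ℕ) (w v : Fin N → ℚ) (i : ℕ), ∃ U : ℚ → ℚ → Set (ℕ → P),
      Adm N (ext0 N w) (ext0 N v) → (∀ a b, IsOpen (U a b)) ∧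
      ∀ᶠ z : ℕ → P in residual (ℕ → P), ∀ a b : ℚ,
        (Ph E x t N (ext0 N w) (ext0 N v) i z ∈ Ioo (a : ℝ) b ↔ z ∈ U a b) := by
    intro N w v i
    by_cases h : Adm N (ext0 N w) (ext0 N v)
    · obtain ⟨U, hU⟩ := generic_borel_fun _ (Ph_measurable hE hE2 hx ht h i)
      exact ⟨U, fun _ => hU⟩
    · exact ⟨fun _ _ => ∅, fun h' => absurd h' h⟩
  choose UC hUC using hC
  have hC2 : ∀ᶠ z : ℕ → P in residual (ℕ → P), ∀ (N : ℕ) (w v : Fin N → ℚ) (i : ℕ),
      Adm N (ext0 N w) (ext0 N v) → ∀ a b : ℚ,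
        (Ph E x t N (ext0 N w) (ext0 N v) i z ∈ Ioo (a : ℝ) b ↔ z ∈ UC N w v i a b) := by
    simp only [eventually_countable_forall]
    intro N w v i h a b
    exact (eventually_countable_forall.mp ((eventually_countable_forall.mp
      ((hUC N w v i h).2)) a)) b
  let BS : ∀ (N' : ℕ) (w' v' : Fin N' → ℚ) (N : ℕ) (w v : Fin N → ℚ) (i q m : ℕ),
      Set (ℕ → P) := fun N' w' v' N w v i q m => {z | t (z i) < t (z q) ∧ 1 / ((m : ℝ) + 1) <
        |Ph E x t N' (ext0 N' w') (ext0 N' v') q z -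
          Ph E x t N (ext0 N w) (ext0 N v) i (Function.update z i (z q))|}
  have hD : ∀ (N' : ℕ) (w' v' : Fin N' → ℚ) (N : ℕ) (w v : Fin N → ℚ) (i q m : ℕ),
      ∃ U : Set (ℕ → P), (i ≠ q ∧ Adm N' (ext0 N' w') (ext0 N' v') ∧
        Adm N (ext0 N w) (ext0 N v)) → IsOpen U ∧
      ∀ᶠ z : ℕ → P in residual (ℕ → P), (z ∈ BS N' w' v' N w v i q m ↔ z ∈ U) ∧
      (Function.update z q (z i) ∈ closure U → ∀ l : ℕ, ∃ p : P,
        dist p (z i) < 1 / ((l : ℝ) + 1) ∧
        Function.update (Function.update z q (z i)) i p ∈ U) := by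
    intro N' w' v' N w v i q m
    by_cases h : i ≠ q ∧ Adm N' (ext0 N' w') (ext0 N' v') ∧ Adm N (ext0 N w) (ext0 N v)
    · have hm : MeasurableSet (BS N' w' v' N w v i q m) := by
        apply MeasurableSet.inter
        · exact measurableSet_lt (ht.measurable.comp (measurable_pi_apply i))
            (ht.measurable.comp (measurable_pi_apply q))
        · have h1 := Ph_measurable hE hE2 hx ht h.2.1 q
          have h2 := Ph_measurable hE hE2 hx ht h.2.2 i
          have h3 : Measurable (fun z : ℕ → P => Function.update z i (z q)) :=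
            (continuous_id.update i (continuous_apply q)).measurable
          have h4 := (h1.sub (h2.comp h3)).norm
          exact measurableSet_lt measurable_const h4
      obtain ⟨U, hU, hU2⟩ := generic_borel_set _ hm
      refine ⟨U, fun _ => ⟨hU, ?_⟩⟩
      have h5 : ∀ᶠ z : ℕ → P in residual (ℕ → P), ∀ l : ℕ,
          Function.update z q (z i) ∈ closure U → ∃ p : P,
          dist p (z i) < 1 / ((l : ℝ) + 1) ∧
          Function.update (Function.update z q (z i)) i p ∈ U :=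
        eventually_countable_forall.mpr (fun l => generic_closed U hU i q h.1 l)
      filter_upwards [hU2, h5] with z hz1 hz2
      exact ⟨hz1, fun hz3 l => hz2 l hz3⟩
    · exact ⟨∅, fun h' => absurd h' h⟩
  choose UD hUD using hD
  have hD2 : ∀ᶠ z : ℕ → P in residual (ℕ → P),
      ∀ (N' : ℕ) (w' v' : Fin N' → ℚ) (N : ℕ) (w v : Fin N → ℚ) (i q m : ℕ),
      (i ≠ q ∧ Adm N' (ext0 N' w') (ext0 N' v') ∧
        Adm N (ext0 N w) (ext0 N v)) → (z ∈ BS N' w' v' N w v i q m ↔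
          z ∈ UD N' w' v' N w v i q m) ∧
      (Function.update z q (z i) ∈ closure (UD N' w' v' N w v i q m) → ∀ l : ℕ, ∃ p : P,
        dist p (z i) < 1 / ((l : ℝ) + 1) ∧
        Function.update (Function.update z q (z i)) i p ∈ UD N' w' v' N w v i q m) := by
    simp only [eventually_countable_forall]
    intro N' w' v' N w v i q m h
    exact (hUD N' w' v' N w v i q m h).2
  obtain ⟨G, hGne, hGQ, hGs⟩ := exists_invariant _ (hA.and (hB.and (hC2.and hD2)))
  refine ⟨G, hGne, hGs, ?_, ?_, ?_, ?_⟩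
  · intro z hz i l M
    exact (hGQ z hz).1 i l M
  · intro z hz O hO hOne M
    obtain ⟨p, hp⟩ := hOne
    obtain ⟨O', hO', hpO', hsub⟩ :=
      (TopologicalSpace.isBasis_countableBasis P).exists_subset_of_mem_open hp hO
    obtain ⟨j, hj, hj2⟩ := (hGQ z hz).2.1 ⟨O', hO'⟩ M
    exact ⟨j, hj, hsub hj2⟩
  · intro N w v i h
    have h1 : Ph E x t N w v i = Ph E x t N (ext0 N (fun j => w j)) (ext0 N (fun j => v j)) i := by
      funext z
      exact Ph_congr (fun l hl => (ext0_eq N w l hl).symm) (fun l hl => (ext0_eq N v l hl).symm)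
        (fun l _ => rfl) rfl
    rw [h1]
    refine continuousOn_of_generic G _ (UC N (fun j => w j) (fun j => v j) i)
      (hUC _ _ _ _ h.ext).1 ?_
    intro z hz a b
    exact (hGQ z hz).2.2.1 N _ _ i h.ext a b
  · intro N' w' v' N w v i q m hiq h' h
    refine ⟨UD N' (fun j => w' j) (fun j => v' j) N (fun j => w j) (fun j => v j) i q m,
      (hUD _ _ _ _ _ _ _ _ _ ⟨hiq, h'.ext, h.ext⟩).1, ?_⟩
    intro z hz
    have h1 := (hGQ z hz).2.2.2 N' (fun j => w' j) (fun j => v' j) N (fun j => w j)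
      (fun j => v j) i q m ⟨hiq, h'.ext, h.ext⟩
    refine ⟨?_, h1.2⟩
    rw [← h1.1]
    have h2 : Ph E x t N' w' v' q z =
        Ph E x t N' (ext0 N' (fun j => w' j)) (ext0 N' (fun j => v' j)) q z :=
      Ph_congr (fun l hl => (ext0_eq N' w' l hl).symm) (fun l hl => (ext0_eq N' v' l hl).symm)
        (fun l _ => rfl) rfl
    have h3 : Ph E x t N w v i (Function.update z i (z q)) =
        Ph E x t N (ext0 N (fun j => w j)) (ext0 N (fun j => v j)) i
          (Function.update z i (z q)) :=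
      Ph_congr (fun l hl => (ext0_eq N w l hl).symm) (fun l hl => (ext0_eq N v l hl).symm)
        (fun l _ => rfl) rfl
    show _ ↔ (_ ∧ _)
    rw [h2, h3]

end

end Pool.Agent.H479R3.RC
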