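import Pool.Agent.H479R3.RC4

set_option autoImplicit false
set_option linter.unusedSectionVars false

open Filter Topology Set

namespace Pool.Agent.H479R3.RC

theorem sum_split {N i : ℕ} (hi : i < N) {F H : ℕ → ℝ} {g : ℝ}
    (h : ∀ k < N, k ≠ i → F k = H k) (h2 : F i + g = H i) :
    ∑ k ∈ Finset.range N, F k + g = ∑ k ∈ Finset.range N, H k := by
  have hi' : i ∈ Finset.range N := Finset.mem_range.mpr hi
  rw [← Finset.add_sum_erase _ F hi', ← Finset.add_sum_erase _ H hi']
  have h3 : ∑ k ∈ (Finset.range N).erase i, F k = ∑ k ∈ (Finset.range N).erase i, H k := by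
    apply Finset.sum_congr rfl
    intro k hk
    rw [Finset.mem_erase, Finset.mem_range] at hk
    exact h k hk.2 hk.1
  rw [h3, ← h2]
  ring

section
variable {P : Type} [MetricSpace P] [CompleteSpace P] [SecondCountableTopology P]

/-- indices far out and near `p` -/
def Near (z : ℕ → P) (p : P) : Filter ℕ := comap z (𝓝 p) ⊓ atTop

/-- indices far out, near `z i` and to the right of it -/
def Rt (t : P → ℝ) (z : ℕ → P) (i : ℕ) : Filter ℕ :=
  Near z (z i) ⊓ 𝓟 {j | t (z i) < t (z j)}

theorem Near_le (z : ℕ → P) (p : P) : Near z p ≤ atTop := inf_le_right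

theorem Near_tendsto (z : ℕ → P) (p : P) : Tendsto z (Near z p) (𝓝 p) :=
  tendsto_comap.mono_left inf_le_left

theorem Rt_le (t : P → ℝ) (z : ℕ → P) (i : ℕ) : Rt t z i ≤ atTop :=
  inf_le_left.trans (Near_le z _)

theorem Rt_tendsto (t : P → ℝ) (z : ℕ → P) (i : ℕ) : Tendsto z (Rt t z i) (𝓝 (z i)) :=
  (Near_tendsto z _).mono_left inf_le_left

theorem Rt_lt (t : P → ℝ) (z : ℕ → P) (i : ℕ) : ∀ᶠ j in Rt t z i, t (z i) < t (z j) :=
  mem_inf_of_right (mem_principal_self _)

theorem swap_tendsto {ι : Type} {F : Filter ι} {J : ι → ℕ} (z : ℕ → P) (q : ℕ) (p : P)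
    (hJ : Tendsto J F atTop) (hz : Tendsto (fun a => z (J a)) F (𝓝 p)) :
    Tendsto (fun a => (fun k => z (Equiv.swap q (J a) k))) F (𝓝 (Function.update z q p)) := by
  rw [tendsto_pi_nhds]
  intro k
  by_cases hk : k = q
  · subst hk
    simpa using hz
  · rw [Function.update_of_ne hk]
    apply tendsto_const_nhds.congr'
    filter_upwards [hJ.eventually (eventually_gt_atTop k)] with a ha
    rw [Equiv.swap_apply_of_ne_of_ne hk (by omega)]

variable [MeasurableSpace P] [BorelSpace P]
variable {E : (ℕ → ℕ) → (ℝ → ℝ) → ℝ} {x : P → (ℕ → ℕ)} {t : P → ℝ} {G : Set (ℕ → P)}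

theorem Gen.near_neBot (hG : Gen E x t G) {z : ℕ → P} (hz : z ∈ G) (p : P) :
    (Near z p).NeBot := by
  have h : ∀ n : ℕ, ∃ j, n ≤ j ∧ z j ∈ Metric.ball p (1 / ((n : ℝ) + 1)) := fun n =>
    hG.visit z hz _ Metric.isOpen_ball ⟨p, Metric.mem_ball_self (by positivity)⟩ n
  choose J hJ1 hJ2 using h
  have h1 : Tendsto J atTop (Near z p) := by
    refine tendsto_inf.mpr ⟨?_, tendsto_atTop_mono hJ1 tendsto_id⟩
    rw [tendsto_comap_iff, tendsto_iff_dist_tendsto_zero]
    exact squeeze_zero (fun n => dist_nonneg) (fun n => (Metric.mem_ball.mp (hJ2 n)).le)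
      tendsto_one_div_add_atTop_nhds_zero_nat
  exact h1.neBot

theorem Gen.rt_neBot (hG : Gen E x t G) {z : ℕ → P} (hz : z ∈ G) (i : ℕ) :
    (Rt t z i).NeBot := by
  have h := fun n : ℕ => hG.right z hz i n n
  choose J hJ1 hJ2 hJ3 using h
  have h1 : Tendsto J atTop (Rt t z i) := by
    refine tendsto_inf.mpr ⟨tendsto_inf.mpr ⟨?_, tendsto_atTop_mono hJ1 tendsto_id⟩, ?_⟩
    · rw [tendsto_comap_iff, tendsto_iff_dist_tendsto_zero]
      exact squeeze_zero (fun n => dist_nonneg) (fun n => (hJ2 n).le)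
        tendsto_one_div_add_atTop_nhds_zero_nat
    · rw [tendsto_principal]
      exact Eventually.of_forall hJ3
  exact h1.neBot

/-- generic continuity along swaps -/
theorem Gen.swap_cont (hG : Gen E x t G) {z : ℕ → P} (hz : z ∈ G) {N : ℕ} {w v : ℕ → ℚ}
    (h : Adm N w v) (i l : ℕ) :
    Tendsto (fun j => Ph E x t N w v i (fun k => z (Equiv.swap l j k))) (Rt t z l)
      (𝓝 (Ph E x t N w v i z)) := by
  have h1 := hG.cont N w v i h z hz
  have h2 : Tendsto (fun j => (fun k => z (Equiv.swap l j k))) (Rt t z l) (𝓝[G] z) := by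
    rw [tendsto_nhdsWithin_iff]
    refine ⟨?_, Eventually.of_forall (fun j => hG.swap z hz l j)⟩
    have h3 := swap_tendsto (J := fun j => j) z l (z l) (tendsto_id'.mpr (Rt_le t z l))
      (Rt_tendsto t z l)
    rwa [Function.update_eq_self] at h3
  exact h1.tendsto.comp h2

/-- one step of freeness -/
theorem Gen.free1 (hG : Gen E x t G) (hE : ∀ y, ContinuousOn (E y) Mon) (ht : Continuous t)
    {z : ℕ → P} (hz : z ∈ G) {N : ℕ} {w v v' : ℕ → ℚ}
    (h : Adm N w v) {i l : ℕ} (hl : l < N) (hil : l ≠ i) (hv : ∀ k < N, k ≠ l → v' k = v k)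
    (hvl : v' l = 0) :
    Adm N w v' ∧ Ph E x t N w v i z = Ph E x t N w v' i z := by
  have h' : Adm N w v' := by
    refine ⟨?_, ?_, h.2.2⟩
    · intro k hk
      by_cases hkl : k = l
      · rw [hkl, hvl]
      · rw [hv k hk hkl]; exact h.1 k hk
    · intro k hk
      by_cases hkl : k = l
      · rw [hkl, hvl]
        exact (h.1 l hl).trans (h.2.1 l hl)
      · rw [hv k hk hkl]; exact h.2.1 k hk
  refine ⟨h', ?_⟩
  have := hG.rt_neBot hz l
  have hlt : ∀ᶠ j in Rt t z l, i < j ∧ N < j :=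
    Rt_le t z l ((eventually_gt_atTop i).and (eventually_gt_atTop N))
  refine tendsto_nhds_unique (hG.swap_cont hz h i l) ?_
  have h1 : ∀ᶠ j in Rt t z l, E (x (z i)) (st N (fun l => (w l : ℝ)) (fun l => (v l : ℝ))
      (fun k => t (z (Equiv.swap l j k)))) =
      Ph E x t N w v i (fun k => z (Equiv.swap l j k)) := by
    filter_upwards [hlt] with j hj
    unfold Ph
    show E (x (z i)) _ = E (x (z (Equiv.swap l j i))) _
    rw [Equiv.swap_apply_of_ne_of_ne hil.symm (by omega)]
  refine Tendsto.congr' h1 ?_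
  refine E_tendsto hE ?_ (Eventually.of_forall (fun j => h.mem _)) (h'.mem _) _
  rw [tendsto_pi_nhds]
  intro s
  refine tendsto_finsetSum _ ?_
  intro k hk
  have hk' := Finset.mem_range.mp hk
  beta_reduce
  by_cases hkl : k = l
  · subst hkl
    simp only [Equiv.swap_apply_left, hvl, Rat.cast_zero]
    exact st1_right ((ht.tendsto _).comp (Rt_tendsto t z k)) (Rt_lt t z k)
  · rw [hv k hk' hkl]
    apply tendsto_const_nhds.congr'
    filter_upwards [Rt_le t z l (eventually_gt_atTop k)] with j hj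
    rw [Equiv.swap_apply_of_ne_of_ne hkl (by omega)]

/-- single supported vector -/
def sg (l : ℕ) (u : ℚ) : ℕ → ℚ := fun k => if k = l then u else 0

theorem sg_self (l : ℕ) (u : ℚ) : sg l u l = u := by simp [sg]
theorem sg_ne {l k : ℕ} (u : ℚ) (h : k ≠ l) : sg l u k = 0 := by simp [sg, h]

/-- freeness -/
theorem Gen.free (hG : Gen E x t G) (hE : ∀ y, ContinuousOn (E y) Mon) (ht : Continuous t)
    {z : ℕ → P} (hz : z ∈ G) {N : ℕ} {w v : ℕ → ℚ}
    (h : Adm N w v) (i : ℕ) :
    Ph E x t N w v i z = Ph E x t N w (sg i (v i)) i z := by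
  have key : ∀ m ≤ N, Adm N w (fun k => if k < m ∧ k ≠ i then 0 else v k) ∧
      Ph E x t N w v i z = Ph E x t N w (fun k => if k < m ∧ k ≠ i then 0 else v k) i z := by
    intro m
    induction m with
    | zero =>
      intro _
      simpa using h
    | succ m ih =>
      intro hm
      obtain ⟨ih1, ih2⟩ := ih (by omega)
      by_cases hmi : m = i
      · have h3 : (fun k => if k < m + 1 ∧ k ≠ i then 0 else v k) =
            (fun k => if k < m ∧ k ≠ i then 0 else v k) := by
          funext k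
          by_cases hk : k < m ∧ k ≠ i
          · rw [if_pos hk, if_pos ⟨by omega, hk.2⟩]
          · rw [if_neg hk, if_neg (by
              rintro ⟨h4, h5⟩
              exact hk ⟨by omega, h5⟩)]
        rw [h3]
        exact ⟨ih1, ih2⟩
      · have h4 := hG.free1 hE ht hz ih1 (v' := fun k => if k < m + 1 ∧ k ≠ i then 0 else v k)
          (i := i) (l := m) (by omega) hmi ?_ ?_
        · exact ⟨h4.1, ih2.trans h4.2⟩
        · intro k hk hkm
          by_cases hk2 : k < m ∧ k ≠ i
          · rw [if_pos hk2, if_pos ⟨by omega, hk2.2⟩]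
          · rw [if_neg hk2, if_neg (by
              rintro ⟨h4, h5⟩
              exact hk2 ⟨by omega, h5⟩)]
        · rw [if_pos ⟨by omega, hmi⟩]
  rw [(key N le_rfl).2]
  refine Ph_congr (fun _ _ => rfl) ?_ (fun _ _ => rfl) rfl
  intro l hl
  by_cases hli : l = i
  · subst hli
    rw [sg_self, if_neg (by tauto)]
  · rw [sg_ne _ hli, if_pos ⟨hl, hli⟩]

/-- splitting a weight: new weights -/
structure Split (N i : ℕ) (a : ℚ) (w w' : ℕ → ℚ) : Prop where
  hi : i < N
  ha : 0 ≤ a
  haw : a ≤ w i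
  other : ∀ k < N, k ≠ i → w' k = w k
  self : w' i = a
  new : w' N = w i - a

theorem Split.sum {N i : ℕ} {a : ℚ} {w w' : ℕ → ℚ} (h : Split N i a w w') :
    ∑ k ∈ Finset.range (N + 1), w' k = ∑ k ∈ Finset.range N, w k := by
  have hi' : i ∈ Finset.range N := Finset.mem_range.mpr h.hi
  rw [Finset.sum_range_succ, ← Finset.add_sum_erase _ w' hi', ← Finset.add_sum_erase _ w hi',
    h.self, h.new]
  have h3 : ∑ k ∈ (Finset.range N).erase i, w' k = ∑ k ∈ (Finset.range N).erase i, w k := by
    apply Finset.sum_congr rfl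
    intro k hk
    rw [Finset.mem_erase, Finset.mem_range] at hk
    exact h.other k hk.2 hk.1
  rw [h3]
  ring

theorem Gen.L1 (hE : ∀ y, ContinuousOn (E y) Mon) (ht : Continuous t)
    {z : ℕ → P} {N i : ℕ} {a : ℚ} {w w' v v' : ℕ → ℚ} (hs : Split N i a w w')
    (h : Adm N w v) (hv : ∀ k < N, v' k = v k) (hvi : v i ≤ a) (hvN : v' N = 0)
    {l : ℕ} (hl : l < N) :
    Tendsto (fun j => Ph E x t (N + 1) w' v' l (fun k => z (Equiv.swap N j k))) (Rt t z i)
      (𝓝 (Ph E x t N w v l z)) := by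
  have hiN := hs.hi
  have h' : Adm (N + 1) w' v' := by
    refine ⟨?_, ?_, ?_⟩
    · intro k hk
      by_cases hkN : k = N
      · rw [hkN, hvN]
      · rw [hv k (by omega)]; exact h.1 k (by omega)
    · intro k hk
      by_cases hkN : k = N
      · rw [hkN, hvN, hs.new]
        have := hs.haw
        linarith
      · rw [hv k (by omega)]
        by_cases hki : k = i
        · rw [hki, hs.self]; exact hvi
        · rw [hs.other k (by omega) hki]; exact h.2.1 k (by omega)
    · rw [hs.sum]; exact h.2.2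
  have h1 : ∀ᶠ j in Rt t z i, E (x (z l)) (st (N + 1) (fun l => (w' l : ℝ))
      (fun l => (v' l : ℝ)) (fun k => t (z (Equiv.swap N j k)))) =
      Ph E x t (N + 1) w' v' l (fun k => z (Equiv.swap N j k)) := by
    filter_upwards [Rt_le t z i (eventually_gt_atTop (N + l))] with j hj
    unfold Ph
    show E (x (z l)) _ = E (x (z (Equiv.swap N j l))) _
    rw [Equiv.swap_apply_of_ne_of_ne (by omega) (by omega)]
  refine Tendsto.congr' h1 ?_
  refine E_tendsto hE ?_ (Eventually.of_forall (fun j => h'.mem _)) (h.mem _) _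
  rw [tendsto_pi_nhds]
  intro s
  have h2 : st N (fun l => (w l : ℝ)) (fun l => (v l : ℝ)) (fun l => t (z l)) s =
      ∑ k ∈ Finset.range N, st1 (t (z k)) (w' k : ℝ) (v k : ℝ) s +
        st1 (t (z i)) (w' N : ℝ) 0 s := by
    unfold st
    symm
    apply sum_split hs.hi
    · intro k hk hki
      rw [hs.other k hk hki]
    · rw [hs.self, hs.new]
      push_cast
      unfold st1
      split_ifs <;> ring
  rw [h2]
  unfold st
  simp only [Finset.sum_range_succ]
  apply Tendsto.add
  · refine tendsto_finsetSum _ ?_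
    intro k hk
    have hk' := Finset.mem_range.mp hk
    rw [hv k hk']
    apply tendsto_const_nhds.congr'
    filter_upwards [Rt_le t z i (eventually_gt_atTop k)] with j hj
    rw [Equiv.swap_apply_of_ne_of_ne (show k ≠ N by omega) (show k ≠ j from ne_of_lt hj)]
  · simp only [Equiv.swap_apply_left, hvN, Rat.cast_zero]
    exact st1_right ((ht.tendsto _).comp (Rt_tendsto t z i)) (Rt_lt t z i)

end

end Pool.Agent.H479R3.RC
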