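import Pool.Agent.H479R3.RC5

set_option autoImplicit false
set_option linter.unusedSectionVars false

open Filter Topology Set

namespace Pool.Agent.H479R3.RC

section
variable {P : Type} [MetricSpace P] [CompleteSpace P] [SecondCountableTopology P]
variable [MeasurableSpace P] [BorelSpace P]
variable {E : (ℕ → ℕ) → (ℝ → ℝ) → ℝ} {x : P → (ℕ → ℕ)} {t : P → ℝ} {G : Set (ℕ → P)}

/-- the easy left limit -/
theorem left_limit (hE : ∀ y, ContinuousOn (E y) Mon) (ht : Continuous t)
    {z : ℕ → P} {N i : ℕ} {a : ℚ} {w w' v v' : ℕ → ℚ} (hs : Split N i a w w')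
    (h : Adm N w v) (h' : Adm (N + 1) w' v') (hv : ∀ k < N, k ≠ i → v' k = v k)
    (hvi : v' i = 0) (hvN : v' N = v i - a) {J : ℕ → ℕ} (hJ : Tendsto J atTop atTop)
    (hzJ : Tendsto (fun n => z (J n)) atTop (𝓝 (z i))) (hlt : ∀ n, t (z (J n)) < t (z i)) :
    Tendsto (fun n => Ph E x t (N + 1) w' v' N
      (fun k => z (Equiv.swap N (J n) (Equiv.swap i N k)))) atTop (𝓝 (Ph E x t N w v i z)) := by
  have hiN := hs.hi
  have hC : ∀ᶠ n in atTop, N < J n := hJ.eventually (eventually_gt_atTop N)
  have h1 : ∀ᶠ n in atTop, E (x (z i)) (st (N + 1) (fun l => (w' l : ℝ))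
      (fun l => (v' l : ℝ)) (fun k => t (z (Equiv.swap N (J n) (Equiv.swap i N k))))) =
      Ph E x t (N + 1) w' v' N (fun k => z (Equiv.swap N (J n) (Equiv.swap i N k))) := by
    filter_upwards [hC] with n hn
    unfold Ph
    show E (x (z i)) _ = E (x (z (Equiv.swap N (J n) (Equiv.swap i N N)))) _
    rw [Equiv.swap_apply_right, Equiv.swap_apply_of_ne_of_ne (show i ≠ N by omega)
      (show i ≠ J n by omega)]
  refine Tendsto.congr' h1 ?_
  refine E_tendsto hE ?_ (Eventually.of_forall (fun j => h'.mem _)) (h.mem _) _
  rw [tendsto_pi_nhds]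
  intro s
  have h2 : st N (fun l => (w l : ℝ)) (fun l => (v l : ℝ)) (fun l => t (z l)) s =
      ∑ k ∈ Finset.range N, (if k = i then st1 (t (z i)) (a : ℝ) (a : ℝ) s else
        st1 (t (z k)) (w' k : ℝ) (v' k : ℝ) s) +
        st1 (t (z i)) (w' N : ℝ) (v' N : ℝ) s := by
    unfold st
    symm
    apply sum_split hs.hi
    · intro k hk hki
      rw [if_neg hki, hs.other k hk hki, hv k hk hki]
    · rw [if_pos rfl, hs.new, hvN]
      push_cast
      unfold st1
      split_ifs <;> ring
  rw [h2]
  unfold st
  simp only [Finset.sum_range_succ]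
  apply Tendsto.add
  · refine tendsto_finsetSum _ ?_
    intro k hk
    have hk' := Finset.mem_range.mp hk
    by_cases hki : k = i
    · subst hki
      simp only [Equiv.swap_apply_left, if_true, hs.self]
      exact st1_left ((ht.tendsto _).comp hzJ) (Eventually.of_forall hlt)
    · rw [if_neg hki]
      apply tendsto_const_nhds.congr'
      filter_upwards [hJ.eventually (eventually_gt_atTop k)] with n hn
      rw [Equiv.swap_apply_of_ne_of_ne hki (show k ≠ N by omega),
        Equiv.swap_apply_of_ne_of_ne (show k ≠ N by omega) (show k ≠ J n by omega)]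
  · apply tendsto_const_nhds.congr'
    filter_upwards [hC] with n hn
    rw [Equiv.swap_apply_right, Equiv.swap_apply_of_ne_of_ne (show i ≠ N by omega)
      (show i ≠ J n by omega)]

theorem Gen.L2 (hG : Gen E x t G) (hE : ∀ y, ContinuousOn (E y) Mon) (ht : Continuous t)
    {z : ℕ → P} (hz : z ∈ G) {N i : ℕ} {a : ℚ} {w w' v v' : ℕ → ℚ} (hs : Split N i a w w')
    (h : Adm N w v) (hv : ∀ k < N, k ≠ i → v' k = v k)
    (hvi : v' i = 0) (hvN : v' N = v i - a) (hav : a ≤ v i) :
    Tendsto (fun j => Ph E x t (N + 1) w' v' N (fun k => z (Equiv.swap N j k))) (Rt t z i)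
      (𝓝 (Ph E x t N w v i z)) := by
  have hiN := hs.hi
  have h' : Adm (N + 1) w' v' := by
    refine ⟨?_, ?_, ?_⟩
    · intro k hk
      by_cases hkN : k = N
      · rw [hkN, hvN]; linarith
      · by_cases hki : k = i
        · rw [hki, hvi]
        · rw [hv k (by omega) hki]; exact h.1 k (by omega)
    · intro k hk
      by_cases hkN : k = N
      · rw [hkN, hvN, hs.new]
        have := h.2.1 i hiN
        linarith
      · by_cases hki : k = i
        · rw [hki, hs.self, hvi]; exact hs.ha
        · rw [hv k (by omega) hki, hs.other k (by omega) hki]; exact h.2.1 k (by omega)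
    · rw [hs.sum]; exact h.2.2
  have hsw := hG.swap_cont hz h i i
  -- abbreviations
  have hcmp : ∀ j, N < j → Ph E x t N w v i (Function.update (fun k => z (Equiv.swap N j k)) i
      ((fun k => z (Equiv.swap N j k)) N)) = Ph E x t N w v i (fun k => z (Equiv.swap i j k)) := by
    intro j hj
    have h5 : ∀ k < N, Function.update (fun k => z (Equiv.swap N j k)) i
      ((fun k => z (Equiv.swap N j k)) N) k = z (Equiv.swap i j k) := by
      intro k hk
      by_cases hki : k = i
      · subst hki
        rw [Function.update_self]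
        show z (Equiv.swap N j N) = _
        rw [Equiv.swap_apply_left, Equiv.swap_apply_left]
      · rw [Function.update_of_ne hki]
        show z (Equiv.swap N j k) = _
        rw [Equiv.swap_apply_of_ne_of_ne (show k ≠ N by omega) (show k ≠ j by omega),
          Equiv.swap_apply_of_ne_of_ne hki (show k ≠ j by omega)]
    exact Ph_congr (fun _ _ => rfl) (fun _ _ => rfl) h5 (h5 i hiN)
  have key : ∀ m : ℕ, ∀ᶠ j in Rt t z i,
      |Ph E x t (N + 1) w' v' N (fun k => z (Equiv.swap N j k)) -
        Ph E x t N w v i (Function.update (fun k => z (Equiv.swap N j k)) i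
          ((fun k => z (Equiv.swap N j k)) N))| ≤ 1 / ((m : ℝ) + 1) := by
    intro m
    by_contra hcon
    rw [not_eventually] at hcon
    obtain ⟨U, hU, hUB⟩ := hG.bset (N + 1) w' v' N w v i N m (by omega) h' h
    have hfU : ∃ᶠ j in Rt t z i, (fun k => z (Equiv.swap N j k)) ∈ U := by
      refine (hcon.and_eventually ((Rt_lt t z i).and
        (Rt_le t z i (eventually_gt_atTop N)))).mono ?_
      rintro j ⟨hj1, hj2, hj3⟩
      have hj3' : N < j := hj3
      have h6 := (hUB _ (hG.swap z hz N j)).1
      rw [← h6]
      refine ⟨?_, not_le.mp hj1⟩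
      show t (z (Equiv.swap N j i)) < t (z (Equiv.swap N j N))
      rw [Equiv.swap_apply_left, Equiv.swap_apply_of_ne_of_ne (show i ≠ N by omega)
        (show i ≠ j by omega)]
      exact hj2
    have hcl : Function.update z N (z i) ∈ closure U :=
      mem_closure_of_frequently_of_tendsto hfU
        (swap_tendsto (J := fun j => j) z N (z i) (tendsto_id'.mpr (Rt_le t z i))
          (Rt_tendsto t z i))
    have hp := (hUB z hz).2 hcl
    have hseq : ∀ l : ℕ, ∃ j, N + l ≤ j ∧ dist (z j) (z i) < 1 / ((l : ℝ) + 1) ∧
        (fun k => z (Equiv.swap N j (Equiv.swap i N k))) ∈ U := by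
      intro l
      obtain ⟨p, hp1, hp2⟩ := hp l
      have := hG.near_neBot hz p
      have h7 : Tendsto (fun j => (fun k => z (Equiv.swap N j (Equiv.swap i N k)))) (Near z p)
          (𝓝 (Function.update (Function.update z N (z i)) i p)) := by
        have h8 := swap_tendsto (J := fun j => j) z N p (tendsto_id'.mpr (Near_le z p))
          (Near_tendsto z p)
        have h9 : Continuous (fun (y : ℕ → P) (k : ℕ) => y (Equiv.swap i N k)) :=
          continuous_pi (fun k => continuous_apply _)
        have h10 := (h9.tendsto _).comp h8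
        have h11 : (fun k => Function.update z N p (Equiv.swap i N k)) =
            Function.update (Function.update z N (z i)) i p := by
          funext k
          by_cases hki : k = i
          · subst hki
            rw [Equiv.swap_apply_left, Function.update_self, Function.update_self]
          · rw [Function.update_of_ne hki]
            by_cases hkN : k = N
            · subst hkN
              rw [Equiv.swap_apply_right, Function.update_self,
                Function.update_of_ne (show i ≠ k by omega)]
            · rw [Equiv.swap_apply_of_ne_of_ne hki hkN, Function.update_of_ne hkN,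
                Function.update_of_ne hkN]
        rw [h11] at h10
        exact h10
      have h12 : ∀ᶠ j in Near z p, dist (z j) (z i) < 1 / ((l : ℝ) + 1) :=
        (Near_tendsto z p).eventually
          ((isOpen_lt (continuous_id.dist continuous_const) continuous_const).mem_nhds hp1)
      obtain ⟨j, hj1, hj2, hj3⟩ := ((h7.eventually (hU.mem_nhds hp2)).and (h12.and
        (Near_le z p (eventually_ge_atTop (N + l))))).exists
      exact ⟨j, hj3, hj2, hj1⟩
    choose J hJ1 hJ2 hJ3 using hseq
    have hJt : Tendsto J atTop atTop :=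
      tendsto_atTop_mono (fun n => (Nat.le_add_left n N).trans (hJ1 n)) tendsto_id
    have hzJ : Tendsto (fun n => z (J n)) atTop (𝓝 (z i)) := by
      rw [tendsto_iff_dist_tendsto_zero]
      exact squeeze_zero (fun n => dist_nonneg) (fun n => (hJ2 n).le)
        tendsto_one_div_add_atTop_nhds_zero_nat
    -- the facts from B, valid once `J n > N`
    have hB : ∀ n, N < J n → t (z (J n)) < t (z i) ∧ 1 / ((m : ℝ) + 1) <
        |Ph E x t (N + 1) w' v' N (fun k => z (Equiv.swap N (J n) (Equiv.swap i N k))) -
          Ph E x t N w v i z| := by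
      intro n hn
      have hmem : (fun k => z (Equiv.swap N (J n) (Equiv.swap i N k))) ∈ G :=
        hG.swap _ (hG.swap z hz N (J n)) i N
      have h13 := ((hUB _ hmem).1).mpr (hJ3 n)
      have h14 : z (Equiv.swap N (J n) (Equiv.swap i N i)) = z (J n) := by
        rw [Equiv.swap_apply_left, Equiv.swap_apply_left]
      have h15 : z (Equiv.swap N (J n) (Equiv.swap i N N)) = z i := by
        rw [Equiv.swap_apply_right, Equiv.swap_apply_of_ne_of_ne (show i ≠ N by omega)
          (show i ≠ J n by omega)]
      have h16 : t (z (J n)) < t (z i) := by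
        have := h13.1
        beta_reduce at this
        rwa [h14, h15] at this
      refine ⟨h16, ?_⟩
      have h17 : Ph E x t N w v i (Function.update
          (fun k => z (Equiv.swap N (J n) (Equiv.swap i N k))) i
          ((fun k => z (Equiv.swap N (J n) (Equiv.swap i N k))) N)) = Ph E x t N w v i z := by
        have h5 : ∀ k < N, Function.update
            (fun k => z (Equiv.swap N (J n) (Equiv.swap i N k))) i
            ((fun k => z (Equiv.swap N (J n) (Equiv.swap i N k))) N) k = z k := by
          intro k hk
          by_cases hki : k = i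
          · subst hki
            rw [Function.update_self]
            exact h15
          · rw [Function.update_of_ne hki]
            show z (Equiv.swap N (J n) (Equiv.swap i N k)) = z k
            rw [Equiv.swap_apply_of_ne_of_ne hki (show k ≠ N by omega),
              Equiv.swap_apply_of_ne_of_ne (show k ≠ N by omega) (show k ≠ J n by omega)]
        exact Ph_congr (fun _ _ => rfl) (fun _ _ => rfl) h5 (h5 i hiN)
      have h18 := h13.2
      rwa [h17] at h18
    have hJ4 : ∀ n, N < J (n + 1) := fun n => by
      have := hJ1 (n + 1)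
      omega
    have h19 := left_limit (E := E) (x := x) hE ht hs h h' hv hvi hvN
      (J := fun n => J (n + 1)) (hJt.comp (tendsto_add_atTop_nat 1))
      (hzJ.comp (tendsto_add_atTop_nat 1)) (fun n => (hB (n + 1) (hJ4 n)).1)
    have h20 := (Metric.tendsto_nhds.mp h19) (1 / ((m : ℝ) + 1)) (by positivity)
    obtain ⟨n, hn⟩ := h20.exists
    rw [Real.dist_eq] at hn
    have h21 := (hB (n + 1) (hJ4 n)).2
    linarith
  rw [Metric.tendsto_nhds]
  intro ε hε
  obtain ⟨m, hm⟩ := exists_nat_one_div_lt (show (0 : ℝ) < ε / 2 by positivity)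
  filter_upwards [key m, (Metric.tendsto_nhds.mp hsw) (ε / 2) (by positivity),
    Rt_le t z i (eventually_gt_atTop N)] with j hj1 hj2 hj3
  rw [hcmp j hj3] at hj1
  rw [Real.dist_eq] at hj2 ⊢
  have h22 := abs_sub_le (Ph E x t (N + 1) w' v' N (fun k => z (Equiv.swap N j k)))
    (Ph E x t N w v i (fun k => z (Equiv.swap i j k))) (Ph E x t N w v i z)
  linarith

end

end Pool.Agent.H479R3.RC
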