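import Pool.Agent.H479R3.RC1
import Pool.Agent.H479R3.RC6

set_option autoImplicit false
set_option linter.unusedSectionVars false

open Filter Topology Set

namespace Pool.Agent.H479R3.RC

theorem final_contra {E : (ℕ → ℕ) → (ℝ → ℝ) → ℝ} (hSC : ∀ g ∈ Mon, SC (fun y => E y g))
    (X : ℕ → (ℕ → ℕ)) (H : (ℕ → Bool) → (ℝ → ℝ)) (hH : ∀ c, H c ∈ Mon)
    (h1 : ∀ l c c', c l = c' l → E (X l) (H c) = E (X l) (H c'))
    (h2 : ∀ l, E (X l) (H (fun _ => false)) ≠ E (X l) (H (fun _ => true)))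
    (col : ℕ → Bool) (h3 : ∀ (l : ℕ) (b : Bool) (m : ℕ), ∃ q, col q = b ∧ ∀ k < m, X q k = X l k) :
    False := by
  obtain ⟨O1, hO1, hne1, hc1⟩ := sc_open (hSC _ (hH (fun _ => false))) (range X)
    (range_nonempty X)
  obtain ⟨O2, hO2, hne2, hc2⟩ := sc_open (hSC _ (hH (fun _ => true))) (O1 ∩ range X) hne1
  obtain ⟨a, haV, hca⟩ := hSC _ (hH col) _ hne2
  obtain ⟨l, rfl⟩ := haV.2.2
  have key : ∀ b : Bool, E (X l) (H col) = E (X l) (H (fun _ => b)) := by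
    intro b
    choose q hq1 hq2 using h3 l b
    have hlim : Tendsto (fun m => X (q m)) atTop (𝓝 (X l)) := by
      rw [tendsto_pi_nhds]
      intro k
      apply tendsto_const_nhds.congr'
      filter_upwards [eventually_gt_atTop k] with m hm
      exact (hq2 m k hm).symm
    have hlimV : Tendsto (fun m => X (q m)) atTop (𝓝[O2 ∩ (O1 ∩ range X)] (X l)) := by
      rw [tendsto_nhdsWithin_iff]
      refine ⟨hlim, ?_⟩
      filter_upwards [hlim.eventually (hO1.mem_nhds haV.2.1),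
        hlim.eventually (hO2.mem_nhds haV.1)] with m hm1 hm2
      exact ⟨hm2, hm1, mem_range_self _⟩
    have hcb : ContinuousWithinAt (fun y => E y (H (fun _ => b))) (O2 ∩ (O1 ∩ range X)) (X l) := by
      cases b with
      | false => exact (hc1 (X l) haV.2).mono inter_subset_right
      | true => exact hc2 (X l) haV
    have h4 := hca.tendsto.comp hlimV
    have h5 := hcb.tendsto.comp hlimV
    refine tendsto_nhds_unique h4 (h5.congr ?_)
    intro m
    exact h1 (q m) (fun _ => b) col (hq1 m).symm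
  exact h2 l ((key false).symm.trans (key true))

/-- rational separation -/
theorem exists_rat_sep {ψ : ℝ → ℝ} {u u' : ℚ} (huu : u < u')
    (hc : ContinuousOn ψ (Icc (u : ℝ) u')) (hne : ψ u ≠ ψ u') :
    ∃ a : ℚ, u < a ∧ a < u' ∧ ψ a ≠ ψ u ∧ ψ a ≠ ψ u' := by
  have huu' : (u : ℝ) < u' := by exact_mod_cast huu
  have h1 : ∃ s ∈ Ioo (u : ℝ) u', ψ s ≠ ψ u ∧ ψ s ≠ ψ u' := by
    rcases lt_or_gt_of_ne hne with h | h
    · obtain ⟨y, hy1, hy2⟩ := exists_between h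
      obtain ⟨s, hs, rfl⟩ := intermediate_value_Ioo huu'.le hc ⟨hy1, hy2⟩
      exact ⟨s, hs, hy1.ne', hy2.ne⟩
    · obtain ⟨y, hy1, hy2⟩ := exists_between h
      obtain ⟨s, hs, rfl⟩ := intermediate_value_Ioo' huu'.le hc ⟨hy1, hy2⟩
      exact ⟨s, hs, hy2.ne, hy1.ne'⟩
  obtain ⟨s, hs, hs1, hs2⟩ := h1
  have hcs : ContinuousAt ψ s := hc.continuousAt (Icc_mem_nhds hs.1 hs.2)
  have h2 : ∀ᶠ r in 𝓝 s, ψ r ≠ ψ u ∧ ψ r ≠ ψ u' ∧ r ∈ Ioo (u : ℝ) u' := by
    filter_upwards [hcs.eventually_ne hs1, hcs.eventually_ne hs2, Ioo_mem_nhds hs.1 hs.2]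
      with r h3 h4 h5
    exact ⟨h3, h4, h5⟩
  obtain ⟨O, hO1, hO2, hO3⟩ := eventually_nhds_iff.mp h2
  obtain ⟨a, ha⟩ := (Rat.denseRange_cast (𝕜 := ℝ)).exists_mem_open hO2 ⟨s, hO3⟩
  obtain ⟨h3, h4, h5, h6⟩ := hO1 _ ha
  exact ⟨a, by exact_mod_cast h5, by exact_mod_cast h6, h3, h4⟩

section
variable {P : Type} [MetricSpace P] [CompleteSpace P] [SecondCountableTopology P]
variable [MeasurableSpace P] [BorelSpace P]
variable {E : (ℕ → ℕ) → (ℝ → ℝ) → ℝ} {x : P → (ℕ → ℕ)} {t : P → ℝ} {G : Set (ℕ → P)}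

/-- real version of the one parameter function -/
noncomputable def psR (E : (ℕ → ℕ) → (ℝ → ℝ) → ℝ) (x : P → (ℕ → ℕ)) (t : P → ℝ) (N : ℕ)
    (w : ℕ → ℚ) (l : ℕ) (z : ℕ → P) (u : ℝ) : ℝ :=
  E (x (z l)) (st N (fun k => (w k : ℝ)) (fun k => if k = l then u else 0) (fun k => t (z k)))

theorem psR_rat (N : ℕ) (w : ℕ → ℚ) (l : ℕ) (z : ℕ → P) (u : ℚ) :
    psR E x t N w l z (u : ℝ) = Ph E x t N w (sg l u) l z := by
  unfold psR Ph
  congr 2
  funext k
  unfold sg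
  split_ifs <;> simp

theorem psR_cont (hE : ∀ y, ContinuousOn (E y) Mon) {N : ℕ} {w : ℕ → ℚ} {l : ℕ} (hl : l < N)
    (z : ℕ → P) (hw : ∀ k < N, 0 ≤ w k) (hsum : ∑ k ∈ Finset.range N, w k ≤ 1) :
    ContinuousOn (psR E x t N w l z) (Icc (0 : ℝ) (w l)) := by
  unfold psR
  refine (hE (x (z l))).comp (t := Mon) ?_ ?_
  · apply Continuous.continuousOn
    apply continuous_pi
    intro s
    unfold st
    refine continuous_finsetSum _ ?_
    intro k _
    unfold st1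
    show Continuous (fun u : ℝ => if t (z k) < s then (w k : ℝ) else
      if t (z k) = s then (if k = l then u else 0) else 0)
    split_ifs <;> first | exact continuous_const | exact continuous_id
  · intro u hu
    refine st_mem ?_ ?_ ?_
    · intro k hk
      show 0 ≤ (if k = l then u else 0)
      split_ifs
      · exact hu.1
      · exact le_rfl
    · intro k hk
      show (if k = l then u else 0) ≤ (w k : ℝ)
      split_ifs with h
      · rw [h]; exact hu.2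
      · exact_mod_cast hw k hk
    · exact_mod_cast hsum

theorem rat_sep (hE : ∀ y, ContinuousOn (E y) Mon) {N : ℕ} {w : ℕ → ℚ} {l : ℕ} (hl : l < N)
    (z : ℕ → P) (hw : ∀ k < N, 0 ≤ w k) (hsum : ∑ k ∈ Finset.range N, w k ≤ 1)
    {u u' : ℚ} (hu : 0 ≤ u) (huu : u < u') (hu' : u' ≤ w l)
    (hne : Ph E x t N w (sg l u) l z ≠ Ph E x t N w (sg l u') l z) :
    ∃ a : ℚ, u < a ∧ a < u' ∧ Ph E x t N w (sg l a) l z ≠ Ph E x t N w (sg l u) l z ∧
      Ph E x t N w (sg l a) l z ≠ Ph E x t N w (sg l u') l z := by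
  have h1 := psR_cont (x := x) (t := t) hE hl z hw hsum
  have h2 : ContinuousOn (psR E x t N w l z) (Icc (u : ℝ) (u' : ℝ)) := by
    refine h1.mono (Icc_subset_Icc ?_ ?_)
    · exact_mod_cast hu
    · exact_mod_cast hu'
  have h3 := exists_rat_sep huu h2 (by rw [psR_rat, psR_rat]; exact hne)
  obtain ⟨a, ha1, ha2, ha3, ha4⟩ := h3
  rw [psR_rat, psR_rat] at ha3
  rw [psR_rat, psR_rat] at ha4
  exact ⟨a, ha1, ha2, ha3, ha4⟩

theorem adm_sg {N : ℕ} {w : ℕ → ℚ} {l : ℕ} (hw : ∀ k < N, 0 ≤ w k)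
    (hsum : ∑ k ∈ Finset.range N, w k ≤ 1) {u : ℚ} (hu : 0 ≤ u) (hu' : u ≤ w l) :
    Adm N w (sg l u) := by
  refine ⟨?_, ?_, hsum⟩
  · intro k hk
    unfold sg
    split_ifs
    · exact hu
    · exact le_rfl
  · intro k hk
    unfold sg
    split_ifs with h
    · rw [h]; exact hu'
    · exact hw k hk

end

end Pool.Agent.H479R3.RC
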