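import Pool.Agent.H479R3.RC7

set_option autoImplicit false
set_option linter.unusedSectionVars false

open Filter Topology Set

namespace Pool.Agent.H479R3.RC

/-- data of the fusion -/
structure Dat (P : Type) where
  z : ℕ → P
  w : ℕ → ℚ
  β : ℕ → ℚ
  γ : ℕ → ℚ
  η : ℕ → ℝ

section
variable {P : Type} [MetricSpace P] [CompleteSpace P] [SecondCountableTopology P]
variable [MeasurableSpace P] [BorelSpace P]
variable {E : (ℕ → ℕ) → (ℝ → ℝ) → ℝ} {x : P → (ℕ → ℕ)} {t : P → ℝ} {G : Set (ℕ → P)}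

/-- the fusion invariant -/
structure Inv (E : (ℕ → ℕ) → (ℝ → ℝ) → ℝ) (x : P → (ℕ → ℕ)) (t : P → ℝ) (G : Set (ℕ → P))
    (N : ℕ) (s : Dat P) : Prop where
  zG : s.z ∈ G
  sum : ∑ k ∈ Finset.range N, s.w k ≤ 1
  βpos : ∀ l < N, 0 < s.β l
  βγ : ∀ l < N, s.β l < s.γ l
  γw : ∀ l < N, s.γ l ≤ s.w l
  ηpos : ∀ l < N, 0 < s.η l
  gap : ∀ l < N, s.η l < |Ph E x t N s.w (sg l 0) l s.z - Ph E x t N s.w (sg l (s.β l)) l s.z|
  ne : ∀ l < N, Ph E x t N s.w (sg l (s.β l)) l s.z ≠ Ph E x t N s.w (sg l (s.γ l)) l s.z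

theorem Inv.wnn {N : ℕ} {s : Dat P} (h : Inv E x t G N s) : ∀ k < N, 0 ≤ s.w k := by
  intro k hk
  have h1 := h.βpos k hk
  have h2 := h.βγ k hk
  have h3 := h.γw k hk
  linarith

theorem Inv.init (hG : Gen E x t G) (hE : ∀ y, ContinuousOn (E y) Mon)
    (hsep : ∀ p : P, E (x p) (st1 (t p) 1 0) ≠ E (x p) (st1 (t p) 1 1)) :
    ∃ s : Dat P, Inv E x t G 1 s := by
  obtain ⟨z, hz⟩ := hG.ne
  have h0 : ∀ u : ℚ, Ph E x t 1 (fun _ => 1) (sg 0 u) 0 z =
      E (x (z 0)) (st1 (t (z 0)) 1 (u : ℝ)) := by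
    intro u
    unfold Ph
    congr 1
    funext s
    simp [st, sg]
  have hw : ∀ k < 1, (0 : ℚ) ≤ (fun _ : ℕ => (1 : ℚ)) k := fun _ _ => zero_le_one
  have hsum : ∑ k ∈ Finset.range 1, (fun _ : ℕ => (1 : ℚ)) k ≤ 1 := by simp
  have hne : Ph E x t 1 (fun _ => 1) (sg 0 0) 0 z ≠ Ph E x t 1 (fun _ => 1) (sg 0 1) 0 z := by
    rw [h0, h0]
    simpa using hsep (z 0)
  obtain ⟨b, hb1, hb2, hb3, hb4⟩ := rat_sep (x := x) (t := t) hE (N := 1) (w := fun _ => 1)
    (l := 0) one_pos z hw hsum le_rfl zero_lt_one le_rfl hne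
  refine ⟨⟨z, fun _ => 1, fun _ => b, fun _ => 1,
    fun _ => |Ph E x t 1 (fun _ => 1) (sg 0 0) 0 z - Ph E x t 1 (fun _ => 1) (sg 0 b) 0 z| / 2⟩,
    hz, hsum, fun _ _ => hb1, fun _ _ => hb2, fun _ _ => le_rfl, ?_, ?_, ?_⟩
  · intro l _
    have : 0 < |Ph E x t 1 (fun _ => 1) (sg 0 0) 0 z - Ph E x t 1 (fun _ => 1) (sg 0 b) 0 z| :=
      abs_pos.mpr (sub_ne_zero.mpr hb3.symm)
    show (0 : ℝ) < _ / 2
    linarith
  · intro l hl
    have hl0 : l = 0 := by omega
    subst hl0
    have : 0 < |Ph E x t 1 (fun _ => 1) (sg 0 0) 0 z - Ph E x t 1 (fun _ => 1) (sg 0 b) 0 z| :=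
      abs_pos.mpr (sub_ne_zero.mpr hb3.symm)
    show _ / 2 < |Ph E x t 1 (fun _ => 1) (sg 0 0) 0 z - Ph E x t 1 (fun _ => 1) (sg 0 b) 0 z|
    linarith
  · intro l hl
    have hl0 : l = 0 := by omega
    subst hl0
    exact hb4

/-- extension relation -/
structure Ext (x : P → (ℕ → ℕ)) (N i : ℕ) (s s' : Dat P) : Prop where
  z : ∀ l < N, s'.z l = s.z l
  β : ∀ l < N, s'.β l = s.β l
  η : ∀ l < N, s'.η l = s.η l
  near : ∀ m < N, x (s'.z N) m = x (s.z i) m

theorem Inv.step (hG : Gen E x t G) (hE : ∀ y, ContinuousOn (E y) Mon) (ht : Continuous t)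
    (hx : Continuous x) {N : ℕ} {s : Dat P} (h : Inv E x t G N s) {i : ℕ} (hi : i < N) :
    ∃ s' : Dat P, Inv E x t G (N + 1) s' ∧ Ext x N i s s' := by
  classical
  obtain ⟨a, ha1, ha2, ha3, ha4⟩ := rat_sep (x := x) (t := t) hE hi s.z h.wnn h.sum
    (h.βpos i hi).le (h.βγ i hi) (h.γw i hi) (h.ne i hi)
  have ha0 : 0 < a := (h.βpos i hi).trans ha1
  have haw : a ≤ s.w i := ha2.le.trans (h.γw i hi)
  set w' : ℕ → ℚ := fun k => if k = N then s.w i - a else if k = i then a else s.w k with hw'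
  set γ' : ℕ → ℚ := fun k => if k = N then s.γ i - a else if k = i then a else s.γ k with hγ'
  have hiN : i ≠ N := by omega
  have hs : Split N i a s.w w' := by
    refine ⟨hi, ha0.le, haw, ?_, ?_, ?_⟩
    · intro k hk hki
      simp only [hw', if_neg (show k ≠ N by omega), if_neg hki]
    · simp only [hw', if_neg hiN, if_true]
    · simp only [hw', if_true]
  have hγi : γ' i = a := by simp only [hγ', if_neg hiN, if_true]
  have hγN : γ' N = s.γ i - a := by simp only [hγ', if_true]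
  have hγo : ∀ k < N, k ≠ i → γ' k = s.γ k := by
    intro k hk hki
    simp only [hγ', if_neg (show k ≠ N by omega), if_neg hki]
  -- convergence of the old functions
  have c1 : ∀ l < N, ∀ u : ℚ, 0 ≤ u → u ≤ w' l →
      Tendsto (fun j => Ph E x t (N + 1) w' (sg l u) l (fun k => s.z (Equiv.swap N j k)))
        (Rt t s.z i) (𝓝 (Ph E x t N s.w (sg l u) l s.z)) := by
    intro l hl u hu hul
    have hul' : u ≤ s.w l := by
      by_cases hli : l = i
      · subst hli
        rw [hs.self] at hul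
        exact hul.trans haw
      · rwa [hs.other l hl hli] at hul
    refine Gen.L1 hE ht hs (adm_sg h.wnn h.sum hu hul') (fun _ _ => rfl) ?_ ?_ hl
    · by_cases hli : l = i
      · subst hli
        rw [sg_self]
        rwa [hs.self] at hul
      · rw [sg_ne _ (Ne.symm hli)]
        exact ha0.le
    · exact sg_ne _ (show N ≠ l by omega)
  have c2 : ∀ b : ℚ, 0 ≤ b → a + b ≤ s.w i →
      Tendsto (fun j => Ph E x t (N + 1) w' (sg N b) N (fun k => s.z (Equiv.swap N j k)))
        (Rt t s.z i) (𝓝 (Ph E x t N s.w (sg i (a + b)) i s.z)) := by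
    intro b hb hab
    refine hG.L2 hE ht h.zG hs (adm_sg h.wnn h.sum (by linarith) hab) ?_ ?_ ?_ ?_
    · intro k hk hki
      rw [sg_ne _ (show k ≠ N by omega), sg_ne _ hki]
    · exact sg_ne _ hiN
    · rw [sg_self, sg_self]; ring
    · rw [sg_self]; linarith
  have hβw : ∀ l < N, s.β l ≤ w' l := by
    intro l hl
    by_cases hli : l = i
    · rw [hli, hs.self]; exact ha1.le
    · rw [hs.other l hl hli]
      exact (h.βγ l hl).le.trans (h.γw l hl)
  have hγw' : ∀ l < N, γ' l ≤ w' l := by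
    intro l hl
    by_cases hli : l = i
    · rw [hli, hs.self, hγi]
    · rw [hs.other l hl hli, hγo l hl hli]
      exact h.γw l hl
  have hβγ' : ∀ l < N, s.β l < γ' l := by
    intro l hl
    by_cases hli : l = i
    · rw [hli, hγi]; exact ha1
    · rw [hγo l hl hli]; exact h.βγ l hl
  have hne' : ∀ l < N, Ph E x t N s.w (sg l (s.β l)) l s.z ≠
      Ph E x t N s.w (sg l (γ' l)) l s.z := by
    intro l hl
    by_cases hli : l = i
    · subst hli
      rw [hγi]; exact ha3.symm
    · rw [hγo l hl hli]; exact h.ne l hl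
  have e1 : ∀ᶠ j in Rt t s.z i, ∀ l < N,
      (s.η l < |Ph E x t (N + 1) w' (sg l 0) l (fun k => s.z (Equiv.swap N j k)) -
        Ph E x t (N + 1) w' (sg l (s.β l)) l (fun k => s.z (Equiv.swap N j k))|) ∧
      Ph E x t (N + 1) w' (sg l (s.β l)) l (fun k => s.z (Equiv.swap N j k)) ≠
        Ph E x t (N + 1) w' (sg l (γ' l)) l (fun k => s.z (Equiv.swap N j k)) := by
    have hfin : (Set.Iio N).Finite := Set.finite_Iio N
    have := (Set.Finite.eventually_all hfin (l := Rt t s.z i) (p := fun l j =>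
      (s.η l < |Ph E x t (N + 1) w' (sg l 0) l (fun k => s.z (Equiv.swap N j k)) -
        Ph E x t (N + 1) w' (sg l (s.β l)) l (fun k => s.z (Equiv.swap N j k))|) ∧
      Ph E x t (N + 1) w' (sg l (s.β l)) l (fun k => s.z (Equiv.swap N j k)) ≠
        Ph E x t (N + 1) w' (sg l (γ' l)) l (fun k => s.z (Equiv.swap N j k)))).mpr ?_
    · exact this
    · intro l hl
      have hl' : l < N := hl
      have hβ0 := (h.βpos l hl').le
      have l0 := c1 l hl' 0 le_rfl (hβ0.trans (hβw l hl'))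
      have l1 := c1 l hl' (s.β l) hβ0 (hβw l hl')
      have l2 := c1 l hl' (γ' l) (hβ0.trans (hβγ' l hl').le) (hγw' l hl')
      have l3 := (l0.sub l1).abs
      have l4 := l1.sub l2
      filter_upwards [l3.eventually (lt_mem_nhds (h.gap l hl')),
        l4.eventually_ne (sub_ne_zero.mpr (hne' l hl'))] with j hj1 hj2
      exact ⟨hj1, sub_ne_zero.mp hj2⟩
  have e2 : ∀ᶠ j in Rt t s.z i,
      Ph E x t (N + 1) w' (sg N 0) N (fun k => s.z (Equiv.swap N j k)) ≠
        Ph E x t (N + 1) w' (sg N (γ' N)) N (fun k => s.z (Equiv.swap N j k)) := by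
    have l0 := c2 0 le_rfl (by linarith)
    have l1 := c2 (γ' N) (by rw [hγN]; linarith) (by
      rw [hγN]
      have := h.γw i hi
      linarith)
    have hh : Ph E x t N s.w (sg i (a + 0)) i s.z - Ph E x t N s.w (sg i (a + γ' N)) i s.z ≠ 0 := by
      rw [hγN, add_zero, add_sub_cancel]
      exact sub_ne_zero.mpr ha4
    filter_upwards [(l0.sub l1).eventually_ne hh] with j hj
    exact sub_ne_zero.mp hj
  have e3 : ∀ᶠ j in Rt t s.z i, ∀ m < N, x (s.z j) m = x (s.z i) m := by
    have hfin : (Set.Iio N).Finite := Set.finite_Iio N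
    have := (Set.Finite.eventually_all hfin (l := Rt t s.z i)
      (p := fun m j => x (s.z j) m = x (s.z i) m)).mpr ?_
    · exact this
    · intro m _
      have hcm : Tendsto (fun j => x (s.z j) m) (Rt t s.z i) (𝓝 (x (s.z i) m)) :=
        (((continuous_apply m).comp hx).tendsto (s.z i)).comp (Rt_tendsto t s.z i)
      have := hcm.eventually ((isOpen_discrete ({x (s.z i) m} : Set ℕ)).mem_nhds rfl)
      exact this
  have := hG.rt_neBot h.zG i
  obtain ⟨j, ⟨hj1, hj2⟩, hj3, hj4⟩ := ((e1.and e2).and (e3.and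
    (Rt_le t s.z i (eventually_gt_atTop N)))).exists
  have hj4' : N < j := hj4
  set z' : ℕ → P := fun k => s.z (Equiv.swap N j k) with hz'
  have hz'G : z' ∈ G := hG.swap s.z h.zG N j
  have hz'l : ∀ l < N, z' l = s.z l := by
    intro l hl
    simp only [hz']
    rw [Equiv.swap_apply_of_ne_of_ne (by omega) (by omega)]
  have hz'N : z' N = s.z j := by simp only [hz', Equiv.swap_apply_left]
  have hsum' : ∑ k ∈ Finset.range (N + 1), w' k ≤ 1 := by rw [hs.sum]; exact h.sum
  have hw'nn : ∀ k < N + 1, 0 ≤ w' k := by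
    intro k hk
    by_cases hkN : k = N
    · rw [hkN, hs.new]; linarith
    · have hk' : k < N := by omega
      exact (h.βpos k hk').le.trans (hβw k hk')
  obtain ⟨b, hb1, hb2, hb3, hb4⟩ := rat_sep (x := x) (t := t) hE (N := N + 1) (w := w')
    (l := N) (by omega) z' hw'nn hsum' (le_refl (0 : ℚ)) (u' := γ' N) (by rw [hγN]; linarith)
    (by
      rw [hγN, hs.new]
      have := h.γw i hi
      linarith) hj2
  have hη : 0 < |Ph E x t (N + 1) w' (sg N 0) N z' - Ph E x t (N + 1) w' (sg N b) N z'| :=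
    abs_pos.mpr (sub_ne_zero.mpr hb3.symm)
  refine ⟨⟨z', w', fun k => if k = N then b else s.β k, γ',
    fun k => if k = N then
      |Ph E x t (N + 1) w' (sg N 0) N z' - Ph E x t (N + 1) w' (sg N b) N z'| / 2
      else s.η k⟩, ?_, ?_⟩
  · refine ⟨hz'G, hsum', ?_, ?_, ?_, ?_, ?_, ?_⟩
    · intro l hl
      show 0 < (if l = N then b else s.β l)
      by_cases hlN : l = N
      · rw [if_pos hlN]; exact hb1
      · rw [if_neg hlN]; exact h.βpos l (by omega)
    · intro l hl
      show (if l = N then b else s.β l) < γ' l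
      by_cases hlN : l = N
      · rw [if_pos hlN, hlN]; exact hb2
      · rw [if_neg hlN]; exact hβγ' l (by omega)
    · intro l hl
      show γ' l ≤ w' l
      by_cases hlN : l = N
      · rw [hlN, hγN, hs.new]
        have := h.γw i hi
        linarith
      · exact hγw' l (by omega)
    · intro l hl
      show 0 < (if l = N then _ else s.η l)
      by_cases hlN : l = N
      · rw [if_pos hlN]; linarith
      · rw [if_neg hlN]; exact h.ηpos l (by omega)
    · intro l hl
      show (if l = N then _ else s.η l) < |Ph E x t (N + 1) w' (sg l 0) l z' -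
        Ph E x t (N + 1) w' (sg l (if l = N then b else s.β l)) l z'|
      by_cases hlN : l = N
      · rw [if_pos hlN, if_pos hlN, hlN]; linarith
      · rw [if_neg hlN, if_neg hlN]; exact (hj1 l (by omega)).1
    · intro l hl
      show Ph E x t (N + 1) w' (sg l (if l = N then b else s.β l)) l z' ≠
        Ph E x t (N + 1) w' (sg l (γ' l)) l z'
      by_cases hlN : l = N
      · rw [if_pos hlN, hlN]; exact hb4
      · rw [if_neg hlN]; exact (hj1 l (by omega)).2
  · refine ⟨hz'l, ?_, ?_, ?_⟩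
    · intro l hl
      show (if l = N then b else s.β l) = _
      rw [if_neg (by omega)]
    · intro l hl
      show (if l = N then _ else s.η l) = _
      rw [if_neg (by omega)]
    · intro m hm
      show x (z' N) m = _
      rw [hz'N]
      exact hj3 m hm

end

end Pool.Agent.H479R3.RC
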