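import Pool.Agent.H479R3.RC8

set_option autoImplicit false
set_option linter.unusedSectionVars false

open Filter Topology Set

namespace Pool.Agent.H479R3.RC

section
variable {P : Type} [MetricSpace P] [CompleteSpace P] [SecondCountableTopology P]
variable [MeasurableSpace P] [BorelSpace P]
variable {E : (ℕ → ℕ) → (ℝ → ℝ) → ℝ} {x : P → (ℕ → ℕ)} {t : P → ℝ} {G : Set (ℕ → P)}

theorem no_package (hG : Gen E x t G) (hE : ∀ y, ContinuousOn (E y) Mon) (ht : Continuous t)
    (hx : Continuous x) (hsep : ∀ p : P, E (x p) (st1 (t p) 1 0) ≠ E (x p) (st1 (t p) 1 1))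
    (hSC : ∀ g ∈ Mon, SC (fun y => E y g)) : False := by
  classical
  obtain ⟨s0, hs0⟩ := Inv.init hG hE hsep
  have : Nonempty (Dat P) := ⟨s0⟩
  have hstep : ∀ (n : ℕ) (s : Dat P), Inv E x t G (n + 1) s →
      ∃ s' : Dat P, Inv E x t G (n + 1 + 1) s' ∧ Ext x (n + 1) (Nat.unpair n).1 s s' :=
    fun n s hs => hs.step hG hE ht hx (Nat.lt_succ_of_le (Nat.unpair_left_le n))
  choose! F hF1 hF2 using hstep
  set f : ℕ → Dat P := fun n => Nat.rec s0 (fun n s => F n s) n with hfdef
  have hf : ∀ n, Inv E x t G (n + 1) (f n) := by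
    intro n
    induction n with
    | zero => exact hs0
    | succ n ih => exact hF1 n (f n) ih
  have hext : ∀ n, Ext x (n + 1) (Nat.unpair n).1 (f n) (f (n + 1)) :=
    fun n => hF2 n (f n) (hf n)
  have hstab : ∀ l n, l ≤ n → (f n).z l = (f l).z l ∧ (f n).β l = (f l).β l ∧
      (f n).η l = (f l).η l := by
    intro l n hln
    induction n, hln using Nat.le_induction with
    | base => exact ⟨rfl, rfl, rfl⟩
    | succ n hn ih =>
      have h1 := hext n
      exact ⟨(h1.z l (by omega)).trans ih.1, (h1.β l (by omega)).trans ih.2.1,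
        (h1.η l (by omega)).trans ih.2.2⟩
  set X : ℕ → (ℕ → ℕ) := fun l => x ((f l).z l) with hX
  set vc : (ℕ → Bool) → ℕ → ℚ := fun c l => if c l then (f l).β l else 0 with hvc
  have hadm : ∀ c n, Adm (n + 1) (f n).w (vc c) := by
    intro c n
    refine ⟨?_, ?_, (hf n).sum⟩
    · intro l hl
      have h1 := (hf n).βpos l hl
      rw [(hstab l n (by omega)).2.1] at h1
      simp only [hvc]
      split_ifs
      · exact h1.le
      · exact le_rfl
    · intro l hl
      have h1 := (hf n).βpos l hl
      have h2 := (hf n).βγ l hl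
      have h3 := (hf n).γw l hl
      rw [(hstab l n (by omega)).2.1] at h1 h2
      simp only [hvc]
      split_ifs
      · linarith
      · linarith
  set g : (ℕ → Bool) → ℕ → (ℝ → ℝ) := fun c n => st (n + 1) (fun l => ((f n).w l : ℝ))
    (fun l => (vc c l : ℝ)) (fun l => t ((f n).z l)) with hg
  have hgM : ∀ c n, g c n ∈ Mon := fun c n => (hadm c n).mem _
  have hval : ∀ c l n, l ≤ n → E (X l) (g c n) =
      Ph E x t (n + 1) (f n).w (sg l (vc c l)) l (f n).z := by
    intro c l n hln
    rw [← hG.free hE ht (hf n).zG (hadm c n) l]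
    unfold Ph
    simp only [hX, hg]
    rw [(hstab l n hln).1]
  have hlimex : ∀ c, ∃ h ∈ Mon, Tendsto (g c) (hyperfilter ℕ : Filter ℕ) (𝓝 h) := by
    intro c
    have h1 := isCompact_Mon.ultrafilter_le_nhds ((hyperfilter ℕ).map (g c)) (by
      rw [le_principal_iff]
      show ∀ᶠ n in (hyperfilter ℕ : Filter ℕ), g c n ∈ Mon
      exact Eventually.of_forall (hgM c))
    exact h1
  choose H hHM hHlim using hlimex
  have hElim : ∀ c l, Tendsto (fun n => E (X l) (g c n)) (hyperfilter ℕ : Filter ℕ)
      (𝓝 (E (X l) (H c))) := fun c l =>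
    E_tendsto hE (hHlim c) (Eventually.of_forall (hgM c)) (hHM c) (X l)
  have hge : ∀ l, ∀ᶠ n in (hyperfilter ℕ : Filter ℕ), l ≤ n := fun l =>
    Nat.hyperfilter_le_atTop (eventually_ge_atTop l)
  refine final_contra hSC X H hHM ?_ ?_ (fun q => Nat.bodd (Nat.unpair (q - 1)).2) ?_
  · intro l c c' hcc
    refine tendsto_nhds_unique (hElim c l) ((hElim c' l).congr' ?_)
    filter_upwards [hge l] with n hn
    rw [hval c l n hn, hval c' l n hn]
    simp only [hvc, hcc]
  · intro l heq
    have h1 := ((hElim (fun _ => false) l).sub (hElim (fun _ => true) l)).abs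
    rw [heq, sub_self, abs_zero] at h1
    have h2 : (f l).η l ≤ 0 := by
      refine ge_of_tendsto h1 ?_
      filter_upwards [hge l] with n hn
      rw [hval _ l n hn, hval _ l n hn]
      have h3 := (hf n).gap l (by omega)
      rw [(hstab l n hn).2.1, (hstab l n hn).2.2] at h3
      have h4 : vc (fun _ => false) l = 0 := by simp [hvc]
      have h5 : vc (fun _ => true) l = (f l).β l := by simp [hvc]
      rw [h4, h5]
      exact h3.le
    have h6 := (hf l).ηpos l (by omega)
    linarith
  · intro l b m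
    set n := Nat.pair l (Nat.bit b m) with hn
    have hun : Nat.unpair n = (l, Nat.bit b m) := Nat.unpair_pair _ _
    have hln : l ≤ n := Nat.left_le_pair _ _
    have hmn : m ≤ n := by
      have h1 : Nat.bit b m ≤ n := Nat.right_le_pair _ _
      have h2 : m ≤ Nat.bit b m := by
        cases b <;> simp [Nat.bit] <;> omega
      omega
    refine ⟨n + 1, ?_, ?_⟩
    · show Nat.bodd (Nat.unpair (n + 1 - 1)).2 = b
      rw [Nat.add_sub_cancel, hun]
      exact Nat.bodd_bit b m
    · intro k hk
      have h1 := (hext n).near k (by omega)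
      rw [hun] at h1
      show x ((f (n + 1)).z (n + 1)) k = x ((f l).z l) k
      rw [h1]
      show x ((f n).z l) k = _
      rw [(hstab l n hln).1]

end

end Pool.Agent.H479R3.RC
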