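import Mathlib

set_option autoImplicit false

/-!
A Tychonoff space which is not sequential, but on which every sequentially continuous real-valued
function is continuous.
-/

namespace Pool.Agent.H479R3.SR

open Filter Topology Set

/-- The points of the space. -/
inductive Pt : Type
  | iso (a : ℝ) (n : ℕ) : Pt
  | q (n : ℕ) : Pt
  | r (a : ℝ) : Pt
  | p : Pt

open Pt

/-- The real functions which will be the continuous ones. -/
structure Good (f : Pt → ℝ) : Prop where
  h1 : ∀ n, Tendsto (fun a => f (iso a n)) cofinite (𝓝 (f (q n)))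
  h2 : ∀ a, Tendsto (fun n => f (iso a n)) atTop (𝓝 (f (r a)))
  h3 : Tendsto (fun n => f (q n)) atTop (𝓝 (f p))

/-- The evaluation map. -/
def ev (x : Pt) : {f : Pt → ℝ // Good f} → ℝ := fun f => f.1 x

instance : TopologicalSpace Pt := TopologicalSpace.induced ev inferInstance

theorem inducing_ev : IsInducing ev := ⟨rfl⟩

theorem continuous_of_good {f : Pt → ℝ} (hf : Good f) : Continuous f :=
  (continuous_apply (⟨f, hf⟩ : {f : Pt → ℝ // Good f})).comp inducing_ev.continuous

theorem tendsto_iff {u : ℕ → Pt} {x : Pt} :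
    Tendsto u atTop (𝓝 x) ↔ ∀ f : Pt → ℝ, Good f → Tendsto (fun k => f (u k)) atTop (𝓝 (f x)) := by
  rw [inducing_ev.tendsto_nhds_iff, tendsto_pi_nhds]
  constructor
  · intro h f hf
    exact h ⟨f, hf⟩
  · rintro h ⟨f, hf⟩
    exact h f hf

open Classical in
theorem good_iso (a : ℝ) (n : ℕ) : Good (fun x => if x = iso a n then 1 else 0) where
  h1 m := by
    simp only [reduceCtorEq, if_false]
    apply tendsto_const_nhds.congr'
    have : {a}ᶜ ∈ (cofinite : Filter ℝ) := (Set.finite_singleton a).compl_mem_cofinite
    filter_upwards [this] with b hb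
    rw [if_neg]
    intro h
    injection h with h1 h2
    exact hb h1
  h2 b := by
    simp only [reduceCtorEq, if_false]
    apply tendsto_const_nhds.congr'
    filter_upwards [eventually_gt_atTop n] with m hm
    rw [if_neg]
    intro h
    injection h with h1 h2
    omega
  h3 := by simp

/-- The `n`-th column. -/
def col (n : ℕ) : Pt → ℝ
  | iso _ m => if m = n then 1 else 0
  | q m => if m = n then 1 else 0
  | r _ => 0
  | p => 0

theorem good_col (n : ℕ) : Good (col n) where
  h1 m := by
    simp only [col]
    exact tendsto_const_nhds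
  h2 b := by
    simp only [col]
    apply tendsto_const_nhds.congr'
    filter_upwards [eventually_gt_atTop n] with m hm
    rw [if_neg (by omega)]
  h3 := by
    simp only [col]
    apply tendsto_const_nhds.congr'
    filter_upwards [eventually_gt_atTop n] with m hm
    rw [if_neg (by omega)]

open Classical in
/-- A function separating `p` from a countable subset of the top edge. -/
noncomputable def sep (s : ℕ → ℝ) : Pt → ℝ
  | iso a m => if ∃ k ≤ m, s k = a then 1 else 0
  | q _ => 0
  | r a => if ∃ k, s k = a then 1 else 0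
  | p => 0

theorem good_sep (s : ℕ → ℝ) : Good (sep s) where
  h1 m := by
    simp only [sep]
    apply tendsto_const_nhds.congr'
    have : (s '' (Iic m))ᶜ ∈ (cofinite : Filter ℝ) :=
      ((Set.finite_Iic m).image s).compl_mem_cofinite
    filter_upwards [this] with b hb
    rw [if_neg]
    rintro ⟨k, hk, h⟩
    exact hb ⟨k, hk, h⟩
  h2 b := by
    simp only [sep]
    by_cases h : ∃ k, s k = b
    · rw [if_pos h]
      obtain ⟨k, hk⟩ := h
      apply tendsto_const_nhds.congr'
      filter_upwards [eventually_ge_atTop k] with m hm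
      rw [if_pos ⟨k, hm, hk⟩]
    · rw [if_neg h]
      apply tendsto_const_nhds.congr'
      filter_upwards with m
      rw [if_neg]
      rintro ⟨k, _, hk⟩
      exact h ⟨k, hk⟩
  h3 := by simp [sep]

/-- Functions separating points. -/
theorem exists_good_ne {x y : Pt} (h : x ≠ y) : ∃ f, Good f ∧ f x ≠ f y := by
  classical
  rcases x with ⟨a, n⟩ | n | a | _
  · refine ⟨_, good_iso a n, ?_⟩
    simp [Ne.symm h]
  · rcases y with ⟨b, m⟩ | m | b | _
    · refine ⟨_, good_iso b m, ?_⟩
      simp
    · refine ⟨_, good_col n, ?_⟩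
      have : m ≠ n := by rintro rfl; exact h rfl
      simp [col, this]
    · refine ⟨_, good_col n, ?_⟩
      simp [col]
    · refine ⟨_, good_col n, ?_⟩
      simp [col]
  · rcases y with ⟨b, m⟩ | m | b | _
    · refine ⟨_, good_iso b m, ?_⟩
      simp
    · refine ⟨_, good_col m, ?_⟩
      simp [col]
    · refine ⟨_, good_sep (fun _ => a), ?_⟩
      have : a ≠ b := by rintro rfl; exact h rfl
      simp [sep, this]
    · refine ⟨_, good_sep (fun _ => a), ?_⟩
      simp [sep]
  · rcases y with ⟨b, m⟩ | m | b | _
    · refine ⟨_, good_iso b m, ?_⟩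
      simp
    · refine ⟨_, good_col m, ?_⟩
      simp [col]
    · refine ⟨_, good_sep (fun _ => b), ?_⟩
      simp [sep]
    · exact absurd rfl h

theorem injective_ev : Function.Injective ev := by
  intro x y hxy
  by_contra h
  obtain ⟨f, hf, hne⟩ := exists_good_ne h
  exact hne (congrFun hxy ⟨f, hf⟩)

instance : T35Space Pt := (IsEmbedding.mk inducing_ev injective_ev).t35Space

/-- Every sequentially continuous real function is continuous. -/
theorem continuous_of_seq {g : Pt → ℝ}
    (hg : ∀ (u : ℕ → Pt) (x : Pt), Tendsto u atTop (𝓝 x) →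
      Tendsto (fun k => g (u k)) atTop (𝓝 (g x))) : Continuous g := by
  apply continuous_of_good
  refine ⟨fun n => ?_, fun a => ?_, ?_⟩
  · by_contra hcon
    rw [Filter.not_tendsto_iff_exists_frequently_notMem] at hcon
    obtain ⟨V, hV, hfr⟩ := hcon
    rw [Filter.frequently_cofinite_iff_infinite] at hfr
    let s : ℕ → ℝ := fun k => (hfr.natEmbedding _ k : ℝ)
    have hs : Function.Injective s :=
      Subtype.val_injective.comp (hfr.natEmbedding _).injective
    have hsV : ∀ k, g (iso (s k) n) ∉ V := fun k => (hfr.natEmbedding _ k).2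
    have hlim : Tendsto (fun k => iso (s k) n) atTop (𝓝 (q n)) := by
      rw [tendsto_iff]
      intro f hf
      have h2 : Tendsto s atTop cofinite := by
        rw [← Nat.cofinite_eq_atTop]
        exact hs.tendsto_cofinite
      exact (hf.h1 n).comp h2
    have := (hg _ _ hlim).eventually hV
    obtain ⟨k, hk⟩ := this.exists
    exact hsV k hk
  · apply hg
    rw [tendsto_iff]
    exact fun f hf => hf.h2 a
  · apply hg
    rw [tendsto_iff]
    exact fun f hf => hf.h3

/-- The top edge. -/
def K : Set Pt := range r

theorem good_eq {f : Pt → ℝ} (hf : Good f) : {a : ℝ | f (r a) ≠ f p}.Countable := by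
  have h1 : ∀ n, {a : ℝ | f (iso a n) ≠ f (q n)}.Countable := by
    intro n
    have : ∀ k : ℕ, {a : ℝ | ¬ |f (iso a n) - f (q n)| < 1 / ((k : ℝ) + 1)}.Finite := by
      intro k
      have := (hf.h1 n).eventually (Metric.ball_mem_nhds _
        (show (0 : ℝ) < 1 / ((k : ℝ) + 1) by positivity))
      simpa [Filter.eventually_cofinite, Metric.mem_ball, Real.dist_eq] using this
    apply (Set.countable_iUnion fun k => (this k).countable).mono
    intro a ha
    have hpos : 0 < |f (iso a n) - f (q n)| := abs_pos.2 (sub_ne_zero.2 ha)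
    obtain ⟨k, hk⟩ := exists_nat_one_div_lt hpos
    exact mem_iUnion.2 ⟨k, not_lt.2 hk.le⟩
  apply (Set.countable_iUnion h1).mono
  intro a ha
  by_contra hcon
  simp only [mem_iUnion, mem_ofPred_eq, not_exists, not_not] at hcon
  apply ha
  have h2 := hf.h2 a
  simp only [hcon] at h2
  exact tendsto_nhds_unique h2 hf.h3

theorem p_mem_closure : p ∈ closure K := by
  rw [mem_closure_iff_nhds]
  intro W hW
  rw [inducing_ev.nhds_eq_comap, mem_comap] at hW
  obtain ⟨V, hV, hVW⟩ := hW
  rw [nhds_pi, Filter.mem_pi] at hV
  obtain ⟨I, hI, t, ht, htV⟩ := hV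
  have hc : (⋃ f ∈ I, {a : ℝ | f.1 (r a) ≠ f.1 p}).Countable :=
    hI.countable.biUnion fun f _ => good_eq f.2
  have hne : (⋃ f ∈ I, {a : ℝ | f.1 (r a) ≠ f.1 p}) ≠ univ := by
    intro h
    rw [h] at hc
    exact Cardinal.not_countable_real hc
  obtain ⟨a, ha⟩ := (Set.ne_univ_iff_exists_notMem _).1 hne
  refine ⟨r a, hVW (htV ?_), mem_range_self a⟩
  intro f hf
  have : f.1 (r a) = f.1 p := by
    by_contra h
    exact ha (mem_biUnion hf h)
  change f.1 (r a) ∈ t f
  rw [this]
  exact mem_of_mem_nhds (ht f)

theorem seqClosed_K : IsSeqClosed K := by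
  classical
  intro u x hu hux
  choose s hs using hu
  have hux' := tendsto_iff.1 hux
  rcases x with ⟨a, n⟩ | n | a | _
  · exfalso
    have h := hux' _ (good_iso a n)
    simp only [← hs] at h
    simp only [reduceCtorEq, if_false, if_true] at h
    exact zero_ne_one (tendsto_nhds_unique tendsto_const_nhds h)
  · exfalso
    have h := hux' _ (good_col n)
    simp only [← hs, col, if_true] at h
    exact zero_ne_one (tendsto_nhds_unique tendsto_const_nhds h)
  · exact mem_range_self a
  · exfalso
    have h := hux' _ (good_sep s)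
    simp only [← hs] at h
    have h' : ∀ k, sep s (r (s k)) = 1 := fun k => by
      simp only [sep]
      rw [if_pos ⟨k, rfl⟩]
    simp only [h'] at h
    simp only [sep] at h
    exact one_ne_zero (tendsto_nhds_unique tendsto_const_nhds h)

theorem not_sequential : ¬ SequentialSpace Pt := by
  intro h
  have h1 : IsClosed K := seqClosed_K.isClosed
  have h2 := p_mem_closure
  rw [h1.closure_eq] at h2
  obtain ⟨a, ha⟩ := h2
  exact absurd ha (by simp)

end Pool.Agent.H479R3.SR
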