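import Mathlib

set_option autoImplicit false

/-!
If every sequentially continuous real-valued function on `X` is continuous, then the finest group
topology making a map `i` continuous is determined by its null sequences.
-/

namespace Pool.Agent.H479R3.SRGroup

open Filter Topology Set

/-- A topological group is a completely regular space. -/
theorem completelyRegular_group {G : Type} [Group G] [t : TopologicalSpace G]
    [IsTopologicalGroup G] : CompletelyRegularSpace G := by
  let u : UniformSpace G := IsTopologicalGroup.rightUniformSpace G
  exact @UniformSpace.toCompletelyRegularSpace G u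

/-- A sequentially continuous map into a topological group is continuous, if this holds for all
real-valued functions. -/
theorem continuous_of_seq {X G : Type} [TopologicalSpace X] [Group G] [TopologicalSpace G]
    [IsTopologicalGroup G]
    (hX : ∀ g : X → ℝ, (∀ (u : ℕ → X) (x : X), Tendsto u atTop (𝓝 x) →
      Tendsto (fun k => g (u k)) atTop (𝓝 (g x))) → Continuous g)
    (i : X → G) (hi : ∀ (u : ℕ → X) (x : X), Tendsto u atTop (𝓝 x) →
      Tendsto (fun k => i (u k)) atTop (𝓝 (i x))) : Continuous i := by
  have hcr : CompletelyRegularSpace G := completelyRegular_group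
  rw [continuous_iff_continuousAt]
  intro x
  rw [ContinuousAt, tendsto_def]
  intro W hW
  obtain ⟨V, hVW, hVo, hxV⟩ := mem_nhds_iff.1 hW
  obtain ⟨f, hf, hfx, hfV⟩ := CompletelyRegularSpace.completely_regular (i x) Vᶜ
    hVo.isClosed_compl (by simpa using hxV)
  have hcont : Continuous (fun y : X => ((f (i y) : unitInterval) : ℝ)) := by
    apply hX
    intro u y hu
    exact ((continuous_subtype_val.comp hf).tendsto (i y)).comp (hi u y hu)
  have hopen : IsOpen {y : X | ((f (i y) : unitInterval) : ℝ) < 1} :=
    isOpen_lt hcont continuous_const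
  apply mem_of_superset (hopen.mem_nhds (by simp [hfx]))
  intro y hy
  apply hVW
  by_contra hyV
  have : f (i y) = 1 := hfV hyV
  simp [this] at hy

theorem tendsto_aux {G : Type} [Group G] [TopologicalSpace G] [IsTopologicalGroup G]
    (u : ℕ → G) (x : G) (h : Tendsto u atTop (𝓝 x)) :
    Tendsto (fun k => x⁻¹ * u k) atTop (𝓝 1) := by
  have h3 := h.const_mul x⁻¹
  rwa [inv_mul_cancel] at h3

theorem main {X G : Type} [TopologicalSpace X] [Group G]
    (hX : ∀ g : X → ℝ, (∀ (u : ℕ → X) (x : X), Tendsto u atTop (𝓝 x) →
      Tendsto (fun k => g (u k)) atTop (𝓝 (g x))) → Continuous g)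
    (i : X → G) :
    ∃ S : Set (ℕ → G),
      (∀ u ∈ S, Tendsto u atTop (@nhds _ (GroupTopology.coinduced i).toTopologicalSpace 1)) ∧
      (GroupTopology.coinduced i).toTopologicalSpace = (sInf {t : GroupTopology G |
        ∀ u ∈ S, Tendsto u atTop (@nhds _ t.toTopologicalSpace 1)}).toTopologicalSpace := by
  refine ⟨{u | Tendsto u atTop (@nhds _ (GroupTopology.coinduced i).toTopologicalSpace 1)},
    fun u hu => hu, ?_⟩
  set S : Set (ℕ → G) :=
    {u | Tendsto u atTop (@nhds _ (GroupTopology.coinduced i).toTopologicalSpace 1)} with hS
  set σ : GroupTopology G := sInf {t : GroupTopology G |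
        ∀ u ∈ S, Tendsto u atTop (@nhds _ t.toTopologicalSpace 1)} with hσ
  apply le_antisymm
  · -- the identity is continuous from the coinduced topology
    rw [GroupTopology.toTopologicalSpace_le]
    apply sInf_le
    rw [mem_ofPred_eq, ← continuous_iff_coinduced_le]
    let _ : TopologicalSpace G := σ.toTopologicalSpace
    have _ : IsTopologicalGroup G := σ.toIsTopologicalGroup
    apply continuous_of_seq hX i
    intro u x hu
    have h1 : Tendsto (fun k => (i x)⁻¹ * i (u k)) atTop
        (@nhds _ (GroupTopology.coinduced i).toTopologicalSpace 1) := by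
      let τ : TopologicalSpace G := (GroupTopology.coinduced i).toTopologicalSpace
      have _ : @IsTopologicalGroup G τ _ := (GroupTopology.coinduced i).toIsTopologicalGroup
      have hc : @Continuous X G _ τ i := GroupTopology.coinduced_continuous i
      have h2 : Tendsto (fun k => i (u k)) atTop (@nhds G τ (i x)) :=
        (@Continuous.tendsto X G _ τ i hc x).comp hu
      exact @tendsto_aux G _ τ _ _ _ h2
    have h4 : Tendsto (fun k => (i x)⁻¹ * i (u k)) atTop (@nhds _ σ.toTopologicalSpace 1) := by
      rw [hσ, GroupTopology.toTopologicalSpace_sInf, nhds_sInf]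
      rw [tendsto_iInf]
      intro t
      rw [tendsto_iInf]
      rintro ⟨t', ht', rfl⟩
      exact ht' _ h1
    have h5 := h4.const_mul (i x)
    simpa using h5
  · rw [GroupTopology.toTopologicalSpace_le]
    apply sInf_le
    intro u hu
    exact hu

end Pool.Agent.H479R3.SRGroup
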