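import Mathlib

set_option autoImplicit false

/-!
The Wijsman topology on the hyperspace of nonempty closed subsets of a metric space.
-/

universe u

namespace Pool.Agent.H479R3.Wij

open Set Topology Filter Metric

/-- The hyperspace of nonempty closed subsets of `X`. -/
def Hyp (X : Type u) [TopologicalSpace X] : Type u := {A : Set X // IsClosed A ∧ A.Nonempty}

/-- The Wijsman topology of the metric space `X`: the weakest topology on the set of nonempty
closed subsets of `X` for which all maps `A ↦ d(x, A)`, `x ∈ X`, are continuous. -/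
noncomputable instance wijsmanTopology (X : Type u) [MetricSpace X] : TopologicalSpace (Hyp X) :=
  ⨅ x : X, TopologicalSpace.induced (fun A : Hyp X => Metric.infDist x A.1) inferInstance

variable {X : Type u} [MetricSpace X]

theorem inducing : IsInducing (fun (A : Hyp X) (x : X) => infDist x A.1) :=
  inducing_iInf_to_pi (fun (x : X) (A : Hyp X) => infDist x A.1)

theorem continuous_infDist' (x : X) : Continuous (fun A : Hyp X => infDist x A.1) :=
  (continuous_apply x).comp inducing.continuous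

instance : CompletelyRegularSpace (Hyp X) := inducing.completelyRegularSpace

/-- The basic nondegenerate neighbourhoods. -/
theorem exists_basic {A : Hyp X} {U : Set (Hyp X)} (hU : U ∈ 𝓝 A) :
    ∃ T : Set X, T.Finite ∧ ∃ ε > 0, ∀ A' : Hyp X,
      (∀ x ∈ T, |infDist x A'.1 - infDist x A.1| < ε) → A' ∈ U := by
  rw [inducing.nhds_eq_comap, mem_comap] at hU
  obtain ⟨V, hV, hVU⟩ := hU
  rw [nhds_pi, Filter.mem_pi] at hV
  obtain ⟨I, hI, t, ht, htV⟩ := hV
  have : ∀ i, ∃ ε > 0, ball (infDist i A.1) ε ⊆ t i := fun i => Metric.mem_nhds_iff.1 (ht i)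
  choose e he het using this
  obtain ⟨ε, hε, hεle⟩ : ∃ ε > 0, ∀ i ∈ I, ε ≤ e i := by
    rcases I.eq_empty_or_nonempty with rfl | hne
    · exact ⟨1, one_pos, by simp⟩
    · obtain ⟨i, hi, hmin⟩ := hI.exists_minimalFor e I hne
      refine ⟨e i, he i, fun j hj => ?_⟩
      by_contra hlt
      exact hlt (hmin hj (not_le.1 hlt).le)
  refine ⟨I, hI, ε, hε, fun A' hA' => hVU (htV fun i hi => het i ?_)⟩
  rw [mem_ball, Real.dist_eq]
  exact (hA' i hi).trans_le (hεle i hi)

theorem mem_closure_of {A : Hyp X} {W : Set (Hyp X)}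
    (h : ∀ T : Set X, T.Finite → ∀ ε > 0, ∃ A' ∈ W, ∀ x ∈ T,
      |infDist x A'.1 - infDist x A.1| < ε) : A ∈ closure W := by
  rw [mem_closure_iff_nhds]
  intro U hU
  obtain ⟨T, hT, ε, hε, hTU⟩ := exists_basic hU
  obtain ⟨A', hA', hx⟩ := h T hT ε hε
  exact ⟨A', hTU A' hx, hA'⟩

/-- The set of points allowed by the miss constraints `D`. -/
def S (D : Set (X × ℝ)) : Set X := {x | ∀ p ∈ D, p.2 < dist p.1 x}

/-- The basic sets: hit each member of `C` and satisfy all constraints `D`. -/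
def Bas (C : Set (Set X)) (D : Set (X × ℝ)) : Set (Hyp X) :=
  {A | (∀ G ∈ C, (A.1 ∩ G).Nonempty) ∧ ∀ p ∈ D, p.2 < infDist p.1 A.1}

theorem isOpen_S {D : Set (X × ℝ)} (hD : D.Finite) : IsOpen (S D) := by
  have : S D = ⋂ p ∈ D, {x | p.2 < dist p.1 x} := by
    ext x; simp [S]
  rw [this]
  exact hD.isOpen_biInter fun p _ => isOpen_lt continuous_const (continuous_const.dist continuous_id)

theorem isOpen_hit {G : Set X} (hG : IsOpen G) : IsOpen {A : Hyp X | (A.1 ∩ G).Nonempty} := by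
  rw [isOpen_iff_mem_nhds]
  rintro A ⟨a, haA, haG⟩
  obtain ⟨ε, hε, hball⟩ := Metric.isOpen_iff.1 hG a haG
  have hopen : IsOpen {A' : Hyp X | infDist a A'.1 < ε} :=
    isOpen_lt (continuous_infDist' a) continuous_const
  apply mem_of_superset (hopen.mem_nhds (by
    change infDist a A.1 < ε
    rw [infDist_zero_of_mem haA]; exact hε))
  intro A' hA'
  obtain ⟨y, hyA, hy⟩ := (infDist_lt_iff A'.2.2).1 hA'
  exact ⟨y, hyA, hball (by rw [mem_ball, dist_comm]; exact hy)⟩

theorem isOpen_Bas {C : Set (Set X)} {D : Set (X × ℝ)} (hC : C.Finite) (hCo : ∀ G ∈ C, IsOpen G)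
    (hD : D.Finite) : IsOpen (Bas C D) := by
  have : Bas C D = (⋂ G ∈ C, {A : Hyp X | (A.1 ∩ G).Nonempty}) ∩
      ⋂ p ∈ D, {A : Hyp X | p.2 < infDist p.1 A.1} := by
    ext A; simp [Bas]
  rw [this]
  exact (hC.isOpen_biInter fun G hG => isOpen_hit (hCo G hG)).inter
    (hD.isOpen_biInter fun p _ => isOpen_lt continuous_const (continuous_infDist' p.1))

/-- Finite sets as members of the hyperspace. -/
def fin (F : Set X) (hF : F.Finite) (hne : F.Nonempty) : Hyp X := ⟨F, hF.isClosed, hne⟩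

theorem lt_infDist_of_finite {F : Set X} (hF : F.Finite) (hne : F.Nonempty) {y : X} {t : ℝ}
    (h : ∀ x ∈ F, t < dist y x) : t < infDist y F := by
  obtain ⟨x, hx, hxe⟩ := hF.isCompact.exists_infDist_eq_dist hne y
  rw [hxe]
  exact h x hx

theorem fin_mem_Bas {C : Set (Set X)} {D : Set (X × ℝ)} {F : Set X} (hF : F.Finite)
    (hne : F.Nonempty) (hC : ∀ G ∈ C, (F ∩ G).Nonempty) (hD : F ⊆ S D) :
    fin F hF hne ∈ Bas C D :=
  ⟨hC, fun p hp => lt_infDist_of_finite hF hne fun _ hx => hD hx p hp⟩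

theorem subset_S {C : Set (Set X)} {D : Set (X × ℝ)} {A : Hyp X} (hA : A ∈ Bas C D) :
    A.1 ⊆ S D := fun _ hx p hp => (hA.2 p hp).trans_le (infDist_le_dist_of_mem hx)

/-- Every neighbourhood of `A` contains a basic set containing `A`. -/
theorem exists_Bas {A : Hyp X} {U : Set (Hyp X)} (hU : U ∈ 𝓝 A) :
    ∃ (C : Set (Set X)) (D : Set (X × ℝ)), C.Finite ∧ C.Nonempty ∧ (∀ G ∈ C, IsOpen G) ∧
      D.Finite ∧ A ∈ Bas C D ∧ Bas C D ⊆ U := by
  obtain ⟨T, hT, ε, hε, hTU⟩ := exists_basic hU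
  refine ⟨insert univ ((fun x => ball x (infDist x A.1 + ε)) '' T),
    (fun x => (x, infDist x A.1 - ε)) '' T, (hT.image _).insert _, insert_nonempty _ _, ?_,
    hT.image _, ⟨?_, ?_⟩, ?_⟩
  · rintro G (rfl | ⟨x, hx, rfl⟩)
    · exact isOpen_univ
    · exact isOpen_ball
  · rintro G (rfl | ⟨x, hx, rfl⟩)
    · rw [inter_univ]; exact A.2.2
    · obtain ⟨y, hyA, hy⟩ := (infDist_lt_iff A.2.2).1 (lt_add_of_pos_right (infDist x A.1) hε)
      exact ⟨y, hyA, by rw [mem_ball, dist_comm]; exact hy⟩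
  · rintro p ⟨x, hx, rfl⟩
    change infDist x A.1 - ε < infDist x A.1
    linarith
  · intro A' hA'
    apply hTU
    intro x hx
    rw [abs_lt]
    constructor
    · have := hA'.2 _ ⟨x, hx, rfl⟩
      change infDist x A.1 - ε < infDist x A'.1 at this
      linarith
    · obtain ⟨y, hyA, hy⟩ := hA'.1 _ (mem_insert_of_mem _ ⟨x, hx, rfl⟩)
      rw [mem_ball, dist_comm] at hy
      have := infDist_le_dist_of_mem (x := x) hyA
      linarith

/-- If every member of `Bas C D` meets `G`, then `G` contains `B ∩ S D` for some `B ∈ C`. -/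
theorem exists_subset {C : Set (Set X)} {D : Set (X × ℝ)} (hC : C.Finite) (hCne : C.Nonempty)
    {G : Set X} (h : ∀ A ∈ Bas C D, (A.1 ∩ G).Nonempty) : ∃ B ∈ C, B ∩ S D ⊆ G := by
  by_contra hcon
  push Not at hcon
  have : ∀ B : Set X, ∃ x : X, B ∈ C → x ∈ B ∩ S D ∧ x ∉ G := by
    intro B
    by_cases hB : B ∈ C
    · obtain ⟨x, hx, hxG⟩ := not_subset.1 (hcon B hB)
      exact ⟨x, fun _ => ⟨hx, hxG⟩⟩
    · obtain ⟨B', hB'⟩ := hCne
      obtain ⟨x, hx, hxG⟩ := not_subset.1 (hcon B' hB')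
      exact ⟨x, fun h => absurd h hB⟩
  choose f hf using this
  have hF : (f '' C).Finite := hC.image f
  have hne : (f '' C).Nonempty := hCne.image f
  have hmem : fin (f '' C) hF hne ∈ Bas C D := by
    apply fin_mem_Bas
    · intro B hB
      exact ⟨f B, mem_image_of_mem f hB, (hf B hB).1.1⟩
    · rintro _ ⟨B, hB, rfl⟩
      exact (hf B hB).1.2
  obtain ⟨x, ⟨B, hB, rfl⟩, hxG⟩ := h _ hmem
  exact (hf B hB).2 hxG

/-- The closure of the allowed region belongs to the closure of the basic set. -/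
theorem closure_S_mem {C : Set (Set X)} {D : Set (X × ℝ)} (hC : C.Finite) (hCne : C.Nonempty)
    (hB : ∀ B ∈ C, B.Nonempty ∧ B ⊆ S D) (hne : (closure (S D)).Nonempty) :
    (⟨closure (S D), isClosed_closure, hne⟩ : Hyp X) ∈ closure (Bas C D) := by
  apply mem_closure_of
  intro T hT ε hε
  have hSne : (S D).Nonempty := closure_nonempty_iff.1 hne
  have h1 : ∀ x : X, ∃ z ∈ S D, dist x z < infDist x (S D) + ε := fun x =>
    (infDist_lt_iff hSne).1 (lt_add_of_pos_right _ hε)
  choose z hzS hz using h1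
  have h2 : ∀ B : Set X, ∃ x : X, B ∈ C → x ∈ B := by
    intro B
    by_cases hBC : B ∈ C
    · obtain ⟨x, hx⟩ := (hB B hBC).1
      exact ⟨x, fun _ => hx⟩
    · exact ⟨hSne.some, fun h => absurd h hBC⟩
  choose b hb using h2
  have hF : (z '' T ∪ b '' C).Finite := (hT.image z).union (hC.image b)
  have hne' : (z '' T ∪ b '' C).Nonempty := (hCne.image b).inr
  have hsub : z '' T ∪ b '' C ⊆ S D := by
    rintro _ (⟨x, hx, rfl⟩ | ⟨B, hBC, rfl⟩)
    · exact hzS x
    · exact (hB B hBC).2 (hb B hBC)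
  refine ⟨fin _ hF hne', fin_mem_Bas hF hne' ?_ hsub, ?_⟩
  · intro B hBC
    exact ⟨b B, Or.inr (mem_image_of_mem b hBC), hb B hBC⟩
  · intro x hx
    change |infDist x (z '' T ∪ b '' C) - infDist x (closure (S D))| < ε
    rw [infDist_closure]
    have h3 : infDist x (z '' T ∪ b '' C) < infDist x (S D) + ε :=
      (infDist_le_dist_of_mem (mem_union_left (b '' C) (mem_image_of_mem z hx))).trans_lt (hz x)
    have h4 : infDist x (S D) ≤ infDist x (z '' T ∪ b '' C) :=
      infDist_le_infDist_of_subset hsub hne'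
    rw [abs_lt]
    constructor <;> linarith

/-- A finite set picking a point of the closure of each `B ∈ C` is in the closure of the
basic set. -/
theorem image_mem_closure {C : Set (Set X)} {D : Set (X × ℝ)} (hC : C.Finite) (hCne : C.Nonempty)
    (hB : ∀ B ∈ C, B ⊆ S D) (g : Set X → X) (hg : ∀ B ∈ C, g B ∈ closure B) :
    fin (g '' C) (hC.image g) (hCne.image g) ∈ closure (Bas C D) := by
  apply mem_closure_of
  intro T hT ε hε
  have h1 : ∀ B : Set X, ∃ x : X, B ∈ C → x ∈ B ∧ dist (g B) x < ε / 2 := by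
    intro B
    by_cases hBC : B ∈ C
    · obtain ⟨x, hx, hx2⟩ := Metric.mem_closure_iff.1 (hg B hBC) (ε / 2) (by linarith)
      exact ⟨x, fun _ => ⟨hx, hx2⟩⟩
    · exact ⟨g B, fun h => absurd h hBC⟩
  choose b hb using h1
  refine ⟨fin (b '' C) (hC.image b) (hCne.image b), fin_mem_Bas _ _ ?_ ?_, ?_⟩
  · intro B hBC
    exact ⟨b B, mem_image_of_mem b hBC, (hb B hBC).1⟩
  · rintro _ ⟨B, hBC, rfl⟩
    exact hB B hBC ((hb B hBC).1)
  · intro x hx
    change |infDist x (b '' C) - infDist x (g '' C)| < ε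
    rw [abs_lt]
    constructor
    · obtain ⟨_, ⟨B, hBC, rfl⟩, he⟩ :=
        (hC.image b).isCompact.exists_infDist_eq_dist (hCne.image b) x
      rw [he]
      have h2 := infDist_le_dist_of_mem (x := x) (mem_image_of_mem g hBC)
      have h3 := dist_triangle x (b B) (g B)
      have h4 := (hb B hBC).2
      rw [dist_comm] at h4
      linarith
    · obtain ⟨_, ⟨B, hBC, rfl⟩, he⟩ :=
        (hC.image g).isCompact.exists_infDist_eq_dist (hCne.image g) x
      rw [he]
      have h2 := infDist_le_dist_of_mem (x := x) (mem_image_of_mem b hBC)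
      have h3 := dist_triangle x (g B) (b B)
      have h4 := (hb B hBC).2
      linarith

end Pool.Agent.H479R3.Wij
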