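import Mathlib
import Pool.Agent.H479R3.Wij
import Pool.Agent.H479R3.AmsDefs

set_option autoImplicit false

/-!
The Wijsman hyperspace of a pseudocomplete metric space is pseudocomplete, and the Wijsman
hyperspace of a subcompact metric space is subcompact.
-/

universe u

namespace Pool.Agent.H479R3.WijAms

open Set Topology Filter Metric Pool.Agent.H479R3.Wij Pool.Agent.H479R3.Ams

variable {X : Type u} [MetricSpace X]

theorem injective_hyp : Function.Injective (fun (A : Hyp X) (x : X) => infDist x A.1) := by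
  intro A B h
  apply Subtype.ext
  ext x
  rw [A.2.1.mem_iff_infDist_zero A.2.2, B.2.1.mem_iff_infDist_zero B.2.2]
  have := congrFun h x
  simp only at this
  rw [this]

instance : T35Space (Hyp X) := (IsEmbedding.mk inducing injective_hyp).t35Space

/-- Refining a neighbourhood to a basic set with prescribed small parts. -/
theorem exists_Bas' {A : Hyp X} {U : Set (Hyp X)} (hU : U ∈ 𝓝 A) :
    ∃ (C : Set (Set X)) (D : Set (X × ℝ)) (a : Set X → X), C.Finite ∧ C.Nonempty ∧ D.Finite ∧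
      (∀ G ∈ C, IsOpen G ∧ G ⊆ S D ∧ a G ∈ G ∧ a G ∈ A.1) ∧
      (∀ p ∈ D, p.2 < infDist p.1 A.1) ∧
      ∀ f : Set X → Set X, (∀ G ∈ C, f G ⊆ G) → Bas (f '' C) D ⊆ U := by
  obtain ⟨C0, D, hC0f, hC0ne, hC0o, hDf, hAB, hBU⟩ := exists_Bas hU
  have hAS : A.1 ⊆ S D := subset_S hAB
  set C : Set (Set X) := (fun G => G ∩ S D) '' C0 with hC
  have h1 : ∀ G : Set X, ∃ a : X, G ∈ C → a ∈ G ∧ a ∈ A.1 := by
    intro G
    by_cases hG : G ∈ C
    · obtain ⟨G0, hG0, rfl⟩ := hG
      obtain ⟨a, ha1, ha2⟩ := hAB.1 G0 hG0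
      exact ⟨a, fun _ => ⟨⟨ha2, hAS ha1⟩, ha1⟩⟩
    · exact ⟨A.2.2.some, fun h => absurd h hG⟩
  choose a ha using h1
  refine ⟨C, D, a, hC0f.image _, hC0ne.image _, hDf, ?_, hAB.2, ?_⟩
  · intro G hG
    refine ⟨?_, ?_, ha G hG⟩
    · obtain ⟨G0, hG0, rfl⟩ := hG
      exact (hC0o G0 hG0).inter (isOpen_S hDf)
    · obtain ⟨G0, hG0, rfl⟩ := hG
      exact inter_subset_right
  · intro f hf A' hA'
    apply hBU
    refine ⟨fun G hG => ?_, hA'.2⟩
    have hG' : G ∩ S D ∈ C := mem_image_of_mem _ hG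
    obtain ⟨x, hx1, hx2⟩ := hA'.1 _ (mem_image_of_mem f hG')
    exact ⟨x, hx1, (hf _ hG' hx2).1⟩

/-- The basic sets all of whose hit sets belong to `Q`. -/
structure IsQ (Q : Set (Set X)) (C : Set (Set X)) (D : Set (X × ℝ)) : Prop where
  finC : C.Finite
  neC : C.Nonempty
  finD : D.Finite
  mem : ∀ B ∈ C, B ∈ Q
  sub : ∀ B ∈ C, B ⊆ S D

theorem IsQ.next {Q' : Set (Set X)} {C C' : Set (Set X)} {D D' : Set (X × ℝ)}
    (h' : IsQ Q' C' D') (hcl : closure (Bas C' D') ⊆ Bas C D)
    {B : Set X} (hB : B ∈ C) : ∃ B' ∈ C', closure B' ⊆ B := by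
  by_contra hcon
  push Not at hcon
  have h1 : ∀ B' : Set X, ∃ x : X, B' ∈ C' → x ∈ closure B' ∧ x ∉ B := by
    intro B'
    by_cases hB' : B' ∈ C'
    · obtain ⟨x, hx, hxB⟩ := not_subset.1 (hcon B' hB')
      exact ⟨x, fun _ => ⟨hx, hxB⟩⟩
    · obtain ⟨B1, hB1⟩ := h'.neC
      obtain ⟨x, hx, hxB⟩ := not_subset.1 (hcon B1 hB1)
      exact ⟨x, fun h => absurd h hB'⟩
  choose g hg using h1
  have hmem := hcl (image_mem_closure h'.finC h'.neC h'.sub g fun B' hB' => (hg B' hB').1)
  obtain ⟨x, ⟨B', hB', rfl⟩, hx2⟩ := hmem.1 B hB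
  exact (hg B' hB').2 hx2

theorem IsQ.miss {Q' : Set (Set X)} (hQ' : ∀ B ∈ Q', B.Nonempty)
    {C C' : Set (Set X)} {D D' : Set (X × ℝ)}
    (h' : IsQ Q' C' D') (hcl : closure (Bas C' D') ⊆ Bas C D)
    {p : X × ℝ} (hp : p ∈ D) : p.2 < infDist p.1 (S D') := by
  have hne : (closure (S D')).Nonempty := by
    obtain ⟨B, hB⟩ := h'.neC
    exact ((hQ' B (h'.mem B hB)).mono (h'.sub B hB)).closure
  have hmem := hcl (closure_S_mem h'.finC h'.neC
    (fun B hB => ⟨hQ' B (h'.mem B hB), h'.sub B hB⟩) hne)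
  have := hmem.2 p hp
  change p.2 < infDist p.1 (closure (S D')) at this
  rwa [infDist_closure] at this

theorem quasiRegular_of_regular (Y : Type u) [TopologicalSpace Y] [RegularSpace Y] :
    QuasiRegular Y := by
  intro U hU hne
  obtain ⟨y, hy⟩ := hne
  obtain ⟨V, hV, hVc, hVU⟩ := exists_mem_nhds_isClosed_subset (hU.mem_nhds hy)
  refine ⟨interior V, isOpen_interior, ⟨y, mem_interior_iff_mem_nhds.2 hV⟩, ?_⟩
  exact (closure_mono interior_subset).trans (hVc.closure_eq.subset.trans hVU)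

/-- One can pass to `π`-bases for which all tails of sequences work. -/
theorem exists_tails {Y : Type u} [TopologicalSpace Y] (hY : Pseudocomplete Y) :
    ∃ Q : ℕ → Set (Set Y), (∀ n, IsPiBase (Q n)) ∧
      ∀ n, ∀ b : ℕ → Set Y, (∀ k, b k ∈ Q (n + k)) → (∀ k, closure (b (k + 1)) ⊆ b k) →
        (⋂ k, b k).Nonempty := by
  obtain ⟨hqr, P, hP, hlim⟩ := hY
  refine ⟨fun n => {W | W ∈ P n ∧ ∃ c : ℕ → Set Y, c n = W ∧ (∀ i ≤ n, c i ∈ P i) ∧
    ∀ i < n, closure (c (i + 1)) ⊆ c i}, ?_, ?_⟩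
  · intro n
    refine ⟨fun V hV => (hP n).1 V hV.1, ?_⟩
    have key : ∀ n, ∀ O : Set Y, IsOpen O → O.Nonempty → ∃ c : ℕ → Set Y, c n ⊆ O ∧
        (∀ i ≤ n, c i ∈ P i) ∧ ∀ i < n, closure (c (i + 1)) ⊆ c i := by
      intro n
      induction n with
      | zero =>
        intro O hO hne
        obtain ⟨W, hW, hWO⟩ := (hP 0).2 O hO hne
        refine ⟨fun _ => W, hWO, ?_, ?_⟩
        · intro i hi
          rw [Nat.le_zero.1 hi]; exact hW
        · intro i hi; omega
      | succ n ih =>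
        intro O hO hne
        obtain ⟨c, hcO, hcP, hcc⟩ := ih O hO hne
        obtain ⟨V, hV, hVne, hVc⟩ := hqr (c n) ((hP n).1 _ (hcP n le_rfl)).1
          ((hP n).1 _ (hcP n le_rfl)).2
        obtain ⟨W, hW, hWV⟩ := (hP (n + 1)).2 V hV hVne
        refine ⟨Function.update c (n + 1) W, ?_, ?_, ?_⟩
        · rw [Function.update_self]
          exact (hWV.trans subset_closure).trans (hVc.trans hcO)
        · intro i hi
          rcases Nat.lt_or_ge n i with h | h
          · have : i = n + 1 := by omega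
            rw [this, Function.update_self]; exact hW
          · rw [Function.update_of_ne (by omega)]; exact hcP i h
        · intro i hi
          rcases Nat.lt_or_ge i n with h | h
          · rw [Function.update_of_ne (by omega), Function.update_of_ne (by omega)]
            exact hcc i h
          · have : i = n := by omega
            rw [this, Function.update_self, Function.update_of_ne (by omega)]
            exact (closure_mono hWV).trans hVc
    intro U hU hne
    obtain ⟨c, hcU, hcP, hcc⟩ := key n U hU hne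
    exact ⟨c n, ⟨hcP n le_rfl, c, rfl, hcP, hcc⟩, hcU⟩
  · intro n b hb hbc
    obtain ⟨-, c, hcn, hcP, hcc⟩ := hb 0
    simp only [Nat.add_zero] at hcn hcP hcc
    have hmem := hlim (fun i => if i ≤ n then c i else b (i - n)) ?_ ?_
    · obtain ⟨x, hx⟩ := hmem
      rw [mem_iInter] at hx
      refine ⟨x, mem_iInter.2 fun k => ?_⟩
      rcases Nat.eq_zero_or_pos k with rfl | hk
      · have := hx n
        simp only [le_refl, if_true] at this
        rwa [hcn] at this
      · have := hx (n + k)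
        rw [if_neg (by omega), Nat.add_sub_cancel_left] at this
        exact this
    · intro i
      beta_reduce
      split_ifs with h
      · exact hcP i h
      · have := (hb (i - n)).1
        rwa [Nat.add_sub_cancel' (by omega)] at this
    · intro i
      beta_reduce
      rcases lt_trichotomy i n with h | h | h
      · rw [if_pos (by omega), if_pos (by omega)]; exact hcc i h
      · rw [if_neg (by omega), if_pos (by omega), h, hcn]
        have := hbc 0
        rwa [show n + 1 - n = 0 + 1 by omega]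
      · rw [if_neg (by omega), if_neg (by omega)]
        have := hbc (i - n)
        rwa [show i + 1 - n = i - n + 1 by omega]

theorem pseudocomplete (hX : Pseudocomplete X) : Pseudocomplete (Hyp X) := by
  obtain ⟨Q, hQ, hlim⟩ := exists_tails hX
  refine ⟨quasiRegular_of_regular _, fun n => {V | ∃ C D, IsQ (Q n) C D ∧ V = Bas C D}, ?_, ?_⟩
  · intro n
    constructor
    · rintro V ⟨C, D, h, rfl⟩
      refine ⟨isOpen_Bas h.finC (fun B hB => ((hQ n).1 B (h.mem B hB)).1) h.finD, ?_⟩
      have h1 : ∀ B : Set X, ∃ x : X, B ∈ C → x ∈ B := by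
        intro B
        by_cases hB : B ∈ C
        · obtain ⟨x, hx⟩ := ((hQ n).1 B (h.mem B hB)).2
          exact ⟨x, fun _ => hx⟩
        · obtain ⟨B1, hB1⟩ := h.neC
          obtain ⟨x, hx⟩ := ((hQ n).1 B1 (h.mem B1 hB1)).2
          exact ⟨x, fun h => absurd h hB⟩
      choose g hg using h1
      refine ⟨fin (g '' C) (h.finC.image g) (h.neC.image g), fin_mem_Bas _ _ ?_ ?_⟩
      · intro B hB
        exact ⟨g B, mem_image_of_mem g hB, hg B hB⟩
      · rintro _ ⟨B, hB, rfl⟩
        exact h.sub B hB (hg B hB)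
    · intro U hU hne
      obtain ⟨A, hA⟩ := hne
      obtain ⟨C, D, a, hCf, hCne, hDf, hG, hAD, hsub⟩ := exists_Bas' (hU.mem_nhds hA)
      have h1 : ∀ G : Set X, ∃ B : Set X, G ∈ C → B ∈ Q n ∧ B ⊆ G := by
        intro G
        by_cases hGC : G ∈ C
        · obtain ⟨B, hB, hBG⟩ := (hQ n).2 G (hG G hGC).1 ⟨a G, (hG G hGC).2.2.1⟩
          exact ⟨B, fun _ => ⟨hB, hBG⟩⟩
        · exact ⟨∅, fun h => absurd h hGC⟩
      choose f hf using h1
      refine ⟨Bas (f '' C) D, ⟨f '' C, D, ⟨hCf.image f, hCne.image f, hDf, ?_, ?_⟩, rfl⟩,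
        hsub f fun G hGC => (hf G hGC).2⟩
      · rintro _ ⟨G, hGC, rfl⟩
        exact (hf G hGC).1
      · rintro _ ⟨G, hGC, rfl⟩
        exact (hf G hGC).2.trans (hG G hGC).2.1
  · intro V hV hVc
    choose C D hCD hVe using hV
    have hQne : ∀ n, ∀ B ∈ Q n, B.Nonempty := fun n B hB => ((hQ n).1 B hB).2
    have hcl : ∀ n, closure (Bas (C (n + 1)) (D (n + 1))) ⊆ Bas (C n) (D n) := by
      intro n
      rw [← hVe n, ← hVe (n + 1)]
      exact hVc n
    have hmiss : ∀ n, ∀ p ∈ D n, p.2 < infDist p.1 (S (D (n + 1))) := fun n p hp =>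
      IsQ.miss (hQne (n + 1)) (hCD (n + 1)) (hcl n) hp
    have hSmono : ∀ n, S (D (n + 1)) ⊆ S (D n) := by
      intro n x hx p hp
      exact (hmiss n p hp).trans_le (infDist_le_dist_of_mem hx)
    have hSmono' : ∀ n m, n ≤ m → S (D m) ⊆ S (D n) := by
      intro n m hnm
      induction m, hnm using Nat.le_induction with
      | base => exact Subset.rfl
      | succ m hm ih => exact (hSmono m).trans ih
    have hnext : ∀ n, ∀ B ∈ C n, ∃ B' ∈ C (n + 1), closure B' ⊆ B := fun n B hB =>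
      (hCD (n + 1)).next (hcl n) hB
    have hpoint : ∀ n, ∀ B ∈ C n, ∃ p ∈ B, ∀ m, p ∈ S (D m) := by
      intro n B hB
      choose! nx hnx1 hnx2 using hnext
      let b : ℕ → Set X := fun k => Nat.rec B (fun j Bj => nx (n + j) Bj) k
      have hbs : ∀ k, b (k + 1) = nx (n + k) (b k) := fun k => rfl
      have hbC : ∀ k, b k ∈ C (n + k) := by
        intro k
        induction k with
        | zero => exact hB
        | succ k ih => rw [hbs]; exact hnx1 (n + k) (b k) ih
      obtain ⟨p, hp⟩ := hlim n b (fun k => (hCD (n + k)).mem _ (hbC k))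
        (fun k => by rw [hbs]; exact hnx2 (n + k) (b k) (hbC k))
      rw [mem_iInter] at hp
      refine ⟨p, hp 0, fun m => ?_⟩
      have h1 : p ∈ S (D (n + m)) := (hCD (n + m)).sub _ (hbC m) (hp m)
      exact hSmono' m (n + m) (Nat.le_add_left m n) h1
    set P : Set X := {p | ∀ m, p ∈ S (D m)} with hP
    have hPne : P.Nonempty := by
      obtain ⟨B, hB⟩ := (hCD 0).neC
      obtain ⟨p, _, hp⟩ := hpoint 0 B hB
      exact ⟨p, hp⟩
    refine ⟨⟨closure P, isClosed_closure, hPne.closure⟩, mem_iInter.2 fun n => ?_⟩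
    rw [hVe n]
    constructor
    · intro B hB
      obtain ⟨p, hpB, hp⟩ := hpoint n B hB
      exact ⟨p, subset_closure hp, hpB⟩
    · intro p hp
      change p.2 < infDist p.1 (closure P)
      rw [infDist_closure]
      refine (hmiss n p hp).trans_le (infDist_le_infDist_of_subset ?_ hPne)
      exact fun x hx => hx (n + 1)

end Pool.Agent.H479R3.WijAms
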