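import Mathlib
import Pool.Agent.H479R3.WijAms

set_option autoImplicit false

/-!
A base-compact metric space whose Wijsman hyperspace is not base-compact.
-/

namespace Pool.Agent.H479R3.WijBase

open Set Topology Filter Metric Pool.Agent.H479R3.Wij Pool.Agent.H479R3.Ams
  Pool.Agent.H479R3.WijAms

/-- The points of the space. -/
inductive Pt : Type
  | z (s : ℝ) (o : Option (ℕ × ℕ)) : Pt
  | y (n : ℕ) (E : Set (ℝ × ℕ)) : Pt

open Pt

/-- The height of a point of the first kind. -/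
noncomputable def ht : Option (ℕ × ℕ) → ℝ
  | none => 0
  | some q => 1 / ((q.1 : ℝ) + 2)

open Classical in
/-- Distances between points of the first and of the second kind. -/
noncomputable def w (s : ℝ) (o : Option (ℕ × ℕ)) (n : ℕ) (E : Set (ℝ × ℕ)) : ℝ :=
  if ∃ k, o = some (n, k) ∧ (s, k) ∈ E then 2 else 2 - 1 / ((n : ℝ) + 2)

open Classical in
/-- The metric. -/
noncomputable def dst : Pt → Pt → ℝ
  | z s o, z t o' => if s = t then (if o = o' then 0 else max (ht o) (ht o')) else 1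
  | z s o, y n E => w s o n E
  | y n E, z s o => w s o n E
  | y n E, y m E' => if n = m ∧ E = E' then 0 else 1

theorem ht_nonneg (o : Option (ℕ × ℕ)) : 0 ≤ ht o := by
  rcases o with _ | q
  · simp [ht]
  · simp only [ht]; positivity

theorem one_div_le_half (n : ℕ) : 1 / ((n : ℝ) + 2) ≤ 1 / 2 := by
  apply one_div_le_one_div_of_le (by norm_num)
  have : (0 : ℝ) ≤ n := Nat.cast_nonneg n
  linarith

theorem one_div_pos' (n : ℕ) : 0 < 1 / ((n : ℝ) + 2) := by positivity

theorem ht_le (o : Option (ℕ × ℕ)) : ht o ≤ 1 / 2 := by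
  rcases o with _ | q
  · simp [ht]
  · exact one_div_le_half q.1

theorem w_cases (s : ℝ) (o : Option (ℕ × ℕ)) (n : ℕ) (E : Set (ℝ × ℕ)) :
    (w s o n E = 2 ∧ ∃ k, o = some (n, k) ∧ (s, k) ∈ E) ∨
    (w s o n E = 2 - 1 / ((n : ℝ) + 2) ∧ ¬ ∃ k, o = some (n, k) ∧ (s, k) ∈ E) := by
  by_cases h : ∃ k, o = some (n, k) ∧ (s, k) ∈ E
  · left; exact ⟨if_pos h, h⟩
  · right; exact ⟨if_neg h, h⟩

theorem w_le (s : ℝ) (o : Option (ℕ × ℕ)) (n : ℕ) (E : Set (ℝ × ℕ)) : w s o n E ≤ 2 := by
  have := one_div_pos' n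
  rcases w_cases s o n E with ⟨h, -⟩ | ⟨h, -⟩ <;> rw [h] <;> linarith

theorem le_w (s : ℝ) (o : Option (ℕ × ℕ)) (n : ℕ) (E : Set (ℝ × ℕ)) :
    2 - 1 / ((n : ℝ) + 2) ≤ w s o n E := by
  have := one_div_pos' n
  rcases w_cases s o n E with ⟨h, -⟩ | ⟨h, -⟩
  · rw [h]; linarith
  · rw [h]

theorem le_w' (s : ℝ) (o : Option (ℕ × ℕ)) (n : ℕ) (E : Set (ℝ × ℕ)) : 3 / 2 ≤ w s o n E := by
  have := le_w s o n E
  have := one_div_le_half n
  linarith

theorem dst_zz_of_ne {s t : ℝ} (h : s ≠ t) (o o' : Option (ℕ × ℕ)) :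
    dst (z s o) (z t o') = 1 := by
  simp [dst, h]

theorem dst_zz_same (s : ℝ) {o o' : Option (ℕ × ℕ)} (h : o ≠ o') :
    dst (z s o) (z s o') = max (ht o) (ht o') := by
  simp [dst, h]

theorem dst_self (p : Pt) : dst p p = 0 := by
  rcases p with ⟨s, o⟩ | ⟨n, E⟩ <;> simp [dst]

theorem dst_comm (p q : Pt) : dst p q = dst q p := by
  rcases p with ⟨s, o⟩ | ⟨n, E⟩ <;> rcases q with ⟨t, o'⟩ | ⟨m, E'⟩
  · by_cases h : s = t
    · subst h
      by_cases h' : o = o'
      · subst h'; rfl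
      · rw [dst_zz_same s h', dst_zz_same s (Ne.symm h'), max_comm]
    · rw [dst_zz_of_ne h, dst_zz_of_ne (Ne.symm h)]
  · rfl
  · rfl
  · simp only [dst]
    congr 1
    simp only [eq_iff_iff]
    constructor <;> rintro ⟨h1, h2⟩ <;> exact ⟨h1.symm, h2.symm⟩

theorem dst_nonneg (p q : Pt) : 0 ≤ dst p q := by
  rcases p with ⟨s, o⟩ | ⟨n, E⟩ <;> rcases q with ⟨t, o'⟩ | ⟨m, E'⟩
  · simp only [dst]
    split_ifs
    · exact le_rfl
    · exact le_max_of_le_left (ht_nonneg o)
    · exact zero_le_one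
  · exact (by norm_num : (0 : ℝ) ≤ 3 / 2).trans (le_w' _ _ _ _)
  · exact (by norm_num : (0 : ℝ) ≤ 3 / 2).trans (le_w' _ _ _ _)
  · simp only [dst]
    split_ifs
    · exact le_rfl
    · exact zero_le_one

theorem dst_zz_le (s t : ℝ) (o o' : Option (ℕ × ℕ)) : dst (z s o) (z t o') ≤ 1 := by
  simp only [dst]
  have h1 := ht_le o
  have h2 := ht_le o'
  split_ifs
  · exact zero_le_one
  · exact max_le (by linarith) (by linarith)
  · exact le_rfl

theorem dst_yy_le (n m : ℕ) (E E' : Set (ℝ × ℕ)) : dst (y n E) (y m E') ≤ 1 := by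
  simp only [dst]
  split_ifs
  · exact zero_le_one
  · exact le_rfl

theorem dst_yy_of_ne {n m : ℕ} {E E' : Set (ℝ × ℕ)} (h : y n E ≠ y m E') :
    dst (y n E) (y m E') = 1 := by
  simp only [dst]
  rw [if_neg]
  rintro ⟨rfl, rfl⟩
  exact h rfl

theorem dst_zzz (s t v : ℝ) (o o' o'' : Option (ℕ × ℕ)) :
    dst (z s o) (z v o'') ≤ dst (z s o) (z t o') + dst (z t o') (z v o'') := by
  have n1 := dst_nonneg (z s o) (z t o')
  have n2 := dst_nonneg (z t o') (z v o'')
  have l1 := dst_zz_le s v o o''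
  by_cases hst : s = t
  · subst hst
    by_cases hsv : s = v
    · subst hsv
      by_cases h1 : o = o'
      · subst h1; linarith
      by_cases h2 : o' = o''
      · subst h2; linarith
      by_cases h3 : o = o''
      · subst h3
        rw [dst_self]; linarith
      · rw [dst_zz_same s h1, dst_zz_same s h2, dst_zz_same s h3]
        have a1 := ht_nonneg o
        have a2 := ht_nonneg o'
        have a3 := ht_nonneg o''
        have b1 := le_max_left (ht o) (ht o')
        have b2 := le_max_right (ht o') (ht o'')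
        have b3 := le_max_right (ht o) (ht o')
        have b4 := le_max_left (ht o') (ht o'')
        apply max_le <;> linarith
    · rw [dst_zz_of_ne hsv o' o'']; linarith
  · rw [dst_zz_of_ne hst o o']; linarith

theorem dst_zzy (s t : ℝ) (o o' : Option (ℕ × ℕ)) (n : ℕ) (E : Set (ℝ × ℕ)) :
    w s o n E ≤ dst (z s o) (z t o') + w t o' n E := by
  have n1 := dst_nonneg (z s o) (z t o')
  rcases w_cases s o n E with ⟨h, k, hk, hE⟩ | ⟨h, -⟩
  · rcases w_cases t o' n E with ⟨h', -⟩ | ⟨h', hne⟩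
    · rw [h, h']; linarith
    · rw [h, h']
      by_cases hst : s = t
      · subst hst
        have hoo : o ≠ o' := by
          rintro rfl
          exact hne ⟨k, hk, hE⟩
        rw [dst_zz_same s hoo]
        have h1 : ht o = 1 / ((n : ℝ) + 2) := by rw [hk]; rfl
        have h2 := le_max_left (ht o) (ht o')
        linarith
      · rw [dst_zz_of_ne hst o o']
        have := one_div_le_half n
        linarith
  · have := le_w t o' n E
    rw [h]; linarith

theorem dst_triangle (p q r : Pt) : dst p r ≤ dst p q + dst q r := by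
  rcases p with ⟨s, o⟩ | ⟨n, E⟩ <;> rcases q with ⟨t, o'⟩ | ⟨m, E'⟩ <;>
    rcases r with ⟨v, o''⟩ | ⟨j, E''⟩
  · exact dst_zzz s t v o o' o''
  · exact dst_zzy s t o o' j E''
  · have h1 := dst_zz_le s v o o''
    have h2 := le_w' s o m E'
    have h3 := le_w' v o'' m E'
    change _ ≤ w s o m E' + w v o'' m E'
    linarith
  · by_cases h : y m E' = y j E''
    · rw [h, dst_self]; linarith
    · rw [dst_yy_of_ne h]
      have h1 := w_le s o j E''
      have h2 := le_w' s o m E'
      change w s o j E'' ≤ w s o m E' + 1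
      linarith
  · have := dst_zzy v t o'' o' n E
    rw [dst_comm (z v o'')] at this
    change w v o'' n E ≤ w t o' n E + _
    linarith
  · have h1 := dst_yy_le n j E E''
    have h2 := le_w' t o' n E
    have h3 := le_w' t o' j E''
    change _ ≤ w t o' n E + w t o' j E''
    linarith
  · by_cases h : y n E = y m E'
    · rw [h, dst_self]; linarith
    · rw [dst_yy_of_ne h]
      have h1 := w_le v o'' n E
      have h2 := le_w' v o'' m E'
      change w v o'' n E ≤ 1 + w v o'' m E'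
      linarith
  · by_cases h1 : y n E = y m E'
    · rw [h1, dst_self]; linarith
    · rw [dst_yy_of_ne h1]
      have := dst_yy_le n j E E''
      have := dst_nonneg (y m E') (y j E'')
      linarith

theorem eq_of_dst {p q : Pt} (h : dst p q = 0) : p = q := by
  rcases p with ⟨s, o⟩ | ⟨n, E⟩ <;> rcases q with ⟨t, o'⟩ | ⟨m, E'⟩
  · by_cases hst : s = t
    · subst hst
      by_cases ho : o = o'
      · rw [ho]
      · exfalso
        rw [dst_zz_same s ho] at h
        have h1 : ht o ≤ 0 := (le_max_left _ _).trans h.le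
        have h2 : ht o' ≤ 0 := (le_max_right _ _).trans h.le
        rcases o with _ | q
        · rcases o' with _ | q'
          · exact ho rfl
          · have := one_div_pos' q'.1
            change 1 / ((q'.1 : ℝ) + 2) ≤ 0 at h2
            linarith
        · have := one_div_pos' q.1
          change 1 / ((q.1 : ℝ) + 2) ≤ 0 at h1
          linarith
    · rw [dst_zz_of_ne hst] at h
      exact absurd h one_ne_zero
  · have := le_w' s o m E'
    change w s o m E' = 0 at h
    linarith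
  · have := le_w' t o' n E
    change w t o' n E = 0 at h
    linarith
  · by_contra hne
    rw [dst_yy_of_ne hne] at h
    exact one_ne_zero h

noncomputable instance : MetricSpace Pt where
  dist := dst
  dist_self := dst_self
  dist_comm := dst_comm
  dist_triangle := dst_triangle
  eq_of_dist_eq_zero := eq_of_dst

theorem dist_def (p q : Pt) : dist p q = dst p q := rfl

/-! ### Distances -/

theorem le_dist_iso {n k : ℕ} {t : ℝ} {x : Pt} (hx : x ≠ z t (some (n, k))) :
    1 / ((n : ℝ) + 2) ≤ dist x (z t (some (n, k))) := by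
  have h0 := one_div_le_half n
  rw [dist_def]
  rcases x with ⟨s, o⟩ | ⟨m, E⟩
  · by_cases hst : s = t
    · subst hst
      have ho : o ≠ some (n, k) := by
        rintro rfl; exact hx rfl
      rw [dst_zz_same s ho]
      exact le_max_right (ht o) (ht (some (n, k)))
    · rw [dst_zz_of_ne hst]; linarith
  · have := le_w' t (some (n, k)) m E
    change _ ≤ w t (some (n, k)) m E
    linarith

theorem dist_none_some (t : ℝ) (n k : ℕ) :
    dist (z t none) (z t (some (n, k))) = 1 / ((n : ℝ) + 2) := by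
  rw [dist_def, dst_zz_same t (by simp)]
  change max 0 (1 / ((n : ℝ) + 2)) = _
  exact max_eq_right (one_div_pos' n).le

theorem of_dist_none_lt {s : ℝ} {x : Pt} (h : dist (z s none) x < 1) :
    (∃ o, x = z s o) ∧ dist (z s none) x ≤ 1 / 2 := by
  rcases x with ⟨t, o⟩ | ⟨m, E⟩
  · by_cases hst : s = t
    · subst hst
      refine ⟨⟨o, rfl⟩, ?_⟩
      rw [dist_def]
      by_cases ho : none = o
      · subst ho
        rw [dst_self]; norm_num
      · rw [dst_zz_same s ho]
        exact max_le (ht_le _) (ht_le _)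
    · rw [dist_def, dst_zz_of_ne hst] at h
      exact absurd h (lt_irrefl _)
  · have := le_w' s none m E
    change w s none m E < 1 at h
    linarith

/-! ### The space is base-compact -/

theorem isOpen_singleton_iso (t : ℝ) (n k : ℕ) : IsOpen ({z t (some (n, k))} : Set Pt) := by
  rw [Metric.isOpen_iff]
  rintro _ rfl
  refine ⟨_, one_div_pos' n, fun x hx => ?_⟩
  by_contra hne
  rw [mem_ball] at hx
  exact absurd hx (not_lt.2 (le_dist_iso hne))

theorem isOpen_singleton_y (n : ℕ) (E : Set (ℝ × ℕ)) : IsOpen ({y n E} : Set Pt) := by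
  rw [Metric.isOpen_iff]
  rintro _ rfl
  refine ⟨1, one_pos, fun x hx => ?_⟩
  rw [mem_ball, dist_def] at hx
  rcases x with ⟨s, o⟩ | ⟨m, E'⟩
  · have := le_w' s o n E
    change w s o n E < 1 at hx
    linarith
  · by_contra hne
    rw [dst_yy_of_ne hne] at hx
    exact lt_irrefl _ hx

/-- The base. -/
def base : Set (Set Pt) :=
  {V | (∃ x, V = {x} ∧ IsOpen ({x} : Set Pt)) ∨ ∃ (s : ℝ) (m : ℕ),
    V = ball (z s none) (1 / ((m : ℝ) + 2))}

theorem isBasis : TopologicalSpace.IsTopologicalBasis base := by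
  apply TopologicalSpace.isTopologicalBasis_of_isOpen_of_nhds
  · rintro V (⟨x, rfl, hx⟩ | ⟨s, m, rfl⟩)
    · exact hx
    · exact isOpen_ball
  · intro x U hx hU
    have hiso : IsOpen ({x} : Set Pt) → ∃ v ∈ base, x ∈ v ∧ v ⊆ U := fun h =>
      ⟨{x}, Or.inl ⟨x, rfl, h⟩, mem_singleton x, singleton_subset_iff.2 hx⟩
    rcases x with ⟨s, o⟩ | ⟨n, E⟩
    · rcases o with _ | ⟨n, k⟩
      · obtain ⟨ε, hε, hb⟩ := Metric.isOpen_iff.1 hU _ hx
        obtain ⟨m, hm⟩ := exists_nat_one_div_lt hε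
        refine ⟨_, Or.inr ⟨s, m, rfl⟩, mem_ball_self (one_div_pos' m), ?_⟩
        refine (ball_subset_ball ?_).trans hb
        refine le_trans ?_ hm.le
        apply one_div_le_one_div_of_le (by positivity)
        linarith
      · exact hiso (isOpen_singleton_iso s n k)
    · exact hiso (isOpen_singleton_y n E)

theorem baseCompact : BaseCompact Pt := by
  refine ⟨inferInstance, base, isBasis, ?_⟩
  intro C hC hfin
  have hpair : ∀ V ∈ C, ∀ W ∈ C, (V ∩ W).Nonempty := by
    intro V hV W hW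
    have := hfin {V, W} (by
      rintro Z (rfl | rfl)
      · exact hV
      · exact hW) (Set.toFinite _)
    rwa [sInter_pair] at this
  by_cases h : ∃ x : Pt, {x} ∈ C
  · obtain ⟨x, hx⟩ := h
    refine ⟨x, mem_iInter₂.2 fun V hV => subset_closure ?_⟩
    obtain ⟨z', hz1, hz2⟩ := hpair _ hx V hV
    rwa [mem_singleton_iff.1 hz1] at hz2
  · have hb : ∀ V ∈ C, ∃ (s : ℝ) (m : ℕ), V = ball (z s none) (1 / ((m : ℝ) + 2)) := by
      intro V hV
      rcases hC hV with ⟨x, rfl, _⟩ | h'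
      · exact absurd ⟨x, hV⟩ h
      · exact h'
    rcases C.eq_empty_or_nonempty with rfl | ⟨V0, hV0⟩
    · exact ⟨z 0 none, by simp⟩
    · obtain ⟨s0, m0, hVe⟩ := hb V0 hV0
      refine ⟨z s0 none, mem_iInter₂.2 fun V hV => subset_closure ?_⟩
      obtain ⟨s, m, rfl⟩ := hb V hV
      obtain ⟨x, hx1, hx2⟩ := hpair _ hV0 _ hV
      rw [hVe, mem_ball, dist_comm] at hx1
      rw [mem_ball, dist_comm] at hx2
      have e1 := one_div_le_half m0
      have e2 := one_div_le_half m
      obtain ⟨⟨o, ho⟩, -⟩ := of_dist_none_lt (hx1.trans_le (e1.trans (by norm_num)))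
      obtain ⟨⟨o', ho'⟩, -⟩ := of_dist_none_lt (hx2.trans_le (e2.trans (by norm_num)))
      rw [ho] at ho'
      injection ho' with h1 h2
      subst h1
      exact mem_ball_self (one_div_pos' m)

/-! ### The hyperspace is not base-compact -/

/-- Sets of isolated points at level `n`. -/
def a (n : ℕ) (G : Set (ℝ × ℕ)) : Set Pt := {x | ∃ t k, (t, k) ∈ G ∧ x = z t (some (n, k))}

theorem isClosed_a (n : ℕ) (G : Set (ℝ × ℕ)) : IsClosed (a n G) := by
  rw [← isOpen_compl_iff, Metric.isOpen_iff]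
  intro x hx
  refine ⟨_, one_div_pos' n, ?_⟩
  rintro q hq ⟨t, k, hG, rfl⟩
  rw [mem_ball, dist_comm] at hq
  exact absurd hq (not_lt.2 (le_dist_iso (fun h => hx ⟨t, k, hG, h⟩)))

theorem a_nonempty (n : ℕ) {G : Set (ℝ × ℕ)} (hG : G.Nonempty) : (a n G).Nonempty := by
  obtain ⟨⟨t, k⟩, h⟩ := hG
  exact ⟨z t (some (n, k)), t, k, h, rfl⟩

/-- The corresponding points of the hyperspace. -/
def aH (n : ℕ) (G : Set (ℝ × ℕ)) (hG : G.Nonempty) : Hyp Pt := ⟨a n G, isClosed_a n G, a_nonempty n hG⟩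

/-- The set of all centres. -/
def ctr : Set Pt := range fun t => z t none

theorem isClosed_ctr : IsClosed ctr := by
  rw [← isOpen_compl_iff, isOpen_iff_mem_nhds]
  intro x hx
  have h1 : ∀ x : Pt, x ∉ ctr → IsOpen ({x} : Set Pt) := by
    intro x hx
    rcases x with ⟨s, o⟩ | ⟨n, E⟩
    · rcases o with _ | ⟨n, k⟩
      · exact absurd (mem_range_self s) hx
      · exact isOpen_singleton_iso s n k
    · exact isOpen_singleton_y n E
  exact mem_of_superset ((h1 x hx).mem_nhds (mem_singleton x)) (singleton_subset_iff.2 hx)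

/-- The set of all centres as a point of the hyperspace. -/
def ctrH : Hyp Pt := ⟨ctr, isClosed_ctr, range_nonempty _⟩

theorem near_ctr {V : Set (Hyp Pt)} (hV : V ∈ 𝓝 ctrH) : ∃ N : ℕ, ∀ n ≥ N, ∀ (G : Set (ℝ × ℕ))
    (hG : G.Nonempty), (∀ t, ∃ k, (t, k) ∈ G) → aH n G hG ∈ V := by
  obtain ⟨T, hT, ε, hε, hsub⟩ := exists_basic hV
  obtain ⟨N, hN⟩ := exists_nat_one_div_lt hε
  refine ⟨N, fun n hn G hG hall => hsub _ fun x _ => ?_⟩
  have hlt : 1 / ((n : ℝ) + 2) < ε := by
    refine lt_of_le_of_lt ?_ hN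
    apply one_div_le_one_div_of_le (by positivity)
    have : (N : ℝ) ≤ n := by exact_mod_cast hn
    linarith
  change |infDist x (a n G) - infDist x ctr| < ε
  have h1 : infDist x (a n G) - 1 / ((n : ℝ) + 2) ≤ infDist x ctr := by
    rw [Metric.le_infDist (show ctr.Nonempty from range_nonempty _)]
    rintro _ ⟨t, rfl⟩
    obtain ⟨k, hk⟩ := hall t
    have h2 : infDist x (a n G) ≤ dist x (z t (some (n, k))) :=
      infDist_le_dist_of_mem ⟨t, k, hk, rfl⟩
    have h3 := _root_.dist_triangle x (z t none) (z t (some (n, k)))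
    rw [dist_none_some] at h3
    linarith
  have h2 : infDist x ctr - 1 / ((n : ℝ) + 2) ≤ infDist x (a n G) := by
    rw [Metric.le_infDist (a_nonempty n hG)]
    rintro _ ⟨t, k, hk, rfl⟩
    have h2 : infDist x ctr ≤ dist x (z t none) := infDist_le_dist_of_mem ⟨t, rfl⟩
    have h3 := _root_.dist_triangle x (z t (some (n, k))) (z t none)
    rw [_root_.dist_comm (z t (some (n, k))), dist_none_some] at h3
    linarith
  rw [abs_lt]
  constructor <;> linarith

theorem near_a {n : ℕ} {G : Set (ℝ × ℕ)} {hG : G.Nonempty} {V : Set (Hyp Pt)}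
    (hV : V ∈ 𝓝 (aH n G hG)) : ∃ F : Set (ℝ × ℕ), F.Finite ∧ F ⊆ G ∧
      ∀ (G' : Set (ℝ × ℕ)) (hG' : G'.Nonempty), F ⊆ G' → G' ⊆ G → aH n G' hG' ∈ V := by
  obtain ⟨T, hT, ε, hε, hsub⟩ := exists_basic hV
  have h1 : ∀ x : Pt, ∃ q ∈ G, dist x (z q.1 (some (n, q.2))) < infDist x (a n G) + ε := by
    intro x
    obtain ⟨_, ⟨t, k, hk, rfl⟩, h⟩ := (infDist_lt_iff (a_nonempty n hG)).1
      (lt_add_of_pos_right (infDist x (a n G)) hε)
    exact ⟨(t, k), hk, h⟩
  choose q hq hqd using h1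
  refine ⟨q '' T, hT.image q, ?_, ?_⟩
  · rintro _ ⟨x, _, rfl⟩
    exact hq x
  · intro G' hG' hFG' hG'G
    apply hsub
    intro x hx
    change |infDist x (a n G') - infDist x (a n G)| < ε
    have h2 : infDist x (a n G') ≤ dist x (z (q x).1 (some (n, (q x).2))) :=
      infDist_le_dist_of_mem ⟨(q x).1, (q x).2, hFG' (mem_image_of_mem q hx), rfl⟩
    have h3 : infDist x (a n G) ≤ infDist x (a n G') := by
      apply infDist_le_infDist_of_subset _ (a_nonempty n hG')
      rintro _ ⟨t, k, hk, rfl⟩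
      exact ⟨t, k, hG'G hk, rfl⟩
    have h4 := hqd x
    rw [abs_lt]
    constructor <;> linarith

theorem subset_a_iff {n : ℕ} {G : Set (ℝ × ℕ)} {A : Hyp Pt} :
    A.1 ⊆ a n G ↔ 2 - 1 / ((n : ℝ) + 2) < infDist (y n G) A.1 := by
  have h0 := one_div_pos' n
  have h0' := one_div_le_half n
  constructor
  · intro h
    have : (2 : ℝ) ≤ infDist (y n G) A.1 := by
      rw [Metric.le_infDist A.2.2]
      intro x hx
      obtain ⟨t, k, hk, rfl⟩ := h hx
      rw [dist_def]
      change 2 ≤ w t (some (n, k)) n G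
      rw [w, if_pos ⟨k, rfl, hk⟩]
    linarith
  · intro h x hx
    have h1 := h.trans_le (infDist_le_dist_of_mem hx)
    rw [dist_def] at h1
    rcases x with ⟨s, o⟩ | ⟨m, E⟩
    · change _ < w s o n G at h1
      rcases w_cases s o n G with ⟨-, k, hk, hkG⟩ | ⟨h2, -⟩
      · exact ⟨s, k, hkG, by rw [hk]⟩
      · rw [h2] at h1
        exact absurd h1 (lt_irrefl _)
    · have := dst_yy_le n m G E
      linarith

theorem subset_a_iff' {n : ℕ} {G : Set (ℝ × ℕ)} {A : Hyp Pt} :
    A.1 ⊆ a n G ↔ 2 ≤ infDist (y n G) A.1 := by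
  have h0 := one_div_pos' n
  constructor
  · intro h
    rw [Metric.le_infDist A.2.2]
    intro x hx
    obtain ⟨t, k, hk, rfl⟩ := h hx
    rw [dist_def]
    change 2 ≤ w t (some (n, k)) n G
    rw [w, if_pos ⟨k, rfl, hk⟩]
  · intro h
    rw [subset_a_iff]
    linarith

theorem isOpen_O (n : ℕ) (G : Set (ℝ × ℕ)) : IsOpen {A : Hyp Pt | A.1 ⊆ a n G} := by
  simp only [subset_a_iff]
  exact isOpen_lt continuous_const (continuous_infDist' _)

theorem isClosed_O (n : ℕ) (G : Set (ℝ × ℕ)) : IsClosed {A : Hyp Pt | A.1 ⊆ a n G} := by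
  simp only [subset_a_iff']
  exact isClosed_le continuous_const (continuous_infDist' _)

theorem closure_U (s : ℝ) : closure {A : Hyp Pt | infDist (z s none) A.1 < 1} ⊆
    {A : Hyp Pt | infDist (z s none) A.1 ≤ 1 / 2} := by
  apply closure_minimal
  · intro A hA
    obtain ⟨x, hx, hd⟩ := (infDist_lt_iff A.2.2).1 hA
    exact (infDist_le_dist_of_mem hx).trans (of_dist_none_lt hd).2
  · exact isClosed_le (continuous_infDist' _) continuous_const

theorem not_baseCompact : ¬ BaseCompact (Hyp Pt) := by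
  classical
  rintro ⟨-, 𝔅, h𝔅, hcomp⟩
  -- neighbourhoods of the set of centres
  have h1 : ∀ s : ℝ, ∃ V ∈ 𝔅, ctrH ∈ V ∧ V ⊆ {A : Hyp Pt | infDist (z s none) A.1 < 1} := by
    intro s
    apply h𝔅.exists_subset_of_mem_open
    · change infDist (z s none) ctr < 1
      rw [infDist_zero_of_mem (show z s none ∈ ctr from mem_range_self s)]
      exact one_pos
    · exact isOpen_lt (continuous_infDist' _) continuous_const
  choose V hV𝔅 hVc hVU using h1
  have h2 : ∀ s, ∃ N : ℕ, ∀ n ≥ N, ∀ (G : Set (ℝ × ℕ)) (hG : G.Nonempty),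
      (∀ t, ∃ k, (t, k) ∈ G) → aH n G hG ∈ V s := fun s =>
    near_ctr ((h𝔅.isOpen (hV𝔅 s)).mem_nhds (hVc s))
  choose N hN using h2
  obtain ⟨m, hm⟩ : ∃ m, {s | N s ≤ m}.Infinite := by
    by_contra hcon
    push Not at hcon
    apply Cardinal.not_countable_real
    have : (univ : Set ℝ) = ⋃ m, {s | N s ≤ m} := by
      ext s
      simp only [mem_univ, mem_iUnion, mem_ofPred_eq, true_iff]
      exact ⟨N s, le_rfl⟩
    rw [this]
    exact countable_iUnion fun m => (hcon m).countable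
  let e : ℕ → ℝ := fun i => (hm.natEmbedding _ i : ℝ)
  have he : Function.Injective e := Subtype.val_injective.comp (hm.natEmbedding _).injective
  have heN : ∀ i, N (e i) ≤ m := fun i => (hm.natEmbedding _ i).2
  -- the sets `G g`
  let G : (ℕ → ℕ) → Set (ℝ × ℕ) := fun g => {q | ∀ i, q.1 = e i → g i ≤ q.2}
  have hG : ∀ g, (G g).Nonempty := by
    intro g
    refine ⟨(e 0, g 0), fun i hi => ?_⟩
    have : 0 = i := he hi
    rw [← this]
  have h3 : ∀ g : ℕ → ℕ, ∃ W ∈ 𝔅, aH m (G g) (hG g) ∈ W ∧ W ⊆ {A : Hyp Pt | A.1 ⊆ a m (G g)} :=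
    fun g => h𝔅.exists_subset_of_mem_open (Subset.rfl : a m (G g) ⊆ a m (G g)) (isOpen_O m (G g))
  choose W hW𝔅 hWa hWO using h3
  have h4 : ∀ g : ℕ → ℕ, ∃ F : Set (ℝ × ℕ), F.Finite ∧ F ⊆ G g ∧
      ∀ (G' : Set (ℝ × ℕ)) (hG' : G'.Nonempty), F ⊆ G' → G' ⊆ G g → aH m G' hG' ∈ W g :=
    fun g => near_a ((h𝔅.isOpen (hW𝔅 g)).mem_nhds (hWa g))
  choose F hFf hFG hFW using h4
  have hinj : Function.Injective (fun q : ℕ × ℕ => (e q.1, q.2)) := by
    rintro ⟨i, k⟩ ⟨i', k'⟩ h
    simp only [Prod.mk.injEq] at h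
    exact Prod.ext (he h.1) h.2
  have hF'f : ∀ g, ((fun q : ℕ × ℕ => (e q.1, q.2)) ⁻¹' (F g)).Finite := fun g =>
    (hFf g).preimage hinj.injOn
  let F' : (ℕ → ℕ) → Finset (ℕ × ℕ) := fun g => (hF'f g).toFinset
  have hF' : ∀ g i k, (i, k) ∈ F' g ↔ (e i, k) ∈ F g := by
    intro g i k
    simp [F']
  -- the diagonal argument
  obtain ⟨F0, i, hF0⟩ : ∃ (F0 : Finset (ℕ × ℕ)) (i : ℕ), ∀ b, ∃ g, F' g = F0 ∧ b < g i := by
    by_contra hcon
    push Not at hcon
    choose b hb using hcon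
    obtain ⟨f, hf⟩ := exists_surjective_nat (Finset (ℕ × ℕ))
    let g : ℕ → ℕ := fun i => (Finset.range (i + 1)).sup (fun j => b (f j) i) + 1
    obtain ⟨j, hj⟩ := hf (F' g)
    have h5 := hb (f j) j g hj.symm
    have h6 : b (f j) j ≤ (Finset.range (j + 1)).sup (fun j' => b (f j') j) :=
      Finset.le_sup (f := fun j' => b (f j') j) (Finset.mem_range.2 (Nat.lt_succ_self j))
    have h7 : g j = (Finset.range (j + 1)).sup (fun j' => b (f j') j) + 1 := rfl
    omega
  -- the centered family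
  set C : Set (Set (Hyp Pt)) := insert (V (e i)) (W '' {g | F' g = F0}) with hC
  obtain ⟨A, hA⟩ := hcomp C (by
    rintro _ (rfl | ⟨g, _, rfl⟩)
    · exact hV𝔅 _
    · exact hW𝔅 g) (by
    intro ℱ hℱ hfin
    -- choose indices
    have h5 : ∀ Z : Set (Hyp Pt), ∃ g : ℕ → ℕ, Z ∈ W '' {g | F' g = F0} → F' g = F0 ∧ W g = Z := by
      intro Z
      by_cases hZ : Z ∈ W '' {g | F' g = F0}
      · obtain ⟨g, hg, hgZ⟩ := hZ
        exact ⟨g, fun _ => ⟨hg, hgZ⟩⟩
      · exact ⟨fun _ => 0, fun h => absurd h hZ⟩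
    choose idx hidx using h5
    let Gs : Set (ℕ → ℕ) := idx '' {Z | Z ∈ ℱ ∧ Z ∈ W '' {g | F' g = F0}}
    have hGsf : Gs.Finite := (hfin.subset fun Z hZ => hZ.1).image idx
    have hGs0 : ∀ g ∈ Gs, F' g = F0 := by
      rintro _ ⟨Z, hZ, rfl⟩
      exact (hidx Z hZ.2).1
    let GG : Set (ℝ × ℕ) := {q | ∀ g ∈ Gs, q ∈ G g}
    have hall : ∀ t, ∃ k, (t, k) ∈ GG := by
      intro t
      by_cases ht : ∃ i', t = e i'
      · obtain ⟨i', rfl⟩ := ht
        obtain ⟨k, hk⟩ := (hGsf.image (fun g : ℕ → ℕ => g i')).bddAbove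
        refine ⟨k, fun g hg i'' hi'' => ?_⟩
        have h6 : i' = i'' := he hi''
        subst h6
        exact hk (mem_image_of_mem _ hg)
      · exact ⟨0, fun g _ i' hi' => absurd ⟨i', hi'⟩ ht⟩
    have hGGne : GG.Nonempty := by
      obtain ⟨k, hk⟩ := hall 0
      exact ⟨(0, k), hk⟩
    refine ⟨aH m GG hGGne, ?_⟩
    rw [mem_sInter]
    intro Z hZ
    rcases hℱ hZ with rfl | hZW
    · exact hN (e i) m (heN i) GG hGGne hall
    · obtain ⟨hg0, hgZ⟩ := hidx Z hZW
      have hgGs : idx Z ∈ Gs := mem_image_of_mem idx ⟨hZ, hZW⟩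
      have hmem : aH m GG hGGne ∈ W (idx Z) := by
        apply hFW
        · rintro ⟨t, k⟩ hq g' hg' i' hi'
          simp only at hi'
          subst hi'
          have h6 : (i', k) ∈ F' (idx Z) := (hF' _ _ _).2 hq
          rw [hg0, ← hGs0 g' hg', hF'] at h6
          exact hFG g' h6 i' rfl
        · intro q hq
          exact hq _ hgGs
      rwa [hgZ] at hmem)
  rw [mem_iInter₂] at hA
  have hAW : ∀ g, F' g = F0 → A.1 ⊆ a m (G g) := by
    intro g hg
    have h5 := hA (W g) (mem_insert_of_mem _ (mem_image_of_mem W hg))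
    exact closure_minimal (hWO g) (isClosed_O m (G g)) h5
  have hAV : infDist (z (e i) none) A.1 ≤ 1 / 2 :=
    closure_U (e i) (closure_mono (hVU (e i)) (hA _ (mem_insert _ _)))
  have hAge : 1 ≤ infDist (z (e i) none) A.1 := by
    rw [Metric.le_infDist A.2.2]
    intro x hx
    obtain ⟨g0, hg0, -⟩ := hF0 0
    obtain ⟨t, k, hk, rfl⟩ := hAW g0 hg0 hx
    by_cases hte : e i = t
    · exfalso
      subst hte
      obtain ⟨g, hg, hgk⟩ := hF0 k
      obtain ⟨t', k', hk', heq⟩ := hAW g hg hx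
      injection heq with e1 e2
      simp only [Option.some.injEq, Prod.mk.injEq, true_and] at e2
      subst e1
      subst e2
      have := hk' i rfl
      simp only at this
      omega
    · rw [dist_def, dst_zz_of_ne hte]
  linarith

end Pool.Agent.H479R3.WijBase
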