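import Mathlib
import Pool.Agent.H479R3.Wij

set_option autoImplicit false

/-!
The strong Choquet game on the Wijsman hyperspace of a completely metrizable space.
-/

universe u

namespace Pool.Agent.H479R3.WijGame

open Set Topology Filter Metric Pool.Agent.H479R3.Wij

/-- A topological space `Y` is strongly `α`-favorable: in the strong Choquet game on `Y` player
`α` has a winning tactic `τ`, i.e. a rule answering every move `(y, U)` (`U` open, `y ∈ U`) of
player `β` by an open set `τ y U` with `y ∈ τ y U ⊆ U`, such that for every play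
`(y 0, U 0), (y 1, U 1), …` of `β` which is legal against `τ` (that is `U (n + 1) ⊆ τ (y n) (U n)`)
the intersection of the answers is nonempty. -/
def StronglyAlphaFavorable (Y : Type u) [TopologicalSpace Y] : Prop :=
  ∃ τ : Y → Set Y → Set Y,
    (∀ y U, IsOpen U → y ∈ U → IsOpen (τ y U) ∧ y ∈ τ y U ∧ τ y U ⊆ U) ∧
    ∀ (y : ℕ → Y) (U : ℕ → Set Y), (∀ n, IsOpen (U n) ∧ y n ∈ U n) →
      (∀ n, U (n + 1) ⊆ τ (y n) (U n)) → (⋂ n, τ (y n) (U n)).Nonempty

/-- All distances inside `G` are at most `ε`. -/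
def Small {X : Type u} (ρ : X → X → ℝ) (G : Set X) (ε : ℝ) : Prop := ∀ x ∈ G, ∀ y ∈ G, ρ x y ≤ ε

theorem exists_rho (X : Type u) [TopologicalSpace X]
    [TopologicalSpace.IsCompletelyMetrizableSpace X] :
    ∃ ρ : X → X → ℝ, (∀ x, ρ x x = 0) ∧
      (∀ (a : X) (U : Set X), IsOpen U → a ∈ U → ∀ δ > 0, ∃ B : Set X,
        IsOpen B ∧ a ∈ B ∧ closure B ⊆ U ∧ Small ρ B δ) ∧
      (∀ b : ℕ → Set X, (∀ k, (b k).Nonempty) → (∀ k, closure (b (k + 1)) ⊆ b k) →
        (∀ k, Small ρ (b k) ((1 / 2) ^ k)) → (⋂ k, b k).Nonempty) ∧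
      (∀ W : Set X, IsOpen W → W.Nonempty → ∃ δ > 0, ∀ G : Set X, W ⊆ G → ∀ ε < δ,
        Small ρ G ε → ∃ x, G = {x}) := by
  letI := TopologicalSpace.upgradeIsCompletelyMetrizable X
  refine ⟨dist, dist_self, ?_, ?_, ?_⟩
  · intro a U hU ha δ hδ
    obtain ⟨ε, hε, hball⟩ := Metric.isOpen_iff.1 hU a ha
    refine ⟨ball a (min (ε / 2) (δ / 2)), isOpen_ball, mem_ball_self (by positivity), ?_, ?_⟩
    · refine closure_ball_subset_closedBall.trans (fun x hx => hball ?_)
      rw [mem_closedBall] at hx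
      rw [mem_ball]
      have := min_le_left (ε / 2) (δ / 2)
      linarith
    · intro x hx y hy
      rw [mem_ball] at hx hy
      have := min_le_right (ε / 2) (δ / 2)
      have h2 := dist_triangle_right x y a
      linarith
  · intro b hb hcl hs
    choose x hx using hb
    have hmono : ∀ k m, k ≤ m → b m ⊆ b k := by
      intro k m hkm
      induction m, hkm using Nat.le_induction with
      | base => exact Subset.rfl
      | succ m hm ih => exact (subset_closure.trans (hcl m)).trans ih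
    have hcau : CauchySeq x := by
      apply cauchySeq_of_le_geometric (1 / 2) 1 (by norm_num)
      intro n
      have := hs n (x n) (hx n) (x (n + 1)) (hmono n (n + 1) (Nat.le_succ n) (hx (n + 1)))
      simpa using this
    obtain ⟨p, hp⟩ := cauchySeq_tendsto_of_complete hcau
    refine ⟨p, mem_iInter.2 fun k => hcl k ?_⟩
    apply mem_closure_of_tendsto hp
    filter_upwards [eventually_ge_atTop (k + 1)] with m hm
    exact hmono (k + 1) m hm (hx m)
  · intro W hW hne
    by_cases hsub : W.Subsingleton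
    · obtain ⟨x, hx⟩ := hne
      obtain ⟨δ, hδ, hball⟩ := Metric.isOpen_iff.1 hW x hx
      refine ⟨δ, hδ, fun G hWG ε hε hG => ⟨x, ?_⟩⟩
      apply subset_antisymm
      · intro y hy
        have h1 := hG y hy x (hWG hx)
        exact hsub (hball (mem_ball.2 (by linarith))) hx
      · rintro _ rfl
        exact hWG hx
    · rw [Set.not_subsingleton_iff] at hsub
      obtain ⟨x, hx, y, hy, hxy⟩ := hsub
      refine ⟨dist x y, dist_pos.2 hxy, fun G hWG ε hε hG => ?_⟩
      have := hG x (hWG hx) y (hWG hy)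
      linarith

section

variable {X : Type u} [MetricSpace X] (ρ : X → X → ℝ)

/-- The points belonging to all members of `U`. -/
def core (U : Set (Hyp X)) : Set X := {x | ∀ A ∈ U, x ∈ A.1}

/-- The set `G` is met by all members of `U`. -/
def Hit (U : Set (Hyp X)) (G : Set X) : Prop := ∀ A ∈ U, (A.1 ∩ G).Nonempty

/-- The properties of the answer `Bas C D` to the move `(A, U)`. -/
structure Answer (U : Set (Hyp X)) (C : Set (Set X)) (D : Set (X × ℝ)) : Prop where
  finC : C.Finite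
  neC : C.Nonempty
  finD : D.Finite
  op : ∀ B ∈ C, IsOpen B
  ne : ∀ B ∈ C, B.Nonempty
  sub : ∀ B ∈ C, B ⊆ S D
  small1 : ∀ B ∈ C, Small ρ B 1
  small2 : ∀ (G : Set X) (ε : ℝ), Hit U G → Disjoint G (core U) → Small ρ G ε →
    ∀ B ∈ C, Small ρ B (ε / 2)
  hit : ∀ G : Set X, Hit U G → ∃ B ∈ C, closure B ⊆ G
  miss : ∀ (y : X) (t : ℝ), (∀ A ∈ U, t < infDist y A.1) → t < infDist y (S D)
  subU : Bas C D ⊆ U

theorem exists_answer (h0 : ∀ x, ρ x x = 0)
    (hA : ∀ (a : X) (U : Set X), IsOpen U → a ∈ U → ∀ δ > 0, ∃ B : Set X,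
        IsOpen B ∧ a ∈ B ∧ closure B ⊆ U ∧ Small ρ B δ)
    (hC : ∀ W : Set X, IsOpen W → W.Nonempty → ∃ δ > 0, ∀ G : Set X, W ⊆ G → ∀ ε < δ,
        Small ρ G ε → ∃ x, G = {x})
    (A : Hyp X) (U : Set (Hyp X)) (hU : IsOpen U) (hAU : A ∈ U) :
    ∃ C D, Answer ρ U C D ∧ A ∈ Bas C D := by
  obtain ⟨C0, D0, hC0f, hC0ne, hC0o, hD0f, hAB, hBU⟩ := exists_Bas (hU.mem_nhds hAU)
  -- the new constraints
  set φ : X × ℝ → X × ℝ := fun p => (p.1, (p.2 + infDist p.1 A.1) / 2) with hφ
  set D : Set (X × ℝ) := φ '' D0 with hD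
  have hDf : D.Finite := hD0f.image φ
  have hAD : ∀ p ∈ D, p.2 < infDist p.1 A.1 := by
    rintro _ ⟨p, hp, rfl⟩
    have := hAB.2 p hp
    change (p.2 + infDist p.1 A.1) / 2 < infDist p.1 A.1
    linarith
  have hAS : A.1 ⊆ S D := fun x hx p hp => (hAD p hp).trans_le (infDist_le_dist_of_mem hx)
  have hAS0 : A.1 ⊆ S D0 := subset_S hAB
  -- points of `A` in the members of `C0`
  have h1 : ∀ G : Set X, ∃ a : X, G ∈ C0 → a ∈ A.1 ∧ a ∈ G := by
    intro G
    by_cases hG : G ∈ C0
    · obtain ⟨a, ha1, ha2⟩ := hAB.1 G hG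
      exact ⟨a, fun _ => ⟨ha1, ha2⟩⟩
    · exact ⟨A.2.2.some, fun h => absurd h hG⟩
  choose a ha using h1
  -- the size
  have h2 : ∀ G : Set X, ∃ δ > 0, G ∈ C0 → ∀ G' : Set X, G ∩ S D0 ⊆ G' → ∀ ε < δ,
      Small ρ G' ε → ∃ x, G' = {x} := by
    intro G
    by_cases hG : G ∈ C0
    · obtain ⟨δ, hδ, h⟩ := hC (G ∩ S D0) ((hC0o G hG).inter (isOpen_S hD0f))
        ⟨a G, (ha G hG).2, hAS0 (ha G hG).1⟩
      exact ⟨δ, hδ, fun _ => h⟩
    · exact ⟨1, one_pos, fun h => absurd h hG⟩
  choose d hd hd2 using h2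
  obtain ⟨δ, hδ, hδle⟩ : ∃ δ > 0, ∀ G ∈ C0, δ ≤ d G := by
    obtain ⟨G, hG, hmin⟩ := hC0f.exists_minimalFor d C0 hC0ne
    refine ⟨d G, hd G, fun G' hG' => ?_⟩
    by_contra hlt
    exact hlt (hmin hG' (not_le.1 hlt).le)
  have hmin : 0 < min (δ / 2) 1 := by positivity
  -- the new small sets
  have h3 : ∀ G : Set X, ∃ B : Set X, G ∈ C0 → IsOpen B ∧ a G ∈ B ∧
      closure B ⊆ G ∩ S D0 ∩ S D ∧ Small ρ B (min (δ / 2) 1) := by
    intro G
    by_cases hG : G ∈ C0
    · obtain ⟨B, hB1, hB2, hB3, hB4⟩ := hA (a G) (G ∩ S D0 ∩ S D)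
        (((hC0o G hG).inter (isOpen_S hD0f)).inter (isOpen_S hDf))
        ⟨⟨(ha G hG).2, hAS0 (ha G hG).1⟩, hAS (ha G hG).1⟩ _ hmin
      exact ⟨B, fun _ => ⟨hB1, hB2, hB3, hB4⟩⟩
    · exact ⟨∅, fun h => absurd h hG⟩
  choose B hB using h3
  have hkey : ∀ G' : Set X, Hit U G' → ∃ G ∈ C0, G ∩ S D0 ⊆ G' := fun G' hG' =>
    exists_subset hC0f hC0ne fun A' hA' => hG' A' (hBU hA')
  refine ⟨B '' C0, D, ⟨hC0f.image B, hC0ne.image B, hDf, ?_, ?_, ?_, ?_, ?_, ?_, ?_, ?_⟩, ?_⟩
  · rintro _ ⟨G, hG, rfl⟩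
    exact (hB G hG).1
  · rintro _ ⟨G, hG, rfl⟩
    exact ⟨a G, (hB G hG).2.1⟩
  · rintro _ ⟨G, hG, rfl⟩
    exact fun x hx => ((hB G hG).2.2.1 (subset_closure hx)).2
  · rintro _ ⟨G, hG, rfl⟩ x hx y hy
    exact ((hB G hG).2.2.2 x hx y hy).trans (min_le_right _ _)
  · rintro G' ε hG' hdisj hsm _ ⟨G, hG, rfl⟩ x hx y hy
    have hδε : δ ≤ ε := by
      by_contra hlt
      push Not at hlt
      obtain ⟨G1, hG1, hsub⟩ := hkey G' hG'
      obtain ⟨z, hz⟩ := hd2 G1 hG1 G' hsub ε (hlt.trans_le (hδle G1 hG1)) hsm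
      rw [hz] at hdisj hG'
      refine Set.disjoint_left.1 hdisj (mem_singleton z) ?_
      intro A' hA'
      obtain ⟨w, hw1, hw2⟩ := hG' A' hA'
      rw [mem_singleton_iff] at hw2
      rwa [hw2] at hw1
    refine ((hB G hG).2.2.2 x hx y hy).trans ((min_le_left _ _).trans (by linarith))
  · intro G' hG'
    obtain ⟨G1, hG1, hsub⟩ := hkey G' hG'
    exact ⟨B G1, mem_image_of_mem B hG1, fun x hx => hsub ((hB G1 hG1).2.2.1 hx).1⟩
  · intro y t hyt
    -- the maximal allowed closed set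
    set Sbar : Set X := {x | ∀ p ∈ D, p.2 ≤ dist p.1 x} with hSbar
    have hcl : IsClosed Sbar := by
      have : Sbar = ⋂ p ∈ D, {x | p.2 ≤ dist p.1 x} := by
        ext x; simp [hSbar]
      rw [this]
      exact isClosed_biInter fun p _ =>
        isClosed_le continuous_const (continuous_const.dist continuous_id)
    have hASb : A.1 ⊆ Sbar := fun x hx p hp => (hAS hx p hp).le
    have hSne : Sbar.Nonempty := A.2.2.mono hASb
    have hmem : (⟨Sbar, hcl, hSne⟩ : Hyp X) ∈ Bas C0 D0 := by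
      constructor
      · intro G hG
        exact ⟨a G, hASb (ha G hG).1, (ha G hG).2⟩
      · intro p hp
        have hlt : p.2 < (p.2 + infDist p.1 A.1) / 2 := by
          have := hAB.2 p hp
          linarith
        refine hlt.trans_le ?_
        rw [Metric.le_infDist hSne]
        intro x hx
        exact hx (φ p) (mem_image_of_mem φ hp)
    have h4 := hyt _ (hBU hmem)
    refine h4.trans_le (infDist_le_infDist_of_subset ?_ (A.2.2.mono hAS))
    exact fun x hx p hp => (hx p hp).le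
  · intro A' hA'
    apply hBU
    constructor
    · intro G hG
      obtain ⟨x, hx1, hx2⟩ := hA'.1 _ (mem_image_of_mem B hG)
      exact ⟨x, hx1, ((hB G hG).2.2.1 (subset_closure hx2)).1.1⟩
    · intro p hp
      have h5 := hA'.2 _ (mem_image_of_mem φ hp)
      have h6 := hAB.2 p hp
      change (p.2 + infDist p.1 A.1) / 2 < infDist p.1 A'.1 at h5
      linarith
  · constructor
    · rintro _ ⟨G, hG, rfl⟩
      exact ⟨a G, (ha G hG).1, (hB G hG).2.1⟩
    · exact hAD

end

theorem main (X : Type u) [MetricSpace X] [TopologicalSpace.IsCompletelyMetrizableSpace X] :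
    StronglyAlphaFavorable (Hyp X) := by
  classical
  obtain ⟨ρ, h0, hA, hlim, hC⟩ := exists_rho X
  have hex := exists_answer ρ h0 hA hC
  -- choose the answers
  choose Cf Df hans hmemB using hex
  let τ : Hyp X → Set (Hyp X) → Set (Hyp X) := fun A U =>
    if h : IsOpen U ∧ A ∈ U then Bas (Cf A U h.1 h.2) (Df A U h.1 h.2) else ∅
  have hτ : ∀ A U (h1 : IsOpen U) (h2 : A ∈ U), τ A U = Bas (Cf A U h1 h2) (Df A U h1 h2) :=
    fun A U h1 h2 => dif_pos ⟨h1, h2⟩
  refine ⟨τ, ?_, ?_⟩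
  · intro A U h1 h2
    rw [hτ A U h1 h2]
    have := hans A U h1 h2
    exact ⟨isOpen_Bas this.finC this.op this.finD, hmemB A U h1 h2, this.subU⟩
  · intro A U hU hsub
    set C : ℕ → Set (Set X) := fun n => Cf (A n) (U n) (hU n).1 (hU n).2 with hCdef
    set D : ℕ → Set (X × ℝ) := fun n => Df (A n) (U n) (hU n).1 (hU n).2 with hDdef
    have hn : ∀ n, Answer ρ (U n) (C n) (D n) := fun n => hans (A n) (U n) (hU n).1 (hU n).2
    have hτn : ∀ n, τ (A n) (U n) = Bas (C n) (D n) := fun n => hτ _ _ _ _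
    have hsub' : ∀ n, U (n + 1) ⊆ Bas (C n) (D n) := fun n => by
      rw [← hτn n]; exact hsub n
    -- constraints
    have hmiss : ∀ n, ∀ p ∈ D n, p.2 < infDist p.1 (S (D (n + 1))) := by
      intro n p hp
      apply (hn (n + 1)).miss
      intro A' hA'
      exact (hsub' n hA').2 p hp
    have hSmono : ∀ n, S (D (n + 1)) ⊆ S (D n) := by
      intro n x hx p hp
      exact (hmiss n p hp).trans_le (infDist_le_dist_of_mem hx)
    have hSmono' : ∀ n m, n ≤ m → S (D m) ⊆ S (D n) := by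
      intro n m hnm
      induction m, hnm using Nat.le_induction with
      | base => exact Subset.rfl
      | succ m hm ih => exact (hSmono m).trans ih
    -- next step in a branch
    have hnext : ∀ n, ∀ B ∈ C n, ∃ B' ∈ C (n + 1), closure B' ⊆ B ∧
        ∀ ε : ℝ, 0 ≤ ε → Small ρ B ε → Small ρ B' (ε / 2) := by
      intro n B hB
      have hhit : Hit (U (n + 1)) B := fun A' hA' => (hsub' n hA').1 B hB
      by_cases hdisj : Disjoint B (core (U (n + 1)))
      · obtain ⟨B', hB', hcl⟩ := (hn (n + 1)).hit B hhit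
        exact ⟨B', hB', hcl, fun ε _ hε => (hn (n + 1)).small2 B ε hhit hdisj hε B' hB'⟩
      · rw [Set.not_disjoint_iff] at hdisj
        obtain ⟨x, hxB, hx⟩ := hdisj
        obtain ⟨B', hB', hcl⟩ := (hn (n + 1)).hit {x}
          (fun A' hA' => ⟨x, hx A' hA', mem_singleton x⟩)
        refine ⟨B', hB', hcl.trans (singleton_subset_iff.2 hxB), ?_⟩
        intro ε hε _ y hy z hz
        have h1 : y = x := hcl (subset_closure hy)
        have h2 : z = x := hcl (subset_closure hz)
        rw [h1, h2, h0]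
        linarith
    -- a limit point for each `B ∈ C n`
    have hpoint : ∀ n, ∀ B ∈ C n, ∃ p ∈ B, ∀ m, p ∈ S (D m) := by
      intro n B hB
      choose! nx hnx1 hnx2 hnx3 using hnext
      let b : ℕ → Set X := fun k => Nat.rec B (fun j Bj => nx (n + j) Bj) k
      have hb0 : b 0 = B := rfl
      have hbs : ∀ k, b (k + 1) = nx (n + k) (b k) := fun k => rfl
      have hbC : ∀ k, b k ∈ C (n + k) := by
        intro k
        induction k with
        | zero => exact hB
        | succ k ih => rw [hbs]; exact hnx1 (n + k) (b k) ih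
      have hbsm : ∀ k, Small ρ (b k) ((1 / 2) ^ k) := by
        intro k
        induction k with
        | zero => rw [pow_zero]; exact (hn n).small1 B hB
        | succ k ih =>
          rw [hbs, pow_succ]
          have := hnx3 (n + k) (b k) (hbC k) ((1 / 2) ^ k) (by positivity) ih
          rwa [div_eq_mul_one_div] at this
      obtain ⟨p, hp⟩ := hlim b (fun k => (hn (n + k)).ne _ (hbC k))
        (fun k => by rw [hbs]; exact hnx2 (n + k) (b k) (hbC k)) hbsm
      rw [mem_iInter] at hp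
      refine ⟨p, hp 0, fun m => ?_⟩
      have h1 : p ∈ S (D (n + m)) := (hn (n + m)).sub _ (hbC m) (hp m)
      exact hSmono' m (n + m) (Nat.le_add_left m n) h1
    -- the limit set
    set P : Set X := {p | ∀ m, p ∈ S (D m)} with hP
    have hPne : P.Nonempty := by
      obtain ⟨B, hB⟩ := (hn 0).neC
      obtain ⟨p, _, hp⟩ := hpoint 0 B hB
      exact ⟨p, hp⟩
    refine ⟨⟨closure P, isClosed_closure, hPne.closure⟩, mem_iInter.2 fun n => ?_⟩
    rw [hτn n]
    constructor
    · intro B hB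
      obtain ⟨p, hpB, hp⟩ := hpoint n B hB
      exact ⟨p, subset_closure hp, hpB⟩
    · intro p hp
      change p.2 < infDist p.1 (closure P)
      rw [infDist_closure]
      refine (hmiss n p hp).trans_le (infDist_le_infDist_of_subset ?_ hPne)
      exact fun x hx => hx (n + 1)

end Pool.Agent.H479R3.WijGame
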