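import Mathlib
import Pool.Agent.H479R3.WijAms

set_option autoImplicit false

/-!
The Wijsman hyperspace of a subcompact metric space is subcompact.
-/

universe u

namespace Pool.Agent.H479R3.WijSub

open Set Topology Filter Metric Pool.Agent.H479R3.Wij Pool.Agent.H479R3.Ams
  Pool.Agent.H479R3.WijAms

variable {X : Type u} [MetricSpace X]

/-- The members of the base of size at most `1 / (n + 1)`. -/
def sm (𝔅 : Set (Set X)) (n : ℕ) : Set (Set X) :=
  {B | B ∈ 𝔅 ∧ B.Nonempty ∧ ∀ x ∈ B, ∀ y ∈ B, dist x y ≤ 1 / ((n : ℝ) + 1)}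

/-- A subcover on which strict inclusion is well-founded. -/
def lev (𝔅 : Set (Set X)) (n : ℕ) : Set (Set X) :=
  {B | B ∈ sm 𝔅 n ∧ ∃ x ∈ B, ∀ B' ∈ sm 𝔅 n, x ∈ B' → ¬ WellOrderingRel B' B}

theorem lev_sub {𝔅 : Set (Set X)} {n : ℕ} {B : Set X} (hB : B ∈ lev 𝔅 n) : B ∈ 𝔅 := hB.1.1

theorem lev_ne {𝔅 : Set (Set X)} {n : ℕ} {B : Set X} (hB : B ∈ lev 𝔅 n) : B.Nonempty := hB.1.2.1

theorem exists_lev {𝔅 : Set (Set X)} (h𝔅 : TopologicalSpace.IsTopologicalBasis 𝔅) (n : ℕ)
    (x : X) : ∃ B ∈ lev 𝔅 n, x ∈ B := by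
  have hne : {B | B ∈ sm 𝔅 n ∧ x ∈ B}.Nonempty := by
    have hpos : (0 : ℝ) < 1 / ((n : ℝ) + 1) / 2 := by positivity
    obtain ⟨B, hB, hxB, hBb⟩ := h𝔅.exists_subset_of_mem_open (mem_ball_self hpos) isOpen_ball
    refine ⟨B, ⟨hB, ⟨x, hxB⟩, ?_⟩, hxB⟩
    intro y hy z hz
    have h1 := mem_ball.1 (hBb hy)
    have h2 := mem_ball.1 (hBb hz)
    have h3 := dist_triangle_right y z x
    linarith
  have hwf : WellFounded (WellOrderingRel : Set X → Set X → Prop) :=
    (WellOrderingRel.isWellOrder (α := Set X)).toIsWellFounded.wf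
  obtain ⟨B, hB, hmin⟩ := hwf.has_min _ hne
  exact ⟨B, ⟨hB.1, x, hB.2, fun B' hB' hx => hmin B' ⟨hB', hx⟩⟩, hB.2⟩

theorem wf_lev (𝔅 : Set (Set X)) (n : ℕ) : (lev 𝔅 n).WellFoundedOn (· < ·) := by
  rw [Set.wellFoundedOn_iff]
  have hwf : WellFounded (WellOrderingRel : Set X → Set X → Prop) :=
    (WellOrderingRel.isWellOrder (α := Set X)).toIsWellFounded.wf
  refine Subrelation.wf ?_ hwf
  rintro B' B ⟨hlt, hB', hB⟩
  obtain ⟨x, hx, hmin⟩ := hB'.2
  have h1 := hmin B hB.1 (hlt.le hx)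
  rcases trichotomous_of (WellOrderingRel : Set X → Set X → Prop) B' B
    with h | h | h
  · exact h
  · exact absurd h hlt.ne
  · exact absurd h h1

theorem wf_levs (𝔅 : Set (Set X)) (N : ℕ) :
    (⋃ n, ⋃ _ : n < N, lev 𝔅 n).WellFoundedOn (· < ·) := by
  induction N with
  | zero => simp
  | succ N ih =>
    apply (ih.union (wf_lev 𝔅 N)).subset
    intro B hB
    simp only [mem_iUnion, exists_prop] at hB
    obtain ⟨n, hn, hB⟩ := hB
    rcases Nat.lt_or_ge n N with h | h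
    · left
      simp only [mem_iUnion, exists_prop]
      exact ⟨n, h, hB⟩
    · right
      have : n = N := by omega
      rwa [this] at hB

theorem IsQ.sub' {Q' : Set (Set X)} {C C' : Set (Set X)} {D D' : Set (X × ℝ)}
    (h' : IsQ Q' C' D') (hsub : Bas C' D' ⊆ Bas C D) {B : Set X} (hB : B ∈ C) :
    ∃ B' ∈ C', B' ⊆ B := by
  obtain ⟨B', hB', h⟩ := exists_subset h'.finC h'.neC (G := B) (D := D')
    (fun A hA => (hsub hA).1 B hB)
  exact ⟨B', hB', fun x hx => h ⟨hx, h'.sub B' hB' hx⟩⟩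

theorem IsQ.S_sub {Q' : Set (Set X)} (hQ' : ∀ B ∈ Q', B.Nonempty)
    {C C' : Set (Set X)} {D D' : Set (X × ℝ)}
    (h' : IsQ Q' C' D') (hsub : Bas C' D' ⊆ Bas C D) : S D' ⊆ S D := by
  intro x hx
  have h1 : ∀ B : Set X, ∃ y : X, B ∈ C' → y ∈ B := by
    intro B
    by_cases hB : B ∈ C'
    · obtain ⟨y, hy⟩ := hQ' B (h'.mem B hB)
      exact ⟨y, fun _ => hy⟩
    · exact ⟨x, fun h => absurd h hB⟩
  choose g hg using h1
  have hF : (insert x (g '' C')).Finite := (h'.finC.image g).insert x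
  have hmem : fin _ hF (insert_nonempty _ _) ∈ Bas C' D' := by
    apply fin_mem_Bas
    · intro B hB
      exact ⟨g B, mem_insert_of_mem _ (mem_image_of_mem g hB), hg B hB⟩
    · rintro y (rfl | ⟨B, hB, rfl⟩)
      · exact hx
      · exact h'.sub B hB (hg B hB)
  exact subset_S (hsub hmem) (mem_insert x _)

theorem subcompact (hX : Subcompact X) : Subcompact (Hyp X) := by
  obtain ⟨-, 𝔅, h𝔅, hlim⟩ := hX
  refine ⟨inferInstance, {V | ∃ n C D, IsQ (lev 𝔅 n) C D ∧ V = Bas C D}, ?_, ?_⟩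
  · -- a base
    apply TopologicalSpace.isTopologicalBasis_of_isOpen_of_nhds
    · rintro V ⟨n, C, D, h, rfl⟩
      exact isOpen_Bas h.finC (fun B hB => h𝔅.isOpen (lev_sub (h.mem B hB))) h.finD
    · intro A U hA hU
      obtain ⟨C, D, a, hCf, hCne, hDf, hG, hAD, hsub⟩ := exists_Bas' (hU.mem_nhds hA)
      have h1 : ∀ G : Set X, ∃ ε > 0, G ∈ C → ball (a G) ε ⊆ G := by
        intro G
        by_cases hGC : G ∈ C
        · obtain ⟨ε, hε, hb⟩ := Metric.isOpen_iff.1 (hG G hGC).1 (a G) (hG G hGC).2.2.1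
          exact ⟨ε, hε, fun _ => hb⟩
        · exact ⟨1, one_pos, fun h => absurd h hGC⟩
      choose e he heb using h1
      obtain ⟨n, hn⟩ : ∃ n : ℕ, ∀ G ∈ C, 1 / ((n : ℝ) + 1) < e G := by
        obtain ⟨G, hGC, hmin⟩ := hCf.exists_minimalFor e C hCne
        obtain ⟨n, hn⟩ := exists_nat_one_div_lt (he G)
        refine ⟨n, fun G' hG' => hn.trans_le ?_⟩
        by_contra hlt
        exact hlt (hmin hG' (not_le.1 hlt).le)
      have h2 : ∀ G : Set X, ∃ B ∈ lev 𝔅 n, a G ∈ B := fun G => exists_lev h𝔅 n (a G)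
      choose f hf hfa using h2
      have hfG : ∀ G ∈ C, f G ⊆ G := by
        intro G hGC x hx
        apply heb G hGC
        rw [mem_ball]
        exact ((hf G).1.2.2 x hx (a G) (hfa G)).trans_lt (hn G hGC)
      refine ⟨Bas (f '' C) D, ⟨n, f '' C, D, ⟨hCf.image f, hCne.image f, hDf, ?_, ?_⟩, rfl⟩,
        ⟨?_, hAD⟩, hsub f hfG⟩
      · rintro _ ⟨G, hGC, rfl⟩
        exact hf G
      · rintro _ ⟨G, hGC, rfl⟩
        exact (hfG G hGC).trans (hG G hGC).2.1
      · rintro _ ⟨G, hGC, rfl⟩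
        exact ⟨a G, (hG G hGC).2.2.2, hfa G⟩
  · rintro F hF ⟨hFne, hFne', hFinf, hFreg⟩
    have hF' : ∀ V ∈ F, ∃ n C D, IsQ (lev 𝔅 n) C D ∧ V = Bas C D := fun V hV => hF hV
    choose! n C D hCD hVe using hF'
    have hQne : ∀ n, ∀ B ∈ lev 𝔅 n, B.Nonempty := fun n B hB => lev_ne hB
    -- the basic facts
    have f1 : ∀ V ∈ F, ∀ V' ∈ F, V' ⊆ V → ∀ B ∈ C V, ∃ B' ∈ C V', B' ⊆ B := by
      intro V hV V' hV' hsub B hB
      have hs : Bas (C V') (D V') ⊆ Bas (C V) (D V) := by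
        rw [← hVe V hV, ← hVe V' hV']; exact hsub
      exact IsQ.sub' (hCD V' hV') hs hB
    have f2 : ∀ V ∈ F, ∀ V' ∈ F, closure V' ⊆ V → ∀ B ∈ C V, ∃ B' ∈ C V', closure B' ⊆ B := by
      intro V hV V' hV' hsub B hB
      have hs : closure (Bas (C V') (D V')) ⊆ Bas (C V) (D V) := by
        rw [← hVe V hV, ← hVe V' hV']; exact hsub
      exact IsQ.next (hCD V' hV') hs hB
    have f3 : ∀ V ∈ F, ∀ V' ∈ F, V' ⊆ V → S (D V') ⊆ S (D V) := by
      intro V hV V' hV' hsub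
      have hs : Bas (C V') (D V') ⊆ Bas (C V) (D V) := by
        rw [← hVe V hV, ← hVe V' hV']; exact hsub
      exact IsQ.S_sub (hQne _) (hCD V' hV') hs
    have f4 : ∀ V ∈ F, ∀ V' ∈ F, closure V' ⊆ V → ∀ p ∈ D V, p.2 < infDist p.1 (S (D V')) := by
      intro V hV V' hV' hsub p hp
      have hs : closure (Bas (C V') (D V')) ⊆ Bas (C V) (D V) := by
        rw [← hVe V hV, ← hVe V' hV']; exact hsub
      exact IsQ.miss (hQne _) (hCD V' hV') hs hp
    -- points
    have hpoint : ∀ V ∈ F, ∀ B ∈ C V, ∃ p ∈ B, ∀ V' ∈ F, p ∈ S (D V') := by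
      intro V hV B hB
      by_cases H : ∀ V' ∈ F, ∀ N : ℕ, ∃ V'' ∈ F, V'' ⊆ V' ∧ N ≤ n V''
      · -- unbounded levels
        have step : ∀ (k : ℕ) (s : {s : Set (Hyp X) × Set X // s.1 ∈ F ∧ s.2 ∈ C s.1}),
            ∃ s' : {s : Set (Hyp X) × Set X // s.1 ∈ F ∧ s.2 ∈ C s.1},
              closure s'.1.2 ⊆ s.1.2 ∧ k ≤ n s'.1.1 := by
          rintro k ⟨⟨V1, B1⟩, hV1, hB1⟩
          obtain ⟨V2, hV2, hcl⟩ := hFreg V1 hV1
          obtain ⟨V3, hV3, hsub, hk⟩ := H V2 hV2 k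
          obtain ⟨B3, hB3, hB3c⟩ := f2 V1 hV1 V3 hV3 ((closure_mono hsub).trans hcl) B1 hB1
          exact ⟨⟨(V3, B3), hV3, hB3⟩, hB3c, hk⟩
        choose st hst1 hst2 using step
        let s : ℕ → {s : Set (Hyp X) × Set X // s.1 ∈ F ∧ s.2 ∈ C s.1} :=
          fun k => Nat.rec ⟨(V, B), hV, hB⟩ (fun j sj => st (j + 1) sj) k
        have hs0 : s 0 = ⟨(V, B), hV, hB⟩ := rfl
        have hss : ∀ k, s (k + 1) = st (k + 1) (s k) := fun k => rfl
        let b : ℕ → Set X := fun k => (s k).1.2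
        have hbc : ∀ k, closure (b (k + 1)) ⊆ b k := fun k => by
          change closure (s (k + 1)).1.2 ⊆ (s k).1.2
          rw [hss]; exact hst1 _ _
        have hbn : ∀ k, k ≤ n (s k).1.1 := by
          intro k
          cases k with
          | zero => exact Nat.zero_le _
          | succ k => rw [hss]; exact hst2 _ _
        have hblev : ∀ k, b k ∈ lev 𝔅 (n (s k).1.1) := fun k =>
          (hCD _ (s k).2.1).mem _ (s k).2.2
        have hmono : ∀ i j, i ≤ j → b j ⊆ b i := by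
          intro i j hij
          induction j, hij using Nat.le_induction with
          | base => exact Subset.rfl
          | succ m hm ih => exact (subset_closure.trans (hbc m)).trans ih
        have hrfb : IsRegularFilterBase (range b) := by
          refine ⟨range_nonempty b, ?_, ?_, ?_⟩
          · rintro _ ⟨k, rfl⟩
            exact lev_ne (hblev k)
          · rintro _ ⟨i, rfl⟩ _ ⟨j, rfl⟩
            exact ⟨b (max i j), mem_range_self (max i j),
              subset_inter (hmono _ _ (le_max_left i j)) (hmono _ _ (le_max_right i j))⟩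
          · rintro _ ⟨k, rfl⟩
            exact ⟨b (k + 1), mem_range_self (k + 1), hbc k⟩
        obtain ⟨p, hp⟩ := hlim (range b) (by
          rintro _ ⟨k, rfl⟩
          exact lev_sub (hblev k)) hrfb
        have hpb : ∀ k, p ∈ b k := fun k => hp (b k) (mem_range_self k)
        refine ⟨p, hpb 0, ?_⟩
        intro V' hV'
        obtain ⟨W, hW, hWV⟩ := hFreg V' hV'
        have hpc : p ∈ closure (S (D W)) := by
          rw [Metric.mem_closure_iff]
          intro ε hε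
          obtain ⟨k, hk⟩ := exists_nat_one_div_lt hε
          obtain ⟨Z, hZ, hZsub⟩ := hFinf (s k).1.1 (s k).2.1 W hW
          obtain ⟨B'', hB'', hB''sub⟩ := f1 (s k).1.1 (s k).2.1 Z hZ
            (hZsub.trans inter_subset_left) (b k) (s k).2.2
          obtain ⟨z, hz⟩ := lev_ne ((hCD Z hZ).mem B'' hB'')
          refine ⟨z, f3 W hW Z hZ (hZsub.trans inter_subset_right) ((hCD Z hZ).sub B'' hB'' hz),
            ?_⟩
          have h5 := (hblev k).1.2.2 p (hpb k) z (hB''sub hz)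
          have h6 : 1 / ((n (s k).1.1 : ℝ) + 1) ≤ 1 / ((k : ℝ) + 1) := by
            apply one_div_le_one_div_of_le (by positivity)
            have : (k : ℝ) ≤ (n (s k).1.1 : ℝ) := by exact_mod_cast hbn k
            linarith
          linarith
        intro q hq
        have h7 := f4 V' hV' W hW hWV q hq
        rw [← infDist_closure] at h7
        exact h7.trans_le (infDist_le_dist_of_mem hpc)
      · -- bounded levels
        push Not at H
        obtain ⟨V1, hV1, N, hN⟩ := H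
        obtain ⟨V2, hV2, hV2sub⟩ := hFinf V hV V1 hV1
        obtain ⟨B2, hB2, hB2sub⟩ := f1 V hV V2 hV2 (hV2sub.trans inter_subset_left) B hB
        have hwf := wf_levs 𝔅 N
        rw [Set.wellFoundedOn_iff] at hwf
        obtain ⟨Z, ⟨hZB, V', hV', hV'sub, hZ⟩, hmin⟩ := hwf.has_min
          {Z : Set X | Z ⊆ B2 ∧ ∃ V' ∈ F, V' ⊆ V2 ∧ Z ∈ C V'}
          ⟨B2, Subset.rfl, V2, hV2, Subset.rfl, hB2⟩
        have hlevN : ∀ W ∈ F, W ⊆ V2 → ∀ Z' ∈ C W, Z' ∈ ⋃ m, ⋃ _ : m < N, lev 𝔅 m := by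
          intro W hW hWs Z' hZ'
          simp only [mem_iUnion, exists_prop]
          exact ⟨n W, hN W hW ((hWs.trans hV2sub).trans inter_subset_right),
            (hCD W hW).mem Z' hZ'⟩
        obtain ⟨p, hp⟩ := lev_ne ((hCD V' hV').mem Z hZ)
        refine ⟨p, hB2sub (hZB hp), ?_⟩
        intro V'' hV''
        obtain ⟨W, hW, hWsub⟩ := hFinf V' hV' V'' hV''
        obtain ⟨Z', hZ', hZ'sub⟩ := f1 V' hV' W hW (hWsub.trans inter_subset_left) Z hZ
        have hW2 : W ⊆ V2 := (hWsub.trans inter_subset_left).trans hV'sub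
        have heq : Z' = Z := by
          by_contra hne
          exact hmin Z' ⟨hZ'sub.trans hZB, W, hW, hW2, hZ'⟩
            ⟨lt_of_le_of_ne hZ'sub hne, hlevN W hW hW2 Z' hZ', hlevN V' hV' hV'sub Z hZ⟩
        rw [heq] at hZ'
        exact f3 V'' hV'' W hW (hWsub.trans inter_subset_right) ((hCD W hW).sub Z hZ' hp)
    set P : Set X := {p | ∀ V ∈ F, p ∈ S (D V)} with hP
    have hPne : P.Nonempty := by
      obtain ⟨V, hV⟩ := hFne
      obtain ⟨B, hB⟩ := (hCD V hV).neC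
      obtain ⟨p, _, hp⟩ := hpoint V hV B hB
      exact ⟨p, hp⟩
    refine ⟨⟨closure P, isClosed_closure, hPne.closure⟩, mem_sInter.2 fun V hV => ?_⟩
    rw [hVe V hV]
    constructor
    · intro B hB
      obtain ⟨p, hpB, hp⟩ := hpoint V hV B hB
      exact ⟨p, subset_closure hp, hpB⟩
    · intro p hp
      change p.2 < infDist p.1 (closure P)
      rw [infDist_closure]
      obtain ⟨W, hW, hWV⟩ := hFreg V hV
      refine (f4 V hV W hW hWV p hp).trans_le (infDist_le_infDist_of_subset ?_ hPne)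
      exact fun x hx => hx W hW

end Pool.Agent.H479R3.WijSub
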